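import Pool.Agent.Lib.MP_973905_nt.K3.Stmts
import Pool.Agent.Lib.MP_973905_nt.K1.LF

/-! The local factor with four shifts, module (5) of K3. -/

namespace Pool.Agent.Lib.MP_973905_nt
namespace K3

open MeasureTheory ProbabilityTheory Complex Filter Topology K1

namespace LF4aux

open K1.LFaux DDaux

/-- the analytic factor -/
noncomputable def A (a b z : ℂ) : ℂ := (1 - a * z)⁻¹ * (1 - b * z)⁻¹

lemma mul_lt {a z : ℂ} (ha : ‖a‖ ≤ 3 / 4) (hz : ‖z‖ < 5 / 4) : ‖a * z‖ < 1 := by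
  rw [norm_mul]
  calc ‖a‖ * ‖z‖ ≤ 3 / 4 * ‖z‖ := mul_le_mul_of_nonneg_right ha (norm_nonneg _)
    _ < 1 := by linarith

lemma ne0 {a z : ℂ} (ha : ‖a‖ ≤ 3 / 4) (hz : ‖z‖ < 5 / 4) : 1 - a * z ≠ 0 :=
  one_sub_ne (mul_lt ha hz)

lemma A_diff {a b : ℂ} (ha : ‖a‖ ≤ 3 / 4) (hb : ‖b‖ ≤ 3 / 4) {z : ℂ} (hz : ‖z‖ < 5 / 4) :
    DifferentiableAt ℂ (fun z => A a b z) z := by
  unfold A
  apply DifferentiableAt.mul
  · exact ((differentiableAt_const _).sub ((differentiableAt_const _).mul differentiableAt_id)).inv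
      (ne0 ha hz)
  · exact ((differentiableAt_const _).sub ((differentiableAt_const _).mul differentiableAt_id)).inv
      (ne0 hb hz)

lemma inv_le_four {w : ℂ} (hw : ‖w‖ ≤ 3 / 4) : ‖(1 - w)⁻¹‖ ≤ 4 := by
  have h1 : 1 / 4 ≤ ‖1 - w‖ := by
    have := norm_sub_norm_le (1 : ℂ) w
    rw [norm_one] at this
    linarith
  rw [norm_inv]
  rw [inv_le_comm₀ (by linarith) (by norm_num)]
  linarith

lemma norm_A_le {a b z : ℂ} (ha : ‖a‖ ≤ 3 / 4) (hb : ‖b‖ ≤ 3 / 4) (hz : ‖z‖ = 1) :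
    ‖A a b z‖ ≤ 16 := by
  unfold A
  rw [norm_mul]
  calc ‖(1 - a * z)⁻¹‖ * ‖(1 - b * z)⁻¹‖ ≤ 4 * 4 :=
        mul_le_mul (inv_le_four (by rw [norm_mul, hz, mul_one]; exact ha))
          (inv_le_four (by rw [norm_mul, hz, mul_one]; exact hb)) (norm_nonneg _) (by norm_num)
    _ = 16 := by norm_num

/-- analytic near the closed unit disc -/
def An (f : ℂ → ℂ) : Prop := ∀ z : ℂ, ‖z‖ < 5 / 4 → DifferentiableAt ℂ f z

lemma An.dcc {f : ℂ → ℂ} (h : An f) : DiffContOnCl ℂ f (Metric.ball 0 |(1 : ℝ)|) := by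
  apply DifferentiableOn.diffContOnCl
  intro z hz
  have hz' : ‖z‖ ≤ 1 := by
    have := Metric.closure_ball_subset_closedBall hz
    simpa using this
  exact (h z (by linarith)).differentiableWithinAt

lemma An.cont {f : ℂ → ℂ} (h : An f) : ContinuousOn f (Metric.sphere 0 |(1 : ℝ)|) := by
  intro z hz
  have hz' : ‖z‖ = 1 := by simpa using hz
  exact (h z (by linarith)).continuousAt.continuousWithinAt

lemma An.contc {f : ℂ → ℂ} (h : An f) :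
    ContinuousOn (fun z => f ((starRingEnd ℂ) z)) (Metric.sphere 0 |(1 : ℝ)|) := by
  intro z hz
  have hz' : ‖z‖ = 1 := by simpa using hz
  have h1 : ContinuousAt f ((starRingEnd ℂ) z) :=
    (h _ (by rw [RCLike.norm_conj]; linarith)).continuousAt
  exact (ContinuousAt.comp h1 Complex.continuous_conj.continuousAt).continuousWithinAt

lemma An.mul {f g : ℂ → ℂ} (hf : An f) (hg : An g) : An (fun z => f z * g z) :=
  fun z hz => (hf z hz).mul (hg z hz)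

lemma anA {a b : ℂ} (ha : ‖a‖ ≤ 3 / 4) (hb : ‖b‖ ≤ 3 / 4) : An (fun z => A a b z) :=
  fun _ hz => A_diff ha hb hz

lemma An.avg {f : ℂ → ℂ} (h : An f) : Real.circleAverage f 0 1 = f 0 := h.dcc.circleAverage

lemma An.avg_conj {f : ℂ → ℂ} (h : An f) (h0 : f 0 = 0) :
    Real.circleAverage (fun z => f z * (starRingEnd ℂ) z) 0 1 = deriv f 0 := by
  have hd : An (dslope f 0) := by
    have h1 : DifferentiableOn ℂ f (Metric.ball 0 (5 / 4)) := by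
      intro z hz
      exact (h z (by simpa using hz)).differentiableWithinAt
    have h2 : Metric.ball (0 : ℂ) (5 / 4) ∈ 𝓝 (0 : ℂ) := Metric.ball_mem_nhds _ (by norm_num)
    have h3 := (differentiableOn_dslope h2).2 h1
    intro z hz
    exact (h3 z (by simpa using hz)).differentiableAt
      (Metric.isOpen_ball.mem_nhds (by simpa using hz))
  rw [← dslope_same, ← hd.avg]
  apply Real.circleAverage_congr_sphere
  intro z hz
  have hz' : ‖z‖ = 1 := by simpa using hz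
  have hz0 : z ≠ 0 := by
    intro h0
    rw [h0, norm_zero] at hz'
    exact zero_ne_one hz'
  simp only
  rw [conj_eq_inv hz', dslope_of_ne _ hz0, slope_def_field, h0, sub_zero, sub_zero]
  rfl

lemma norm_avg_le {f : ℂ → ℂ} {M : ℝ} (h : ∀ z, ‖z‖ = 1 → ‖f z‖ ≤ M) :
    ‖Real.circleAverage f 0 1‖ ≤ M := by
  rw [Real.circleAverage]
  have h1 : ‖∫ θ in (0 : ℝ)..(2 * Real.pi), f (circleMap 0 1 θ)‖ ≤ M * |2 * Real.pi - 0| := by
    apply intervalIntegral.norm_integral_le_of_norm_le_const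
    intro θ _
    exact h _ (by simp)
  have hpi := Real.pi_pos
  rw [norm_smul, norm_inv, Real.norm_eq_abs, abs_of_pos (by positivity)]
  rw [sub_zero, abs_of_pos (by positivity)] at h1
  calc (2 * Real.pi)⁻¹ * ‖∫ θ in (0 : ℝ)..(2 * Real.pi), f (circleMap 0 1 θ)‖
      ≤ (2 * Real.pi)⁻¹ * (M * (2 * Real.pi)) := mul_le_mul_of_nonneg_left h1 (by positivity)
    _ = M := by field_simp

/-- two point formula -/
lemma two_point {F G : ℂ → ℂ} (hG : An G) {y₁ y₂ : ℂ} (h₁ : ‖y₁‖ ≤ 3 / 4) (h₂ : ‖y₂‖ ≤ 3 / 4)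
    (c : ℂ) (hFG : ∀ z : ℂ, ‖z‖ = 1 → z * F z = (z - y₁) * G z + c) :
    Real.circleAverage (fun z => F z * A y₁ y₂ ((starRingEnd ℂ) z)) 0 1 = G y₂ := by
  have e1 : Real.circleAverage (fun z => F z * A y₁ y₂ ((starRingEnd ℂ) z)) 0 1 =
      Real.circleAverage (fun z => ((z - 0) / (z - y₂)) • G z +
        c * A y₁ y₂ z⁻¹ * z⁻¹) 0 1 := by
    apply Real.circleAverage_congr_sphere
    intro z hz
    have hz' : ‖z‖ = 1 := by simpa using hz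
    have hz0 : z ≠ 0 := by
      intro h0
      rw [h0, norm_zero] at hz'
      exact zero_ne_one hz'
    have hsub : ∀ y : ℂ, ‖y‖ ≤ 3 / 4 → z - y ≠ 0 := by
      intro y hy h0
      have : z = y := by linear_combination h0
      rw [this] at hz'
      linarith
    have n1 := hsub y₁ h₁
    have n2 := hsub y₂ h₂
    have hinv : ∀ y : ℂ, z - y ≠ 0 → (1 - y * z⁻¹)⁻¹ = z / (z - y) := by
      intro y hy
      have : 1 - y * z⁻¹ = (z - y) / z := by field_simp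
      rw [this, inv_div]
    have h3 := hFG z hz'
    have h4 : F z = ((z - y₁) * G z + c) / z := by
      rw [← h3]
      field_simp
    simp only [smul_eq_mul, sub_zero]
    rw [conj_eq_inv hz']
    unfold A
    rw [hinv _ n1, hinv _ n2, h4]
    field_simp
  have c1 : ContinuousOn (fun z : ℂ => ((z - 0) / (z - y₂)) • G z) (Metric.sphere 0 |(1 : ℝ)|) := by
    simp only [smul_eq_mul, sub_zero]
    apply ContinuousOn.mul _ hG.cont
    apply ContinuousOn.div continuousOn_id (by fun_prop)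
    intro z hz h0
    have hz' : ‖z‖ = 1 := by simpa using hz
    have : z = y₂ := by linear_combination h0
    rw [this] at hz'
    linarith
  have hA0 : An (fun z => c * A y₁ y₂ z * z) := fun z hz =>
    ((differentiableAt_const _).mul (A_diff h₁ h₂ hz)).mul differentiableAt_id
  have e2 : ∀ z : ℂ, ‖z‖ = 1 → c * A y₁ y₂ z⁻¹ * z⁻¹ =
      (fun z => c * A y₁ y₂ z * z) ((starRingEnd ℂ) z) := by
    intro z hz
    simp only
    rw [conj_eq_inv hz]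
  have c2 : ContinuousOn (fun z : ℂ => c * A y₁ y₂ z⁻¹ * z⁻¹) (Metric.sphere 0 |(1 : ℝ)|) := by
    refine hA0.contc.congr ?_
    intro z hz
    exact e2 z (by simpa using hz)
  have e3 : Real.circleAverage (fun z : ℂ => c * A y₁ y₂ z⁻¹ * z⁻¹) 0 1 = 0 := by
    have h5 := Real.circleAverage_zero_one_congr_inv (f := fun z => c * A y₁ y₂ z * z)
    rw [h5, hA0.avg, mul_zero]
  rw [e1, Real.circleAverage_fun_add c1.circleIntegrable' c2.circleIntegrable', e3, add_zero]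
  exact hG.dcc.circleAverage_smul_div (by simpa using lt_of_le_of_lt h₂ (by norm_num))

lemma avg_swap (Φ : ℂ → ℂ → ℂ) :
    Real.circleAverage (fun z => Φ z ((starRingEnd ℂ) z)) 0 1 =
      Real.circleAverage (fun z => Φ ((starRingEnd ℂ) z) z) 0 1 := by
  rw [← Real.circleAverage_zero_one_congr_inv]
  apply Real.circleAverage_congr_sphere
  intro z hz
  have hz' : ‖z‖ = 1 := by simpa using hz
  have hzi : ‖z⁻¹‖ = 1 := by rw [norm_inv, hz', inv_one]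
  simp only
  rw [conj_eq_inv hz', conj_eq_inv hzi, inv_inv]

/-- the product over the pairs -/
noncomputable def P (x₁ x₂ y₁ y₂ : ℂ) : ℂ :=
  (1 - x₁ * y₁) * (1 - x₁ * y₂) * (1 - x₂ * y₁) * (1 - x₂ * y₂)

lemma A_mul {a b z : ℂ} (ha : ‖a‖ ≤ 3 / 4) (hb : ‖b‖ ≤ 3 / 4) (hz : ‖z‖ < 5 / 4) :
    A a b z * ((1 - a * z) * (1 - b * z)) = 1 := by
  unfold A
  have h1 := inv_mul_cancel₀ (ne0 ha hz)
  have h2 := inv_mul_cancel₀ (ne0 hb hz)
  linear_combination ((1 - b * z)⁻¹ * (1 - b * z)) * h1 + h2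

section
variable {x₁ x₂ y₁ y₂ : ℂ} (h₁ : ‖x₁‖ ≤ 3 / 4) (h₂ : ‖x₂‖ ≤ 3 / 4) (h₃ : ‖y₁‖ ≤ 3 / 4)
  (h₄ : ‖y₂‖ ≤ 3 / 4)
include h₁ h₂ h₃ h₄

lemma M0 : P x₁ x₂ y₁ y₂ *
    Real.circleAverage (fun z => A x₁ x₂ z * A y₁ y₂ ((starRingEnd ℂ) z)) 0 1 =
      1 - x₁ * x₂ * y₁ * y₂ := by
  have hG : An (fun z => (1 - x₁ * x₂ * y₁ * z) * A x₁ x₂ z * A x₁ x₂ y₁) := by
    intro z hz
    have := A_diff h₁ h₂ hz
    fun_prop
  have h := two_point (F := fun z => A x₁ x₂ z) hG h₃ h₄ (y₁ * A x₁ x₂ y₁) (by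
    intro z hz
    have hA := A_mul h₁ h₂ (z := z) (by linarith)
    have hB := A_mul h₁ h₂ (z := y₁) (by linarith)
    linear_combination (-(z * A x₁ x₂ z)) * hB + (y₁ * A x₁ x₂ y₁) * hA)
  rw [h]
  have hA := A_mul h₁ h₂ (z := y₂) (by linarith)
  have hB := A_mul h₁ h₂ (z := y₁) (by linarith)
  unfold P
  linear_combination (1 - x₁ * x₂ * y₁ * y₂) *
    (A x₁ x₂ y₁ * ((1 - x₁ * y₁) * (1 - x₂ * y₁)) * hA + hB)

lemma M1 : P x₁ x₂ y₁ y₂ *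
    Real.circleAverage (fun z => A x₁ x₂ z * z * A y₁ y₂ ((starRingEnd ℂ) z)) 0 1 =
      y₁ + y₂ - (x₁ + x₂) * (y₁ * y₂) := by
  have hG : An (fun z => (z + y₁ - (x₁ + x₂) * y₁ * z) * A x₁ x₂ z * A x₁ x₂ y₁) := by
    intro z hz
    have := A_diff h₁ h₂ hz
    fun_prop
  have h := two_point (F := fun z => A x₁ x₂ z * z) hG h₃ h₄ (y₁ ^ 2 * A x₁ x₂ y₁) (by
    intro z hz
    have hA := A_mul h₁ h₂ (z := z) (by linarith)
    have hB := A_mul h₁ h₂ (z := y₁) (by linarith)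
    linear_combination (-(z ^ 2 * A x₁ x₂ z)) * hB + (y₁ ^ 2 * A x₁ x₂ y₁) * hA)
  rw [h]
  have hA := A_mul h₁ h₂ (z := y₂) (by linarith)
  have hB := A_mul h₁ h₂ (z := y₁) (by linarith)
  unfold P
  linear_combination (y₂ + y₁ - (x₁ + x₂) * y₁ * y₂) *
    (A x₁ x₂ y₁ * ((1 - x₁ * y₁) * (1 - x₂ * y₁)) * hA + hB)

lemma M1' : P x₁ x₂ y₁ y₂ *
    Real.circleAverage (fun z => A x₁ x₂ z * (starRingEnd ℂ) z * A y₁ y₂ ((starRingEnd ℂ) z)) 0 1 =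
      x₁ + x₂ - (y₁ + y₂) * (x₁ * x₂) := by
  have h := M1 h₃ h₄ h₁ h₂
  rw [avg_swap (fun z w => A x₁ x₂ z * w * A y₁ y₂ w)]
  have e : (fun z : ℂ => A x₁ x₂ ((starRingEnd ℂ) z) * z * A y₁ y₂ z) =
      fun z => A y₁ y₂ z * z * A x₁ x₂ ((starRingEnd ℂ) z) := by
    funext z
    ring
  rw [e, ← h]
  unfold P
  ring
end

/-- the remainder of the binomial series -/
noncomputable def E (u x : ℝ) (z : ℂ) : ℂ := (1 - x * z) ^ (u : ℂ) - 1 + u * x * z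

lemma slit {x : ℝ} (hx0 : 0 ≤ x) (hx1 : x ≤ 3 / 4) {z : ℂ} (hz : ‖z‖ < 5 / 4) :
    1 - (x : ℂ) * z ∈ Complex.slitPlane := by
  left
  have h1 : ‖(x : ℂ) * z‖ < 1 := mul_lt (by
    rw [norm_real, Real.norm_eq_abs, abs_of_nonneg hx0]; exact hx1) hz
  have h2 := (Complex.abs_re_le_norm ((x : ℂ) * z))
  have h3 := le_abs_self ((x : ℂ) * z).re
  rw [Complex.sub_re, Complex.one_re]
  linarith

lemma anE {u x : ℝ} (hx0 : 0 ≤ x) (hx1 : x ≤ 3 / 4) : An (E u x) := by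
  intro z hz
  unfold E
  have h1 : DifferentiableAt ℂ (fun z : ℂ => 1 - (x : ℂ) * z) z := by fun_prop
  have h2 : DifferentiableAt ℂ (fun z : ℂ => (1 - (x : ℂ) * z) ^ (u : ℂ)) z :=
    h1.cpow (differentiableAt_const _) (slit hx0 hx1 hz)
  exact (h2.sub (differentiableAt_const _)).add (by fun_prop)

lemma E_zero (u x : ℝ) : E u x 0 = 0 := by
  simp [E]

lemma hasDerivAt_E {u x : ℝ} (hx0 : 0 ≤ x) (hx1 : x ≤ 3 / 4) : HasDerivAt (E u x) 0 0 := by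
  unfold E
  have h1 : HasDerivAt (fun z : ℂ => 1 - (x : ℂ) * z) (-(x : ℂ)) 0 := by
    have := ((hasDerivAt_id (0 : ℂ)).const_mul (x : ℂ)).const_sub 1
    simpa using this
  have h2 := h1.cpow_const (c := (u : ℂ)) (slit hx0 hx1 (z := 0) (by
    rw [norm_zero]; norm_num))
  have h3 := (hasDerivAt_id (0 : ℂ)).const_mul ((u : ℂ) * x)
  have h4 := (h2.sub_const 1).add h3
  have h5 : (u : ℂ) * (1 - (x : ℂ) * 0) ^ ((u : ℂ) - 1) * -(x : ℂ) + (u : ℂ) * x * 1 = 0 := by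
    rw [mul_zero, sub_zero, Complex.one_cpow]
    ring
  exact h4.congr_deriv h5

lemma cf_le {u : ℝ} (hu : |u| ≤ 1 / 10) (a : ℕ) : |cf (-u) (a + 1)| ≤ |u| := by
  induction a with
  | zero => rw [zero_add, cf_one, abs_neg]
  | succ a ih =>
    rw [cf_succ, abs_mul]
    have h2 : |(-u + ((a + 1 : ℕ) : ℝ)) / (((a + 1 : ℕ) : ℝ) + 1)| ≤ 1 := by
      have h3 : (0 : ℝ) ≤ (a : ℝ) := Nat.cast_nonneg a
      obtain ⟨h5, h6⟩ := abs_le.1 hu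
      rw [abs_div, abs_of_nonneg (by push_cast; linarith : (0 : ℝ) ≤ -u + ((a + 1 : ℕ) : ℝ)),
        abs_of_pos (by positivity : (0 : ℝ) < ((a + 1 : ℕ) : ℝ) + 1), div_le_one (by positivity)]
      linarith
    calc |cf (-u) (a + 1)| * |(-u + ((a + 1 : ℕ) : ℝ)) / (((a + 1 : ℕ) : ℝ) + 1)|
        ≤ |cf (-u) (a + 1)| * 1 := mul_le_mul_of_nonneg_left h2 (abs_nonneg _)
      _ ≤ |u| := by rw [mul_one]; exact ih

lemma E_bound {u x : ℝ} (hu : |u| ≤ 1 / 10) (hx0 : 0 ≤ x) (hx1 : x ≤ 3 / 4) {z : ℂ}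
    (hz : ‖z‖ = 1) : ‖E u x z‖ ≤ 4 * |u| * x ^ 2 := by
  have hnw : ‖(x : ℂ) * z‖ = x := by
    rw [norm_mul, hz, mul_one, norm_real, Real.norm_eq_abs, abs_of_nonneg hx0]
  have hw : ‖(x : ℂ) * z‖ < 1 := by rw [hnw]; linarith
  have h1 : HasSum (fun a : ℕ => (cf (-u) a : ℂ) * ((x : ℂ) * z) ^ a)
      ((1 - (x : ℂ) * z) ^ (u : ℂ)) := by
    have h := hasSum_cpow (-u) hw
    have e1 : 1 / (1 - (x : ℂ) * z) ^ ((-u : ℝ) : ℂ) = (1 - (x : ℂ) * z) ^ (u : ℂ) := by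
      push_cast
      rw [Complex.cpow_neg, one_div, inv_inv]
    rwa [e1] at h
  have h2 := (hasSum_nat_add_iff' 2).2 h1
  have e2 : (1 - (x : ℂ) * z) ^ (u : ℂ) - ∑ i ∈ Finset.range 2, (cf (-u) i : ℂ) * ((x : ℂ) * z) ^ i =
      E u x z := by
    rw [Finset.sum_range_succ, Finset.sum_range_one, cf_zero, cf_one]
    unfold E
    push_cast
    ring
  rw [e2] at h2
  have hg : HasSum (fun a : ℕ => |u| * x ^ 2 * (3 / 4 : ℝ) ^ a) (|u| * x ^ 2 * 4) := by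
    have := hasSum_geometric_of_lt_one (r := (3 / 4 : ℝ)) (by norm_num) (by norm_num)
    norm_num at this
    exact this.mul_left _
  rw [← h2.tsum_eq]
  have h3 := tsum_of_norm_bounded (f := fun a : ℕ => (cf (-u) (a + 2) : ℂ) *
    ((x : ℂ) * z) ^ (a + 2)) hg (by
    intro a
    rw [norm_mul, norm_pow, hnw, norm_real, Real.norm_eq_abs, pow_add]
    have h5 : x ^ a ≤ (3 / 4 : ℝ) ^ a := pow_le_pow_left₀ hx0 hx1 a
    calc |cf (-u) (a + 2)| * (x ^ a * x ^ 2) ≤ |u| * (x ^ a * x ^ 2) :=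
          mul_le_mul_of_nonneg_right (cf_le hu (a + 1)) (by positivity)
      _ = |u| * x ^ 2 * x ^ a := by ring
      _ ≤ _ := mul_le_mul_of_nonneg_left h5 (by positivity))
  refine h3.trans (le_of_eq ?_)
  ring

lemma R_bound {u x : ℝ} {y₁ y₂ w : ℂ} (hu : |u| ≤ 1 / 10) (hx0 : 0 ≤ x)
    (h₁ : ‖y₁‖ ≤ 3 / 4) (h₂ : ‖y₂‖ ≤ 3 / 4) (h₁' : ‖y₁‖ ≤ 2 * x) (h₂' : ‖y₂‖ ≤ 2 * x)
    (hw : ‖w‖ = 1) :
    ‖A y₁ y₂ w * (1 - u * x * w) - 1 - (y₁ + y₂ - u * x) * w‖ ≤ 425 * x ^ 2 := by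
  have hB := A_mul h₁ h₂ (z := w) (by linarith)
  have hBn := norm_A_le h₁ h₂ hw
  obtain ⟨B, hBdef⟩ : ∃ B, B = A y₁ y₂ w := ⟨_, rfl⟩
  rw [← hBdef] at hB hBn ⊢
  have e1 : B - 1 = B * ((y₁ + y₂) * w - y₁ * y₂ * w ^ 2) := by
    linear_combination hB
  have n1 : ‖y₁ + y₂‖ ≤ 4 * x := (norm_add_le _ _).trans (by linarith)
  have n2 : ‖y₁ * y₂‖ ≤ 4 * x ^ 2 := by
    rw [norm_mul]
    calc ‖y₁‖ * ‖y₂‖ ≤ (2 * x) * (2 * x) := mul_le_mul h₁' h₂' (norm_nonneg _) (by linarith)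
      _ = 4 * x ^ 2 := by ring
  have n3 : ‖y₁ * y₂‖ ≤ 3 / 2 * x := by
    rw [norm_mul]
    calc ‖y₁‖ * ‖y₂‖ ≤ (3 / 4) * (2 * x) := mul_le_mul h₁ h₂' (norm_nonneg _) (by norm_num)
      _ = 3 / 2 * x := by ring
  have n4 : ‖(y₁ + y₂) * w - y₁ * y₂ * w ^ 2‖ ≤ 11 / 2 * x := by
    refine (norm_sub_le _ _).trans ?_
    rw [norm_mul, norm_mul _ (w ^ 2), norm_pow, hw]
    linarith
  have n5 : ‖B - 1‖ ≤ 88 * x := by
    rw [e1, norm_mul]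
    calc ‖B‖ * ‖(y₁ + y₂) * w - y₁ * y₂ * w ^ 2‖ ≤ 16 * (11 / 2 * x) :=
          mul_le_mul hBn n4 (norm_nonneg _) (by norm_num)
      _ = 88 * x := by ring
  have e2 : B * (1 - u * x * w) - 1 - (y₁ + y₂ - u * x) * w =
      (y₁ + y₂) * w * (B - 1) - B * (y₁ * y₂) * w ^ 2 - u * x * w * (B - 1) := by
    linear_combination hB
  rw [e2]
  have n6 : ‖(y₁ + y₂) * w * (B - 1)‖ ≤ 4 * x * (88 * x) := by
    rw [norm_mul, norm_mul, hw, mul_one]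
    exact mul_le_mul n1 n5 (norm_nonneg _) (by linarith)
  have n7 : ‖B * (y₁ * y₂) * w ^ 2‖ ≤ 16 * (4 * x ^ 2) := by
    rw [norm_mul, norm_mul, norm_pow, hw, one_pow, mul_one]
    exact mul_le_mul hBn n2 (norm_nonneg _) (by norm_num)
  have n8 : ‖(u : ℂ) * x * w * (B - 1)‖ ≤ 1 / 10 * x * (88 * x) := by
    rw [norm_mul, norm_mul, norm_mul, hw, mul_one, norm_real, norm_real, Real.norm_eq_abs,
      Real.norm_eq_abs, abs_of_nonneg hx0]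
    exact mul_le_mul (mul_le_mul_of_nonneg_right hu hx0) n5 (norm_nonneg _) (by positivity)
  calc ‖(y₁ + y₂) * w * (B - 1) - B * (y₁ * y₂) * w ^ 2 - u * x * w * (B - 1)‖
      ≤ ‖(y₁ + y₂) * w * (B - 1)‖ + ‖B * (y₁ * y₂) * w ^ 2‖ + ‖(u : ℂ) * x * w * (B - 1)‖ :=
        (norm_sub_le _ _).trans (add_le_add (norm_sub_le _ _) le_rfl)
    _ ≤ 4 * x * (88 * x) + 16 * (4 * x ^ 2) + 1 / 10 * x * (88 * x) :=
        add_le_add (add_le_add n6 n7) n8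
    _ ≤ _ := by nlinarith [sq_nonneg x]

lemma avg_lin {f₀ f₁ f₂ f₃ f₄ f₅ : ℂ → ℂ} {a b : ℂ}
    (k₀ : ContinuousOn f₀ (Metric.sphere 0 |(1 : ℝ)|))
    (k₁ : ContinuousOn f₁ (Metric.sphere 0 |(1 : ℝ)|))
    (k₂ : ContinuousOn f₂ (Metric.sphere 0 |(1 : ℝ)|))
    (k₃ : ContinuousOn f₃ (Metric.sphere 0 |(1 : ℝ)|))
    (k₄ : ContinuousOn f₄ (Metric.sphere 0 |(1 : ℝ)|))
    (k₅ : ContinuousOn f₅ (Metric.sphere 0 |(1 : ℝ)|)) :
    Real.circleAverage (fun z => a • f₀ z + b • f₁ z + b • f₂ z + f₃ z + f₄ z + f₅ z) 0 1 =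
      a * Real.circleAverage f₀ 0 1 + b * Real.circleAverage f₁ 0 1 +
        b * Real.circleAverage f₂ 0 1 + Real.circleAverage f₃ 0 1 + Real.circleAverage f₄ 0 1 +
        Real.circleAverage f₅ 0 1 := by
  have m0 : ContinuousOn (fun z => a • f₀ z) (Metric.sphere 0 |(1 : ℝ)|) := k₀.const_smul a
  have m1 : ContinuousOn (fun z => b • f₁ z) (Metric.sphere 0 |(1 : ℝ)|) := k₁.const_smul b
  have m2 : ContinuousOn (fun z => b • f₂ z) (Metric.sphere 0 |(1 : ℝ)|) := k₂.const_smul b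
  have s1 : ContinuousOn (fun z => a • f₀ z + b • f₁ z) (Metric.sphere 0 |(1 : ℝ)|) := m0.add m1
  have s2 : ContinuousOn (fun z => a • f₀ z + b • f₁ z + b • f₂ z)
    (Metric.sphere 0 |(1 : ℝ)|) := s1.add m2
  have s3 : ContinuousOn (fun z => a • f₀ z + b • f₁ z + b • f₂ z + f₃ z)
    (Metric.sphere 0 |(1 : ℝ)|) := s2.add k₃
  have s4 : ContinuousOn (fun z => a • f₀ z + b • f₁ z + b • f₂ z + f₃ z + f₄ z)
    (Metric.sphere 0 |(1 : ℝ)|) := s3.add k₄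
  rw [Real.circleAverage_fun_add s4.circleIntegrable' k₅.circleIntegrable',
    Real.circleAverage_fun_add s3.circleIntegrable' k₄.circleIntegrable',
    Real.circleAverage_fun_add s2.circleIntegrable' k₃.circleIntegrable',
    Real.circleAverage_fun_add s1.circleIntegrable' m2.circleIntegrable',
    Real.circleAverage_fun_add m0.circleIntegrable' m1.circleIntegrable',
    Real.circleAverage_fun_smul, Real.circleAverage_fun_smul, Real.circleAverage_fun_smul]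
  simp only [smul_eq_mul]

section
variable {x₁ x₂ y₁ y₂ : ℂ} {u x : ℝ} (h₁ : ‖x₁‖ ≤ 3 / 4) (h₂ : ‖x₂‖ ≤ 3 / 4) (h₃ : ‖y₁‖ ≤ 3 / 4)
  (h₄ : ‖y₂‖ ≤ 3 / 4) (hu : |u| ≤ 1 / 10) (hx0 : 0 ≤ x) (hx1 : x ≤ 3 / 4)
include h₁ h₂ h₃ h₄ hu hx0 hx1

lemma T1_bound (h₃' : ‖y₁‖ ≤ 2 * x) (h₄' : ‖y₂‖ ≤ 2 * x) :
    ‖Real.circleAverage (fun z => A x₁ x₂ z * A y₁ y₂ ((starRingEnd ℂ) z) *
      (E u x z * (1 - u * x * (starRingEnd ℂ) z))) 0 1‖ ≤ 27200 * |u| * x ^ 4 := by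
  have hA := anA h₁ h₂
  have hE := anE (u := u) hx0 hx1
  have hf : An (fun z => A x₁ x₂ z * E u x z) := hA.mul hE
  have hf0 : A x₁ x₂ 0 * E u x 0 = 0 := by rw [E_zero, mul_zero]
  have hd : deriv (fun z => A x₁ x₂ z * E u x z) 0 = 0 := by
    have h5 := ((hA 0 (by rw [norm_zero]; norm_num)).hasDerivAt).mul (hasDerivAt_E (u := u) hx0 hx1)
    have h6 := h5.deriv
    have e : ((fun z => A x₁ x₂ z) * E u x) = fun z => A x₁ x₂ z * E u x z := rfl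
    rw [e] at h6
    rw [h6, E_zero]
    ring
  have a1 := hf.avg
  have a2 := hf.avg_conj hf0
  rw [hd] at a2
  rw [hf0] at a1
  have hR : An (fun w => A y₁ y₂ w * (1 - u * x * w) - 1 - (y₁ + y₂ - u * x) * w) := by
    intro z hz
    have := A_diff h₃ h₄ hz
    fun_prop
  have e1 : (fun z => A x₁ x₂ z * A y₁ y₂ ((starRingEnd ℂ) z) *
      (E u x z * (1 - u * x * (starRingEnd ℂ) z))) =
      fun z => (A x₁ x₂ z * E u x z + (y₁ + y₂ - u * x) •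
        (A x₁ x₂ z * E u x z * (starRingEnd ℂ) z)) +
        A x₁ x₂ z * E u x z * (A y₁ y₂ ((starRingEnd ℂ) z) * (1 - u * x * (starRingEnd ℂ) z) - 1 -
          (y₁ + y₂ - u * x) * (starRingEnd ℂ) z) := by
    funext z
    simp only [smul_eq_mul]
    ring
  have c0 : ContinuousOn (fun z : ℂ => (starRingEnd ℂ) z) (Metric.sphere 0 |(1 : ℝ)|) :=
    Complex.continuous_conj.continuousOn
  have c1 : ContinuousOn (fun z : ℂ => (y₁ + y₂ - u * x) •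
        (A x₁ x₂ z * E u x z * (starRingEnd ℂ) z)) (Metric.sphere 0 |(1 : ℝ)|) :=
    (hf.cont.mul c0).const_smul (y₁ + y₂ - (u : ℂ) * x)
  have c2 : ContinuousOn (fun z : ℂ =>
        A x₁ x₂ z * E u x z * (A y₁ y₂ ((starRingEnd ℂ) z) * (1 - u * x * (starRingEnd ℂ) z) - 1 -
          (y₁ + y₂ - u * x) * (starRingEnd ℂ) z)) (Metric.sphere 0 |(1 : ℝ)|) :=
    hf.cont.mul hR.contc
  have c01 : ContinuousOn (fun z : ℂ => A x₁ x₂ z * E u x z + (y₁ + y₂ - u * x) •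
        (A x₁ x₂ z * E u x z * (starRingEnd ℂ) z)) (Metric.sphere 0 |(1 : ℝ)|) :=
    hf.cont.add c1
  rw [e1, Real.circleAverage_fun_add c01.circleIntegrable' c2.circleIntegrable',
    Real.circleAverage_fun_add hf.cont.circleIntegrable' c1.circleIntegrable',
    Real.circleAverage_fun_smul, a1, a2, smul_zero, add_zero, zero_add]
  apply norm_avg_le
  intro z hz
  have b1 := norm_A_le h₁ h₂ hz
  have b2 := E_bound hu hx0 hx1 hz
  have b3 := R_bound hu hx0 h₃ h₄ h₃' h₄' (w := (starRingEnd ℂ) z) (by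
    rw [RCLike.norm_conj, hz])
  rw [norm_mul, norm_mul]
  calc ‖A x₁ x₂ z‖ * ‖E u x z‖ * _ ≤ (16 * (4 * |u| * x ^ 2)) * (425 * x ^ 2) :=
        mul_le_mul (mul_le_mul b1 b2 (norm_nonneg _) (by norm_num)) b3 (norm_nonneg _)
          (by positivity)
    _ = _ := by ring

lemma T2_bound (h₁' : ‖x₁‖ ≤ 2 * x) (h₂' : ‖x₂‖ ≤ 2 * x) :
    ‖Real.circleAverage (fun z => A x₁ x₂ z * A y₁ y₂ ((starRingEnd ℂ) z) *
      (E u x ((starRingEnd ℂ) z) * (1 - u * x * z))) 0 1‖ ≤ 27200 * |u| * x ^ 4 := by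
  have h := T1_bound h₃ h₄ h₁ h₂ hu hx0 hx1 h₁' h₂'
  rw [avg_swap (fun z w => A x₁ x₂ z * A y₁ y₂ w * (E u x w * (1 - u * x * z)))]
  have e : (fun z : ℂ => A x₁ x₂ ((starRingEnd ℂ) z) * A y₁ y₂ z *
      (E u x z * (1 - u * x * ((starRingEnd ℂ) z)))) =
      fun z => A y₁ y₂ z * A x₁ x₂ ((starRingEnd ℂ) z) *
      (E u x z * (1 - u * x * ((starRingEnd ℂ) z))) := by
    funext z
    ring
  rw [e]
  exact h

lemma T3_bound :
    ‖Real.circleAverage (fun z => A x₁ x₂ z * A y₁ y₂ ((starRingEnd ℂ) z) *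
      (E u x z * E u x ((starRingEnd ℂ) z))) 0 1‖ ≤ 410 * |u| * x ^ 4 := by
  apply norm_avg_le
  intro z hz
  have hz' : ‖(starRingEnd ℂ) z‖ = 1 := by rw [RCLike.norm_conj, hz]
  have b1 := norm_A_le h₁ h₂ hz
  have b1' := norm_A_le h₃ h₄ hz'
  have b2 := E_bound hu hx0 hx1 hz
  have b2' := E_bound hu hx0 hx1 hz'
  rw [norm_mul, norm_mul, norm_mul]
  calc ‖A x₁ x₂ z‖ * ‖A y₁ y₂ ((starRingEnd ℂ) z)‖ * (‖E u x z‖ * ‖E u x ((starRingEnd ℂ) z)‖)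
      ≤ (16 * 16) * ((4 * |u| * x ^ 2) * (4 * |u| * x ^ 2)) :=
        mul_le_mul (mul_le_mul b1 b1' (norm_nonneg _) (by norm_num))
          (mul_le_mul b2 b2' (norm_nonneg _) (by positivity)) (by positivity) (by norm_num)
    _ = 4096 * |u| * (|u| * x ^ 4) := by ring
    _ ≤ 4096 * |u| * (1 / 10 * x ^ 4) := by
        apply mul_le_mul_of_nonneg_left _ (by positivity)
        exact mul_le_mul_of_nonneg_right hu (by positivity)
    _ ≤ _ := by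
        have : 0 ≤ |u| * x ^ 4 := by positivity
        nlinarith

omit hu in
/-- decomposition of the local factor -/
lemma LF4_eq : LF4 u x x₁ x₂ y₁ y₂ =
    (1 + u ^ 2 * x ^ 2) *
        Real.circleAverage (fun z => A x₁ x₂ z * A y₁ y₂ ((starRingEnd ℂ) z)) 0 1 -
      u * x * (Real.circleAverage (fun z => A x₁ x₂ z * z * A y₁ y₂ ((starRingEnd ℂ) z)) 0 1 +
        Real.circleAverage
          (fun z => A x₁ x₂ z * (starRingEnd ℂ) z * A y₁ y₂ ((starRingEnd ℂ) z)) 0 1) +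
      (Real.circleAverage (fun z => A x₁ x₂ z * A y₁ y₂ ((starRingEnd ℂ) z) *
          (E u x z * (1 - u * x * (starRingEnd ℂ) z))) 0 1 +
        Real.circleAverage (fun z => A x₁ x₂ z * A y₁ y₂ ((starRingEnd ℂ) z) *
          (E u x ((starRingEnd ℂ) z) * (1 - u * x * z))) 0 1 +
        Real.circleAverage (fun z => A x₁ x₂ z * A y₁ y₂ ((starRingEnd ℂ) z) *
          (E u x z * E u x ((starRingEnd ℂ) z))) 0 1) := by
  have cA := (anA h₁ h₂).cont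
  have cB := (anA h₃ h₄).contc
  have cE := (anE (u := u) hx0 hx1).cont
  have cE' := (anE (u := u) hx0 hx1).contc
  have cz : ContinuousOn (fun z : ℂ => z) (Metric.sphere 0 |(1 : ℝ)|) := continuousOn_id
  have cz' : ContinuousOn (fun z : ℂ => (starRingEnd ℂ) z) (Metric.sphere 0 |(1 : ℝ)|) :=
    Complex.continuous_conj.continuousOn
  have k0 : ContinuousOn (fun z => A x₁ x₂ z * A y₁ y₂ ((starRingEnd ℂ) z))
      (Metric.sphere 0 |(1 : ℝ)|) := cA.mul cB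
  have k1 : ContinuousOn (fun z => A x₁ x₂ z * z * A y₁ y₂ ((starRingEnd ℂ) z))
      (Metric.sphere 0 |(1 : ℝ)|) := (cA.mul cz).mul cB
  have k1' : ContinuousOn (fun z => A x₁ x₂ z * (starRingEnd ℂ) z * A y₁ y₂ ((starRingEnd ℂ) z))
      (Metric.sphere 0 |(1 : ℝ)|) := (cA.mul cz').mul cB
  have l2 : ContinuousOn (fun z : ℂ => 1 - (u : ℂ) * x * (starRingEnd ℂ) z)
      (Metric.sphere 0 |(1 : ℝ)|) :=
    continuousOn_const.sub ((continuousOn_const (c := (u : ℂ) * x)).mul cz')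
  have l3 : ContinuousOn (fun z : ℂ => 1 - (u : ℂ) * x * z)
      (Metric.sphere 0 |(1 : ℝ)|) :=
    continuousOn_const.sub ((continuousOn_const (c := (u : ℂ) * x)).mul cz)
  have k2 : ContinuousOn (fun z => A x₁ x₂ z * A y₁ y₂ ((starRingEnd ℂ) z) *
      (E u x z * (1 - u * x * (starRingEnd ℂ) z))) (Metric.sphere 0 |(1 : ℝ)|) :=
    k0.mul (cE.mul l2)
  have k3 : ContinuousOn (fun z => A x₁ x₂ z * A y₁ y₂ ((starRingEnd ℂ) z) *
      (E u x ((starRingEnd ℂ) z) * (1 - u * x * z))) (Metric.sphere 0 |(1 : ℝ)|) :=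
    k0.mul (cE'.mul l3)
  have k4 : ContinuousOn (fun z => A x₁ x₂ z * A y₁ y₂ ((starRingEnd ℂ) z) *
      (E u x z * E u x ((starRingEnd ℂ) z))) (Metric.sphere 0 |(1 : ℝ)|) :=
    k0.mul (cE.mul cE')
  have e : LF4 u x x₁ x₂ y₁ y₂ = Real.circleAverage (fun z =>
      ((1 : ℂ) + u ^ 2 * x ^ 2) • (A x₁ x₂ z * A y₁ y₂ ((starRingEnd ℂ) z)) +
      (-((u : ℂ) * x)) • (A x₁ x₂ z * z * A y₁ y₂ ((starRingEnd ℂ) z)) +
      (-((u : ℂ) * x)) • (A x₁ x₂ z * (starRingEnd ℂ) z * A y₁ y₂ ((starRingEnd ℂ) z)) +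
      A x₁ x₂ z * A y₁ y₂ ((starRingEnd ℂ) z) * (E u x z * (1 - u * x * (starRingEnd ℂ) z)) +
      A x₁ x₂ z * A y₁ y₂ ((starRingEnd ℂ) z) * (E u x ((starRingEnd ℂ) z) * (1 - u * x * z)) +
      A x₁ x₂ z * A y₁ y₂ ((starRingEnd ℂ) z) * (E u x z * E u x ((starRingEnd ℂ) z))) 0 1 := by
    unfold LF4
    apply Real.circleAverage_congr_sphere
    intro z hz
    have hz' : ‖z‖ = 1 := by simpa using hz
    have hzz : z * (starRingEnd ℂ) z = 1 := by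
      rw [Complex.mul_conj, Complex.normSq_eq_norm_sq, hz']
      norm_num
    have hsl := slit hx0 hx1 (z := z) (by linarith)
    have hc : (starRingEnd ℂ) ((1 - (x : ℂ) * z) ^ (u : ℂ)) =
        (1 - (x : ℂ) * (starRingEnd ℂ) z) ^ (u : ℂ) := by
      have h5 := Complex.conj_cpow (1 - (x : ℂ) * z) (u : ℂ) (Complex.slitPlane_arg_ne_pi hsl)
      rw [Complex.conj_ofReal] at h5
      rw [← h5]
      simp
    have hn : ((‖1 - x * z‖ ^ (2 * u) : ℝ) : ℂ) =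
        (1 - (x : ℂ) * z) ^ (u : ℂ) * (1 - (x : ℂ) * (starRingEnd ℂ) z) ^ (u : ℂ) := by
      rw [← hc, Complex.mul_conj, Complex.normSq_eq_norm_sq, norm_cpow_real, ← Real.rpow_natCast,
        ← Real.rpow_mul (norm_nonneg _)]
      congr 2
      push_cast
      ring
    have he1 : (1 - (x : ℂ) * z) ^ (u : ℂ) = E u x z + 1 - u * x * z := by
      unfold E
      ring
    have he2 : (1 - (x : ℂ) * (starRingEnd ℂ) z) ^ (u : ℂ) =
        E u x ((starRingEnd ℂ) z) + 1 - u * x * (starRingEnd ℂ) z := by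
      unfold E
      ring
    simp only [smul_eq_mul]
    rw [hn, he1, he2]
    have hK : (1 - x₁ * z)⁻¹ * (1 - x₂ * z)⁻¹ * (1 - y₁ * (starRingEnd ℂ) z)⁻¹ *
        (1 - y₂ * (starRingEnd ℂ) z)⁻¹ = A x₁ x₂ z * A y₁ y₂ ((starRingEnd ℂ) z) := by
      unfold A
      ring
    rw [hK]
    linear_combination (A x₁ x₂ z * A y₁ y₂ ((starRingEnd ℂ) z) * (u : ℂ) ^ 2 * (x : ℂ) ^ 2) * hzz
  rw [e, avg_lin k0 k1 k1' k2 k3 k4]
  ring
end

lemma norm_P_le {x₁ x₂ y₁ y₂ : ℂ} (h₁ : ‖x₁‖ ≤ 3 / 4) (h₂ : ‖x₂‖ ≤ 3 / 4) (h₃ : ‖y₁‖ ≤ 3 / 4)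
    (h₄ : ‖y₂‖ ≤ 3 / 4) : ‖P x₁ x₂ y₁ y₂‖ ≤ 6 := by
  have key : ∀ a b : ℂ, ‖a‖ ≤ 3 / 4 → ‖b‖ ≤ 3 / 4 → ‖1 - a * b‖ ≤ 25 / 16 := by
    intro a b ha hb
    refine (norm_sub_le _ _).trans ?_
    rw [norm_one, norm_mul]
    have : ‖a‖ * ‖b‖ ≤ 3 / 4 * (3 / 4) := mul_le_mul ha hb (norm_nonneg _) (by norm_num)
    linarith
  unfold P
  rw [norm_mul, norm_mul, norm_mul]
  calc ‖1 - x₁ * y₁‖ * ‖1 - x₁ * y₂‖ * ‖1 - x₂ * y₁‖ * ‖1 - x₂ * y₂‖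
      ≤ 25 / 16 * (25 / 16) * (25 / 16) * (25 / 16) := by
        apply mul_le_mul _ (key _ _ h₂ h₄) (norm_nonneg _) (by norm_num)
        apply mul_le_mul _ (key _ _ h₂ h₃) (norm_nonneg _) (by norm_num)
        exact mul_le_mul (key _ _ h₁ h₃) (key _ _ h₁ h₄) (norm_nonneg _) (by norm_num)
    _ ≤ 6 := by norm_num

end LF4aux

open LF4aux in
theorem stLF4 : StLF4 := by
  refine ⟨330000, by norm_num, ?_⟩
  intro u x x₁ x₂ y₁ y₂ hu hx0 hx1 h₁ h₂ h₃ h₄ h₁' h₂' h₃' h₄'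
  have m0 := M0 h₁ h₂ h₃ h₄
  have m1 := M1 h₁ h₂ h₃ h₄
  have m1' := M1' h₁ h₂ h₃ h₄
  have t1 := T1_bound h₁ h₂ h₃ h₄ hu hx0 hx1 h₃' h₄'
  have t2 := T2_bound h₁ h₂ h₃ h₄ hu hx0 hx1 h₁' h₂'
  have t3 := T3_bound h₁ h₂ h₃ h₄ hu hx0 hx1
  have hP := norm_P_le h₁ h₂ h₃ h₄
  have hLF := LF4_eq (u := u) h₁ h₂ h₃ h₄ hx0 hx1
  obtain ⟨T1, hT1⟩ : ∃ T1, T1 = Real.circleAverage (fun z => A x₁ x₂ z *
    A y₁ y₂ ((starRingEnd ℂ) z) * (E u x z * (1 - u * x * (starRingEnd ℂ) z))) 0 1 := ⟨_, rfl⟩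
  obtain ⟨T2, hT2⟩ : ∃ T2, T2 = Real.circleAverage (fun z => A x₁ x₂ z *
    A y₁ y₂ ((starRingEnd ℂ) z) * (E u x ((starRingEnd ℂ) z) * (1 - u * x * z))) 0 1 := ⟨_, rfl⟩
  obtain ⟨T3, hT3⟩ : ∃ T3, T3 = Real.circleAverage (fun z => A x₁ x₂ z *
    A y₁ y₂ ((starRingEnd ℂ) z) * (E u x z * E u x ((starRingEnd ℂ) z))) 0 1 := ⟨_, rfl⟩
  rw [← hT1] at t1 hLF
  rw [← hT2] at t2 hLF
  rw [← hT3] at t3 hLF
  have hPdef : (1 - x₁ * y₁) * (1 - x₁ * y₂) * (1 - x₂ * y₁) * (1 - x₂ * y₂) =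
    P x₁ x₂ y₁ y₂ := rfl
  have key : (1 - x₁ * y₁) * (1 - x₁ * y₂) * (1 - x₂ * y₁) * (1 - x₂ * y₂) *
      LF4 u x x₁ x₂ y₁ y₂ -
      ((1 + (u ^ 2 - 4 * u) * x ^ 2 : ℝ) : ℂ) * (1 - x₁ * x₂ * y₁ * y₂) =
      -((u : ℂ) * x * ((x₁ - x) + (x₂ - x) + (y₁ - x) + (y₂ - x) -
        (x₁ + x₂) * (y₁ * y₂) - (y₁ + y₂) * (x₁ * x₂) + 4 * x * (x₁ * x₂ * (y₁ * y₂)))) +
      P x₁ x₂ y₁ y₂ * (T1 + T2 + T3) := by
    rw [hPdef, hLF]
    push_cast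
    linear_combination (1 + (u : ℂ) ^ 2 * x ^ 2) * m0 - (u : ℂ) * x * (m1 + m1')
  rw [key]
  have q : ∀ a b : ℂ, ‖a‖ ≤ 2 * x → ‖b‖ ≤ 2 * x → ‖a * b‖ ≤ 4 * x ^ 2 := by
    intro a b ha hb
    rw [norm_mul]
    calc ‖a‖ * ‖b‖ ≤ (2 * x) * (2 * x) := mul_le_mul ha hb (norm_nonneg _) (by linarith)
      _ = _ := by ring
  have q' : ∀ a b : ℂ, ‖a‖ ≤ 3 / 4 → ‖b‖ ≤ 3 / 4 → ‖a * b‖ ≤ 1 := by
    intro a b ha hb
    rw [norm_mul]
    have : ‖a‖ * ‖b‖ ≤ 3 / 4 * (3 / 4) := mul_le_mul ha hb (norm_nonneg _) (by norm_num)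
    linarith
  have n1 : ‖(x₁ + x₂) * (y₁ * y₂)‖ ≤ 4 * x * (4 * x ^ 2) := by
    rw [norm_mul]
    exact mul_le_mul ((norm_add_le _ _).trans (by linarith)) (q _ _ h₃' h₄') (norm_nonneg _)
      (by linarith)
  have n2 : ‖(y₁ + y₂) * (x₁ * x₂)‖ ≤ 4 * x * (4 * x ^ 2) := by
    rw [norm_mul]
    exact mul_le_mul ((norm_add_le _ _).trans (by linarith)) (q _ _ h₁' h₂') (norm_nonneg _)
      (by linarith)
  have n3 : ‖4 * (x : ℂ) * (x₁ * x₂ * (y₁ * y₂))‖ ≤ 4 * x * (4 * x ^ 2 * 1) := by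
    rw [norm_mul, norm_mul _ (y₁ * y₂), norm_mul (4 : ℂ), norm_real, Real.norm_eq_abs,
      abs_of_nonneg hx0]
    have : ‖(4 : ℂ)‖ = 4 := by norm_num
    rw [this]
    apply mul_le_mul_of_nonneg_left _ (by linarith)
    exact mul_le_mul (q _ _ h₁' h₂') (q' _ _ h₃ h₄) (norm_nonneg _) (by positivity)
  have n4 : ‖(x₁ - x) + (x₂ - x) + (y₁ - x) + (y₂ - x) -
        (x₁ + x₂) * (y₁ * y₂) - (y₁ + y₂) * (x₁ * x₂) + 4 * x * (x₁ * x₂ * (y₁ * y₂))‖ ≤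
      (‖x₁ - x‖ + ‖x₂ - x‖ + ‖y₁ - x‖ + ‖y₂ - x‖) + 48 * x ^ 3 := by
    refine (norm_add_le _ _).trans ?_
    have r1 := norm_sub_le ((x₁ - x) + (x₂ - x) + (y₁ - x) + (y₂ - x) -
        (x₁ + x₂) * (y₁ * y₂)) ((y₁ + y₂) * (x₁ * x₂))
    have r2 := norm_sub_le ((x₁ - x) + (x₂ - x) + (y₁ - x) + (y₂ - x))
        ((x₁ + x₂) * (y₁ * y₂))
    have r3 := norm_add_le ((x₁ - x) + (x₂ - x) + (y₁ - x)) (y₂ - x)
    have r4 := norm_add_le ((x₁ - x) + (x₂ - x)) (y₁ - x)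
    have r5 := norm_add_le (x₁ - (x : ℂ)) (x₂ - x)
    nlinarith
  have n5 : ‖P x₁ x₂ y₁ y₂ * (T1 + T2 + T3)‖ ≤
      6 * (27200 * |u| * x ^ 4 + 27200 * |u| * x ^ 4 + 410 * |u| * x ^ 4) := by
    rw [norm_mul]
    apply mul_le_mul hP _ (norm_nonneg _) (by norm_num)
    exact (norm_add_le _ _).trans (add_le_add ((norm_add_le _ _).trans (add_le_add t1 t2)) t3)
  refine (norm_add_le _ _).trans ?_
  rw [norm_neg, norm_mul, norm_mul, norm_real, norm_real, Real.norm_eq_abs, Real.norm_eq_abs,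
    abs_of_nonneg hx0]
  have hS : 0 ≤ ‖x₁ - x‖ + ‖x₂ - x‖ + ‖y₁ - x‖ + ‖y₂ - x‖ := by positivity
  have hux : 0 ≤ |u| * x := by positivity
  have n6 := mul_le_mul_of_nonneg_left n4 hux
  have n7 : 0 ≤ |u| * x * (‖x₁ - x‖ + ‖x₂ - x‖ + ‖y₁ - x‖ + ‖y₂ - x‖) := mul_nonneg hux hS
  have n8 : 0 ≤ |u| * x ^ 4 := by positivity
  nlinarith

end K3
end Pool.Agent.Lib.MP_973905_nt
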