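import Pool.Agent.Lib.MP_973905_nt.K3.Stmts
import Pool.Agent.Lib.MP_973905_nt.K1.ZetaPair
import Pool.Agent.Lib.MP_973905_nt.K1.Shift

/-! Pairing of `ζ²` with one frequency. -/

namespace Pool.Agent.Lib.MP_973905_nt
namespace K3

open MeasureTheory ProbabilityTheory Complex Filter Topology K1

namespace Z2

open K1.ZetaPair (q norm_q pdf_mul zeta_le freq_gap term term_eq integral_term norm_term
  norm_integral_term continuous_term dl cont_zeta_line)

lemma q_one (V τ : ℝ) : q V τ 0 1 = 1 := by simp [q]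

lemma dsl_diff (V τ : ℝ) : Differentiable ℂ (dslope (q V τ 0) 1) := by
  rw [← differentiableOn_univ]
  exact (differentiableOn_dslope Filter.univ_mem).mpr (ZetaPair.q_diff V τ 0).differentiableOn

/-- the entire function to be shifted -/
noncomputable def g (V τ ω : ℝ) (s : ℂ) : ℂ :=
  (riemannZeta₁ s * dslope (q (2 * V) τ 0) 1 s) ^ 2 * cexp ((s - (1 / 2 : ℝ)) * ω)

lemma g_eq {V τ ω : ℝ} {s : ℂ} (hs : s ≠ 1) : g V τ ω s =
    riemannZeta s ^ 2 * (1 - q (2 * V) τ 0 s) ^ 2 * cexp ((s - (1 / 2 : ℝ)) * ω) := by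
  have h2 : s - 1 ≠ 0 := sub_ne_zero.mpr hs
  rw [g, dslope_of_ne _ hs, slope_def_field, q_one, riemannZeta_eq_inv_sub_mul hs]
  field_simp
  ring

lemma g_diff (V τ ω : ℝ) : Differentiable ℂ (g V τ ω) := by
  unfold g
  have h1 : Differentiable ℂ fun s : ℂ => riemannZeta₁ s := differentiable_riemannZeta₁
  exact ((h1.mul (dsl_diff (2 * V) τ)).pow 2).mul (by fun_prop)

lemma g_bound {V : ℝ} (τ ω : ℝ) (hV : 1 ≤ V) : ∃ (C : ℝ) (m : ℕ), ∀ s : ℂ,
    1 / 8 < s.re → s.re < 10 →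
    ‖g V τ ω s‖ ≤ C * (1 + |s.im|) ^ m * Real.exp (1 / (4 * V) * (s.im - τ) ^ 2) := by
  obtain ⟨Cz, hCz, hz⟩ := zeta_growth
  obtain ⟨Kb, hKb⟩ := (isCompact_closedBall (1 : ℂ) 1).exists_bound_of_continuousOn
    (f := dslope (q (2 * V) τ 0) 1) (dsl_diff (2 * V) τ).continuous.continuousOn
  have hV0 : 0 < V := by linarith
  refine ⟨Cz ^ 2 * (|Kb| + 4) ^ 2 * Real.exp (11 * |ω|), 4, fun s h1 h2 => ?_⟩
  set t := s.im with ht
  have hs : s = (s.re : ℂ) + t * I := by rw [ht]; exact (re_add_im s).symm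
  have hE : 1 ≤ Real.exp (1 / (8 * V) * (t - τ) ^ 2) := Real.one_le_exp (by positivity)
  have b1 : ‖riemannZeta₁ s‖ ≤ Cz * (1 + |t|) ^ 2 := hz s h1.le h2.le
  have b2 : ‖dslope (q (2 * V) τ 0) 1 s‖ ≤
      (|Kb| + 4) * Real.exp (1 / (8 * V) * (t - τ) ^ 2) := by
    by_cases hc : s ∈ Metric.closedBall (1 : ℂ) 1
    · calc ‖dslope (q (2 * V) τ 0) 1 s‖ ≤ Kb := hKb s hc
        _ ≤ |Kb| + 4 := by linarith [le_abs_self Kb]
        _ = (|Kb| + 4) * 1 := by ring
        _ ≤ _ := by gcongr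
    · rw [Metric.mem_closedBall, not_le, dist_eq_norm] at hc
      have hne : s ≠ 1 := by
        rintro rfl
        simp at hc
        linarith
      rw [dslope_of_ne _ hne, slope_def_field, q_one, norm_div]
      have h5 : ‖q (2 * V) τ 0 s‖ ≤ 3 * Real.exp (1 / (8 * V) * (t - τ) ^ 2) := by
        rw [hs, norm_q (by positivity)]
        have h6 : (1 - (τ + 0) ^ 2 - s.re ^ 2 + (t - τ) ^ 2) / (4 * (2 * V)) ≤
            1 + 1 / (8 * V) * (t - τ) ^ 2 := by
          rw [div_le_iff₀ (by positivity)]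
          have e : (1 + 1 / (8 * V) * (t - τ) ^ 2) * (4 * (2 * V)) = 8 * V + (t - τ) ^ 2 := by
            field_simp
            ring
          rw [e]
          nlinarith [sq_nonneg (τ + 0), sq_nonneg s.re]
        calc Real.exp ((1 - (τ + 0) ^ 2 - s.re ^ 2 + (t - τ) ^ 2) / (4 * (2 * V)))
            ≤ Real.exp (1 + 1 / (8 * V) * (t - τ) ^ 2) := Real.exp_le_exp.mpr h6
          _ = Real.exp 1 * Real.exp (1 / (8 * V) * (t - τ) ^ 2) := Real.exp_add _ _
          _ ≤ _ := by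
            gcongr
            linarith [Real.exp_one_lt_d9]
      calc ‖q (2 * V) τ 0 s - 1‖ / ‖s - 1‖ ≤ ‖q (2 * V) τ 0 s - 1‖ := by
            apply div_le_self (norm_nonneg _) hc.le
        _ ≤ ‖q (2 * V) τ 0 s‖ + ‖(1 : ℂ)‖ := norm_sub_le _ _
        _ ≤ 3 * Real.exp (1 / (8 * V) * (t - τ) ^ 2) + Real.exp (1 / (8 * V) * (t - τ) ^ 2) := by
            rw [norm_one]; gcongr
        _ ≤ _ := by nlinarith [abs_nonneg Kb]
  have b3 : ‖cexp ((s - (1 / 2 : ℝ)) * ω)‖ ≤ Real.exp (11 * |ω|) := by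
    rw [norm_exp]
    apply Real.exp_le_exp.mpr
    have e : ((s - (1 / 2 : ℝ)) * ω).re = (s.re - 1 / 2) * ω := by simp
    rw [e]
    calc (s.re - 1 / 2) * ω ≤ |(s.re - 1 / 2) * ω| := le_abs_self _
      _ = |s.re - 1 / 2| * |ω| := abs_mul _ _
      _ ≤ 11 * |ω| := by
        gcongr
        rw [abs_le]
        constructor <;> linarith
  have e4 : Real.exp (1 / (8 * V) * (t - τ) ^ 2) ^ 2 = Real.exp (1 / (4 * V) * (t - τ) ^ 2) := by
    rw [← Real.exp_nat_mul]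
    congr 1
    push_cast
    field_simp
    ring
  rw [g, norm_mul, norm_pow, norm_mul]
  calc (‖riemannZeta₁ s‖ * ‖dslope (q (2 * V) τ 0) 1 s‖) ^ 2 * ‖cexp ((s - (1 / 2 : ℝ)) * ω)‖
      ≤ ((Cz * (1 + |t|) ^ 2) *
        ((|Kb| + 4) * Real.exp (1 / (8 * V) * (t - τ) ^ 2))) ^ 2 * Real.exp (11 * |ω|) := by gcongr
    _ = Cz ^ 2 * (|Kb| + 4) ^ 2 * Real.exp (11 * |ω|) * (1 + |t|) ^ 4 *
        Real.exp (1 / (8 * V) * (t - τ) ^ 2) ^ 2 := by ring
    _ = _ := by rw [e4]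

/-! ### the error terms -/

lemma integrable_quad (τ : ℝ) {v : NNReal} (hv : v ≠ 0) :
    Integrable (fun t : ℝ => (1 + |t|) ^ 4 * Real.exp ((t - τ) ^ 2 / (4 * v)))
      (gaussianReal τ v) := by
  rw [gaussianReal_of_var_ne_zero _ hv]
  rw [integrable_withDensity_iff (measurable_gaussianPDF τ v)
    (ae_of_all _ fun x => gaussianPDF_lt_top)]
  simp_rw [toReal_gaussianPDF]
  have h2v : (2 * v : NNReal) ≠ 0 := by positivity
  have h1 := integrable_one_add_abs_pow τ (2 * v) 4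
  rw [gaussianReal_of_var_ne_zero _ h2v] at h1
  rw [integrable_withDensity_iff (measurable_gaussianPDF τ (2 * v))
    (ae_of_all _ fun x => gaussianPDF_lt_top)] at h1
  simp_rw [toReal_gaussianPDF] at h1
  refine (h1.const_mul √2).congr (ae_of_all _ fun t => ?_)
  have := pdf_mul (τ := τ) (t := t) hv
  simp only
  linear_combination -(1 + |t|) ^ 4 * this

lemma integral_quad (τ : ℝ) {v : NNReal} (hv : v ≠ 0) :
    ∫ t : ℝ, (1 + |t|) ^ 4 * Real.exp ((t - τ) ^ 2 / (4 * v)) ∂(gaussianReal τ v) =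
      √2 * ∫ t : ℝ, (1 + |t|) ^ 4 ∂(gaussianReal τ (2 * v)) := by
  have h2v : (2 * v : NNReal) ≠ 0 := by positivity
  rw [integral_gaussianReal_eq_integral_smul hv, integral_gaussianReal_eq_integral_smul h2v,
    ← integral_const_mul]
  congr 1
  ext t
  have := pdf_mul (τ := τ) (t := t) hv
  simp only [smul_eq_mul]
  linear_combination (1 + |t|) ^ 4 * this

lemma poly_mean {T τ : ℝ} {v : NNReal} (hT : 1 ≤ T) (hv : (v : ℝ) ≤ T ^ 2)
    (hτ : |τ| ≤ 3 / 2 * T) :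
    ∫ t : ℝ, (1 + |t|) ^ 4 ∂(gaussianReal τ (2 * v)) ≤ 2100 * T ^ 4 := by
  have hT0 : 0 < T := by linarith
  have h1 : ∀ t : ℝ, (1 + |t|) ^ 4 ≤ 24 * Real.exp 1 * T ^ 4 * Real.exp (T⁻¹ * |t|) := by
    intro t
    have h2 := Real.pow_div_factorial_le_exp (T⁻¹ * (1 + |t|)) (by positivity) 4
    rw [div_le_iff₀ (by positivity), mul_pow] at h2
    have h3 : Real.exp (T⁻¹ * (1 + |t|)) ≤ Real.exp 1 * Real.exp (T⁻¹ * |t|) := by
      rw [← Real.exp_add]
      apply Real.exp_le_exp.mpr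
      have : T⁻¹ ≤ 1 := inv_le_one_of_one_le₀ hT
      nlinarith [abs_nonneg t]
    have h4 := mul_le_mul_of_nonneg_left h2 (show 0 ≤ T ^ 4 by positivity)
    rw [← mul_assoc, ← mul_pow, mul_inv_cancel₀ hT0.ne', one_pow, one_mul] at h4
    have h5 : (Nat.factorial 4 : ℝ) = 24 := by norm_num [Nat.factorial]
    rw [h5] at h4
    nlinarith [mul_le_mul_of_nonneg_left h3 (show 0 ≤ T ^ 4 * 24 by positivity)]
  have hint : Integrable (fun t : ℝ => Real.exp (T⁻¹ * |t|)) (gaussianReal τ (2 * v)) := by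
    refine ((integrable_exp_mul_gaussianReal T⁻¹).add
      (integrable_exp_mul_gaussianReal (-T⁻¹))).mono' (by fun_prop)
      (Filter.Eventually.of_forall fun t => ?_)
    rw [Real.norm_eq_abs, abs_of_pos (Real.exp_pos _)]
    simp only [Pi.add_apply]
    rcases abs_cases t with ⟨h, _⟩ | ⟨h, _⟩ <;> rw [h]
    · linarith [Real.exp_pos (-T⁻¹ * t)]
    · rw [mul_neg, neg_mul]; linarith [Real.exp_pos (T⁻¹ * t)]
  have h6 := integral_exp_abs_le τ (2 * v) (l := T⁻¹) (by positivity)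
  have h7 : T⁻¹ * |τ| + ((2 * v : NNReal) : ℝ) * T⁻¹ ^ 2 / 2 ≤ 5 / 2 := by
    have h8 : T⁻¹ * |τ| ≤ 3 / 2 := by
      rw [inv_mul_le_iff₀ hT0]; linarith
    have h9 : ((2 * v : NNReal) : ℝ) * T⁻¹ ^ 2 / 2 ≤ 1 := by
      push_cast
      calc 2 * (v : ℝ) * T⁻¹ ^ 2 / 2 ≤ 2 * T ^ 2 * T⁻¹ ^ 2 / 2 := by gcongr
        _ = 1 := by field_simp
    linarith
  have h8 : Real.exp (5 / 2) ≤ 16 := by
    have e : Real.exp (5 / 2) = Real.exp 1 ^ 2 * Real.exp (1 / 2) := by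
      rw [← Real.exp_nat_mul, ← Real.exp_add]; norm_num
    have h9 : Real.exp (1 / 2) ^ 2 = Real.exp 1 := by
      rw [← Real.exp_nat_mul]; norm_num
    have h10 := Real.exp_one_lt_d9
    have h11 := Real.exp_pos (1 / 2)
    have h12 := Real.exp_pos 1
    have h13 : Real.exp (1 / 2) ≤ 2 := by nlinarith
    rw [e]
    calc Real.exp 1 ^ 2 * Real.exp (1 / 2) ≤ 2.7182818286 ^ 2 * 2 := by gcongr
      _ ≤ 16 := by norm_num
  calc ∫ t : ℝ, (1 + |t|) ^ 4 ∂(gaussianReal τ (2 * v))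
      ≤ ∫ t : ℝ, 24 * Real.exp 1 * T ^ 4 * Real.exp (T⁻¹ * |t|) ∂(gaussianReal τ (2 * v)) := by
        apply integral_mono (integrable_one_add_abs_pow _ _ _) (hint.const_mul _)
        exact h1
    _ = 24 * Real.exp 1 * T ^ 4 * ∫ t : ℝ, Real.exp (T⁻¹ * |t|) ∂(gaussianReal τ (2 * v)) := by
        rw [integral_const_mul]
    _ ≤ 24 * 2.7182818286 * T ^ 4 * (2 * 16) := by
        gcongr
        · exact Real.exp_one_lt_d9.le
        · refine h6.trans ?_
          gcongr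
          exact (Real.exp_le_exp.mpr h7).trans h8
    _ ≤ _ := by nlinarith [pow_pos hT0 4]

lemma err {T τ E K : ℝ} {v : NNReal} (hv0 : v ≠ 0) (hT : 1 ≤ T) (hv : (v : ℝ) ≤ T ^ 2)
    (hτ : |τ| ≤ 3 / 2 * T) (hK : 0 ≤ K) {F : ℝ → ℂ}
    (h : ∀ t, ‖F t‖ ≤ K * (1 + |t|) ^ 4 * Real.exp (-E + (t - τ) ^ 2 / (4 * (v : ℝ)))) :
    ‖∫ t, F t ∂(gaussianReal τ v)‖ ≤ K * Real.exp (-E) * (4200 * T ^ 4) := by
  have h1 : ∀ t, ‖F t‖ ≤ (K * Real.exp (-E)) *
      ((1 + |t|) ^ 4 * Real.exp ((t - τ) ^ 2 / (4 * (v : ℝ)))) := by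
    intro t
    refine (h t).trans (le_of_eq ?_)
    rw [Real.exp_add]
    ring
  refine (norm_integral_le_of_norm_le ((integrable_quad τ hv0).const_mul _)
    (Eventually.of_forall h1)).trans ?_
  rw [integral_const_mul, integral_quad τ hv0]
  have h2 := poly_mean hT hv hτ
  have h3 : √2 ≤ 2 := by
    rw [Real.sqrt_le_left (by norm_num)]; norm_num
  have h4 : 0 ≤ ∫ t : ℝ, (1 + |t|) ^ 4 ∂(gaussianReal τ (2 * v)) :=
    integral_nonneg fun t => by positivity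
  calc K * Real.exp (-E) * (√2 * ∫ t : ℝ, (1 + |t|) ^ 4 ∂(gaussianReal τ (2 * v)))
      ≤ K * Real.exp (-E) * (2 * (2100 * T ^ 4)) := by gcongr
    _ = _ := by ring

/-! ### the Dirichlet series -/

lemma dv_nonneg (n : ℕ) : 0 ≤ dv n := by unfold dv; positivity

lemma dv_le (n : ℕ) : dv n ≤ n := by
  unfold dv
  exact_mod_cast Nat.card_divisors_le_self n

lemma zeta_sq_hasSum {s : ℂ} (hs : 1 < s.re) :
    HasSum (fun n : ℕ => (dv (n + 1) : ℂ) * (1 / ((n + 1 : ℕ) : ℂ) ^ s)) (riemannZeta s ^ 2) := by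
  have h := (LSeriesHasSum_one hs).convolution (LSeriesHasSum_one hs)
  unfold LSeriesHasSum at h
  rw [← hasSum_nat_add_iff' 1] at h
  simp only [Finset.range_one, Finset.sum_singleton, LSeries.term_zero, sub_zero] at h
  rw [← sq] at h
  have e : (fun n : ℕ => (dv (n + 1) : ℂ) * (1 / ((n + 1 : ℕ) : ℂ) ^ s)) =
      fun n => LSeries.term (LSeries.convolution 1 1) s (n + 1) := by
    ext n
    rw [LSeries.term_of_ne_zero (Nat.succ_ne_zero n), LSeries.convolution_def]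
    have h1 : (n + 1).divisorsAntidiagonal.card = (n + 1).divisors.card := by
      rw [← Nat.map_div_right_divisors, Finset.card_map]
    simp [dv, div_eq_mul_inv, h1]
  rw [e]
  exact h

lemma hasSum_term2 (τ ω l : ℝ) (v : NNReal) :
    HasSum (fun n : ℕ => (dv (n + 1) : ℂ) * ∫ t, term τ 0 (1 / 2) ω l (n + 1) t ∂(gaussianReal τ v))
      (∫ t : ℝ, riemannZeta ((9 : ℂ) + t * I) ^ 2 * cexp (((9 : ℂ) + t * I - (1 / 2 : ℝ)) * ω) *
        cexp ((l * (t - τ) : ℝ) * I) ∂(gaussianReal τ v)) := by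
  have h1 : ∀ t : ℝ, ∑' n : ℕ, (dv (n + 1) : ℂ) * term τ 0 (1 / 2) ω l (n + 1) t =
      riemannZeta ((9 : ℂ) + t * I) ^ 2 * cexp (((9 : ℂ) + t * I - (1 / 2 : ℝ)) * ω) *
        cexp ((l * (t - τ) : ℝ) * I) := by
    intro t
    rw [← (zeta_sq_hasSum (s := (9 : ℂ) + t * I) (by simp)).tsum_eq]
    rw [← tsum_mul_right, ← tsum_mul_right]
    congr 1
    ext n
    simp only [term]
    rw [ofReal_zero, zero_mul, add_zero]
    ring
  have hs : Summable fun n : ℕ => Real.exp ((9 - 1 / 2) * ω) * (1 / ((n + 1 : ℕ) : ℝ) ^ 8) := by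
    apply Summable.mul_left
    exact (summable_nat_add_iff 1).mpr (Real.summable_one_div_nat_pow.mpr (by norm_num))
  have h0 : ∀ (n : ℕ) (t : ℝ), ‖(dv (n + 1) : ℂ) * term τ 0 (1 / 2) ω l (n + 1) t‖ ≤
      Real.exp ((9 - 1 / 2) * ω) * (1 / ((n + 1 : ℕ) : ℝ) ^ 8) := by
    intro n t
    rw [norm_mul, norm_term τ 0 (1 / 2) ω l (by omega), norm_real, Real.norm_eq_abs,
      abs_of_nonneg (dv_nonneg _)]
    have h3 := dv_le (n + 1)
    have h4 : (0 : ℝ) < ((n + 1 : ℕ) : ℝ) := by positivity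
    calc dv (n + 1) * (Real.exp ((9 - 1 / 2) * ω) * (1 / ((n + 1 : ℕ) : ℝ) ^ 9)) ≤
        ((n + 1 : ℕ) : ℝ) * (Real.exp ((9 - 1 / 2) * ω) * (1 / ((n + 1 : ℕ) : ℝ) ^ 9)) := by
          gcongr
      _ = _ := by field_simp
  have h2 : ∀ n : ℕ, Integrable (fun t => (dv (n + 1) : ℂ) * term τ 0 (1 / 2) ω l (n + 1) t)
      (gaussianReal τ v) := by
    intro n
    exact Integrable.of_bound ((continuous_term τ 0 (1 / 2) ω l (by omega)).const_smul
      (dv (n + 1) : ℂ)).aestronglyMeasurable _ (Eventually.of_forall fun t => h0 n t)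
  have h3 : Summable fun n : ℕ => ∫ t, ‖(dv (n + 1) : ℂ) * term τ 0 (1 / 2) ω l (n + 1) t‖
      ∂(gaussianReal τ v) := by
    refine Summable.of_nonneg_of_le (fun n => integral_nonneg fun t => norm_nonneg _)
      (fun n => ?_) hs
    calc ∫ t, ‖(dv (n + 1) : ℂ) * term τ 0 (1 / 2) ω l (n + 1) t‖ ∂(gaussianReal τ v)
        ≤ ∫ t, Real.exp ((9 - 1 / 2) * ω) * (1 / ((n + 1 : ℕ) : ℝ) ^ 8) ∂(gaussianReal τ v) :=
          integral_mono (h2 n).norm (integrable_const _) (h0 n)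
      _ = _ := by simp
  have h4 := hasSum_integral_of_summable_integral_norm h2 h3
  simp_rw [h1, integral_const_mul] at h4
  exact h4

lemma hasSum_dl2 {u v : ℕ} (hu : 1 ≤ u) (hv : 1 ≤ v) :
    HasSum (fun n : ℕ => (dv (n + 1) : ℂ) * dl 0 (1 / 2) u v n)
      (if u ∣ v then (dv (v / u) : ℂ) * ((v / u : ℕ) : ℂ) ^ (-(1 / 2 : ℂ)) else 0) := by
  by_cases h : u ∣ v
  · rw [if_pos h]
    obtain ⟨k, hk⟩ := h
    have hk1 : 1 ≤ k := by
      rcases Nat.eq_zero_or_pos k with h0 | h0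
      · subst h0; omega
      · exact h0
    have hvk : v / u = k := by rw [hk, Nat.mul_div_cancel_left _ (by omega)]
    have e : (dv ((k - 1) + 1) : ℂ) * dl 0 (1 / 2) u v (k - 1) =
        (dv (v / u) : ℂ) * ((v / u : ℕ) : ℂ) ^ (-(1 / 2 : ℂ)) := by
      rw [dl, Nat.sub_add_cancel hk1, if_pos hk.symm, hvk]
      simp
    rw [← e]
    apply hasSum_single
    intro n hn
    rw [dl, if_neg, mul_zero]
    intro h2
    apply hn
    rw [hk] at h2
    have := Nat.eq_of_mul_eq_mul_left (by omega) h2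
    omega
  · rw [if_neg h]
    have e : (fun n : ℕ => (dv (n + 1) : ℂ) * dl 0 (1 / 2) u v n) = fun _ => 0 := by
      ext n
      rw [dl, if_neg, mul_zero]
      intro h2
      exact h ⟨n + 1, h2.symm⟩
    rw [e]
    exact hasSum_zero

lemma term_bound {τ X Y T : ℝ} {w : NNReal} (hX : 1 ≤ X) (hXT : X ≤ T) (hwX : 36 * X ≤ w)
    (hY : Y * X ^ 2 ≤ w) {u v : ℕ}
    (hu : 1 ≤ u) (hv : 1 ≤ v) (hvX : (v : ℝ) ≤ X) (n : ℕ) :
    ‖(Real.exp ((9 - 1 / 2) ^ 2 / (2 * (w : ℝ))) : ℂ) *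
      (∫ t, term τ 0 (1 / 2) (Real.log v - Real.log u) ((9 - 1 / 2) / (w : ℝ)) (n + 1) t
        ∂(gaussianReal τ w)) - dl 0 (1 / 2) u v n‖ ≤
      4 * T ^ 9 * Real.exp (-(Y / 32)) * (1 / ((n + 1 : ℕ) : ℝ) ^ 9) := by
  have hT0 : 0 < T := by linarith
  set V : ℝ := (w : ℝ) with hVdef
  have hV36 : 36 ≤ V := by linarith
  have hV0 : 0 < V := by linarith
  have hN1 : 1 ≤ n + 1 := by omega
  by_cases hd : u * (n + 1) = v
  · -- diagonal
    have hlog : Real.log v - Real.log u = Real.log ((n + 1 : ℕ) : ℝ) := by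
      rw [← hd]
      push_cast
      rw [Real.log_mul (by positivity) (by positivity)]
      ring
    have hz : (Real.exp ((9 - 1 / 2) ^ 2 / (2 * V)) : ℂ) *
        (∫ t, term τ 0 (1 / 2) (Real.log v - Real.log u) ((9 - 1 / 2) / V) (n + 1) t
        ∂(gaussianReal τ w)) - dl 0 (1 / 2) u v n = 0 := by
      rw [integral_term τ 0 (1 / 2) _ _ _ hN1, dl, if_pos hd, hlog, sub_eq_zero]
      have hne : ((n + 1 : ℕ) : ℂ) ≠ 0 := by exact_mod_cast Nat.succ_ne_zero n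
      rw [cpow_def_of_ne_zero hne, ofReal_exp, ← Complex.exp_add, ← Complex.exp_add,
        ← natCast_log]
      congr 1
      have hVc : (V : ℂ) ≠ 0 := by exact_mod_cast hV0.ne'
      have e3 : ((w : NNReal) : ℂ) = (V : ℂ) := by rw [hVdef]
      rw [sub_self, zero_add]
      set L := Real.log ((n + 1 : ℕ) : ℝ)
      push_cast
      rw [e3]
      field_simp
      ring
    rw [hz, norm_zero]
    positivity
  · rw [dl, if_neg hd, sub_zero, norm_mul, norm_integral_term τ 0 (1 / 2) _ _ _ hN1, norm_real,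
      Real.norm_eq_abs, abs_of_pos (Real.exp_pos _)]
    have hu0 : (0 : ℝ) < u := by exact_mod_cast hu
    have hv0 : (0 : ℝ) < v := by exact_mod_cast hv
    have hlu : 0 ≤ Real.log u := Real.log_nonneg (by exact_mod_cast hu)
    have hlv : 0 ≤ Real.log v := Real.log_nonneg (by exact_mod_cast hv)
    have e1 : Real.exp ((9 - 1 / 2) ^ 2 / (2 * V)) ≤ 4 := by
      have h5 : (9 - 1 / 2) ^ 2 / (2 * V) ≤ 1.02 := by
        rw [div_le_iff₀ (by positivity)]
        norm_num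
        linarith
      have h7 : Real.exp 1.02 ≤ 4 := by
        have e : Real.exp 1.02 = Real.exp 1 * Real.exp 0.02 := by
          rw [← Real.exp_add]; norm_num
        have h8 : Real.exp 0.02 ≤ 1.1 := by
          have := Real.exp_bound_div_one_sub_of_interval (x := 0.02) (by norm_num) (by norm_num)
          refine this.trans ?_
          norm_num
        rw [e]
        have h9 := Real.exp_one_lt_d9
        have h10 := Real.exp_pos 1
        nlinarith [Real.exp_pos 0.02]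
      exact (Real.exp_le_exp.mpr h5).trans h7
    have e2 : Real.exp ((9 - 1 / 2) * (Real.log v - Real.log u)) ≤ T ^ 9 := by
      have h5 : (9 - 1 / 2) * (Real.log v - Real.log u) ≤ ((9 : ℕ) : ℝ) * Real.log v := by
        push_cast
        linarith
      calc Real.exp ((9 - 1 / 2) * (Real.log v - Real.log u)) ≤
            Real.exp (((9 : ℕ) : ℝ) * Real.log v) := Real.exp_le_exp.mpr h5
        _ = (v : ℝ) ^ 9 := by rw [Real.exp_nat_mul, Real.exp_log hv0]
        _ ≤ T ^ 9 := by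
          gcongr
          linarith
    have e3 : Real.exp (-(V * (Real.log v - Real.log u - Real.log ((n + 1 : ℕ) : ℝ) +
        (9 - 1 / 2) / V) ^ 2 / 2)) ≤ Real.exp (-(Y / 32)) := by
      apply Real.exp_le_exp.mpr
      rw [neg_le_neg_iff]
      have hb : 1 ≤ u * (n + 1) := Nat.mul_pos hu hN1
      have h5 := freq_gap hv hb hvX (Ne.symm hd)
      have h6 : Real.log v - Real.log u - Real.log ((n + 1 : ℕ) : ℝ) =
          Real.log v - Real.log ((u * (n + 1) : ℕ) : ℝ) := by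
        push_cast
        rw [Real.log_mul (by positivity) (by positivity)]
        ring
      rw [h6]
      set ν := Real.log v - Real.log ((u * (n + 1) : ℕ) : ℝ) with hν
      have h7 : (9 - 1 / 2) / V ≤ 1 / (4 * X) := by
        rw [div_le_div_iff₀ (by positivity) (by positivity)]
        nlinarith
      have h7' : 0 ≤ (9 - 1 / 2) / V := div_nonneg (by norm_num) hV0.le
      have h8 : 1 / (4 * X) ≤ |ν + (9 - 1 / 2) / V| := by
        have h9 : |ν| ≤ |ν + (9 - 1 / 2) / V| + |(9 - 1 / 2) / V| := by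
          have := abs_sub (ν + (9 - 1 / 2) / V) ((9 - 1 / 2) / V)
          simpa using this
        rw [abs_of_nonneg h7'] at h9
        have h10 : 1 / (2 * X) = 1 / (4 * X) + 1 / (4 * X) := by ring
        linarith
      have h9 : (1 / (4 * X)) ^ 2 ≤ (ν + (9 - 1 / 2) / V) ^ 2 := by
        rw [← sq_abs (ν + (9 - 1 / 2) / V)]
        exact pow_le_pow_left₀ (by positivity) h8 2
      calc Y / 32 = Y * X ^ 2 * (1 / (4 * X)) ^ 2 / 2 := by
            field_simp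
            ring
        _ ≤ V * (ν + (9 - 1 / 2) / V) ^ 2 / 2 := by gcongr
    calc Real.exp ((9 - 1 / 2) ^ 2 / (2 * V)) * (Real.exp ((9 - 1 / 2) * (Real.log v - Real.log u)) *
          (1 / ((n + 1 : ℕ) : ℝ) ^ 9) *
          Real.exp (-(V * (Real.log v - Real.log u - Real.log ((n + 1 : ℕ) : ℝ) +
            (9 - 1 / 2) / V) ^ 2 / 2)))
        ≤ 4 * (T ^ 9 * (1 / ((n + 1 : ℕ) : ℝ) ^ 9) * Real.exp (-(Y / 32))) := by
          gcongr
      _ = _ := by ring

lemma sum_part {τ X Y T : ℝ} {w : NNReal} (hX : 1 ≤ X) (hXT : X ≤ T) (hwX : 36 * X ≤ w)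
    (hY : Y * X ^ 2 ≤ w) {u v : ℕ}
    (hu : 1 ≤ u) (hv : 1 ≤ v) (hvX : (v : ℝ) ≤ X) :
    ‖(Real.exp ((9 - 1 / 2) ^ 2 / (2 * (w : ℝ))) : ℂ) *
      (∫ t : ℝ, riemannZeta ((9 : ℂ) + t * I) ^ 2 *
        cexp (((9 : ℂ) + t * I - (1 / 2 : ℝ)) * (Real.log v - Real.log u : ℝ)) *
        cexp (((9 - 1 / 2) / (w : ℝ) * (t - τ) : ℝ) * I) ∂(gaussianReal τ w)) -
        (if u ∣ v then (dv (v / u) : ℂ) * ((v / u : ℕ) : ℂ) ^ (-(1 / 2 : ℂ)) else 0)‖ ≤
      4 * T ^ 9 * Real.exp (-(Y / 32)) * ∑' n : ℕ, (1 / ((n + 1 : ℕ) : ℝ) ^ 8) := by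
  have hs : Summable fun n : ℕ => (1 / ((n + 1 : ℕ) : ℝ) ^ 8) :=
    (summable_nat_add_iff 1).mpr (Real.summable_one_div_nat_pow.mpr (by norm_num))
  have h3 := ((hasSum_term2 τ (Real.log v - Real.log u) ((9 - 1 / 2) / (w : ℝ)) w).mul_left
    (Real.exp ((9 - 1 / 2) ^ 2 / (2 * (w : ℝ))) : ℂ)).sub (hasSum_dl2 hu hv)
  refine h3.norm_le_of_bounded (hs.hasSum.mul_left _) fun n => ?_
  have h4 := term_bound (τ := τ) (n := n) hX hXT hwX hY hu hv hvX
  have e : (Real.exp ((9 - 1 / 2) ^ 2 / (2 * (w : ℝ))) : ℂ) * ((dv (n + 1) : ℂ) *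
      ∫ t, term τ 0 (1 / 2) (Real.log v - Real.log u) ((9 - 1 / 2) / (w : ℝ)) (n + 1) t
        ∂(gaussianReal τ w)) - (dv (n + 1) : ℂ) * dl 0 (1 / 2) u v n =
      (dv (n + 1) : ℂ) * ((Real.exp ((9 - 1 / 2) ^ 2 / (2 * (w : ℝ))) : ℂ) *
      (∫ t, term τ 0 (1 / 2) (Real.log v - Real.log u) ((9 - 1 / 2) / (w : ℝ)) (n + 1) t
        ∂(gaussianReal τ w)) - dl 0 (1 / 2) u v n) := by ring
  rw [e, norm_mul, norm_real, Real.norm_eq_abs, abs_of_nonneg (dv_nonneg _)]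
  have h5 := dv_le (n + 1)
  have hT0 : 0 < T := by linarith
  calc dv (n + 1) * _ ≤ ((n + 1 : ℕ) : ℝ) *
      (4 * T ^ 9 * Real.exp (-(Y / 32)) * (1 / ((n + 1 : ℕ) : ℝ) ^ 9)) :=
        mul_le_mul h5 h4 (norm_nonneg _) (by positivity)
    _ = _ := by field_simp

/-! ### the final estimate -/

lemma ev (K c : ℝ) (hc : 0 < c) (m : ℕ) : ∀ᶠ T : ℝ in atTop,
    K * T ^ m * Real.exp (-(T ^ c / (32 * (Real.log T) ^ 2))) ≤ T ^ (-20 : ℝ) := by
  have h1 : Tendsto (fun T : ℝ => T ^ (c / 4)) atTop atTop := tendsto_rpow_atTop (by positivity)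
  have h2 := (tendsto_rpow_mul_exp_neg_mul_atTop_nhds_zero ((4 / c) * (m + 20)) 1 one_pos).comp h1
  have h2' : ∀ᶠ T : ℝ in atTop, (T ^ (c / 4)) ^ ((4 / c) * (m + 20)) *
      Real.exp (-1 * T ^ (c / 4)) < (|K| + 1)⁻¹ :=
    h2.eventually_lt_const (by positivity)
  have h3 : ∀ᶠ T : ℝ in atTop, Real.log T ≤ T ^ (c / 4) := by
    have := (isLittleO_log_rpow_atTop (r := c / 4) (by positivity)).def (c := 1) one_pos
    filter_upwards [this, eventually_ge_atTop 1] with T hT hT1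
    rw [Real.norm_eq_abs, Real.norm_eq_abs, abs_of_nonneg (Real.log_nonneg hT1),
      abs_of_nonneg (by positivity), one_mul] at hT
    exact hT
  filter_upwards [h2', h1.eventually_ge_atTop 32, h3, eventually_ge_atTop 3] with T hT hw2 hlog hT3
  have hT0 : 0 < T := by linarith
  set w : ℝ := T ^ (c / 4) with hw
  have hw0 : 0 < w := by linarith
  have h4 : T ^ c = w ^ 4 := by
    rw [hw, ← Real.rpow_natCast, ← Real.rpow_mul hT0.le]
    congr 1
    push_cast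
    ring
  have hlog0 : 0 < Real.log T := Real.log_pos (by linarith)
  have h6 : w ≤ T ^ c / (32 * (Real.log T) ^ 2) := by
    rw [le_div_iff₀ (by positivity), h4]
    have h7 : (Real.log T) ^ 2 ≤ w ^ 2 := by gcongr
    calc w * (32 * (Real.log T) ^ 2) ≤ w * (w * w ^ 2) := by gcongr
      _ = w ^ 4 := by ring
  have h7 : Real.exp (-(T ^ c / (32 * (Real.log T) ^ 2))) ≤ Real.exp (-1 * w) := by
    apply Real.exp_le_exp.mpr
    linarith
  have h8 : w ^ ((4 / c) * (m + 20)) = T ^ m * T ^ (20 : ℝ) := by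
    rw [hw, ← Real.rpow_mul hT0.le, ← Real.rpow_natCast T m, ← Real.rpow_add hT0]
    congr 1
    field_simp
  rw [h8] at hT
  have h9 : T ^ (-20 : ℝ) * T ^ (20 : ℝ) = 1 := by
    rw [← Real.rpow_add hT0]; norm_num
  have h10 : 0 < T ^ (20 : ℝ) := Real.rpow_pos_of_pos hT0 _
  have h11 : (|K| + 1) * (T ^ m * T ^ (20 : ℝ) * Real.exp (-1 * w)) ≤ 1 := by
    have := mul_le_mul_of_nonneg_left hT.le (show 0 ≤ |K| + 1 by positivity)
    rwa [mul_inv_cancel₀ (by positivity)] at this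
  have h12 : K * T ^ m * Real.exp (-(T ^ c / (32 * (Real.log T) ^ 2))) ≤
      (|K| + 1) * T ^ m * Real.exp (-1 * w) := by
    gcongr
    linarith [le_abs_self K]
  refine h12.trans ?_
  refine le_of_mul_le_mul_right ?_ h10
  rw [h9]
  calc (|K| + 1) * T ^ m * Real.exp (-1 * w) * T ^ (20 : ℝ) =
      (|K| + 1) * (T ^ m * T ^ (20 : ℝ) * Real.exp (-1 * w)) := by ring
    _ ≤ 1 := h11

end Z2

open Z2 K1.ZetaPair in
theorem stZ2Pair : StZ2Pair := by
  intro δ hδ0 hδ1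
  obtain ⟨Cz, hCz, hz⟩ := zeta_growth
  set Z8 : ℝ := ∑' n : ℕ, (1 / ((n + 1 : ℕ) : ℝ) ^ 8) with hZ8
  have hZ8nn : 0 ≤ Z8 := tsum_nonneg fun n => by positivity
  set Kt : ℝ := 15 * (16 * Cz ^ 2) * 4200 + 4 * (15 * (16 * Cz ^ 2) * 4200) + 4 * Z8 with hKt
  obtain ⟨T₁, hT₁⟩ := eventually_atTop.mp (Z2.ev Kt (δ / 4) (by positivity) 13)
  have hXev : ∀ᶠ T : ℝ in atTop, 36 ≤ T ^ (1 - δ / 8 : ℝ) :=
    (tendsto_rpow_atTop (by linarith)).eventually_ge_atTop 36
  obtain ⟨T₂, hT₂⟩ := eventually_atTop.mp hXev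
  refine ⟨max (max T₁ T₂) 36, le_trans (by norm_num) (le_max_right _ _), ?_⟩
  intro T hT τ hτ1 hτ2 u v hu hv huX hvX
  have hTT1 : T₁ ≤ T := (le_max_left _ _).trans ((le_max_left _ _).trans hT)
  have hTT2 : T₂ ≤ T := (le_max_right _ _).trans ((le_max_left _ _).trans hT)
  have hT36 : 36 ≤ T := (le_max_right _ _).trans hT
  have hT0 : 0 < T := by linarith
  have hT1 : 1 ≤ T := by linarith
  have hlogT : 1 ≤ Real.log T := by
    rw [Real.le_log_iff_exp_le hT0]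
    linarith [Real.exp_one_lt_d9]
  have hVe := VV_Td (δ := δ) hT0
  set w : NNReal := VV (Td δ T) with hw
  set V : ℝ := (w : ℝ) with hVdef
  set X : ℝ := T ^ (1 - 3 * δ / 8 : ℝ) with hXdef
  have hX1 : 1 ≤ X := Real.one_le_rpow hT1 (by linarith)
  have hXT : X ≤ T := by
    calc X ≤ T ^ (1 : ℝ) := Real.rpow_le_rpow_of_exponent_le hT1 (by linarith)
      _ = T := Real.rpow_one T
  have hwX : 36 * X ≤ V := by
    have h1 : V = T ^ (1 - δ / 8 : ℝ) * X := by
      rw [hVe, hXdef, ← Real.rpow_add hT0]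
      congr 1
      ring
    rw [h1]
    exact mul_le_mul_of_nonneg_right (hT₂ T hTT2) (by linarith)
  set Y : ℝ := T ^ (δ / 4 : ℝ) with hYdef
  have hY : Y * X ^ 2 ≤ V := by
    apply le_of_eq
    rw [hVe, hXdef, hYdef, ← Real.rpow_natCast, ← Real.rpow_mul hT0.le, ← Real.rpow_add hT0]
    congr 1
    push_cast
    ring
  have hVT : V ≤ T ^ 2 := by
    rw [hVe, ← Real.rpow_natCast]
    exact Real.rpow_le_rpow_of_exponent_le hT1 (by push_cast; linarith)
  have hV1 : 36 ≤ V := by linarith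
  have hV0 : 0 < V := by linarith
  have hVne : w ≠ 0 := by
    intro h
    rw [hVdef, h] at hV0
    simp at hV0
  set ω : ℝ := Real.log v - Real.log u with hω
  set l : ℝ := (9 - 1 / 2) / V with hl
  -- the distance from the pole
  set E : ℝ := τ ^ 2 / (8 * V) with hE
  set r : ℝ := T ^ (δ / 4 : ℝ) / (32 * (Real.log T) ^ 2) with hr
  have hrE : r ≤ E := by
    have h6 : (T / Real.log T) ^ 2 ≤ τ ^ 2 := by
      rw [← sq_abs τ]
      exact pow_le_pow_left₀ (by positivity) hτ1 2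
    have h7 : T ^ 2 = T ^ (δ / 2 : ℝ) * V := by
      rw [hVe, ← Real.rpow_add hT0, ← Real.rpow_natCast]
      congr 1
      push_cast
      ring
    have h8 : 0 < T ^ (δ / 4 : ℝ) := Real.rpow_pos_of_pos hT0 _
    have h9 : T ^ (δ / 4 : ℝ) ≤ T ^ (δ / 2 : ℝ) :=
      Real.rpow_le_rpow_of_exponent_le hT1 (by linarith)
    calc r ≤ T ^ (δ / 2 : ℝ) / (8 * (Real.log T) ^ 2) := by
          rw [hr]
          apply div_le_div₀ (by positivity) h9 (by positivity)
          nlinarith [sq_nonneg (Real.log T)]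
      _ = (T / Real.log T) ^ 2 / (8 * V) := by
          rw [div_pow, h7]
          field_simp
      _ ≤ E := by
          rw [hE]
          gcongr
  have hr2 : r ≤ Y / 32 := by
    rw [hr]
    apply div_le_div_of_nonneg_left (by positivity) (by norm_num)
    nlinarith
  -- the functions
  have hshift := stShift (Z2.g V τ ω) (1 / 8) 10 (1 / 2) 9 τ (1 / (4 * V)) w hVne (by norm_num)
    (by norm_num) (by norm_num) (by norm_num) (Z2.g_diff V τ ω).differentiableOn (by positivity)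
    (by rw [← hVdef]; field_simp; norm_num)
    (Z2.g_bound τ ω (by linarith))
  rw [← hVdef] at hshift
  set A : ℝ → ℂ := fun t => riemannZeta (1 / 2 + t * I) ^ 2 *
    (fs (t * I) u * (starRingEnd ℂ) (fs (t * I) v)) with hA
  set F₁ : ℝ → ℂ := fun t => riemannZeta ((1 / 2 : ℝ) + t * I) ^ 2 *
    (2 * q (2 * V) τ 0 ((1 / 2 : ℝ) + t * I) - q (2 * V) τ 0 ((1 / 2 : ℝ) + t * I) ^ 2) *
    cexp ((t * I) * ω) with hF₁
  set Z : ℝ → ℂ := fun t => riemannZeta ((9 : ℂ) + t * I) ^ 2 *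
        cexp (((9 : ℂ) + t * I - (1 / 2 : ℝ)) * (Real.log v - Real.log u : ℝ)) *
        cexp ((l * (t - τ) : ℝ) * I) with hZ
  set F₂ : ℝ → ℂ := fun t => Z t *
    (2 * q (2 * V) τ 0 ((9 : ℝ) + t * I) - q (2 * V) τ 0 ((9 : ℝ) + t * I) ^ 2) with hF₂
  have hAeq : ∀ t : ℝ, A t = riemannZeta ((1 / 2 : ℝ) + t * I) ^ 2 * cexp ((t * I) * ω) := by
    intro t
    rw [hA]
    simp only
    rw [fs_mul_I t (by omega), fs_mul_I t (by omega), ← exp_conj, ← Complex.exp_add]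
    congr 1
    · push_cast
      rfl
    · congr 1
      simp only [map_mul, conj_I, conj_ofReal]
      rw [hω]
      push_cast
      ring
  have hg1 : ∀ t : ℝ, Z2.g V τ ω ((1 / 2 : ℝ) + t * I) = A t - F₁ t := by
    intro t
    have hne : (((1 / 2 : ℝ) : ℂ) + t * I : ℂ) ≠ 1 := by
      intro h
      have := congrArg Complex.re h
      simp at this
    rw [Z2.g_eq hne, hAeq, hF₁]
    simp only [add_sub_cancel_left]
    ring
  have hg2 : ∀ t : ℝ, Z2.g V τ ω ((9 : ℝ) + t * I) * cexp (((9 - 1 / 2) * (t - τ) / V : ℝ) * I) =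
      Z t - F₂ t := by
    intro t
    have hne : (((9 : ℝ) : ℂ) + t * I : ℂ) ≠ 1 := by
      intro h
      have := congrArg Complex.re h
      simp at this
    rw [Z2.g_eq hne, hF₂, hZ]
    simp only
    have e : ((9 - 1 / 2) * (t - τ) / V : ℝ) = l * (t - τ) := by
      rw [hl]; ring
    rw [e, hω]
    push_cast
    ring
  -- pointwise bounds
  have hq : ∀ σ t : ℝ, ‖2 * q (2 * V) τ 0 (σ + t * I) - q (2 * V) τ 0 (σ + t * I) ^ 2‖ ≤
      15 * Real.exp (-E + (t - τ) ^ 2 / (4 * V)) := by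
    intro σ t
    set x : ℝ := Real.exp (-E + (t - τ) ^ 2 / (8 * V)) with hx
    have h0 : ‖q (2 * V) τ 0 (σ + t * I)‖ ≤ 3 * x := by
      rw [norm_q (by positivity)]
      have h1 : (1 - (τ + 0) ^ 2 - σ ^ 2 + (t - τ) ^ 2) / (4 * (2 * V)) ≤
          1 + (-E + (t - τ) ^ 2 / (8 * V)) := by
        rw [hE, div_le_iff₀ (by positivity)]
        have e : (1 + (-(τ ^ 2 / (8 * V)) + (t - τ) ^ 2 / (8 * V))) * (4 * (2 * V)) =
            8 * V - τ ^ 2 + (t - τ) ^ 2 := by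
          field_simp
          ring
        rw [e]
        nlinarith [sq_nonneg σ]
      calc Real.exp ((1 - (τ + 0) ^ 2 - σ ^ 2 + (t - τ) ^ 2) / (4 * (2 * V)))
          ≤ Real.exp (1 + (-E + (t - τ) ^ 2 / (8 * V))) := Real.exp_le_exp.mpr h1
        _ = Real.exp 1 * x := Real.exp_add _ _
        _ ≤ _ := by
          gcongr
          linarith [Real.exp_one_lt_d9]
    have hE0 : 0 ≤ E := by positivity
    have h2 : x ≤ Real.exp (-E + (t - τ) ^ 2 / (4 * V)) := by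
      rw [hx]
      gcongr
      norm_num
    have h3 : x ^ 2 ≤ Real.exp (-E + (t - τ) ^ 2 / (4 * V)) := by
      rw [hx, ← Real.exp_nat_mul]
      apply Real.exp_le_exp.mpr
      push_cast
      have e : 2 * (-E + (t - τ) ^ 2 / (8 * V)) = -E - E + (t - τ) ^ 2 / (4 * V) := by
        field_simp
        ring
      rw [e]
      linarith
    have hx0 : 0 ≤ x := (Real.exp_pos _).le
    calc ‖2 * q (2 * V) τ 0 (σ + t * I) - q (2 * V) τ 0 (σ + t * I) ^ 2‖
        ≤ 2 * ‖q (2 * V) τ 0 (σ + t * I)‖ + ‖q (2 * V) τ 0 (σ + t * I)‖ ^ 2 := by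
          refine (norm_sub_le _ _).trans ?_
          rw [norm_mul, norm_pow, Complex.norm_ofNat]
      _ ≤ 2 * (3 * x) + (3 * x) ^ 2 := by gcongr
      _ ≤ _ := by nlinarith
  have hzb : ∀ {σ : ℝ} (t : ℝ), 1 / 8 ≤ σ → σ ≤ 10 → 1 / 4 ≤ |σ - 1| →
      ‖riemannZeta (σ + t * I) ^ 2‖ ≤ 16 * Cz ^ 2 * (1 + |t|) ^ 4 := by
    intro σ t h1 h2 h3
    have h4 := zeta_le hCz hz (σ := σ) (y := 0) (t := t) h1 h2 h3
    rw [ofReal_zero, zero_mul, add_zero, abs_zero, add_zero, one_pow, mul_one] at h4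
    rw [norm_pow]
    calc ‖riemannZeta (σ + t * I)‖ ^ 2 ≤ (4 * Cz * (1 + |t|) ^ 2) ^ 2 := by gcongr
      _ = _ := by ring
  have hF₁b : ∀ t, ‖F₁ t‖ ≤ (15 * (16 * Cz ^ 2)) * (1 + |t|) ^ 4 *
      Real.exp (-E + (t - τ) ^ 2 / (4 * V)) := by
    intro t
    rw [hF₁]
    simp only
    have e1 : ‖cexp ((t * I) * ω)‖ = 1 := by
      rw [show (t * I : ℂ) * ω = ((t * ω : ℝ) : ℂ) * I by push_cast; ring]
      exact norm_exp_ofReal_mul_I _
    rw [norm_mul, norm_mul, e1, mul_one]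
    have h1 := hzb (σ := 1 / 2) t (by norm_num) (by norm_num)
      (by rw [abs_of_nonpos] <;> norm_num)
    have h2 := hq (1 / 2) t
    calc ‖riemannZeta ((1 / 2 : ℝ) + t * I) ^ 2‖ * _
        ≤ (16 * Cz ^ 2 * (1 + |t|) ^ 4) *
          (15 * Real.exp (-E + (t - τ) ^ 2 / (4 * V))) := mul_le_mul h1 h2 (norm_nonneg _)
            (by positivity)
      _ = _ := by ring
  have hvT : (v : ℝ) ≤ T := hvX.trans hXT
  have hwt : Real.exp ((9 - 1 / 2) * ω) ≤ T ^ 9 := by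
    have hv0 : (0 : ℝ) < v := by exact_mod_cast hv
    have hlu : 0 ≤ Real.log u := Real.log_nonneg (by exact_mod_cast hu)
    have hlv : 0 ≤ Real.log v := Real.log_nonneg (by exact_mod_cast hv)
    have h5 : (9 - 1 / 2) * ω ≤ ((9 : ℕ) : ℝ) * Real.log v := by
      rw [hω]
      push_cast
      linarith
    calc Real.exp ((9 - 1 / 2) * ω) ≤ Real.exp (((9 : ℕ) : ℝ) * Real.log v) :=
          Real.exp_le_exp.mpr h5
      _ = (v : ℝ) ^ 9 := by rw [Real.exp_nat_mul, Real.exp_log hv0]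
      _ ≤ T ^ 9 := by gcongr
  have hZb : ∀ t, ‖Z t‖ ≤ (16 * Cz ^ 2 * T ^ 9) * (1 + |t|) ^ 4 := by
    intro t
    rw [hZ]
    simp only
    have e1 : ‖cexp ((l * (t - τ) : ℝ) * I)‖ = 1 := norm_exp_ofReal_mul_I _
    have e2 : ‖cexp (((9 : ℂ) + t * I - (1 / 2 : ℝ)) * (Real.log v - Real.log u : ℝ))‖ ≤ T ^ 9 := by
      rw [norm_exp]
      have e3 : (((9 : ℂ) + t * I - (1 / 2 : ℝ)) * (Real.log v - Real.log u : ℝ)).re =
          (9 - 1 / 2) * ω := by
        rw [← hω, mul_comm, re_ofReal_mul, mul_comm]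
        simp
      rw [e3]
      exact hwt
    rw [norm_mul, norm_mul, e1, mul_one]
    have h1 := hzb (σ := 9) t (by norm_num) (by norm_num) (by norm_num)
    push_cast at h1
    calc ‖riemannZeta (9 + t * I) ^ 2‖ *
          ‖cexp (((9 : ℂ) + t * I - (1 / 2 : ℝ)) * (Real.log v - Real.log u : ℝ))‖
        ≤ (16 * Cz ^ 2 * (1 + |t|) ^ 4) * T ^ 9 := mul_le_mul h1 e2 (norm_nonneg _)
            (by positivity)
      _ = _ := by ring
  have hF₂b : ∀ t, ‖F₂ t‖ ≤ (15 * (16 * Cz ^ 2) * T ^ 9) * (1 + |t|) ^ 4 *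
      Real.exp (-E + (t - τ) ^ 2 / (4 * V)) := by
    intro t
    rw [hF₂]
    simp only
    rw [norm_mul]
    have h2 := hq 9 t
    calc ‖Z t‖ * _
        ≤ ((16 * Cz ^ 2 * T ^ 9) * (1 + |t|) ^ 4) *
          (15 * Real.exp (-E + (t - τ) ^ 2 / (4 * V))) := mul_le_mul (hZb t) h2 (norm_nonneg _)
            (by positivity)
      _ = _ := by ring
  have hT9 : 0 ≤ T ^ 9 := by positivity
  -- integrability
  have hcz : ∀ {σ : ℝ}, σ ≠ 1 → Continuous fun t : ℝ => riemannZeta (σ + t * I) ^ 2 := by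
    intro σ hσ
    have h1 := cont_zeta_line (σ := σ) 0 hσ
    simp only [ofReal_zero, zero_mul, add_zero] at h1
    exact h1.pow 2
  have hAi : Integrable A (gaussianReal τ w) := by
    refine integrable_of_poly τ w (C := 16 * Cz ^ 2) (m := 4) ?_ fun t => ?_
    · rw [show A = fun t : ℝ => riemannZeta ((1 / 2 : ℝ) + t * I) ^ 2 * cexp ((t * I) * ω) from
        funext hAeq]
      exact ((hcz (by norm_num)).mul (by fun_prop)).aestronglyMeasurable
    · rw [hAeq, norm_mul]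
      have e1 : ‖cexp ((t * I) * ω)‖ = 1 := by
        rw [show (t * I : ℂ) * ω = ((t * ω : ℝ) : ℂ) * I by push_cast; ring]
        exact norm_exp_ofReal_mul_I _
      rw [e1, mul_one]
      exact hzb (σ := 1 / 2) t (by norm_num) (by norm_num) (by rw [abs_of_nonpos] <;> norm_num)
  have hquad : ∀ K : ℝ, Integrable (fun t : ℝ => K * (1 + |t|) ^ 4 *
      Real.exp (-E + (t - τ) ^ 2 / (4 * V))) (gaussianReal τ w) := by
    intro K
    refine ((Z2.integrable_quad τ hVne).const_mul (K * Real.exp (-E))).congr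
      (Eventually.of_forall fun t => ?_)
    simp only
    rw [Real.exp_add, ← hVdef]
    ring
  have hqc : ∀ σ : ℝ, Continuous fun t : ℝ => 2 * q (2 * V) τ 0 (σ + t * I) -
      q (2 * V) τ 0 (σ + t * I) ^ 2 := by
    intro σ
    have h1 : Continuous fun t : ℝ => q (2 * V) τ 0 (σ + t * I) :=
      (ZetaPair.q_diff (2 * V) τ 0).continuous.comp (by fun_prop)
    exact (continuous_const.mul h1).sub (h1.pow 2)
  have hF₁i : Integrable F₁ (gaussianReal τ w) := by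
    refine (hquad _).mono' ?_ (Eventually.of_forall hF₁b)
    exact (((hcz (by norm_num)).mul (hqc (1 / 2))).mul
      (by fun_prop)).aestronglyMeasurable
  have hZc : Continuous Z := by
    rw [hZ]
    have h1 := hcz (σ := 9) (by norm_num)
    push_cast at h1
    exact (h1.mul (by fun_prop)).mul (by fun_prop)
  have hF₂i : Integrable F₂ (gaussianReal τ w) := by
    refine (hquad _).mono' ?_ (Eventually.of_forall hF₂b)
    exact (hZc.mul (hqc 9)).aestronglyMeasurable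
  have hZi : Integrable Z (gaussianReal τ w) :=
    integrable_of_poly τ w hZc.aestronglyMeasurable hZb
  -- assembling
  simp only [hg1, hg2] at hshift
  rw [integral_sub hAi hF₁i, integral_sub hZi hF₂i] at hshift
  show ‖EG (Td δ T) τ A - _‖ ≤ _
  set M : ℂ := (if u ∣ v then (dv (v / u) : ℂ) * ((v / u : ℕ) : ℂ) ^ (-(1 / 2 : ℂ)) else 0)
    with hMdef
  set P : ℂ := (Real.exp ((9 - 1 / 2) ^ 2 / (2 * V)) : ℂ) with hP
  have hsum := Z2.sum_part (τ := τ) hX1 hXT hwX hY hu hv hvX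
  rw [← hVdef, ← hP, ← hMdef, ← hZ8, ← hl] at hsum
  have hPn : ‖P‖ ≤ 4 := by
    rw [hP, norm_real, Real.norm_eq_abs, abs_of_pos (Real.exp_pos _)]
    have h5 : (9 - 1 / 2) ^ 2 / (2 * V) ≤ 1.02 := by
      rw [div_le_iff₀ (by positivity)]
      norm_num
      linarith
    have h7 : Real.exp 1.02 ≤ 4 := by
      have e : Real.exp 1.02 = Real.exp 1 * Real.exp 0.02 := by
        rw [← Real.exp_add]; norm_num
      have h8 : Real.exp 0.02 ≤ 1.1 := by
        have := Real.exp_bound_div_one_sub_of_interval (x := 0.02) (by norm_num) (by norm_num)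
        refine this.trans ?_
        norm_num
      rw [e]
      have h9 := Real.exp_one_lt_d9
      have h10 := Real.exp_pos 1
      nlinarith [Real.exp_pos 0.02]
    exact (Real.exp_le_exp.mpr h5).trans h7
  have eF₁ := Z2.err hVne hT1 hVT hτ2 (by positivity) hF₁b
  have eF₂ := Z2.err hVne hT1 hVT hτ2 (by positivity) hF₂b
  have key : (∫ t, A t ∂(gaussianReal τ w)) - M = (∫ t, F₁ t ∂(gaussianReal τ w)) -
      P * (∫ t, F₂ t ∂(gaussianReal τ w)) +
      (P * (∫ t, Z t ∂(gaussianReal τ w)) - M) := by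
    linear_combination hshift
  unfold EG
  rw [← hw, key]
  have hexpE : Real.exp (-E) ≤ Real.exp (-r) := Real.exp_le_exp.mpr (neg_le_neg hrE)
  have hexp2 : Real.exp (-(Y / 32)) ≤ Real.exp (-r) :=
    Real.exp_le_exp.mpr (neg_le_neg hr2)
  have hfin := hT₁ T hTT1
  rw [← hr] at hfin
  have hTp : ∀ m n : ℕ, m ≤ n → T ^ m ≤ T ^ n := fun m n h => pow_le_pow_right₀ hT1 h
  calc ‖(∫ t, F₁ t ∂(gaussianReal τ w)) - P * (∫ t, F₂ t ∂(gaussianReal τ w)) +
      (P * (∫ t, Z t ∂(gaussianReal τ w)) - M)‖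
      ≤ ‖∫ t, F₁ t ∂(gaussianReal τ w)‖ + ‖P‖ * ‖∫ t, F₂ t ∂(gaussianReal τ w)‖ +
        ‖P * (∫ t, Z t ∂(gaussianReal τ w)) - M‖ := by
        refine (norm_add_le _ _).trans ?_
        gcongr
        refine (norm_sub_le _ _).trans ?_
        rw [norm_mul]
    _ ≤ 15 * (16 * Cz ^ 2) * Real.exp (-r) * (4200 * T ^ 4) +
        4 * (15 * (16 * Cz ^ 2) * T ^ 9 * Real.exp (-r) * (4200 * T ^ 4)) +
        4 * T ^ 9 * Real.exp (-r) * Z8 := by
        gcongr ?_ + ?_ * ?_ + ?_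
        · exact eF₁.trans (by gcongr)
        · exact eF₂.trans (by gcongr)
        · exact hsum.trans (by gcongr)
    _ = (15 * (16 * Cz ^ 2) * 4200 * T ^ 4 + 4 * (15 * (16 * Cz ^ 2) * 4200) * T ^ 13 +
        4 * Z8 * T ^ 9) * Real.exp (-r) := by ring
    _ ≤ (15 * (16 * Cz ^ 2) * 4200 * T ^ 13 + 4 * (15 * (16 * Cz ^ 2) * 4200) * T ^ 13 +
        4 * Z8 * T ^ 13) * Real.exp (-r) := by
        gcongr ?_ * _
        gcongr ?_ + _ + ?_
        · exact mul_le_mul_of_nonneg_left (hTp 4 13 (by norm_num)) (by positivity)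
        · exact mul_le_mul_of_nonneg_left (hTp 9 13 (by norm_num)) (by positivity)
    _ = (15 * (16 * Cz ^ 2) * 4200 + 4 * (15 * (16 * Cz ^ 2) * 4200) + 4 * Z8) * T ^ 13 *
        Real.exp (-r) := by ring
    _ ≤ _ := by
        rw [hKt] at hfin
        exact hfin

end K3
end Pool.Agent.Lib.MP_973905_nt
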