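import Pool.Agent.Lib.MP_973905_nt.K3.Stmts
import Pool.Agent.Lib.MP_973905_nt.K1.BlockShift
import Pool.Agent.Lib.MP_973905_nt.K1R.BlockShift

/-! Module (6) of K3: one block with four shifts. -/

namespace Pool.Agent.Lib.MP_973905_nt
namespace K3

open MeasureTheory ProbabilityTheory Complex Filter Topology K1

namespace Blk4

open BlkShift K1R.BlkShiftR

/-- the function under the average -/
noncomputable def FL4 (u x : ℝ) (x₁ x₂ y₁ y₂ : ℂ) (z : ℂ) : ℂ :=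
  (1 - x₁ * z)⁻¹ * (1 - x₂ * z)⁻¹ *
    (1 - y₁ * (starRingEnd ℂ) z)⁻¹ * (1 - y₂ * (starRingEnd ℂ) z)⁻¹ *
    ((‖1 - x * z‖ ^ (2 * u) : ℝ) : ℂ)

lemma FL4_cont {u x : ℝ} {x₁ x₂ y₁ y₂ : ℂ} (hx0 : 0 ≤ x) (hx : x < 1) (h1 : ‖x₁‖ < 1)
    (h2 : ‖x₂‖ < 1) (h3 : ‖y₁‖ < 1) (h4 : ‖y₂‖ < 1) :
    ContinuousOn (FL4 u x x₁ x₂ y₁ y₂) (Metric.sphere 0 |(1 : ℝ)|) := by
  have hz : ∀ z ∈ Metric.sphere (0 : ℂ) |(1 : ℝ)|, ‖z‖ = 1 := by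
    intro z hz; simpa using hz
  have c1 : ∀ y : ℂ, ‖y‖ < 1 → ContinuousOn (fun z : ℂ => (1 - y * z)⁻¹)
      (Metric.sphere 0 |(1 : ℝ)|) := fun y hy =>
    ContinuousOn.inv₀ (by fun_prop) fun z hz' => one_sub_ne hy (hz z hz')
  have c2 : ∀ y : ℂ, ‖y‖ < 1 → ContinuousOn (fun z : ℂ => (1 - y * (starRingEnd ℂ) z)⁻¹)
      (Metric.sphere 0 |(1 : ℝ)|) := fun y hy => by
    refine ContinuousOn.inv₀ ?_ fun z hz' => one_sub_ne hy (by rw [RCLike.norm_conj]; exact hz z hz')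
    exact continuousOn_const.sub (continuousOn_const.mul continuous_conj.continuousOn)
  unfold FL4
  refine ((((c1 _ h1).mul (c1 _ h2)).mul (c2 _ h3)).mul (c2 _ h4)).mul ?_
  refine continuous_ofReal.comp_continuousOn ?_
  refine ContinuousOn.rpow_const (by fun_prop) fun z hz' => Or.inl ?_
  rw [norm_ne_zero_iff]
  exact one_sub_ne (by rw [norm_real, Real.norm_eq_abs, abs_of_nonneg hx0]; exact hx) (hz z hz')

lemma norm_le_of {x : ℝ} {y : ℂ} (hx0 : 0 ≤ x) (hy : ‖y - x‖ ≤ 21 / 1000 * x) :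
    ‖y‖ ≤ 1021 / 1000 * x := by
  have h3 : ‖y‖ ≤ ‖y - x‖ + ‖(x : ℂ)‖ := by
    have := norm_add_le (y - x) (x : ℂ); rwa [sub_add_cancel] at this
  rw [norm_real, Real.norm_eq_abs, abs_of_nonneg hx0] at h3
  linarith

/-- the perturbation of one factor -/
lemma pert {x : ℝ} {y w : ℂ} (hx0 : 0 ≤ x) (hx : x ≤ 7072 / 10000)
    (hy : ‖y - x‖ ≤ 21 / 1000 * x) (hw : ‖w‖ = 1) :
    ∃ e : ℂ, ‖e‖ ≤ 535 / 10000 ∧ (1 - y * w)⁻¹ = (1 - x * w)⁻¹ * (1 + e) := by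
  have hyn := norm_le_of hx0 hy
  have hxn : ‖(x : ℂ)‖ = x := by rw [norm_real, Real.norm_eq_abs, abs_of_nonneg hx0]
  have n1 := one_sub_ne (w := y) (by linarith) hw
  have n3 := one_sub_ne (w := (x : ℂ)) (by rw [hxn]; linarith) hw
  refine ⟨(y - x) * w / (1 - y * w), ?_, ?_⟩
  · rw [norm_div, norm_mul, hw, mul_one, div_le_iff₀ (norm_pos_iff.mpr n1)]
    have h4 : 2779 / 10000 ≤ ‖1 - y * w‖ := by
      have := norm_sub_norm_le (1 : ℂ) (y * w)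
      rw [norm_one, norm_mul, hw, mul_one] at this
      linarith
    nlinarith
  · have q : 1 + (y - x) * w / (1 - y * w) = (1 - x * w) * (1 - y * w)⁻¹ := by
      rw [div_eq_mul_inv]
      have := mul_inv_cancel₀ n1
      linear_combination -this
    rw [q, inv_mul_cancel_left₀ n3]

lemma FL4_re {u x : ℝ} {x₁ x₂ y₁ y₂ : ℂ} (hu : |u| ≤ 1 / 10) (hx0 : 0 ≤ x)
    (hx : x ≤ 7072 / 10000) (h1 : ‖x₁ - x‖ ≤ 21 / 1000 * x) (h2 : ‖x₂ - x‖ ≤ 21 / 1000 * x)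
    (h3 : ‖y₁ - x‖ ≤ 21 / 1000 * x) (h4 : ‖y₂ - x‖ ≤ 21 / 1000 * x) {z : ℂ} (hz : ‖z‖ = 1) :
    7 / 100 ≤ (FL4 u x x₁ x₂ y₁ y₂ z).re := by
  obtain ⟨hu0, hu1⟩ := abs_le.mp hu
  have hxn : ‖(x : ℂ)‖ = x := by rw [norm_real, Real.norm_eq_abs, abs_of_nonneg hx0]
  have hcz : ‖(starRingEnd ℂ) z‖ = 1 := by rw [RCLike.norm_conj]; exact hz
  have n3 := one_sub_ne (w := (x : ℂ)) (by rw [hxn]; linarith) hz
  obtain ⟨e₁, b1, i1⟩ := pert hx0 hx h1 hz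
  obtain ⟨e₂, b2, i2⟩ := pert hx0 hx h2 hz
  obtain ⟨g₁, b3, i3⟩ := pert hx0 hx h3 hcz
  obtain ⟨g₂, b4, i4⟩ := pert hx0 hx h4 hcz
  have c1 : (starRingEnd ℂ) (1 - x * z) = 1 - x * (starRingEnd ℂ) z := by
    rw [map_sub, map_mul, map_one, conj_ofReal]
  have c2 : (1 - (x : ℂ) * z)⁻¹ * (1 - (x : ℂ) * (starRingEnd ℂ) z)⁻¹ =
      (((‖1 - (x : ℂ) * z‖ ^ 2)⁻¹ : ℝ) : ℂ) := by
    rw [← c1, ← mul_inv, mul_conj, normSq_eq_norm_sq]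
    push_cast; rfl
  set r : ℝ := ‖1 - (x : ℂ) * z‖ with hr
  have hr0 : 0 < r := norm_pos_iff.mpr n3
  have hr1 : r ≤ 17072 / 10000 := by
    have := norm_sub_le (1 : ℂ) (x * z)
    rw [norm_one, norm_mul, hxn, hz, mul_one] at this
    rw [hr]; linarith
  have e : FL4 u x x₁ x₂ y₁ y₂ z = ((((r ^ 2)⁻¹ * (r ^ 2)⁻¹) * r ^ (2 * u) : ℝ) : ℂ) *
      (((1 + e₁) * (1 + e₂)) * ((1 + g₁) * (1 + g₂))) := by
    rw [FL4, i1, i2, i3, i4, ofReal_mul, ofReal_mul]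
    rw [← c2]
    ring
  rw [e, re_ofReal_mul]
  have key : ∀ a b : ℂ, ‖a‖ ≤ 535 / 10000 → ‖b‖ ≤ 535 / 10000 →
      ‖(1 + a) * (1 + b) - 1‖ ≤ 11 / 100 := by
    intro a b ha hb
    have h5 : (1 + a) * (1 + b) - 1 = a + b + a * b := by ring
    rw [h5]
    have q1 := norm_add_le (a + b) (a * b)
    have q2 := norm_add_le a b
    rw [norm_mul] at q1
    nlinarith [norm_nonneg a, norm_nonneg b]
  have h5 : 767 / 1000 ≤ (((1 + e₁) * (1 + e₂)) * ((1 + g₁) * (1 + g₂))).re := by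
    have k1 := key e₁ e₂ b1 b2
    have k2 := key g₁ g₂ b3 b4
    set α : ℂ := (1 + e₁) * (1 + e₂) - 1 with hα
    set β : ℂ := (1 + g₁) * (1 + g₂) - 1 with hβ
    have h6 : ((1 + e₁) * (1 + e₂)) * ((1 + g₁) * (1 + g₂)) = 1 + (α + β + α * β) := by
      rw [hα, hβ]; ring
    rw [h6, add_re, one_re]
    have h7 : ‖α + β + α * β‖ ≤ 233 / 1000 := by
      have q1 := norm_add_le (α + β) (α * β)
      have q2 := norm_add_le α β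
      rw [norm_mul] at q1
      nlinarith [norm_nonneg α, norm_nonneg β]
    have h8 := (abs_le.mp ((abs_re_le_norm _).trans h7)).1
    linarith
  have h6 : 1 / 10 ≤ ((r ^ 2)⁻¹ * (r ^ 2)⁻¹) * r ^ (2 * u) := by
    have h7 : ((r ^ 2)⁻¹ * (r ^ 2)⁻¹) * r ^ (2 * u) = r ^ (2 * u - 4) := by
      rw [← Real.rpow_two, ← Real.rpow_neg hr0.le, ← Real.rpow_add hr0, ← Real.rpow_add hr0]
      congr 1; ring
    rw [h7]
    rcases le_or_gt 1 r with h8 | h8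
    · have h9 : r ^ (-(21 / 5) : ℝ) ≤ r ^ (2 * u - 4) :=
        Real.rpow_le_rpow_of_exponent_le h8 (by linarith)
      have h10 : r ^ (21 / 5 : ℝ) ≤ 10 := by
        have h11 : r ^ (21 / 5 : ℝ) ≤ (17072 / 10000 : ℝ) ^ (21 / 5 : ℝ) :=
          Real.rpow_le_rpow hr0.le hr1 (by norm_num)
        refine h11.trans ?_
        have h12 : ((17072 / 10000 : ℝ) ^ (21 / 5 : ℝ)) ^ 5 ≤ (10 : ℝ) ^ 5 := by
          rw [← Real.rpow_natCast, ← Real.rpow_mul (by norm_num)]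
          rw [show (21 / 5 : ℝ) * ((5 : ℕ) : ℝ) = ((21 : ℕ) : ℝ) by norm_num, Real.rpow_natCast]
          norm_num
        exact le_of_pow_le_pow_left₀ (by norm_num) (by norm_num) h12
      refine le_trans ?_ h9
      rw [Real.rpow_neg hr0.le, le_inv_comm₀ (by norm_num) (by positivity)]
      linarith
    · have h9 : 1 ≤ r ^ (2 * u - 4) :=
        Real.one_le_rpow_of_pos_of_le_one_of_nonpos hr0 h8.le (by linarith)
      linarith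
  nlinarith

lemma LF4_ge {u x : ℝ} {x₁ x₂ y₁ y₂ : ℂ} (hu : |u| ≤ 1 / 10) (hx0 : 0 ≤ x)
    (hx : x ≤ 7072 / 10000) (h1 : ‖x₁ - x‖ ≤ 21 / 1000 * x) (h2 : ‖x₂ - x‖ ≤ 21 / 1000 * x)
    (h3 : ‖y₁ - x‖ ≤ 21 / 1000 * x) (h4 : ‖y₂ - x‖ ≤ 21 / 1000 * x) :
    7 / 100 ≤ ‖LF4 u x x₁ x₂ y₁ y₂‖ := by
  have hn : ∀ y : ℂ, ‖y - x‖ ≤ 21 / 1000 * x → ‖y‖ < 1 := by
    intro y hy
    have := norm_le_of hx0 hy
    linarith
  have hcont := FL4_cont (u := u) hx0 (by linarith) (hn x₁ h1) (hn x₂ h2) (hn y₁ h3) (hn y₂ h4)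
  have hc : CircleIntegrable (FL4 u x x₁ x₂ y₁ y₂) 0 1 := hcont.circleIntegrable'
  have hLF : LF4 u x x₁ x₂ y₁ y₂ = Real.circleAverage (FL4 u x x₁ x₂ y₁ y₂) 0 1 := rfl
  have hre : (LF4 u x x₁ x₂ y₁ y₂).re =
      Real.circleAverage (fun z => (FL4 u x x₁ x₂ y₁ y₂ z).re) 0 1 := by
    rw [hLF, Real.circleAverage_def, Real.circleAverage_def]
    rw [Complex.smul_re]
    congr 1
    have := Complex.reCLM.intervalIntegral_comp_comm (μ := volume) (a := 0) (b := 2 * Real.pi) hc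
    simp only [Complex.reCLM_apply] at this
    exact this.symm
  have hmono : Real.circleAverage (fun _ : ℂ => (7 / 100 : ℝ)) 0 1 ≤
      Real.circleAverage (fun z => (FL4 u x x₁ x₂ y₁ y₂ z).re) 0 1 := by
    apply Real.circleAverage_mono
    · exact circleIntegrable_const _ _ _
    · exact (Complex.continuous_re.comp_continuousOn hcont).circleIntegrable'
    · intro z hz
      exact FL4_re hu hx0 hx h1 h2 h3 h4 (by simpa using hz)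
  rw [Real.circleAverage_const] at hmono
  calc (7 / 100 : ℝ) ≤ (LF4 u x x₁ x₂ y₁ y₂).re := by rw [hre]; exact hmono
    _ ≤ _ := re_le_norm _

/-- one factor `1 - x_i y_j` -/
lemma one_sub_mul_le {x : ℝ} {y w : ℂ} (hx0 : 0 ≤ x) (hx : x ≤ 7072 / 10000)
    (h1 : ‖y - x‖ ≤ 21 / 1000 * x) :
    ‖1 - y * w‖ ≤ Real.exp (-x ^ 2 + 2 * (x * ‖y - x‖ + x * ‖w - x‖)) ∧
      ‖1 - w * y‖ ≤ Real.exp (-x ^ 2 + 2 * (x * ‖y - x‖ + x * ‖w - x‖)) := by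
  have hyn := norm_le_of hx0 h1
  have hxs : x ^ 2 ≤ 501 / 1000 := by nlinarith
  have main : ‖1 - y * w‖ ≤ Real.exp (-x ^ 2 + 2 * (x * ‖y - x‖ + x * ‖w - x‖)) := by
    have e5 : 1 - y * w = ((1 - x ^ 2 : ℝ) : ℂ) - (x * (y - x) + y * (w - x)) := by
      push_cast; ring
    have h6 : ‖(x : ℂ) * (y - x) + y * (w - x)‖ ≤ 2 * (x * ‖y - x‖ + x * ‖w - x‖) := by
      refine (norm_add_le _ _).trans ?_
      rw [norm_mul, norm_mul, norm_real, Real.norm_eq_abs, abs_of_nonneg hx0]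
      have : ‖y‖ * ‖w - x‖ ≤ 1021 / 1000 * x * ‖w - x‖ := by gcongr
      have h7 : 0 ≤ x * ‖y - x‖ := by positivity
      have h8 : 0 ≤ x * ‖w - x‖ := by positivity
      nlinarith
    have h7 : ‖1 - y * w‖ ≤ (1 - x ^ 2) + 2 * (x * ‖y - x‖ + x * ‖w - x‖) := by
      rw [e5]
      refine (norm_sub_le _ _).trans ?_
      rw [norm_real, Real.norm_eq_abs, abs_of_nonneg (by linarith)]
      linarith
    have h8 := Real.add_one_le_exp (-x ^ 2 + 2 * (x * ‖y - x‖ + x * ‖w - x‖))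
    linarith
  exact ⟨main, by rw [mul_comm w y]; exact main⟩

lemma LF4_lower (h : StLF4) : ∃ B : ℝ, 0 < B ∧ ∀ (u x : ℝ) (x₁ x₂ y₁ y₂ : ℂ), |u| ≤ 1 / 10 →
    0 ≤ x → x ≤ 7072 / 10000 → ‖x₁ - x‖ ≤ 21 / 1000 * x → ‖x₂ - x‖ ≤ 21 / 1000 * x →
    ‖y₁ - x‖ ≤ 21 / 1000 * x → ‖y₂ - x‖ ≤ 21 / 1000 * x →
    Real.exp ((2 - u) ^ 2 * x ^ 2 - B * (x * (‖x₁ - x‖ + ‖x₂ - x‖ + ‖y₁ - x‖ + ‖y₂ - x‖) + x ^ 4)) ≤
      ‖LF4 u x x₁ x₂ y₁ y₂‖ := by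
  obtain ⟨C, hC, h⟩ := h
  refine ⟨48 * (C + 3), by positivity, fun u x x₁ x₂ y₁ y₂ hu hx0 hx h1 h2 h3 h4 => ?_⟩
  obtain ⟨hu0, hu1⟩ := abs_le.mp hu
  set ε : ℝ := x * (‖x₁ - x‖ + ‖x₂ - x‖ + ‖y₁ - x‖ + ‖y₂ - x‖) + x ^ 4 with hε
  have hε0 : 0 ≤ ε := by positivity
  have g1 : 0 ≤ x * ‖x₁ - x‖ := by positivity
  have g2 : 0 ≤ x * ‖x₂ - x‖ := by positivity
  have g3 : 0 ≤ x * ‖y₁ - x‖ := by positivity
  have g4 : 0 ≤ x * ‖y₂ - x‖ := by positivity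
  have gx4 : 0 ≤ x ^ 4 := by positivity
  have hεs : ε = x * ‖x₁ - x‖ + x * ‖x₂ - x‖ + x * ‖y₁ - x‖ + x * ‖y₂ - x‖ + x ^ 4 := by
    rw [hε]; ring
  have hx4 : x ^ 4 ≤ ε := by linarith
  have hxs : x ^ 2 ≤ 501 / 1000 := by nlinarith
  have hx44 : x ^ 4 ≤ 252 / 1000 := by
    have : x ^ 4 = x ^ 2 * x ^ 2 := by ring
    rw [this]
    nlinarith [sq_nonneg x]
  rcases le_or_gt ((C + 3) * ε) (1 / 8) with hcase | hcase
  · have hx1 := norm_le_of hx0 h1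
    have hx2 := norm_le_of hx0 h2
    have hy1 := norm_le_of hx0 h3
    have hy2 := norm_le_of hx0 h4
    have h5 := h u x x₁ x₂ y₁ y₂ hu hx0 (by linarith) (by linarith) (by linarith) (by linarith)
      (by linarith) (by linarith) (by linarith) (by linarith) (by linarith)
    have e3 : C * |u| * x * (‖x₁ - x‖ + ‖x₂ - x‖ + ‖y₁ - x‖ + ‖y₂ - x‖ + x ^ 3) ≤ C * ε := by
      have : C * |u| * x * (‖x₁ - x‖ + ‖x₂ - x‖ + ‖y₁ - x‖ + ‖y₂ - x‖ + x ^ 3) =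
        |u| * (C * ε) := by rw [hε]; ring
      rw [this]
      exact mul_le_of_le_one_left (by positivity) (by linarith)
    set A : ℝ := (u ^ 2 - 4 * u) * x ^ 2 with hA
    have hu2 : u ^ 2 ≤ 1 / 100 := by nlinarith
    have hA1 : A ≤ x ^ 2 :=
      mul_le_of_le_one_left (sq_nonneg x) (by linarith)
    have hA2 : -(4 / 10) * x ^ 2 ≤ A := by
      rw [hA]
      exact mul_le_mul_of_nonneg_right (by nlinarith [sq_nonneg u]) (sq_nonneg x)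
    have hA3 : A ^ 2 ≤ ε := by
      have : A ^ 2 ≤ (x ^ 2) ^ 2 := by nlinarith [sq_nonneg x]
      calc A ^ 2 ≤ (x ^ 2) ^ 2 := this
        _ = x ^ 4 := by ring
        _ ≤ ε := hx4
    have hA4 : 1 / 2 ≤ 1 + A := by nlinarith [sq_nonneg x]
    set w : ℂ := x₁ * x₂ * y₁ * y₂ with hw
    have hwn : ‖w‖ ≤ 2 * ε := by
      have q1 : ‖w‖ ≤ (1021 / 1000 * x) * (1021 / 1000 * x) * (1021 / 1000 * x) *
          (1021 / 1000 * x) := by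
        rw [hw, norm_mul, norm_mul, norm_mul]
        gcongr
      have q2 : (1021 / 1000 * x) * (1021 / 1000 * x) * (1021 / 1000 * x) *
          (1021 / 1000 * x) = (1021 / 1000) ^ 4 * x ^ 4 := by ring
      rw [q2] at q1
      have q3 : (1021 / 1000 : ℝ) ^ 4 ≤ 2 := by norm_num
      nlinarith
    have h6 : (1 + A) * (1 - 2 * ε) - C * ε ≤
        ‖(1 - x₁ * y₁) * (1 - x₁ * y₂) * (1 - x₂ * y₁) * (1 - x₂ * y₂) *
          LF4 u x x₁ x₂ y₁ y₂‖ := by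
      have h7 := norm_sub_norm_le (((1 + A : ℝ) : ℂ) * (1 - w))
        ((1 - x₁ * y₁) * (1 - x₁ * y₂) * (1 - x₂ * y₁) * (1 - x₂ * y₂) * LF4 u x x₁ x₂ y₁ y₂)
      rw [norm_sub_rev, norm_mul, norm_real, Real.norm_eq_abs, abs_of_nonneg (by linarith)] at h7
      have h8 := h5.trans e3
      have h9 : 1 - 2 * ε ≤ ‖1 - w‖ := by
        have := norm_sub_norm_le (1 : ℂ) w
        rw [norm_one] at this
        linarith
      have h10 := mul_le_mul_of_nonneg_left h9 (show 0 ≤ 1 + A by linarith)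
      linarith
    have h7 : ‖(1 - x₁ * y₁) * (1 - x₁ * y₂) * (1 - x₂ * y₁) * (1 - x₂ * y₂)‖ ≤
        Real.exp (-(4 * x ^ 2) + 8 * ε) := by
      rw [norm_mul, norm_mul, norm_mul]
      have p1 := (one_sub_mul_le (w := y₁) hx0 hx h1).1
      have p2 := (one_sub_mul_le (w := y₂) hx0 hx h1).1
      have p3 := (one_sub_mul_le (w := y₁) hx0 hx h2).1
      have p4 := (one_sub_mul_le (w := y₂) hx0 hx h2).1
      have k : ∀ t : ℝ, t ≤ ε → Real.exp (-x ^ 2 + 2 * t) ≤ Real.exp (-x ^ 2 + 2 * ε) :=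
        fun t ht => Real.exp_le_exp.mpr (by linarith)
      have p1' := p1.trans (k _ (by linarith))
      have p2' := p2.trans (k _ (by linarith))
      have p3' := p3.trans (k _ (by linarith))
      have p4' := p4.trans (k _ (by linarith))
      calc ‖1 - x₁ * y₁‖ * ‖1 - x₁ * y₂‖ * ‖1 - x₂ * y₁‖ * ‖1 - x₂ * y₂‖ ≤
          Real.exp (-x ^ 2 + 2 * ε) * Real.exp (-x ^ 2 + 2 * ε) * Real.exp (-x ^ 2 + 2 * ε) *
            Real.exp (-x ^ 2 + 2 * ε) := by gcongr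
        _ = _ := by
            rw [← Real.exp_add, ← Real.exp_add, ← Real.exp_add]
            congr 1; ring
    have h8 : Real.exp (A - 3 * ε) ≤ 1 + A := by
      refine le_trans ?_ (one_add_ge_exp (y := A) (by linarith))
      apply Real.exp_le_exp.mpr
      linarith
    have hy : 2 * (C + 1) * ε ≤ 1 / 4 := by nlinarith
    have h9 : Real.exp (-(2 * (2 * (C + 1) * ε))) ≤ 1 - 2 * (C + 1) * ε :=
      one_sub_ge_exp (by positivity) (by linarith)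
    have h10 : Real.exp (A - 3 * ε) * Real.exp (-(2 * (2 * (C + 1) * ε))) ≤
        (1 + A) * (1 - 2 * ε) - C * ε := by
      have h11 : 0 ≤ C * ε := by positivity
      calc Real.exp (A - 3 * ε) * Real.exp (-(2 * (2 * (C + 1) * ε))) ≤
          (1 + A) * (1 - 2 * (C + 1) * ε) := by gcongr
        _ ≤ _ := by nlinarith
    have h12 : Real.exp (A - 3 * ε) * Real.exp (-(2 * (2 * (C + 1) * ε))) ≤
        Real.exp (-(4 * x ^ 2) + 8 * ε) * ‖LF4 u x x₁ x₂ y₁ y₂‖ := by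
      refine h10.trans (h6.trans ?_)
      rw [norm_mul]
      exact mul_le_mul_of_nonneg_right h7 (norm_nonneg _)
    have h13 : Real.exp (4 * x ^ 2 - 8 * ε) *
        (Real.exp (-(4 * x ^ 2) + 8 * ε) * ‖LF4 u x x₁ x₂ y₁ y₂‖) = ‖LF4 u x x₁ x₂ y₁ y₂‖ := by
      rw [← mul_assoc, ← Real.exp_add]; simp
    rw [← h13]
    refine le_trans ?_ (mul_le_mul_of_nonneg_left h12 (Real.exp_pos _).le)
    rw [← Real.exp_add, ← Real.exp_add]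
    apply Real.exp_le_exp.mpr
    have h14 : (2 - u) ^ 2 * x ^ 2 = A + 4 * x ^ 2 := by rw [hA]; ring
    have h15 : 0 ≤ C * ε := by positivity
    nlinarith
  · refine le_trans ?_ (LF4_ge hu hx0 hx h1 h2 h3 h4)
    have h5 : (2 - u) ^ 2 * x ^ 2 ≤ 3 := by
      have : (2 - u) ^ 2 ≤ 441 / 100 := by nlinarith
      calc (2 - u) ^ 2 * x ^ 2 ≤ 441 / 100 * (501 / 1000) := by gcongr
        _ ≤ 3 := by norm_num
    calc Real.exp ((2 - u) ^ 2 * x ^ 2 - 48 * (C + 3) * ε) ≤ Real.exp (-1 + (-1 + -1)) := by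
          apply Real.exp_le_exp.mpr
          have : 48 * (C + 3) * ε = 48 * ((C + 3) * ε) := by ring
          linarith
      _ = Real.exp (-1) * (Real.exp (-1) * Real.exp (-1)) := by rw [Real.exp_add, Real.exp_add]
      _ ≤ 7 / 100 := by
          have q1 : Real.exp (-1) ≤ 37 / 100 := by
            have := Real.exp_neg_one_lt_d9; linarith
          have q2 := Real.exp_pos (-1)
          have q3 : Real.exp (-1) * Real.exp (-1) ≤ 37 / 100 * (37 / 100) := by gcongr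
          calc Real.exp (-1) * (Real.exp (-1) * Real.exp (-1)) ≤ 37 / 100 * (37 / 100 * (37 / 100)) := by
                gcongr
            _ ≤ 7 / 100 := by norm_num

lemma bs_Wt' {u : ℝ} {S : Finset ℕ} (hS : ∀ p ∈ S, p.Prime) : BS S (Wt u S) := by
  rcases le_total 0 u with h | h
  · exact bs_Wt h hS
  · exact bs_WtR h hS

lemma LP4_eq (u : ℝ) (a₁ a₂ b₁ b₂ : ℂ) (S : Finset ℕ) :
    ES S (fun f => ZZ S (tw (1 / 2 + a₁) f) * ZZ S (tw (1 / 2 + a₂) f) *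
      (starRingEnd ℂ) (ZZ S (tw (1 / 2 + (starRingEnd ℂ) b₁) f) *
        ZZ S (tw (1 / 2 + (starRingEnd ℂ) b₂) f)) *
      ((Wt u S f : ℝ) : ℂ)) = LP4 u a₁ a₂ b₁ b₂ S := by
  have h := ES_prod (𝕜 := ℂ) S (fun p z => FL4 u ((p : ℝ) ^ (-(1 / 2) : ℝ))
    ((p : ℂ) ^ (-(1 / 2 + a₁))) ((p : ℂ) ^ (-(1 / 2 + a₂))) ((p : ℂ) ^ (-(1 / 2 + b₁)))
    ((p : ℂ) ^ (-(1 / 2 + b₂))) z)
  rw [LP4]
  refine Eq.trans ?_ h
  congr 1
  ext f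
  rw [map_mul, conj_ZZ, conj_ZZ, ZZ, ZZ, Wt, ofReal_prod, ← Finset.prod_mul_distrib,
    ← Finset.prod_mul_distrib, ← Finset.prod_mul_distrib, ← Finset.prod_mul_distrib]
  refine Finset.prod_congr rfl fun p _ => ?_
  rw [FL4, tw_half]
  simp only [tw]
  ring

lemma fourth_moment : ∃ C : ℝ, 0 ≤ C ∧ ∀ (S : Finset ℕ) (k : ℝ) (a : ℂ), (∀ p ∈ S, p.Prime) →
    |k - 2| ≤ 1 / 10 → (∀ p ∈ S, ‖a‖ * Real.log p ≤ 1 / 20) → ‖a‖ * ∑ p ∈ S, Real.log p / p ≤ 1 →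
    ES S (fun f => ‖ZZ S (tw (1 / 2 + a) f) ^ 2‖ ^ 2 * Wt (2 - k) S f) ≤
      Real.exp (C + k ^ 2 * ∑ p ∈ S, 1 / (p : ℝ)) := by
  obtain ⟨C, hC, h⟩ := ES_exp 1
  refine ⟨16 + 14 + 3 * C, by positivity, fun S k a hS hk ha hsum => ?_⟩
  obtain ⟨hk0, hk1⟩ := abs_le.mp hk
  have hγ : ‖((k - 2 : ℝ) : ℂ)‖ ≤ 1 := by
    rw [norm_real, Real.norm_eq_abs]; linarith
  have h1 := h 3 2 S (1 / 2 + a) ((k - 2 : ℝ) : ℂ) (1 / 2) (by norm_num) (by norm_num) hγ hS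
    (fun p hp => (yp_bd (hS p hp) (ha p hp)).2)
  rcases S.eq_empty_or_nonempty with hSe | hne
  · subst hSe
    have e0 : ES ∅ (fun f => ‖ZZ ∅ (tw (1 / 2 + a) f) ^ 2‖ ^ 2 * Wt (2 - k) ∅ f) = 1 := by
      simp [ES, ZZ, Wt]
    rw [e0]
    apply Real.one_le_exp
    have : 0 ≤ k ^ 2 * ∑ p ∈ (∅ : Finset ℕ), 1 / (p : ℝ) := by simp
    linarith
  have hre : 0 < (1 / 2 + a : ℂ).re := re_pos_of hS ha hne
  have hBS : BS S (fun f => ‖(ZZ S (tw (1 / 2 + a) f)) ^ 2 *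
      cexp (((k - 2 : ℝ) : ℂ) * Pj 3 S (tw ((1 / 2 : ℝ) : ℂ) f))‖ ^ 2) :=
    (((bs_ZZ hS hre).pow 2).mul (((bs_const S _).mul (bs_Pj 3 S S _)).cexp)).norm_sq
  have step : ES S (fun f => ‖ZZ S (tw (1 / 2 + a) f) ^ 2‖ ^ 2 * Wt (2 - k) S f) ≤
      ES S (fun f => Real.exp 16 * ‖(ZZ S (tw (1 / 2 + a) f)) ^ 2 *
        cexp (((k - 2 : ℝ) : ℂ) * Pj 3 S (tw ((1 / 2 : ℝ) : ℂ) f))‖ ^ 2) := by
    apply ES_mono
    · intro ω; exact mul_nonneg (by positivity) (Wt_nonneg _ _ _)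
    · exact hBS.integrable.const_mul _
    · intro ω
      rw [norm_mul, mul_pow, mul_left_comm]
      refine mul_le_mul_of_nonneg_left ?_ (by positivity)
      rw [Wt_eq, norm_ZZ_rpow 3 hS le_rfl (norm_ext S ω), norm_exp, ← Real.exp_nat_mul,
        ← Real.exp_add]
      apply Real.exp_le_exp.mpr
      have h2 := (norm_Rm_le 3 hS le_rfl (norm_ext S ω)).trans (rho_three hS)
      have h3 := (abs_le.mp ((abs_re_le_norm _).trans h2)).1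
      have h4 := (abs_le.mp ((abs_re_le_norm _).trans h2)).2
      rw [re_ofReal_mul, Nat.cast_ofNat]
      set P := (Pj 3 S (tw ((1 / 2 : ℝ) : ℂ) (ext S ω))).re
      set R := (Rm 3 S (tw ((1 / 2 : ℝ) : ℂ) (ext S ω))).re
      have h5 : (k - 2) * R ≤ 8 := by
        have h6 : |(k - 2) * R| ≤ 1 * 8 := by
          rw [abs_mul]
          exact mul_le_mul (by linarith) (abs_le.mpr ⟨h3, h4⟩) (abs_nonneg _) zero_le_one
        linarith [le_abs_self ((k - 2) * R)]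
      nlinarith
  refine step.trans ?_
  rw [ES_const_mul]
  refine (mul_le_mul_of_nonneg_left h1 (Real.exp_pos _).le).trans ?_
  rw [← Real.exp_add]
  apply Real.exp_le_exp.mpr
  have hterm : ∀ p ∈ S, ‖((2 : ℕ) : ℂ) * (p : ℂ) ^ (-(1 / 2 + a)) + ((k - 2 : ℝ) : ℂ) *
      ((p : ℝ) ^ (-(1 / 2) : ℝ) : ℝ)‖ ^ 2 + C * (yp (1 / 2 + a).re (1 / 2) p) ^ 4 ≤
      k ^ 2 * (1 / (p : ℝ)) + 14 * (‖a‖ * (Real.log p / p)) + 3 / 2 * C * ((p : ℝ) ^ 2)⁻¹ := by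
    intro p hp
    obtain ⟨b1, b2, b3⟩ := shift_bd (hS p hp) (ha p hp)
    obtain ⟨b4, b5⟩ := yp_bd (hS p hp) (ha p hp)
    set x : ℝ := (p : ℝ) ^ (-(1 / 2) : ℝ) with hx
    have hx0 : 0 ≤ x := by positivity
    set d : ℝ := ‖(p : ℂ) ^ (-(1 / 2 + a)) - (x : ℂ)‖ with hd
    have hd0 : 0 ≤ d := norm_nonneg _
    have e1 : ‖((2 : ℕ) : ℂ) * (p : ℂ) ^ (-(1 / 2 + a)) + ((k - 2 : ℝ) : ℂ) * (x : ℂ)‖ ≤
        k * x + 2 * d := by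
      have : ((2 : ℕ) : ℂ) * (p : ℂ) ^ (-(1 / 2 + a)) + ((k - 2 : ℝ) : ℂ) * (x : ℂ) =
          ((k * x : ℝ) : ℂ) + 2 * ((p : ℂ) ^ (-(1 / 2 + a)) - (x : ℂ)) := by push_cast; ring
      rw [this]
      refine (norm_add_le _ _).trans ?_
      rw [norm_real, Real.norm_eq_abs, abs_of_nonneg (by nlinarith), norm_mul, Complex.norm_two]
    have e2 := pow_le_pow_left₀ (norm_nonneg _) e1 2
    have e3 : (k * x + 2 * d) ^ 2 ≤ k ^ 2 * x ^ 2 + 64 / 5 * (x * d) := by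
      have q1 : d ≤ x := by nlinarith
      have q2 : k * x * d ≤ 22 / 10 * (x * d) := by
        have : k * (x * d) ≤ 22 / 10 * (x * d) :=
          mul_le_mul_of_nonneg_right (by linarith) (by positivity)
        linarith
      have q3 : d * d ≤ x * d := mul_le_mul_of_nonneg_right q1 hd0
      nlinarith
    have e4 : 64 / 5 * (x * d) ≤ 14 * (‖a‖ * (Real.log p / p)) := by
      have q1 : x * d ≤ x * (105 / 100 * x * (‖a‖ * Real.log p)) := by gcongr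
      have q2 : x * (105 / 100 * x * (‖a‖ * Real.log p)) = 105 / 100 * (‖a‖ * (Real.log p / p)) := by
        have : x ^ 2 = 1 / (p : ℝ) := inv_form
        calc x * (105 / 100 * x * (‖a‖ * Real.log p)) = 105 / 100 * (‖a‖ * (Real.log p * x ^ 2)) := by ring
          _ = _ := by rw [this]; ring
      have q3 : 0 ≤ ‖a‖ * (Real.log p / p) := by
        have := Real.log_natCast_nonneg p
        positivity
      linarith
    have e5 : C * (yp (1 / 2 + a).re (1 / 2) p) ^ 4 ≤ 3 / 2 * C * ((p : ℝ) ^ 2)⁻¹ := by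
      have q1 := pow_le_pow_left₀ (yp_nonneg _ _ p) b4 4
      rw [mul_pow, hx, inv_form4] at q1
      have q2 : 0 ≤ ((p : ℝ) ^ 2)⁻¹ := by positivity
      have q3 : (10525 / 10000 : ℝ) ^ 4 ≤ 3 / 2 := by norm_num
      calc C * (yp (1 / 2 + a).re (1 / 2) p) ^ 4 ≤ C * ((10525 / 10000 : ℝ) ^ 4 * ((p : ℝ) ^ 2)⁻¹) := by
            gcongr
        _ ≤ C * (3 / 2 * ((p : ℝ) ^ 2)⁻¹) := by gcongr
        _ = _ := by ring
    have e6 : x ^ 2 = 1 / (p : ℝ) := inv_form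
    rw [← e6]
    linarith
  have hS2 := Finset.sum_le_sum hterm
  have hsplit : ∑ p ∈ S, (k ^ 2 * (1 / (p : ℝ)) + 14 * (‖a‖ * (Real.log p / p)) +
      3 / 2 * C * ((p : ℝ) ^ 2)⁻¹) = k ^ 2 * ∑ p ∈ S, 1 / (p : ℝ) +
        14 * (‖a‖ * ∑ p ∈ S, Real.log p / p) + 3 / 2 * C * ∑ p ∈ S, ((p : ℝ) ^ 2)⁻¹ := by
    simp only [Finset.sum_add_distrib, Finset.mul_sum]
  rw [hsplit] at hS2
  have hS3 := XB.sum_inv_sq hS
  have hS4 : 3 / 2 * C * ∑ p ∈ S, ((p : ℝ) ^ 2)⁻¹ ≤ 3 * C := by nlinarith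
  linarith

lemma shift_bd' {p : ℕ} (hp : p.Prime) {a : ℂ} (ha : ‖a‖ * Real.log p ≤ 1 / 50) :
    ‖(p : ℂ) ^ (-(1 / 2 + a)) - (((p : ℝ) ^ (-(1 / 2) : ℝ) : ℝ) : ℂ)‖ ≤
      105 / 100 * (p : ℝ) ^ (-(1 / 2) : ℝ) * (‖a‖ * Real.log p) ∧
    ‖(p : ℂ) ^ (-(1 / 2 + a)) - (((p : ℝ) ^ (-(1 / 2) : ℝ) : ℝ) : ℂ)‖ ≤
      21 / 1000 * (p : ℝ) ^ (-(1 / 2) : ℝ) ∧ (p : ℝ) ^ (-(1 / 2) : ℝ) ≤ 7072 / 10000 := by
  obtain ⟨h1, h2, h3⟩ := shift_bd hp (ha.trans (by norm_num))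
  refine ⟨h1, h1.trans ?_, h3⟩
  have hx0 : 0 ≤ (p : ℝ) ^ (-(1 / 2) : ℝ) := by positivity
  nlinarith

lemma LP4_lower (h : StLF4) : ∃ C : ℝ, 0 ≤ C ∧ ∀ (S : Finset ℕ) (k : ℝ) (a₁ a₂ b₁ b₂ : ℂ),
    (∀ p ∈ S, p.Prime) → |k - 2| ≤ 1 / 10 →
    (∀ p ∈ S, ‖a₁‖ * Real.log p ≤ 1 / 50 ∧ ‖a₂‖ * Real.log p ≤ 1 / 50 ∧
      ‖b₁‖ * Real.log p ≤ 1 / 50 ∧ ‖b₂‖ * Real.log p ≤ 1 / 50) →
    (‖a₁‖ + ‖a₂‖ + ‖b₁‖ + ‖b₂‖) * ∑ p ∈ S, Real.log p / p ≤ 1 →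
    Real.exp (k ^ 2 * ∑ p ∈ S, 1 / (p : ℝ) - C) ≤ ‖LP4 (2 - k) a₁ a₂ b₁ b₂ S‖ := by
  obtain ⟨B, hB, h⟩ := LF4_lower h
  refine ⟨B * 4, by positivity, fun S k a₁ a₂ b₁ b₂ hS hk ha hsum => ?_⟩
  have hterm : ∀ p ∈ S, Real.exp (k ^ 2 * (1 / (p : ℝ)) -
      B * (2 * ((‖a₁‖ + ‖a₂‖ + ‖b₁‖ + ‖b₂‖) * (Real.log p / p)) + ((p : ℝ) ^ 2)⁻¹)) ≤
      ‖LF4 (2 - k) ((p : ℝ) ^ (-(1 / 2) : ℝ)) ((p : ℂ) ^ (-(1 / 2 + a₁)))
        ((p : ℂ) ^ (-(1 / 2 + a₂))) ((p : ℂ) ^ (-(1 / 2 + b₁))) ((p : ℂ) ^ (-(1 / 2 + b₂)))‖ := by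
    intro p hp
    obtain ⟨w1, w2, w3⟩ := shift_bd' (hS p hp) (ha p hp).1
    obtain ⟨w4, w5, w6⟩ := shift_bd' (hS p hp) (ha p hp).2.1
    obtain ⟨w7, w8, w9⟩ := shift_bd' (hS p hp) (ha p hp).2.2.1
    obtain ⟨v1, v2, v3⟩ := shift_bd' (hS p hp) (ha p hp).2.2.2
    have h1 := h (2 - k) ((p : ℝ) ^ (-(1 / 2) : ℝ)) ((p : ℂ) ^ (-(1 / 2 + a₁)))
      ((p : ℂ) ^ (-(1 / 2 + a₂))) ((p : ℂ) ^ (-(1 / 2 + b₁))) ((p : ℂ) ^ (-(1 / 2 + b₂)))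
      (by rw [abs_sub_comm]; exact hk) (by positivity) w3 w2 w5 w8 v2
    refine le_trans (Real.exp_le_exp.mpr ?_) h1
    rw [inv_form, inv_form4]
    have hlog : 0 ≤ Real.log p / p := div_nonneg (Real.log_natCast_nonneg p) (by positivity)
    have key : ∀ (a : ℂ) (d : ℝ), d ≤ 105 / 100 * (p : ℝ) ^ (-(1 / 2) : ℝ) * (‖a‖ * Real.log p) →
        (p : ℝ) ^ (-(1 / 2) : ℝ) * d ≤ 2 * (‖a‖ * (Real.log p / p)) := by
      intro a d hd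
      have q1 : (p : ℝ) ^ (-(1 / 2) : ℝ) * d ≤ (p : ℝ) ^ (-(1 / 2) : ℝ) *
          (105 / 100 * (p : ℝ) ^ (-(1 / 2) : ℝ) * (‖a‖ * Real.log p)) := by gcongr
      have q2 : (p : ℝ) ^ (-(1 / 2) : ℝ) *
          (105 / 100 * (p : ℝ) ^ (-(1 / 2) : ℝ) * (‖a‖ * Real.log p)) =
          105 / 100 * (‖a‖ * (Real.log p / p)) := by
        calc (p : ℝ) ^ (-(1 / 2) : ℝ) * (105 / 100 * (p : ℝ) ^ (-(1 / 2) : ℝ) * (‖a‖ * Real.log p)) =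
            105 / 100 * (‖a‖ * (Real.log p * ((p : ℝ) ^ (-(1 / 2) : ℝ)) ^ 2)) := by ring
          _ = _ := by rw [inv_form]; ring
      have q3 : 0 ≤ ‖a‖ * (Real.log p / p) := by positivity
      linarith
    have k1 := key a₁ _ w1
    have k2 := key a₂ _ w4
    have k3 := key b₁ _ w7
    have k4 := key b₂ _ v1
    have k5 : (2 - (2 - k)) ^ 2 = k ^ 2 := by ring
    rw [k5]
    have k6 := mul_le_mul_of_nonneg_left (add_le_add (add_le_add (add_le_add k1 k2) k3) k4) hB.le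
    nlinarith
  have hprod : ‖LP4 (2 - k) a₁ a₂ b₁ b₂ S‖ = ∏ p ∈ S, ‖LF4 (2 - k) ((p : ℝ) ^ (-(1 / 2) : ℝ))
      ((p : ℂ) ^ (-(1 / 2 + a₁))) ((p : ℂ) ^ (-(1 / 2 + a₂))) ((p : ℂ) ^ (-(1 / 2 + b₁)))
      ((p : ℂ) ^ (-(1 / 2 + b₂)))‖ := by
    rw [LP4, norm_prod]
  rw [hprod]
  refine le_trans ?_ (Finset.prod_le_prod (fun p _ => (Real.exp_pos _).le) hterm)
  rw [← Real.exp_sum]
  apply Real.exp_le_exp.mpr
  have hsplit : ∑ p ∈ S, (k ^ 2 * (1 / (p : ℝ)) -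
      B * (2 * ((‖a₁‖ + ‖a₂‖ + ‖b₁‖ + ‖b₂‖) * (Real.log p / p)) + ((p : ℝ) ^ 2)⁻¹)) =
      k ^ 2 * ∑ p ∈ S, 1 / (p : ℝ) -
        B * (2 * ((‖a₁‖ + ‖a₂‖ + ‖b₁‖ + ‖b₂‖) * ∑ p ∈ S, Real.log p / p) +
          ∑ p ∈ S, ((p : ℝ) ^ 2)⁻¹) := by
    rw [Finset.sum_sub_distrib, ← Finset.mul_sum, ← Finset.mul_sum, Finset.sum_add_distrib,
      ← Finset.mul_sum, ← Finset.mul_sum]
  rw [hsplit]
  have h3 := XB.sum_inv_sq hS
  have h4 : B * (2 * ((‖a₁‖ + ‖a₂‖ + ‖b₁‖ + ‖b₂‖) * ∑ p ∈ S, Real.log p / p) +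
      ∑ p ∈ S, ((p : ℝ) ^ 2)⁻¹) ≤ B * 4 := by
    gcongr; linarith
  linarith

lemma amgm4 (a b c d t : ℝ) (ht : 0 ≤ t) :
    a * b * (c * d) * t ≤ 1 / 4 * ((a ^ 2) ^ 2 * t + (b ^ 2) ^ 2 * t + (c ^ 2) ^ 2 * t +
      (d ^ 2) ^ 2 * t) := by
  have h : a * b * (c * d) ≤ 1 / 4 * ((a ^ 2) ^ 2 + (b ^ 2) ^ 2 + (c ^ 2) ^ 2 + (d ^ 2) ^ 2) := by
    nlinarith [sq_nonneg (a * b - c * d), sq_nonneg (a ^ 2 - b ^ 2), sq_nonneg (c ^ 2 - d ^ 2)]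
  have := mul_le_mul_of_nonneg_right h ht
  linarith

/-- pointwise comparison of the truncated exponentials with the weight -/
lemma pointwise4 {A l : ℕ} {S : Finset ℕ} {k : ℝ} (hS : ∀ p ∈ S, p.Prime) (hk : |k - 2| ≤ 1 / 10)
    {f : ℕ → ℂ} (hf : ∀ n, ‖f n‖ = 1) :
    ‖Ntr l (k - 2) (Pj A S (tw ((1 / 2 : ℝ) : ℂ) f)) *
      (starRingEnd ℂ) (Ntr l (k - 2) (Pj A S (tw ((1 / 2 : ℝ) : ℂ) f))) - ((Wt (2 - k) S f : ℝ) : ℂ)‖ ≤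
      (Real.exp (2 * rho A S) - 1) * Wt (2 - k) S f +
        2 * Real.exp (-l) * Real.exp (2 * ‖Pj A S (tw ((1 / 2 : ℝ) : ℂ) f)‖) ^ 2 := by
  have ha : |k - 2| ≤ 1 := hk.trans (by norm_num)
  set P := Pj A S (tw ((1 / 2 : ℝ) : ℂ) f) with hP
  set R := Rm A S (tw ((1 / 2 : ℝ) : ℂ) f) with hR
  have hR1 : ‖R‖ ≤ rho A S := norm_Rm_le A hS le_rfl hf
  have hR2 := (abs_le.mp ((abs_re_le_norm _).trans hR1))
  have hρ := rho_nonneg A S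
  have hW : Wt (2 - k) S f = Real.exp (2 * (-(2 - k)) * P.re + 2 * (-(2 - k)) * R.re) := by
    rw [Wt_eq, norm_ZZ_rpow A hS le_rfl hf]
  set E : ℂ := cexp (((k - 2 : ℝ) : ℂ) * P) with hE
  have hEn : ‖E‖ ^ 2 = Real.exp (2 * (k - 2) * P.re) := by
    rw [hE, norm_exp, ← Real.exp_nat_mul, re_ofReal_mul, Nat.cast_ofNat]
    congr 1; ring
  have h1 : |‖E‖ ^ 2 - Wt (2 - k) S f| ≤ (Real.exp (2 * rho A S) - 1) * Wt (2 - k) S f := by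
    have e1 : ‖E‖ ^ 2 = Wt (2 - k) S f * Real.exp (2 * (2 - k) * R.re) := by
      rw [hEn, hW, ← Real.exp_add]; congr 1; ring
    rw [e1, ← mul_sub_one, abs_mul, abs_of_nonneg (Wt_nonneg _ _ _), mul_comm]
    refine mul_le_mul_of_nonneg_right ?_ (Wt_nonneg _ _ _)
    have h3 : |2 * (2 - k) * R.re| ≤ 2 * rho A S := by
      rw [abs_mul, abs_mul, abs_two, abs_sub_comm]
      have := (abs_re_le_norm R).trans hR1
      have h0 := abs_nonneg R.re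
      calc 2 * |k - 2| * |R.re| ≤ 2 * 1 * rho A S := by gcongr
        _ = _ := by ring
    have h4 : |Real.exp (2 * (2 - k) * R.re) - 1| ≤ Real.exp |2 * (2 - k) * R.re| - 1 := by
      have := norm_exp_sub_one_le' ((2 * (2 - k) * R.re : ℝ) : ℂ)
      rw [← ofReal_exp, ← ofReal_one, ← ofReal_sub, norm_real, norm_real, Real.norm_eq_abs,
        Real.norm_eq_abs] at this
      exact this
    refine h4.trans ?_
    have := Real.exp_le_exp.mpr h3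
    linarith
  have hN := norm_Ntr_le l ha P
  have hE1 : ‖E‖ ≤ Real.exp ‖P‖ := by
    rw [hE, norm_exp]
    apply Real.exp_le_exp.mpr
    rw [re_ofReal_mul]
    have h5 : |(k - 2) * P.re| ≤ ‖P‖ := by
      rw [abs_mul]
      calc |k - 2| * |P.re| ≤ 1 * ‖P‖ := mul_le_mul ha (abs_re_le_norm P) (abs_nonneg _) zero_le_one
        _ = ‖P‖ := one_mul _
    exact (le_abs_self _).trans h5
  have hT := Ntr_tail l ha P
  have h2 : |‖Ntr l (k - 2) P‖ ^ 2 - ‖E‖ ^ 2| ≤ 2 * Real.exp (-l) * Real.exp (2 * ‖P‖) ^ 2 := by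
    have e1 : ‖Ntr l (k - 2) P‖ ^ 2 - ‖E‖ ^ 2 = (‖Ntr l (k - 2) P‖ - ‖E‖) * (‖Ntr l (k - 2) P‖ + ‖E‖) := by
      ring
    rw [e1, abs_mul]
    have h3 : |‖Ntr l (k - 2) P‖ - ‖E‖| ≤ Real.exp (-l) * Real.exp (3 * ‖P‖) := by
      refine (abs_norm_sub_norm_le _ _).trans ?_
      rw [norm_sub_rev, hE]
      exact hT
    have h4 : |‖Ntr l (k - 2) P‖ + ‖E‖| ≤ 2 * Real.exp ‖P‖ := by
      rw [abs_of_nonneg (by positivity)]; linarith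
    calc |‖Ntr l (k - 2) P‖ - ‖E‖| * |‖Ntr l (k - 2) P‖ + ‖E‖| ≤
          (Real.exp (-l) * Real.exp (3 * ‖P‖)) * (2 * Real.exp ‖P‖) := by gcongr
      _ = 2 * Real.exp (-l) * (Real.exp (3 * ‖P‖) * Real.exp ‖P‖) := by ring
      _ = _ := by
          rw [← Real.exp_add, ← Real.exp_nat_mul, Nat.cast_ofNat]
          congr 2; ring
  have e3 : Ntr l (k - 2) P * (starRingEnd ℂ) (Ntr l (k - 2) P) - ((Wt (2 - k) S f : ℝ) : ℂ) =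
      ((‖Ntr l (k - 2) P‖ ^ 2 - Wt (2 - k) S f : ℝ) : ℂ) := by
    rw [mul_conj, normSq_eq_norm_sq]; push_cast; rfl
  rw [e3, norm_real, Real.norm_eq_abs]
  calc |‖Ntr l (k - 2) P‖ ^ 2 - Wt (2 - k) S f| ≤ |‖E‖ ^ 2 - Wt (2 - k) S f| +
        |‖Ntr l (k - 2) P‖ ^ 2 - ‖E‖ ^ 2| := by
        have := abs_add_le (‖E‖ ^ 2 - Wt (2 - k) S f) (‖Ntr l (k - 2) P‖ ^ 2 - ‖E‖ ^ 2)
        rwa [show ‖E‖ ^ 2 - Wt (2 - k) S f + (‖Ntr l (k - 2) P‖ ^ 2 - ‖E‖ ^ 2) =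
          ‖Ntr l (k - 2) P‖ ^ 2 - Wt (2 - k) S f by ring] at this
    _ ≤ _ := add_le_add h1 h2

/-- linear combination of four functions -/
lemma ES_four {S : Finset ℕ} {g₁ g₂ g₃ g₄ : (ℕ → ℂ) → ℝ} (c : ℝ) (h1 : BS S g₁) (h2 : BS S g₂)
    (h3 : BS S g₃) (h4 : BS S g₄) :
    Integrable (fun ω : S → ℝ => c * (1 / 4 * (g₁ (ext S ω) + g₂ (ext S ω) + g₃ (ext S ω) +
      g₄ (ext S ω)))) (Measure.pi fun _ => mu0) ∧
    ∫ ω : S → ℝ, c * (1 / 4 * (g₁ (ext S ω) + g₂ (ext S ω) + g₃ (ext S ω) +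
      g₄ (ext S ω))) ∂(Measure.pi fun _ => mu0) =
      c * (1 / 4 * (ES S g₁ + ES S g₂ + ES S g₃ + ES S g₄)) := by
  constructor
  · exact ((((h1.integrable.add h2.integrable).add h3.integrable).add h4.integrable).const_mul
      (1 / 4)).const_mul c
  · unfold ES
    rw [integral_const_mul, integral_const_mul, integral_add, integral_add, integral_add]
    · exact h1.integrable
    · exact h2.integrable
    · exact h1.integrable.add h2.integrable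
    · exact h3.integrable
    · exact (h1.integrable.add h2.integrable).add h3.integrable
    · exact h4.integrable

end Blk4

open BlkShift Blk4 in
theorem stBlock4 (hLF : StLF4) : StBlock4 := by
  obtain ⟨C2, hC2, hlow⟩ := LP4_lower hLF
  obtain ⟨C3, hC3, hsq⟩ := fourth_moment
  obtain ⟨C4, hC4, hexp⟩ := ES_exp_norm (q := 2) (by norm_num)
  set C₁ : ℝ := Real.exp (C3 + C2) + 2 * Real.exp C2 + 2 * C4 + 1 with hC1
  refine ⟨C₁, by positivity, fun A l S k a₁ a₂ b₁ b₂ hA hS hk ha hsum hcond => ?_⟩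
  have hlog : 0 ≤ ∑ p ∈ S, Real.log p / p :=
    Finset.sum_nonneg fun p _ => div_nonneg (Real.log_natCast_nonneg p) (by positivity)
  have hρ := rho_nonneg A S
  have hinv : 0 ≤ ∑ p ∈ S, 1 / (p : ℝ) := Finset.sum_nonneg fun p _ => by positivity
  have hLP := hlow S k a₁ a₂ b₁ b₂ hS hk ha hsum
  have hcast : ∀ f : ℕ → ℂ, Pj A S (tw (1 / 2) f) = Pj A S (tw ((1 / 2 : ℝ) : ℂ) f) := by
    intro f; congr 2; push_cast; rfl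
  rcases S.eq_empty_or_nonempty with hSe | hne
  · subst hSe
    have e0 : ES ∅ (fun f => ZZ ∅ (tw (1 / 2 + a₁) f) * ZZ ∅ (tw (1 / 2 + a₂) f) *
        (starRingEnd ℂ) (ZZ ∅ (tw (1 / 2 + (starRingEnd ℂ) b₁) f) *
          ZZ ∅ (tw (1 / 2 + (starRingEnd ℂ) b₂) f)) *
        (Ntr l (k - 2) (Pj A ∅ (tw (1 / 2) f)) *
          (starRingEnd ℂ) (Ntr l (k - 2) (Pj A ∅ (tw (1 / 2) f))))) = 1 := by
      have : ∀ α : ℝ, Ntr l α 0 = 1 := by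
        intro α
        rw [Ntr, Finset.sum_range_succ']
        simp
      simp [ES, ZZ, Pj, this]
    have e1 : LP4 (2 - k) a₁ a₂ b₁ b₂ ∅ = 1 := by simp [LP4]
    rw [e0, e1, sub_self, norm_zero]
    have h3 : 0 ≤ Real.exp (3 * rho A ∅) - 1 := by
      have := Real.one_le_exp (show 0 ≤ 3 * rho A ∅ by linarith); linarith
    positivity
  have n1 := norm_nonneg a₁
  have n2 := norm_nonneg a₂
  have n3 := norm_nonneg b₁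
  have n4 := norm_nonneg b₂
  have ha1 : ∀ p ∈ S, ‖a₁‖ * Real.log p ≤ 1 / 20 := fun p hp => (ha p hp).1.trans (by norm_num)
  have ha2 : ∀ p ∈ S, ‖a₂‖ * Real.log p ≤ 1 / 20 := fun p hp => (ha p hp).2.1.trans (by norm_num)
  have ha3 : ∀ p ∈ S, ‖(starRingEnd ℂ) b₁‖ * Real.log p ≤ 1 / 20 := fun p hp => by
    rw [RCLike.norm_conj]; exact (ha p hp).2.2.1.trans (by norm_num)
  have ha4 : ∀ p ∈ S, ‖(starRingEnd ℂ) b₂‖ * Real.log p ≤ 1 / 20 := fun p hp => by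
    rw [RCLike.norm_conj]; exact (ha p hp).2.2.2.trans (by norm_num)
  have hs : ∀ t : ℝ, t ≤ ‖a₁‖ + ‖a₂‖ + ‖b₁‖ + ‖b₂‖ → t * ∑ p ∈ S, Real.log p / p ≤ 1 :=
    fun t ht => le_trans (mul_le_mul_of_nonneg_right ht hlog) hsum
  have hr1 := re_pos_of hS ha1 hne
  have hr2 := re_pos_of hS ha2 hne
  have hr3 := re_pos_of hS ha3 hne
  have hr4 := re_pos_of hS ha4 hne
  have q1 := hsq S k a₁ hS hk ha1 (hs _ (by linarith))
  have q2 := hsq S k a₂ hS hk ha2 (hs _ (by linarith))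
  have q3 := hsq S k _ hS hk ha3 (hs _ (by rw [RCLike.norm_conj]; linarith))
  have q4 := hsq S k _ hS hk ha4 (hs _ (by rw [RCLike.norm_conj]; linarith))
  have hypsum : ∀ a : ℂ, (∀ p ∈ S, ‖a‖ * Real.log p ≤ 1 / 20) →
      ∑ p ∈ S, (yp (1 / 2 + a).re (1 / 2) p) ^ 2 ≤ 2 * ∑ p ∈ S, 1 / (p : ℝ) := by
    intro a ha
    rw [Finset.mul_sum]
    refine Finset.sum_le_sum fun p hp => ?_
    have h1 := pow_le_pow_left₀ (yp_nonneg _ _ p) (yp_bd (hS p hp) (ha p hp)).1 2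
    rw [mul_pow, inv_form] at h1
    have h2 : 0 ≤ 1 / (p : ℝ) := by positivity
    nlinarith
  have hE : ∀ a : ℂ, (∀ p ∈ S, ‖a‖ * Real.log p ≤ 1 / 20) → 0 < (1 / 2 + a : ℂ).re →
      ES S (fun f => ‖ZZ S (tw (1 / 2 + a) f) ^ 2‖ ^ 2 *
        Real.exp (2 * ‖Pj A S (tw ((1 / 2 : ℝ) : ℂ) f)‖) ^ 2) ≤ Real.exp (l / 2) := by
    intro a ha hr
    have h1 := hexp A 2 S (1 / 2 + a) (1 / 2) hA (by norm_num) hr hS
      (fun p hp => (yp_bd (hS p hp) (ha p hp)).2)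
    refine h1.trans (le_trans ?_ hcond)
    refine mul_le_mul_of_nonneg_left (Real.exp_le_exp.mpr ?_) (by norm_num)
    calc C4 * ∑ p ∈ S, (yp (1 / 2 + a).re (1 / 2) p) ^ 2 ≤ C4 * (2 * ∑ p ∈ S, 1 / (p : ℝ)) := by
          gcongr; exact hypsum a ha
      _ ≤ C₁ * ∑ p ∈ S, 1 / (p : ℝ) := by
          have : 2 * C4 ≤ C₁ := by
            rw [hC1]; have := Real.exp_pos (C3 + C2); have := Real.exp_pos C2; linarith
          nlinarith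
  have hE1 := hE a₁ ha1 hr1
  have hE2 := hE a₂ ha2 hr2
  have hE3 := hE _ ha3 hr3
  have hE4 := hE _ ha4 hr4
  -- the difference
  have bZ1 : BS S (fun f => ZZ S (tw (1 / 2 + a₁) f)) := bs_ZZ hS hr1
  have bZ2 : BS S (fun f => ZZ S (tw (1 / 2 + a₂) f)) := bs_ZZ hS hr2
  have bZ3 : BS S (fun f => ZZ S (tw (1 / 2 + (starRingEnd ℂ) b₁) f)) := bs_ZZ hS hr3
  have bZ4 : BS S (fun f => ZZ S (tw (1 / 2 + (starRingEnd ℂ) b₂) f)) := bs_ZZ hS hr4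
  have bP : BS S (fun f => Pj A S (tw ((1 / 2 : ℝ) : ℂ) f)) := bs_Pj A S S _
  have bN : BS S (fun f => Ntr l (k - 2) (Pj A S (tw ((1 / 2 : ℝ) : ℂ) f))) := bs_Ntr l _ bP
  have bW : BS S (Wt (2 - k) S) := bs_Wt' hS
  have bWc : BS S (fun f => ((Wt (2 - k) S f : ℝ) : ℂ)) := by
    obtain ⟨h1, C, h2⟩ := bW
    exact ⟨continuous_ofReal.comp h1, C, fun ω => by rw [norm_real]; exact h2 ω⟩
  have bE : BS S (fun f => Real.exp (2 * ‖Pj A S (tw ((1 / 2 : ℝ) : ℂ) f)‖)) :=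
    bP.exp_norm 2 (by norm_num)
  have bE2 : BS S (fun f => Real.exp (2 * ‖Pj A S (tw ((1 / 2 : ℝ) : ℂ) f)‖) ^ 2) := by
    simp only [sq]; exact bE.mul_real bE
  simp only [hcast]
  set Z₁ : (ℕ → ℂ) → ℂ := fun f => ZZ S (tw (1 / 2 + a₁) f) with hZ1
  set Z₂ : (ℕ → ℂ) → ℂ := fun f => ZZ S (tw (1 / 2 + a₂) f) with hZ2
  set Z₃ : (ℕ → ℂ) → ℂ := fun f => ZZ S (tw (1 / 2 + (starRingEnd ℂ) b₁) f) with hZ3
  set Z₄ : (ℕ → ℂ) → ℂ := fun f => ZZ S (tw (1 / 2 + (starRingEnd ℂ) b₂) f) with hZ4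
  set N : (ℕ → ℂ) → ℂ := fun f => Ntr l (k - 2) (Pj A S (tw ((1 / 2 : ℝ) : ℂ) f)) with hN
  set E2 : (ℕ → ℂ) → ℝ := fun f => Real.exp (2 * ‖Pj A S (tw ((1 / 2 : ℝ) : ℂ) f)‖) ^ 2 with hE2d
  have hF : ∀ f, ZZ S (tw (1 / 2 + a₁) f) * ZZ S (tw (1 / 2 + a₂) f) *
      (starRingEnd ℂ) (ZZ S (tw (1 / 2 + (starRingEnd ℂ) b₁) f) *
        ZZ S (tw (1 / 2 + (starRingEnd ℂ) b₂) f)) *
      (Ntr l (k - 2) (Pj A S (tw ((1 / 2 : ℝ) : ℂ) f)) *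
        (starRingEnd ℂ) (Ntr l (k - 2) (Pj A S (tw ((1 / 2 : ℝ) : ℂ) f)))) =
      Z₁ f * Z₂ f * (starRingEnd ℂ) (Z₃ f * Z₄ f) * (N f * (starRingEnd ℂ) (N f)) := fun f => rfl
  have hLPe : LP4 (2 - k) a₁ a₂ b₁ b₂ S = ES S (fun f => Z₁ f * Z₂ f *
      (starRingEnd ℂ) (Z₃ f * Z₄ f) * ((Wt (2 - k) S f : ℝ) : ℂ)) := (LP4_eq _ _ _ _ _ _).symm
  simp only [hF]
  have bF : BS S (fun f => Z₁ f * Z₂ f * (starRingEnd ℂ) (Z₃ f * Z₄ f) *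
      (N f * (starRingEnd ℂ) (N f))) :=
    ((bZ1.mul bZ2).mul (bZ3.mul bZ4).conj).mul (bN.mul bN.conj)
  have bG : BS S (fun f => Z₁ f * Z₂ f * (starRingEnd ℂ) (Z₃ f * Z₄ f) *
      ((Wt (2 - k) S f : ℝ) : ℂ)) :=
    ((bZ1.mul bZ2).mul (bZ3.mul bZ4).conj).mul bWc
  set r : ℝ := Real.exp (2 * rho A S) - 1 with hr
  have hr0 : 0 ≤ r := by
    have := Real.one_le_exp (show 0 ≤ 2 * rho A S by linarith); linarith
  have v1 : BS S (fun f => ‖Z₁ f ^ 2‖ ^ 2 * Wt (2 - k) S f) := (bZ1.pow 2).norm_sq.mul_real bW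
  have v2 : BS S (fun f => ‖Z₂ f ^ 2‖ ^ 2 * Wt (2 - k) S f) := (bZ2.pow 2).norm_sq.mul_real bW
  have v3 : BS S (fun f => ‖Z₃ f ^ 2‖ ^ 2 * Wt (2 - k) S f) := (bZ3.pow 2).norm_sq.mul_real bW
  have v4 : BS S (fun f => ‖Z₄ f ^ 2‖ ^ 2 * Wt (2 - k) S f) := (bZ4.pow 2).norm_sq.mul_real bW
  have w1 : BS S (fun f => ‖Z₁ f ^ 2‖ ^ 2 * E2 f) := (bZ1.pow 2).norm_sq.mul_real bE2
  have w2 : BS S (fun f => ‖Z₂ f ^ 2‖ ^ 2 * E2 f) := (bZ2.pow 2).norm_sq.mul_real bE2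
  have w3 : BS S (fun f => ‖Z₃ f ^ 2‖ ^ 2 * E2 f) := (bZ3.pow 2).norm_sq.mul_real bE2
  have w4 : BS S (fun f => ‖Z₄ f ^ 2‖ ^ 2 * E2 f) := (bZ4.pow 2).norm_sq.mul_real bE2
  obtain ⟨iv, ev⟩ := ES_four r v1 v2 v3 v4
  obtain ⟨iw, ew⟩ := ES_four (2 * Real.exp (-(l : ℝ))) w1 w2 w3 w4
  have hpt : ∀ ω, ‖(Z₁ (ext S ω) * Z₂ (ext S ω) * (starRingEnd ℂ) (Z₃ (ext S ω) * Z₄ (ext S ω)) *
      (N (ext S ω) * (starRingEnd ℂ) (N (ext S ω)))) -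
      Z₁ (ext S ω) * Z₂ (ext S ω) * (starRingEnd ℂ) (Z₃ (ext S ω) * Z₄ (ext S ω)) *
        ((Wt (2 - k) S (ext S ω) : ℝ) : ℂ)‖ ≤
      r * (1 / 4 * (‖Z₁ (ext S ω) ^ 2‖ ^ 2 * Wt (2 - k) S (ext S ω) +
        ‖Z₂ (ext S ω) ^ 2‖ ^ 2 * Wt (2 - k) S (ext S ω) +
        ‖Z₃ (ext S ω) ^ 2‖ ^ 2 * Wt (2 - k) S (ext S ω) +
        ‖Z₄ (ext S ω) ^ 2‖ ^ 2 * Wt (2 - k) S (ext S ω))) +
      2 * Real.exp (-(l : ℝ)) * (1 / 4 * (‖Z₁ (ext S ω) ^ 2‖ ^ 2 * E2 (ext S ω) +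
        ‖Z₂ (ext S ω) ^ 2‖ ^ 2 * E2 (ext S ω) + ‖Z₃ (ext S ω) ^ 2‖ ^ 2 * E2 (ext S ω) +
        ‖Z₄ (ext S ω) ^ 2‖ ^ 2 * E2 (ext S ω))) := by
    intro ω
    have h1 := pointwise4 (A := A) (l := l) hS hk (norm_ext S ω)
    rw [← mul_sub, norm_mul, norm_mul, norm_mul, RCLike.norm_conj, norm_mul]
    have h2 : ‖Z₁ (ext S ω)‖ * ‖Z₂ (ext S ω)‖ * (‖Z₃ (ext S ω)‖ * ‖Z₄ (ext S ω)‖) *
        ‖N (ext S ω) * (starRingEnd ℂ) (N (ext S ω)) -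
        ((Wt (2 - k) S (ext S ω) : ℝ) : ℂ)‖ ≤
        ‖Z₁ (ext S ω)‖ * ‖Z₂ (ext S ω)‖ * (‖Z₃ (ext S ω)‖ * ‖Z₄ (ext S ω)‖) *
          (r * Wt (2 - k) S (ext S ω) + 2 * Real.exp (-l) * E2 (ext S ω)) :=
      mul_le_mul_of_nonneg_left h1 (by positivity)
    refine h2.trans ?_
    have h3 := amgm4 ‖Z₁ (ext S ω)‖ ‖Z₂ (ext S ω)‖ ‖Z₃ (ext S ω)‖ ‖Z₄ (ext S ω)‖ _
      (Wt_nonneg (2 - k) S (ext S ω))
    have h4 := amgm4 ‖Z₁ (ext S ω)‖ ‖Z₂ (ext S ω)‖ ‖Z₃ (ext S ω)‖ ‖Z₄ (ext S ω)‖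
      (E2 (ext S ω)) (by positivity)
    have h5 := mul_le_mul_of_nonneg_left h3 hr0
    have h6 := mul_le_mul_of_nonneg_left h4 (show 0 ≤ 2 * Real.exp (-(l : ℝ)) by positivity)
    rw [norm_pow, norm_pow, norm_pow, norm_pow]
    calc ‖Z₁ (ext S ω)‖ * ‖Z₂ (ext S ω)‖ * (‖Z₃ (ext S ω)‖ * ‖Z₄ (ext S ω)‖) *
          (r * Wt (2 - k) S (ext S ω) + 2 * Real.exp (-l) * E2 (ext S ω)) =
        r * (‖Z₁ (ext S ω)‖ * ‖Z₂ (ext S ω)‖ * (‖Z₃ (ext S ω)‖ * ‖Z₄ (ext S ω)‖) *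
          Wt (2 - k) S (ext S ω)) +
          2 * Real.exp (-l) * (‖Z₁ (ext S ω)‖ * ‖Z₂ (ext S ω)‖ *
            (‖Z₃ (ext S ω)‖ * ‖Z₄ (ext S ω)‖) * E2 (ext S ω)) := by ring
      _ ≤ _ := add_le_add h5 h6
  have hdiff : ‖ES S (fun f => Z₁ f * Z₂ f * (starRingEnd ℂ) (Z₃ f * Z₄ f) *
      (N f * (starRingEnd ℂ) (N f))) - LP4 (2 - k) a₁ a₂ b₁ b₂ S‖ ≤
      r * (1 / 4 * (ES S (fun f => ‖Z₁ f ^ 2‖ ^ 2 * Wt (2 - k) S f) +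
        ES S (fun f => ‖Z₂ f ^ 2‖ ^ 2 * Wt (2 - k) S f) +
        ES S (fun f => ‖Z₃ f ^ 2‖ ^ 2 * Wt (2 - k) S f) +
        ES S (fun f => ‖Z₄ f ^ 2‖ ^ 2 * Wt (2 - k) S f))) +
      2 * Real.exp (-(l : ℝ)) * (1 / 4 * (ES S (fun f => ‖Z₁ f ^ 2‖ ^ 2 * E2 f) +
        ES S (fun f => ‖Z₂ f ^ 2‖ ^ 2 * E2 f) + ES S (fun f => ‖Z₃ f ^ 2‖ ^ 2 * E2 f) +
        ES S (fun f => ‖Z₄ f ^ 2‖ ^ 2 * E2 f))) := by
    rw [hLPe, ← ev, ← ew, ← integral_add iv iw]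
    nth_rewrite 1 [ES]
    nth_rewrite 1 [ES]
    rw [← integral_sub bF.integrable bG.integrable]
    refine (norm_integral_le_integral_norm _).trans ?_
    exact integral_mono (bF.integrable.sub bG.integrable).norm (iv.add iw) hpt
  refine hdiff.trans ?_
  set T₀ : ℝ := ∑ p ∈ S, 1 / (p : ℝ) with hT0
  have g1 : Real.exp (C3 + k ^ 2 * T₀) ≤ Real.exp (C3 + C2) * ‖LP4 (2 - k) a₁ a₂ b₁ b₂ S‖ := by
    calc Real.exp (C3 + k ^ 2 * T₀) = Real.exp (C3 + C2) * Real.exp (k ^ 2 * T₀ - C2) := by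
          rw [← Real.exp_add]; congr 1; ring
      _ ≤ _ := by gcongr
  have g2 : 1 ≤ Real.exp C2 * ‖LP4 (2 - k) a₁ a₂ b₁ b₂ S‖ := by
    calc (1 : ℝ) = Real.exp C2 * Real.exp (0 - C2) := by rw [← Real.exp_add]; simp
      _ ≤ Real.exp C2 * Real.exp (k ^ 2 * T₀ - C2) := by gcongr; positivity
      _ ≤ _ := by gcongr
  have g3 : r * (1 / 4 * (ES S (fun f => ‖Z₁ f ^ 2‖ ^ 2 * Wt (2 - k) S f) +
        ES S (fun f => ‖Z₂ f ^ 2‖ ^ 2 * Wt (2 - k) S f) +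
        ES S (fun f => ‖Z₃ f ^ 2‖ ^ 2 * Wt (2 - k) S f) +
        ES S (fun f => ‖Z₄ f ^ 2‖ ^ 2 * Wt (2 - k) S f))) ≤
      r * (Real.exp (C3 + C2) * ‖LP4 (2 - k) a₁ a₂ b₁ b₂ S‖) := by
    refine mul_le_mul_of_nonneg_left ?_ hr0
    have t1 := q1.trans g1
    have t2 := q2.trans g1
    have t3 := q3.trans g1
    have t4 := q4.trans g1
    linarith
  have g4 : 2 * Real.exp (-(l : ℝ)) * (1 / 4 * (ES S (fun f => ‖Z₁ f ^ 2‖ ^ 2 * E2 f) +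
        ES S (fun f => ‖Z₂ f ^ 2‖ ^ 2 * E2 f) + ES S (fun f => ‖Z₃ f ^ 2‖ ^ 2 * E2 f) +
        ES S (fun f => ‖Z₄ f ^ 2‖ ^ 2 * E2 f))) ≤
      2 * Real.exp (-(l / 2)) * (Real.exp C2 * ‖LP4 (2 - k) a₁ a₂ b₁ b₂ S‖) := by
    have e1 : 1 / 4 * (ES S (fun f => ‖Z₁ f ^ 2‖ ^ 2 * E2 f) +
        ES S (fun f => ‖Z₂ f ^ 2‖ ^ 2 * E2 f) + ES S (fun f => ‖Z₃ f ^ 2‖ ^ 2 * E2 f) +
        ES S (fun f => ‖Z₄ f ^ 2‖ ^ 2 * E2 f)) ≤ Real.exp (l / 2) := by linarith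
    calc _ ≤ 2 * Real.exp (-(l : ℝ)) * Real.exp (l / 2) := by gcongr
      _ = 2 * (Real.exp (-l) * Real.exp (l / 2)) := by ring
      _ = 2 * Real.exp (-(l / 2)) := by rw [← Real.exp_add]; congr 2; ring
      _ = 2 * Real.exp (-(l / 2)) * 1 := by ring
      _ ≤ _ := by gcongr
  refine (add_le_add g3 g4).trans ?_
  have hr3 : r ≤ Real.exp (3 * rho A S) - 1 := by
    have := Real.exp_le_exp.mpr (show 2 * rho A S ≤ 3 * rho A S by linarith)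
    linarith
  have hx : 0 ≤ ‖LP4 (2 - k) a₁ a₂ b₁ b₂ S‖ := norm_nonneg _
  have hp1 := Real.exp_pos (C3 + C2)
  have hp2 := Real.exp_pos C2
  have hp3 := Real.exp_pos (-((l : ℝ) / 2))
  have k1 : r * (Real.exp (C3 + C2) * ‖LP4 (2 - k) a₁ a₂ b₁ b₂ S‖) ≤
      C₁ * (Real.exp (3 * rho A S) - 1) * ‖LP4 (2 - k) a₁ a₂ b₁ b₂ S‖ := by
    calc r * (Real.exp (C3 + C2) * ‖LP4 (2 - k) a₁ a₂ b₁ b₂ S‖) ≤
          (Real.exp (3 * rho A S) - 1) * (C₁ * ‖LP4 (2 - k) a₁ a₂ b₁ b₂ S‖) := by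
          gcongr
          · linarith
          · rw [hC1]; linarith
      _ = _ := by ring
  have k2 : 2 * Real.exp (-(l / 2)) * (Real.exp C2 * ‖LP4 (2 - k) a₁ a₂ b₁ b₂ S‖) ≤
      C₁ * Real.exp (-(l / 2)) * ‖LP4 (2 - k) a₁ a₂ b₁ b₂ S‖ := by
    calc 2 * Real.exp (-(l / 2)) * (Real.exp C2 * ‖LP4 (2 - k) a₁ a₂ b₁ b₂ S‖) =
          (2 * Real.exp C2) * (Real.exp (-(l / 2)) * ‖LP4 (2 - k) a₁ a₂ b₁ b₂ S‖) := by ring
      _ ≤ C₁ * (Real.exp (-(l / 2)) * ‖LP4 (2 - k) a₁ a₂ b₁ b₂ S‖) := by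
          gcongr
          rw [hC1]; linarith
      _ = _ := by ring
  calc _ ≤ C₁ * (Real.exp (3 * rho A S) - 1) * ‖LP4 (2 - k) a₁ a₂ b₁ b₂ S‖ +
        C₁ * Real.exp (-(l / 2)) * ‖LP4 (2 - k) a₁ a₂ b₁ b₂ S‖ := add_le_add k1 k2
    _ = _ := by ring

end K3
end Pool.Agent.Lib.MP_973905_nt
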