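import Pool.Agent.Lib.MP_973905_nt.K3.Stmts
import Pool.Agent.Lib.MP_973905_nt.K1.RAapprox

/-! Module (7): twisted and untwisted shifted fourth moment in the random model. -/

namespace Pool.Agent.Lib.MP_973905_nt
namespace K3

open MeasureTheory ProbabilityTheory Complex Filter Topology K1

namespace RA4

open K1.RAx hiding local_p prodB

/-- the four Euler products over one set of primes -/
noncomputable def Z4 (a₁ a₂ b₁ b₂ : ℂ) (S : Finset ℕ) (f : ℕ → ℂ) : ℂ :=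
  ZZ S (tw (1 / 2 + a₁) f) * ZZ S (tw (1 / 2 + a₂) f) *
    (starRingEnd ℂ) (ZZ S (tw (1 / 2 + (starRingEnd ℂ) b₁) f) *
      ZZ S (tw (1 / 2 + (starRingEnd ℂ) b₂) f))

/-- four inverse factors of zeta at one prime -/
noncomputable def W4 (a₁ a₂ b₁ b₂ : ℂ) (p : ℕ) : ℂ :=
  (1 - (p : ℂ) ^ (-(1 + (a₁ + b₁)))) * (1 - (p : ℂ) ^ (-(1 + (a₁ + b₂)))) *
    (1 - (p : ℂ) ^ (-(1 + (a₂ + b₁)))) * (1 - (p : ℂ) ^ (-(1 + (a₂ + b₂))))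

/-- the exact value for `u = 0` -/
noncomputable def V4 (a₁ a₂ b₁ b₂ : ℂ) (p : ℕ) : ℂ :=
  1 - (p : ℂ) ^ (-(1 / 2 + a₁)) * (p : ℂ) ^ (-(1 / 2 + a₂)) * (p : ℂ) ^ (-(1 / 2 + b₁)) *
    (p : ℂ) ^ (-(1 / 2 + b₂))

/-- the local factor of a prime -/
noncomputable def L4 (u : ℝ) (a₁ a₂ b₁ b₂ : ℂ) (p : ℕ) : ℂ :=
  LF4 u ((p : ℝ) ^ (-(1 / 2) : ℝ)) ((p : ℂ) ^ (-(1 / 2 + a₁))) ((p : ℂ) ^ (-(1 / 2 + a₂)))
    ((p : ℂ) ^ (-(1 / 2 + b₁))) ((p : ℂ) ^ (-(1 / 2 + b₂)))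

lemma LP4_eq (u : ℝ) (a₁ a₂ b₁ b₂ : ℂ) (S : Finset ℕ) :
    LP4 u a₁ a₂ b₁ b₂ S = ∏ p ∈ S, L4 u a₁ a₂ b₁ b₂ p := rfl

lemma Z4_dep {a₁ a₂ b₁ b₂ : ℂ} {S : Finset ℕ} {f g : ℕ → ℂ} (h : ∀ p ∈ S, f p = g p) :
    Z4 a₁ a₂ b₁ b₂ S f = Z4 a₁ a₂ b₁ b₂ S g := by
  have h' : ∀ w : ℂ, ZZ S (tw w f) = ZZ S (tw w g) := fun w => ZZ_dep h
  unfold Z4
  rw [h', h', h', h']

lemma Z4_prod {T : ℝ} (hT : 1 < T) (M J : ℕ) (a₁ a₂ b₁ b₂ : ℂ) (f : ℕ → ℂ) :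
    Z4 a₁ a₂ b₁ b₂ (PS 0 T) f = ∏ j ∈ Finset.range (J + 2), Z4 a₁ a₂ b₁ b₂ (Sj T M J j) f := by
  unfold Z4
  simp only [map_mul]
  rw [← UU_SB hT M J, ZZ_UU hT, ZZ_UU hT, ZZ_UU hT, ZZ_UU hT, map_prod, map_prod,
    Finset.prod_mul_distrib, Finset.prod_mul_distrib, Finset.prod_mul_distrib]

lemma RZ4_gen {T : ℝ} (hT : 1 < T) (M : ℕ) (a₁ a₂ b₁ b₂ : ℂ) (G : (ℕ → ℂ) → ℂ)
    (Ψ : ℕ → (ℕ → ℂ) → ℂ)
    (hΨ : ∀ j f g, (∀ p ∈ Sj T M (JJ T) j, f p = g p) → Ψ j f = Ψ j g)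
    (hG : ∀ f, G (tw (1 / 2) f) * (starRingEnd ℂ) (G (tw (1 / 2) f)) =
      ∏ j ∈ Finset.range (JJ T + 1), Ψ j f) :
    RZ4 T M G a₁ a₂ b₁ b₂ =
      (∏ j ∈ Finset.range (JJ T + 1), ES (Sj T M (JJ T) j)
        (fun f => Z4 a₁ a₂ b₁ b₂ (Sj T M (JJ T) j) f * Ψ j f)) *
        ES (Sj T M (JJ T) (JJ T + 1)) (Z4 a₁ a₂ b₁ b₂ (Sj T M (JJ T) (JJ T + 1))) := by
  obtain ⟨J, hJ⟩ : ∃ J, J = JJ T := ⟨_, rfl⟩
  rw [RZ4, ← hJ]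
  rw [← hJ] at hΨ hG
  obtain ⟨Φ, hΦ⟩ : ∃ Φ : ℕ → (ℕ → ℂ) → ℂ, Φ = fun j f => Z4 a₁ a₂ b₁ b₂ (Sj T M J j) f *
      (if j < J + 1 then Ψ j f else 1) := ⟨_, rfl⟩
  have e1 : ∀ f : ℕ → ℂ, ZZ (PS 0 T) (tw (1 / 2 + a₁) f) * ZZ (PS 0 T) (tw (1 / 2 + a₂) f) *
      (starRingEnd ℂ) (ZZ (PS 0 T) (tw (1 / 2 + (starRingEnd ℂ) b₁) f) *
        ZZ (PS 0 T) (tw (1 / 2 + (starRingEnd ℂ) b₂) f)) *
      (G (tw (1 / 2) f) * (starRingEnd ℂ) (G (tw (1 / 2) f))) =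
      ∏ j ∈ Finset.range (J + 2), Φ j f := by
    intro f
    have h0 : ZZ (PS 0 T) (tw (1 / 2 + a₁) f) * ZZ (PS 0 T) (tw (1 / 2 + a₂) f) *
      (starRingEnd ℂ) (ZZ (PS 0 T) (tw (1 / 2 + (starRingEnd ℂ) b₁) f) *
        ZZ (PS 0 T) (tw (1 / 2 + (starRingEnd ℂ) b₂) f)) = Z4 a₁ a₂ b₁ b₂ (PS 0 T) f := rfl
    have h1 : ∏ j ∈ Finset.range (J + 1), Φ j f = (∏ j ∈ Finset.range (J + 1),
        Z4 a₁ a₂ b₁ b₂ (Sj T M J j) f) * ∏ j ∈ Finset.range (J + 1), Ψ j f := by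
      rw [← Finset.prod_mul_distrib]
      refine Finset.prod_congr rfl fun j hj => ?_
      rw [hΦ]
      simp only [if_pos (Finset.mem_range.mp hj)]
    have h2 : Φ (J + 1) f = Z4 a₁ a₂ b₁ b₂ (Sj T M J (J + 1)) f := by
      rw [hΦ]
      simp only [if_neg (lt_irrefl (J + 1)), mul_one]
    rw [h0, Z4_prod hT M J, hG, Finset.prod_range_succ _ (J + 1), Finset.prod_range_succ _ (J + 1),
      h1, h2]
    ring
  simp only [e1]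
  rw [ER_prod' hT M J Φ (by
    intro j f g hfg
    rw [hΦ]
    simp only
    rw [Z4_dep hfg, hΨ j f g hfg]), Finset.prod_range_succ _ (J + 1)]
  have h2 : Φ (J + 1) = Z4 a₁ a₂ b₁ b₂ (Sj T M J (J + 1)) := by
    ext f
    rw [hΦ]
    simp only [if_neg (lt_irrefl (J + 1)), mul_one]
  have h3 : ∏ j ∈ Finset.range (J + 1), ES (Sj T M J j) (Φ j) =
      ∏ j ∈ Finset.range (J + 1), ES (Sj T M J j)
        (fun f => Z4 a₁ a₂ b₁ b₂ (Sj T M J j) f * Ψ j f) := by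
    refine Finset.prod_congr rfl fun j hj => ?_
    congr 1
    ext f
    rw [hΦ]
    simp only [if_pos (Finset.mem_range.mp hj)]
  rw [h2, h3]

/-- the twisting factor of one block -/
noncomputable def Psi (T : ℝ) (M : ℕ) (k : ℝ) (j : ℕ) (f : ℕ → ℂ) : ℂ :=
  Ntr (ll M (JJ T) j) (k - 2) (Pj M (Sj T M (JJ T) j) (tw (1 / 2) f)) *
    (starRingEnd ℂ) (Ntr (ll M (JJ T) j) (k - 2) (Pj M (Sj T M (JJ T) j) (tw (1 / 2) f)))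

lemma RZ4_NN {T : ℝ} (hT : 1 < T) (M : ℕ) (k : ℝ) (a₁ a₂ b₁ b₂ : ℂ) :
    RZ4 T M (NN T M (k - 2)) a₁ a₂ b₁ b₂ =
      (∏ j ∈ Finset.range (JJ T + 1), ES (Sj T M (JJ T) j)
        (fun f => Z4 a₁ a₂ b₁ b₂ (Sj T M (JJ T) j) f * Psi T M k j f)) *
        ES (Sj T M (JJ T) (JJ T + 1)) (Z4 a₁ a₂ b₁ b₂ (Sj T M (JJ T) (JJ T + 1))) := by
  apply RZ4_gen hT
  · intro j f g hfg
    have h2 : Pj M (Sj T M (JJ T) j) (tw (1 / 2) f) = Pj M (Sj T M (JJ T) j) (tw (1 / 2) g) := by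
      unfold Pj
      refine Finset.sum_congr rfl fun p hp => ?_
      simp only [tw, hfg p hp]
    unfold Psi
    rw [h2]
  · intro f
    have hN : NN T M (k - 2) (tw (1 / 2) f) = ∏ j ∈ Finset.range (JJ T + 1),
        Ntr (ll M (JJ T) j) (k - 2) (Pj M (Sj T M (JJ T) j) (tw (1 / 2) f)) := by
      rw [NN, AA]
      refine Finset.prod_congr rfl fun j hj => ?_
      rw [Fc, if_pos hj, if_neg (Finset.notMem_empty _), mul_one]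
    rw [hN, map_prod, ← Finset.prod_mul_distrib]
    rfl

lemma RZ4_one {T : ℝ} (hT : 1 < T) (M : ℕ) (a₁ a₂ b₁ b₂ : ℂ) :
    RZ4 T M (fun _ => 1) a₁ a₂ b₁ b₂ =
      (∏ j ∈ Finset.range (JJ T + 1), ES (Sj T M (JJ T) j)
        (Z4 a₁ a₂ b₁ b₂ (Sj T M (JJ T) j))) *
        ES (Sj T M (JJ T) (JJ T + 1)) (Z4 a₁ a₂ b₁ b₂ (Sj T M (JJ T) (JJ T + 1))) := by
  have h := RZ4_gen hT M a₁ a₂ b₁ b₂ (fun _ => 1) (fun _ _ => 1) (fun _ _ _ _ => rfl)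
    (fun f => by simp)
  simp only [mul_one] at h
  exact h

lemma LF4_zero (x : ℝ) (x₁ x₂ y₁ y₂ : ℂ) :
    LF4 0 x x₁ x₂ y₁ y₂ = Real.circleAverage (fun z : ℂ => (1 - x₁ * z)⁻¹ * (1 - x₂ * z)⁻¹ *
      (1 - y₁ * (starRingEnd ℂ) z)⁻¹ * (1 - y₂ * (starRingEnd ℂ) z)⁻¹) 0 1 := by
  unfold LF4
  congr 1
  ext z
  simp

lemma ES_Z4 (S : Finset ℕ) (a₁ a₂ b₁ b₂ : ℂ) :
    ES S (Z4 a₁ a₂ b₁ b₂ S) = ∏ p ∈ S, L4 0 a₁ a₂ b₁ b₂ p := by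
  simp only [L4, LF4_zero]
  rw [← ES_prod S (fun p z => (1 - (p : ℂ) ^ (-(1 / 2 + a₁)) * z)⁻¹ *
    (1 - (p : ℂ) ^ (-(1 / 2 + a₂)) * z)⁻¹ *
        (1 - (p : ℂ) ^ (-(1 / 2 + b₁)) * (starRingEnd ℂ) z)⁻¹ *
        (1 - (p : ℂ) ^ (-(1 / 2 + b₂)) * (starRingEnd ℂ) z)⁻¹)]
  congr 1
  ext f
  rw [Z4, ZZ, ZZ, ZZ, ZZ, map_mul, map_prod, map_prod, Finset.prod_mul_distrib,
    Finset.prod_mul_distrib, Finset.prod_mul_distrib, mul_assoc (_ * _)]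
  congr 2
  · refine Finset.prod_congr rfl fun p _ => ?_
    rw [map_inv₀, map_sub, map_one]
    simp only [tw, map_mul]
    rw [conj_cpow_nat]
  · refine Finset.prod_congr rfl fun p _ => ?_
    rw [map_inv₀, map_sub, map_one]
    simp only [tw, map_mul]
    rw [conj_cpow_nat]

/-- the hypothesis of module (5) -/
def HLF (C : ℝ) : Prop := ∀ (u x : ℝ) (x₁ x₂ y₁ y₂ : ℂ), |u| ≤ 1 / 10 → 0 ≤ x → x ≤ 3 / 4 →
    ‖x₁‖ ≤ 3 / 4 → ‖x₂‖ ≤ 3 / 4 → ‖y₁‖ ≤ 3 / 4 → ‖y₂‖ ≤ 3 / 4 →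
    ‖x₁‖ ≤ 2 * x → ‖x₂‖ ≤ 2 * x → ‖y₁‖ ≤ 2 * x → ‖y₂‖ ≤ 2 * x →
    ‖(1 - x₁ * y₁) * (1 - x₁ * y₂) * (1 - x₂ * y₁) * (1 - x₂ * y₂) * LF4 u x x₁ x₂ y₁ y₂ -
      ((1 + (u ^ 2 - 4 * u) * x ^ 2 : ℝ) : ℂ) * (1 - x₁ * x₂ * y₁ * y₂)‖ ≤
      C * |u| * x * (‖x₁ - x‖ + ‖x₂ - x‖ + ‖y₁ - x‖ + ‖y₂ - x‖ + x ^ 3)

lemma W4_eq {p : ℕ} (hp : p ≠ 0) (a₁ a₂ b₁ b₂ : ℂ) : W4 a₁ a₂ b₁ b₂ p =
    (1 - (p : ℂ) ^ (-(1 / 2 + a₁)) * (p : ℂ) ^ (-(1 / 2 + b₁))) *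
      (1 - (p : ℂ) ^ (-(1 / 2 + a₁)) * (p : ℂ) ^ (-(1 / 2 + b₂))) *
      (1 - (p : ℂ) ^ (-(1 / 2 + a₂)) * (p : ℂ) ^ (-(1 / 2 + b₁))) *
      (1 - (p : ℂ) ^ (-(1 / 2 + a₂)) * (p : ℂ) ^ (-(1 / 2 + b₂))) := by
  rw [cpow_mul_eq hp, cpow_mul_eq hp, cpow_mul_eq hp, cpow_mul_eq hp, W4]
  simp only [add_assoc]

lemma exact0 {C : ℝ} (h : HLF C) {p : ℕ} (hp : p ≠ 0) {a₁ a₂ b₁ b₂ : ℂ}
    (h1 : ‖(p : ℂ) ^ (-(1 / 2 + a₁))‖ ≤ 3 / 4) (h2 : ‖(p : ℂ) ^ (-(1 / 2 + a₂))‖ ≤ 3 / 4)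
    (h3 : ‖(p : ℂ) ^ (-(1 / 2 + b₁))‖ ≤ 3 / 4) (h4 : ‖(p : ℂ) ^ (-(1 / 2 + b₂))‖ ≤ 3 / 4) :
    W4 a₁ a₂ b₁ b₂ p * L4 0 a₁ a₂ b₁ b₂ p = V4 a₁ a₂ b₁ b₂ p := by
  have h5 := h 0 (3 / 4) _ _ _ _ (by norm_num) (by norm_num) le_rfl h1 h2 h3 h4 (by linarith)
    (by linarith) (by linarith) (by linarith)
  rw [LF4_zero] at h5
  rw [W4_eq hp, L4, LF4_zero, V4]
  simp only [abs_zero, mul_zero, zero_mul, ne_eq, OfNat.ofNat_ne_zero, not_false_eq_true, zero_pow,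
    sub_zero, add_zero, ofReal_one, one_mul] at h5
  exact sub_eq_zero.mp (norm_eq_zero.mp (le_antisymm h5 (norm_nonneg _)))

lemma norm_V4 {a₁ a₂ b₁ b₂ : ℂ} {p : ℕ} {t : ℝ} (ht : 0 ≤ t)
    (h1 : ‖(p : ℂ) ^ (-(1 / 2 + a₁))‖ ≤ t) (h2 : ‖(p : ℂ) ^ (-(1 / 2 + a₂))‖ ≤ t)
    (h3 : ‖(p : ℂ) ^ (-(1 / 2 + b₁))‖ ≤ t) (h4 : ‖(p : ℂ) ^ (-(1 / 2 + b₂))‖ ≤ t) :
    ‖V4 a₁ a₂ b₁ b₂ p‖ ≤ 1 + t ^ 4 ∧ 1 - t ^ 4 ≤ ‖V4 a₁ a₂ b₁ b₂ p‖ := by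
  have h5 : ‖(p : ℂ) ^ (-(1 / 2 + a₁)) * (p : ℂ) ^ (-(1 / 2 + a₂)) * (p : ℂ) ^ (-(1 / 2 + b₁)) *
    (p : ℂ) ^ (-(1 / 2 + b₂))‖ ≤ t ^ 4 := by
    rw [norm_mul, norm_mul, norm_mul]
    calc _ ≤ t * t * t * t := by gcongr
      _ = t ^ 4 := by ring
  unfold V4
  constructor
  · refine (norm_sub_le _ _).trans ?_
    rw [norm_one]
    linarith
  · have := norm_sub_norm_le (1 : ℂ) ((p : ℂ) ^ (-(1 / 2 + a₁)) * (p : ℂ) ^ (-(1 / 2 + a₂)) *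
      (p : ℂ) ^ (-(1 / 2 + b₁)) * (p : ℂ) ^ (-(1 / 2 + b₂)))
    rw [norm_one] at this
    linarith

lemma exp_50 : Real.exp (1 / 50) ≤ 50 / 49 := by
  have h3 := Real.one_sub_le_exp_neg (1 / 50)
  rw [Real.exp_neg] at h3
  have h4 := Real.exp_pos (1 / 50)
  have h5 : (1 - 1 / 50) * Real.exp (1 / 50) ≤ 1 := by
    calc (1 - 1 / 50) * Real.exp (1 / 50) ≤ (Real.exp (1 / 50))⁻¹ * Real.exp (1 / 50) := by gcongr
      _ = 1 := inv_mul_cancel₀ h4.ne'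
  linarith

lemma nx {p : ℕ} (hp : p.Prime) {a : ℂ} (ha : ‖a‖ * Real.log p ≤ 1 / 50) :
    ‖(p : ℂ) ^ (-(1 / 2 + a))‖ ≤ (p : ℝ) ^ (-(1 / 2) : ℝ) * (50 / 49) := by
  refine (norm_x hp a).trans ?_
  gcongr
  exact (Real.exp_le_exp.mpr ha).trans exp_50

lemma nx' {p : ℕ} (hp : p.Prime) {a : ℂ} (ha : ‖a‖ * Real.log p ≤ 1 / 50) :
    ‖(p : ℂ) ^ (-(1 / 2 + a))‖ ≤ 73 / 100 := by
  have := nx hp ha
  have := x_le hp
  linarith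

lemma local4 {C : ℝ} (hC : 0 < C) (h : HLF C) {p : ℕ} (hp : p.Prime) {u : ℝ} (hu : |u| ≤ 1 / 10)
    {a₁ a₂ b₁ b₂ : ℂ} (h1 : ‖a₁‖ * Real.log p ≤ 1 / 50) (h2 : ‖a₂‖ * Real.log p ≤ 1 / 50)
    (h3 : ‖b₁‖ * Real.log p ≤ 1 / 50) (h4 : ‖b₂‖ * Real.log p ≤ 1 / 50) :
    ‖W4 a₁ a₂ b₁ b₂ p * L4 u a₁ a₂ b₁ b₂ p -
      ((1 + (u ^ 2 - 4 * u) * (p : ℝ)⁻¹ : ℝ) : ℂ) * V4 a₁ a₂ b₁ b₂ p‖ ≤
      C * |u| * (2 * (‖a₁‖ + ‖a₂‖ + ‖b₁‖ + ‖b₂‖) * (Real.log p / p) + ((p : ℝ) ^ 2)⁻¹) := by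
  have hp0 : (0 : ℝ) < p := by exact_mod_cast hp.pos
  have n1 := nx hp h1
  have n2 := nx hp h2
  have n3 := nx hp h3
  have n4 := nx hp h4
  have s1 := shift_le hp (h1.trans (by norm_num))
  have s2 := shift_le hp (h2.trans (by norm_num))
  have s3 := shift_le hp (h3.trans (by norm_num))
  have s4 := shift_le hp (h4.trans (by norm_num))
  have hx1 : (p : ℝ) ^ (-(1 / 2) : ℝ) ≤ 71 / 100 := x_le hp
  have hx2 : ((p : ℝ) ^ (-(1 / 2) : ℝ)) ^ 2 = (p : ℝ)⁻¹ := x_sq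
  rw [W4_eq hp.ne_zero, L4, V4]
  obtain ⟨x, hx⟩ : ∃ x, x = (p : ℝ) ^ (-(1 / 2) : ℝ) := ⟨_, rfl⟩
  have hx0 : 0 ≤ x := by rw [hx]; positivity
  rw [← hx] at n1 n2 n3 n4 s1 s2 s3 s4 hx1 hx2 ⊢
  have h5 := h u x _ _ _ _ hu hx0 (by linarith) (n1.trans (by linarith)) (n2.trans (by linarith))
    (n3.trans (by linarith)) (n4.trans (by linarith))
    (n1.trans (by linarith)) (n2.trans (by linarith)) (n3.trans (by linarith))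
    (n4.trans (by linarith))
  rw [hx2] at h5
  refine h5.trans ?_
  have e1 : C * |u| * (2 * (‖a₁‖ + ‖a₂‖ + ‖b₁‖ + ‖b₂‖) * (Real.log p / p) + ((p : ℝ) ^ 2)⁻¹) =
      C * |u| * x * (x * (2 * (‖a₁‖ * Real.log p)) + x * (2 * (‖a₂‖ * Real.log p)) +
        x * (2 * (‖b₁‖ * Real.log p)) + x * (2 * (‖b₂‖ * Real.log p)) + x ^ 3) := by
    have e2 : ((p : ℝ) ^ 2)⁻¹ = x ^ 4 := by
      rw [show x ^ 4 = (x ^ 2) ^ 2 by ring, hx2, inv_pow]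
    rw [e2, div_eq_mul_inv, ← hx2]
    ring
  rw [e1]
  gcongr

lemma prod4 {C : ℝ} (hC : 0 < C) (h : HLF C) {U : Finset ℕ} (hU : ∀ p ∈ U, p.Prime) {u : ℝ}
    (hu : |u| ≤ 1 / 10) {a₁ a₂ b₁ b₂ : ℂ}
    (ha : ∀ p ∈ U, ‖a₁‖ * Real.log p ≤ 1 / 50 ∧ ‖a₂‖ * Real.log p ≤ 1 / 50 ∧
      ‖b₁‖ * Real.log p ≤ 1 / 50 ∧ ‖b₂‖ * Real.log p ≤ 1 / 50)
    (hsum : (‖a₁‖ + ‖a₂‖ + ‖b₁‖ + ‖b₂‖) * ∑ p ∈ U, Real.log p / p ≤ 1) :
    ‖∏ p ∈ U, (W4 a₁ a₂ b₁ b₂ p * L4 u a₁ a₂ b₁ b₂ p) -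
      ((Real.exp ((u ^ 2 - 4 * u) * ∑ p ∈ U, (1 : ℝ) / p) : ℝ) : ℂ) *
        ∏ p ∈ U, V4 a₁ a₂ b₁ b₂ p‖ ≤
      (Real.exp ((9 * C + 5) * |u|) - 1) * (Real.exp ((u ^ 2 - 4 * u) * ∑ p ∈ U, (1 : ℝ) / p) *
        ‖∏ p ∈ U, V4 a₁ a₂ b₁ b₂ p‖) := by
  set w : ℕ → ℝ := fun p => (u ^ 2 - 4 * u) * (p : ℝ)⁻¹ with hw
  have hau0 : 0 ≤ |u| := abs_nonneg u
  set e : ℕ → ℝ := fun p => 3 * (C * |u| * (2 * (‖a₁‖ + ‖a₂‖ + ‖b₁‖ + ‖b₂‖) * (Real.log p / p) +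
    ((p : ℝ) ^ 2)⁻¹)) + 50 * |u| ^ 2 * ((p : ℝ) ^ 2)⁻¹ with he
  have hE : ((Real.exp ((u ^ 2 - 4 * u) * ∑ p ∈ U, (1 : ℝ) / p) : ℝ) : ℂ) *
      ∏ p ∈ U, V4 a₁ a₂ b₁ b₂ p =
      ∏ p ∈ U, (((Real.exp (w p) : ℝ) : ℂ) * V4 a₁ a₂ b₁ b₂ p) := by
    rw [Finset.prod_mul_distrib]
    congr 1
    rw [← ofReal_prod, ← Real.exp_sum, Finset.mul_sum]
    congr 3
    ext p
    simp only [hw, one_div]
  have hE' : ‖∏ p ∈ U, (((Real.exp (w p) : ℝ) : ℂ) * V4 a₁ a₂ b₁ b₂ p)‖ =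
      Real.exp ((u ^ 2 - 4 * u) * ∑ p ∈ U, (1 : ℝ) / p) * ‖∏ p ∈ U, V4 a₁ a₂ b₁ b₂ p‖ := by
    rw [← hE, norm_mul, norm_real, Real.norm_eq_abs, abs_of_pos (Real.exp_pos _)]
  rw [hE, ← hE']
  have hlog : ∀ p ∈ U, 0 ≤ Real.log p / (p : ℝ) := fun p hp =>
    div_nonneg (Real.log_nonneg (by exact_mod_cast (hU p hp).one_lt.le)) (by positivity)
  refine (prod_sub_le' U _ _ e (fun p hp => ?_) (fun p hp => ?_)).trans ?_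
  · have := hlog p hp
    simp only [he]
    positivity
  · have hp2 : (2 : ℝ) ≤ p := by exact_mod_cast (hU p hp).two_le
    have hpi : (p : ℝ)⁻¹ ≤ 1 / 2 := by
      rw [inv_le_comm₀ (by linarith) (by norm_num)]; linarith
    have hpi0 : 0 ≤ (p : ℝ)⁻¹ := by positivity
    have h1 := local4 hC h (hU p hp) hu (ha p hp).1 (ha p hp).2.1 (ha p hp).2.2.1 (ha p hp).2.2.2
    have hw1 : |w p| ≤ 5 * |u| * (p : ℝ)⁻¹ := by
      simp only [hw]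
      rw [abs_mul, abs_of_nonneg hpi0]
      apply mul_le_mul_of_nonneg_right _ hpi0
      calc |u ^ 2 - 4 * u| ≤ |u ^ 2| + |4 * u| := abs_sub _ _
        _ = |u| * |u| + 4 * |u| := by
            rw [abs_pow, abs_mul, pow_two, abs_of_pos (show (0 : ℝ) < 4 by norm_num)]
        _ ≤ 1 / 10 * |u| + 4 * |u| := by gcongr
        _ ≤ 5 * |u| := by linarith
    have hw2 : |w p| ≤ 1 / 2 := by
      refine hw1.trans ?_
      nlinarith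
    have h2 : |Real.exp (w p) - 1 - w p| ≤ (w p) ^ 2 :=
      Real.abs_exp_sub_one_sub_id_le (by linarith)
    have h3 : (1 : ℝ) / 2 ≤ Real.exp (w p) := by
      have := Real.add_one_le_exp (w p)
      have := neg_abs_le (w p)
      linarith
    have h4 : (w p) ^ 2 ≤ 25 * |u| ^ 2 * ((p : ℝ) ^ 2)⁻¹ := by
      rw [← sq_abs]
      calc |w p| ^ 2 ≤ (5 * |u| * (p : ℝ)⁻¹) ^ 2 := by gcongr
        _ = _ := by rw [mul_pow, inv_pow]; ring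
    obtain ⟨_, hV⟩ := norm_V4 (a₁ := a₁) (a₂ := a₂) (b₁ := b₁) (b₂ := b₂) (p := p)
      (t := 73 / 100) (by norm_num) (nx' (hU p hp) (ha p hp).1) (nx' (hU p hp) (ha p hp).2.1)
      (nx' (hU p hp) (ha p hp).2.2.1) (nx' (hU p hp) (ha p hp).2.2.2)
    have hV' : 7 / 10 ≤ ‖V4 a₁ a₂ b₁ b₂ p‖ := by norm_num at hV; linarith
    rw [norm_mul (((Real.exp (w p) : ℝ) : ℂ)), norm_real, Real.norm_eq_abs,
      abs_of_pos (Real.exp_pos _)]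
    have h5 : ‖((1 + w p : ℝ) : ℂ) * V4 a₁ a₂ b₁ b₂ p -
        ((Real.exp (w p) : ℝ) : ℂ) * V4 a₁ a₂ b₁ b₂ p‖ ≤ (w p) ^ 2 * ‖V4 a₁ a₂ b₁ b₂ p‖ := by
      rw [← sub_mul, norm_mul]
      apply mul_le_mul_of_nonneg_right _ (norm_nonneg _)
      rw [← ofReal_sub, norm_real, Real.norm_eq_abs, abs_sub_comm]
      refine le_trans (le_of_eq ?_) h2
      congr 1; ring
    have h6 := norm_sub_le_norm_sub_add_norm_sub (W4 a₁ a₂ b₁ b₂ p * L4 u a₁ a₂ b₁ b₂ p)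
      (((1 + w p : ℝ) : ℂ) * V4 a₁ a₂ b₁ b₂ p) (((Real.exp (w p) : ℝ) : ℂ) * V4 a₁ a₂ b₁ b₂ p)
    refine h6.trans ?_
    obtain ⟨r, hr⟩ : ∃ r, r = C * |u| * (2 * (‖a₁‖ + ‖a₂‖ + ‖b₁‖ + ‖b₂‖) * (Real.log p / p) +
      ((p : ℝ) ^ 2)⁻¹) := ⟨_, rfl⟩
    have hr0 : 0 ≤ r := by
      have := hlog p hp
      rw [hr]
      positivity
    rw [← hr] at h1
    obtain ⟨v, hv⟩ : ∃ v, v = ‖V4 a₁ a₂ b₁ b₂ p‖ := ⟨_, rfl⟩
    rw [← hv] at hV' h5 ⊢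
    have hv0 : 0 < v := by linarith
    have hep : e p = 3 * r + 50 * |u| ^ 2 * ((p : ℝ) ^ 2)⁻¹ := by simp only [he, hr]
    have h7 : r ≤ 3 * r * (Real.exp (w p) * v) := by
      have h8 : 1 / 2 * (7 / 10) ≤ Real.exp (w p) * v := by gcongr
      have h88 : 3 * r * (1 / 2 * (7 / 10)) ≤ 3 * r * (Real.exp (w p) * v) :=
        mul_le_mul_of_nonneg_left h8 (by linarith)
      linarith
    have h9 : (w p) ^ 2 * v ≤ 50 * |u| ^ 2 * ((p : ℝ) ^ 2)⁻¹ * (Real.exp (w p) * v) := by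
      calc (w p) ^ 2 * v ≤ 25 * |u| ^ 2 * ((p : ℝ) ^ 2)⁻¹ * v := by gcongr
        _ = 50 * |u| ^ 2 * ((p : ℝ) ^ 2)⁻¹ * (1 / 2 * v) := by ring
        _ ≤ 50 * |u| ^ 2 * ((p : ℝ) ^ 2)⁻¹ * (Real.exp (w p) * v) := by gcongr
    rw [hep, add_mul]
    exact add_le_add (h1.trans h7) (h5.trans h9)
  · gcongr
    simp only [he]
    rw [Finset.sum_add_distrib, ← Finset.mul_sum, ← Finset.mul_sum, Finset.sum_add_distrib,
      ← Finset.mul_sum, ← Finset.mul_sum]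
    have h1 := sum_inv_sq_le hU
    have h2 : 2 * (‖a₁‖ + ‖a₂‖ + ‖b₁‖ + ‖b₂‖) * ∑ p ∈ U, Real.log p / p ≤ 2 := by linarith
    have h3 : C * |u| * (2 * (‖a₁‖ + ‖a₂‖ + ‖b₁‖ + ‖b₂‖) * ∑ p ∈ U, Real.log p / p +
        ∑ p ∈ U, ((p : ℝ) ^ 2)⁻¹) ≤ C * |u| * 3 := by
      gcongr; linarith
    have h4 : 50 * |u| ^ 2 * ∑ p ∈ U, ((p : ℝ) ^ 2)⁻¹ ≤ 50 * |u| ^ 2 * 1 := by gcongr
    nlinarith

/-- the product of the exact values over a set of primes -/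
lemma norm_prod_V4 {U : Finset ℕ} {a₁ a₂ b₁ b₂ : ℂ} {t : ℕ → ℝ} (ht : ∀ p ∈ U, 0 ≤ t p)
    (h : ∀ p ∈ U, ‖(p : ℂ) ^ (-(1 / 2 + a₁))‖ ≤ t p ∧ ‖(p : ℂ) ^ (-(1 / 2 + a₂))‖ ≤ t p ∧
      ‖(p : ℂ) ^ (-(1 / 2 + b₁))‖ ≤ t p ∧ ‖(p : ℂ) ^ (-(1 / 2 + b₂))‖ ≤ t p) :
    ‖∏ p ∈ U, V4 a₁ a₂ b₁ b₂ p‖ ≤ Real.exp (∑ p ∈ U, t p ^ 4) := by
  rw [norm_prod, Real.exp_sum]
  refine Finset.prod_le_prod (fun p _ => norm_nonneg _) fun p hp => ?_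
  obtain ⟨h1, h2, h3, h4⟩ := h p hp
  have := (norm_V4 (ht p hp) h1 h2 h3 h4).1
  have := Real.add_one_le_exp (t p ^ 4)
  linarith

lemma EP_W4 {T : ℝ} {a₁ a₂ b₁ b₂ : ℂ}
    (h : ∀ p ∈ PS 0 T, p.Prime ∧ ‖(p : ℂ) ^ (-(1 / 2 + a₁))‖ ≤ 3 / 4 ∧
      ‖(p : ℂ) ^ (-(1 / 2 + a₂))‖ ≤ 3 / 4 ∧ ‖(p : ℂ) ^ (-(1 / 2 + b₁))‖ ≤ 3 / 4 ∧
      ‖(p : ℂ) ^ (-(1 / 2 + b₂))‖ ≤ 3 / 4) :
    EP T (a₁ + b₁) * EP T (a₁ + b₂) * EP T (a₂ + b₁) * EP T (a₂ + b₂) *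
      ∏ p ∈ PS 0 T, W4 a₁ a₂ b₁ b₂ p = 1 := by
  unfold EP
  rw [← Finset.prod_mul_distrib, ← Finset.prod_mul_distrib, ← Finset.prod_mul_distrib,
    ← Finset.prod_mul_distrib]
  apply Finset.prod_eq_one
  intro p hp
  obtain ⟨hpp, h1, h2, h3, h4⟩ := h p hp
  have key : ∀ a b : ℂ, ‖(p : ℂ) ^ (-(1 / 2 + a))‖ ≤ 3 / 4 → ‖(p : ℂ) ^ (-(1 / 2 + b))‖ ≤ 3 / 4 →
      (1 - (p : ℂ) ^ (-(1 + (a + b)))) ≠ 0 := by
    intro a b ha hb h0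
    have e1 : (p : ℂ) ^ (-(1 + (a + b))) = 1 := (sub_eq_zero.mp h0).symm
    have e2 := cpow_mul_eq hpp.ne_zero a b
    rw [add_assoc, e1] at e2
    have e3 := congrArg norm e2
    rw [norm_mul, norm_one] at e3
    have e4 : ‖(p : ℂ) ^ (-(1 / 2 + a))‖ * ‖(p : ℂ) ^ (-(1 / 2 + b))‖ ≤ 3 / 4 * (3 / 4) := by gcongr
    linarith
  have k1 := key a₁ b₁ h1 h3
  have k2 := key a₁ b₂ h1 h4
  have k3 := key a₂ b₁ h2 h3
  have k4 := key a₂ b₂ h2 h4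
  unfold W4
  field_simp

lemma abc_bound {z q v : ℂ} {A B D E X : ℝ} (hA : 1 ≤ A) (hB : 1 ≤ B) (hE0 : 0 < E)
    (h1 : ‖z - q‖ ≤ (A - 1) * ‖q‖) (h2 : ‖q - (E : ℂ) * v‖ ≤ (B - 1) * (E * ‖v‖))
    (h3 : |E - X| ≤ (D - 1) * X) (h4 : E ≤ D * X) :
    ‖z - (X : ℂ) * v‖ ≤ (A * B * D - 1) * (X * ‖v‖) := by
  have hq : ‖q‖ ≤ B * (E * ‖v‖) := by
    have h5 : ‖q‖ ≤ ‖q - (E : ℂ) * v‖ + ‖(E : ℂ) * v‖ := by
      simpa using norm_add_le (q - (E : ℂ) * v) ((E : ℂ) * v)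
    have h6 : ‖(E : ℂ) * v‖ = E * ‖v‖ := by
      rw [norm_mul, norm_real, Real.norm_eq_abs, abs_of_pos hE0]
    rw [h6] at h5
    linarith
  have h7 : ‖(E : ℂ) * v - (X : ℂ) * v‖ ≤ (D - 1) * (X * ‖v‖) := by
    rw [← sub_mul, norm_mul, ← ofReal_sub, norm_real, Real.norm_eq_abs]
    calc |E - X| * ‖v‖ ≤ (D - 1) * X * ‖v‖ := mul_le_mul_of_nonneg_right h3 (norm_nonneg _)
      _ = _ := by ring
  have h8 : E * ‖v‖ ≤ D * (X * ‖v‖) := by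
    calc E * ‖v‖ ≤ D * X * ‖v‖ := mul_le_mul_of_nonneg_right h4 (norm_nonneg _)
      _ = _ := by ring
  have h9 : ‖z - (X : ℂ) * v‖ ≤ ‖z - q‖ + (‖q - (E : ℂ) * v‖ + ‖(E : ℂ) * v - (X : ℂ) * v‖) := by
    refine (norm_sub_le_norm_sub_add_norm_sub _ q _).trans ?_
    gcongr
    exact norm_sub_le_norm_sub_add_norm_sub _ _ _
  refine h9.trans ?_
  have hA0 : 0 ≤ A - 1 := by linarith
  have hB0 : 0 ≤ B - 1 := by linarith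
  calc ‖z - q‖ + (‖q - (E : ℂ) * v‖ + ‖(E : ℂ) * v - (X : ℂ) * v‖)
      ≤ (A - 1) * (B * (D * (X * ‖v‖))) + ((B - 1) * (D * (X * ‖v‖)) + (D - 1) * (X * ‖v‖)) := by
        refine add_le_add ?_ (add_le_add ?_ h7)
        · refine h1.trans (mul_le_mul_of_nonneg_left (hq.trans ?_) hA0)
          exact mul_le_mul_of_nonneg_left h8 (by linarith)
        · exact h2.trans (mul_le_mul_of_nonneg_left h8 hB0)
    _ = _ := by ring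

end RA4

open K1.RAx hiding local_p prodB in
open RA4 in
theorem stRA4 (h5 : StLF4) (h6 : StBlock4) : StRA4 := by
  obtain ⟨C, hC, hLF'⟩ := h5
  have hLF : HLF C := hLF'
  obtain ⟨C₁, hC₁, hB⟩ := h6
  obtain ⟨M₁, hM₁⟩ := block_cond C₁ hC₁
  obtain ⟨C₃, hC₃, hsi⟩ := sum_inv
  obtain ⟨C₄, hC₄, hsl⟩ := sum_log_div_le
  intro η hη
  have hlam : 0 < Real.log (1 + η / 8) / 2 := by
    have := Real.log_pos (show 1 < 1 + η / 8 by linarith)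
    linarith
  obtain ⟨lam, hlamdef⟩ : ∃ lam, lam = Real.log (1 + η / 8) / 2 := ⟨_, rfl⟩
  rw [← hlamdef] at hlam
  have t1 : Tendsto (fun M : ℕ => (2 : ℝ) ^ (-(((M : ℝ) - 3) / 2))) atTop (𝓝 0) := by
    have h1 : Tendsto (fun M : ℕ => (((M : ℝ) - 3) / 2)) atTop atTop :=
      (tendsto_atTop_add_const_right _ (-3) tendsto_natCast_atTop_atTop).atTop_div_const (by norm_num)
    have h2 : Tendsto (fun x : ℝ => (2 : ℝ) ^ (-x)) atTop (𝓝 0) := by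
      have : (fun x : ℝ => (2 : ℝ) ^ (-x)) = fun x : ℝ => Real.exp (-(Real.log 2 * x)) := by
        ext x; rw [Real.rpow_def_of_pos (by norm_num)]; congr 1; ring
      rw [this]
      exact Real.tendsto_exp_neg_atTop_nhds_zero.comp
        (tendsto_id.const_mul_atTop (Real.log_pos (by norm_num)))
    exact h2.comp h1
  have hsmall : ∀ᶠ M : ℕ in atTop, C₁ * (6 * (4 * (2 : ℝ) ^ (-(((M : ℝ) - 3) / 2))) +
      2 * Real.exp (-(5 * Real.exp (3 / 4 * (M : ℝ))))) ≤ lam := by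
    have t3 : Tendsto (fun M : ℕ => Real.exp (-(5 * Real.exp (3 / 4 * (M : ℝ))))) atTop (𝓝 0) := by
      refine Real.tendsto_exp_neg_atTop_nhds_zero.comp ?_
      refine Tendsto.const_mul_atTop (by norm_num) (Real.tendsto_exp_atTop.comp ?_)
      exact Tendsto.const_mul_atTop (by norm_num) tendsto_natCast_atTop_atTop
    have t4 := (((t1.const_mul 4).const_mul 6).add (t3.const_mul 2)).const_mul C₁
    simp only [mul_zero, add_zero] at t4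
    exact t4.eventually (eventually_le_nhds hlam)
  have hsmall2 : ∀ᶠ M : ℕ in atTop, 3 * (4 * (2 : ℝ) ^ (-(((M : ℝ) - 3) / 2))) ≤ 1 := by
    have t4 := (t1.const_mul 4).const_mul 3
    simp only [mul_zero] at t4
    exact t4.eventually (eventually_le_nhds zero_lt_one)
  obtain ⟨M₂, hM₂⟩ := eventually_atTop.mp (hsmall.and hsmall2)
  refine ⟨max (max M₁ M₂) 8, fun M hM => ?_⟩
  have hMM₁ : M₁ ≤ M := (le_max_left _ _).trans ((le_max_left _ _).trans hM)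
  have hMM₂ : M₂ ≤ M := (le_max_right _ _).trans ((le_max_left _ _).trans hM)
  have hM8 : 8 ≤ M := (le_max_right _ _).trans hM
  have hM8' : (8 : ℝ) ≤ M := by exact_mod_cast hM8
  obtain ⟨hs1, hs2⟩ := hM₂ M hMM₂
  obtain ⟨T₁, hT₁3, hT₁⟩ := hM₁ M hMM₁
  obtain ⟨K, hK⟩ : ∃ K : ℝ, K = 9 * C + 5 + 5 * (C₃ + M) := ⟨_, rfl⟩
  have hK0 : 0 < K := by rw [hK]; positivity
  obtain ⟨u₁, hu₁⟩ : ∃ u₁ : ℝ, u₁ = min (1 / 10) (lam / K) := ⟨_, rfl⟩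
  have hu₁0 : 0 < u₁ := hu₁ ▸ lt_min (by norm_num) (by positivity)
  have hu₁1 : u₁ ≤ 1 / 10 := hu₁ ▸ min_le_left _ _
  have hu₁2 : u₁ ≤ lam / K := hu₁ ▸ min_le_right _ _
  refine ⟨u₁, hu₁0, hu₁1, ?_⟩
  obtain ⟨L₀, hL₀⟩ : ∃ L₀ : ℝ, L₀ = Real.exp M + 8 * C₄ * Real.exp (M / 2) +
    2 * Real.exp M * (Real.exp (M / 2) + 1) + Real.exp M * (4 * Real.exp (M / 2) + 2) := ⟨_, rfl⟩
  refine ⟨max T₁ (Real.exp L₀), hT₁3.trans (le_max_left _ _),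
    fun T hT k hk a₁ a₂ b₁ b₂ ha₁ ha₂ hb₁ hb₂ => ?_⟩
  have hT3 : 3 ≤ T := hT₁3.trans ((le_max_left _ _).trans hT)
  have hT1 : 1 < T := by linarith
  have hT0 : 0 < T := by linarith
  have hL : 0 < Real.log T := Real.log_pos hT1
  have hLL : L₀ ≤ Real.log T := by
    rw [Real.le_log_iff_exp_le hT0]; exact (le_max_right _ _).trans hT
  have eM : 0 < Real.exp (M : ℝ) := Real.exp_pos _
  have eM2 : 0 < Real.exp ((M : ℝ) / 2) := Real.exp_pos _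
  have g1 : 0 ≤ 8 * C₄ * Real.exp ((M : ℝ) / 2) := by positivity
  have g2 : 0 ≤ 2 * Real.exp M * (Real.exp ((M : ℝ) / 2) + 1) := by positivity
  have g3 : 0 ≤ Real.exp M * (4 * Real.exp ((M : ℝ) / 2) + 2) := by positivity
  have hLa : Real.exp M ≤ Real.log T := by linarith
  have hLb : 8 * C₄ * Real.exp ((M : ℝ) / 2) ≤ Real.log T := by linarith
  have hLc : 2 * Real.exp M * (Real.exp ((M : ℝ) / 2) + 1) ≤ Real.log T := by linarith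
  have hLd : Real.exp M * (4 * Real.exp ((M : ℝ) / 2) + 2) ≤ Real.log T := by linarith
  obtain ⟨L, hLdef⟩ : ∃ L, L = Real.log T := ⟨_, rfl⟩
  rw [← hLdef] at hL hLL hLa hLb hLc hLd ha₁ ha₂ hb₁ hb₂ ⊢
  obtain ⟨u, hu⟩ : ∃ u : ℝ, u = 2 - k := ⟨_, rfl⟩
  have hau0 : 0 ≤ |u| := abs_nonneg u
  have huk : |u| = |k - 2| := by rw [hu, abs_sub_comm]
  have huu : |u| ≤ u₁ := by rw [huk]; exact hk
  have hu1 : |u| ≤ 1 / 10 := huu.trans hu₁1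
  have huK : K * |u| ≤ lam := by
    have : |u| ≤ lam / K := huu.trans hu₁2
    rwa [le_div_iff₀ hK0, mul_comm] at this
  -- the shifts
  have he3 : Real.exp (-((M : ℝ) / 2)) ≤ 1 / 50 := by
    have h1 : (50 : ℝ) ≤ Real.exp 4 := by
      have h2 : Real.exp 4 = Real.exp 1 ^ 4 := by rw [← Real.exp_nat_mul]; norm_num
      have h3 : (2.7182818283 : ℝ) < Real.exp 1 := Real.exp_one_gt_d9
      rw [h2]
      calc (50 : ℝ) ≤ (2.7182818283 : ℝ) ^ 4 := by norm_num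
        _ ≤ _ := by gcongr
    calc Real.exp (-((M : ℝ) / 2)) ≤ Real.exp (-4) := Real.exp_le_exp.mpr (by linarith)
      _ = (Real.exp 4)⁻¹ := Real.exp_neg 4
      _ ≤ (50 : ℝ)⁻¹ := by gcongr
      _ = 1 / 50 := by norm_num
  have heprod : Real.exp ((M : ℝ) / 2) * Real.exp (-(M : ℝ)) = Real.exp (-((M : ℝ) / 2)) := by
    rw [← Real.exp_add]; congr 1; ring
  have hshift : ∀ j, j ≤ JJ T → ∀ p ∈ Sj T M (JJ T) j,
      ‖a₁‖ * Real.log p ≤ 1 / 50 ∧ ‖a₂‖ * Real.log p ≤ 1 / 50 ∧ ‖b₁‖ * Real.log p ≤ 1 / 50 ∧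
        ‖b₂‖ * Real.log p ≤ 1 / 50 := by
    intro j hj p hp
    have h1 := log_le_of_mem hT1 hj hp
    rw [← hLdef] at h1
    have h2 : 0 ≤ Real.log p := Real.log_nonneg (by exact_mod_cast (prime_Sj hT1 hp).one_lt.le)
    have h3 : ∀ a : ℂ, ‖a‖ ≤ Real.exp (M / 2) / L → ‖a‖ * Real.log p ≤ 1 / 50 := by
      intro a ha
      calc ‖a‖ * Real.log p ≤ (Real.exp (M / 2) / L) * (Real.exp (-(M : ℝ)) * L) := by gcongr
        _ = Real.exp ((M : ℝ) / 2) * Real.exp (-(M : ℝ)) := by field_simp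
        _ ≤ 1 / 50 := by rw [heprod]; exact he3
    exact ⟨h3 a₁ ha₁, h3 a₂ ha₂, h3 b₁ hb₁, h3 b₂ hb₂⟩
  obtain ⟨y, hy⟩ : ∃ y : ℝ, y = Real.exp (Real.exp (-(M : ℝ)) * Real.log T) := ⟨_, rfl⟩
  have hey : 1 ≤ Real.exp (-(M : ℝ)) * L := by
    rw [Real.exp_neg, inv_mul_eq_div, le_div_iff₀ eM, one_mul]; exact hLa
  have hy' : Real.log y = Real.exp (-(M : ℝ)) * L := by rw [hy, Real.log_exp, hLdef]
  have hy2 : 2 ≤ y := by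
    have := Real.add_one_le_exp (Real.exp (-(M : ℝ)) * Real.log T)
    rw [← hLdef] at this
    rw [hy, ← hLdef]
    linarith
  have hy0 : 0 < y := by linarith
  have hUp : ∀ p ∈ PS 0 y, p.Prime := fun p hp => ((mem_PS le_rfl (by linarith)).mp hp).1
  have hUmem : ∀ p ∈ PS 0 y, ∃ j, j ≤ JJ T ∧ p ∈ Sj T M (JJ T) j := by
    intro p hp
    rw [hy, ← biUnion_eq hT1, Finset.mem_biUnion] at hp
    obtain ⟨j, hj, hp⟩ := hp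
    exact ⟨j, by have := Finset.mem_range.mp hj; omega, hp⟩
  have hUsub : ∀ j, j ≤ JJ T → Sj T M (JJ T) j ⊆ PS 0 y := by
    intro j hj
    rw [hy, ← biUnion_eq hT1]
    exact Finset.subset_biUnion_of_mem (fun j => Sj T M (JJ T) j) (Finset.mem_range.mpr (by omega))
  have hlogU : ∀ p ∈ PS 0 y, 0 ≤ Real.log p / (p : ℝ) := fun p hp =>
    div_nonneg (Real.log_nonneg (by exact_mod_cast (hUp p hp).one_lt.le)) (by positivity)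
  have hshiftU : ∀ p ∈ PS 0 y, ‖a₁‖ * Real.log p ≤ 1 / 50 ∧ ‖a₂‖ * Real.log p ≤ 1 / 50 ∧
      ‖b₁‖ * Real.log p ≤ 1 / 50 ∧ ‖b₂‖ * Real.log p ≤ 1 / 50 := by
    intro p hp
    obtain ⟨j, hj, hpj⟩ := hUmem p hp
    exact hshift j hj p hpj
  have hsumU : (‖a₁‖ + ‖a₂‖ + ‖b₁‖ + ‖b₂‖) * ∑ p ∈ PS 0 y, Real.log p / p ≤ 1 := by
    have h1 := hsl y (by linarith)
    rw [hy'] at h1
    have h3 : 0 ≤ ∑ p ∈ PS 0 y, Real.log p / (p : ℝ) := Finset.sum_nonneg hlogU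
    calc (‖a₁‖ + ‖a₂‖ + ‖b₁‖ + ‖b₂‖) * ∑ p ∈ PS 0 y, Real.log p / p
        ≤ (Real.exp (M / 2) / L + Real.exp (M / 2) / L + Real.exp (M / 2) / L +
          Real.exp (M / 2) / L) * (Real.exp (-(M : ℝ)) * L + C₄) := by gcongr
      _ = 4 * (Real.exp ((M : ℝ) / 2) * Real.exp (-(M : ℝ))) + 4 * C₄ * Real.exp (M / 2) / L := by
          field_simp
          ring
      _ ≤ 4 * (1 / 50) + 1 / 2 := by
          rw [heprod]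
          have h4 : 4 * C₄ * Real.exp (M / 2) / L ≤ 1 / 2 := by
            rw [div_le_iff₀ hL]; linarith
          linarith
      _ ≤ 1 := by norm_num
  have hsumj : ∀ j, j ≤ JJ T →
      (‖a₁‖ + ‖a₂‖ + ‖b₁‖ + ‖b₂‖) * ∑ p ∈ Sj T M (JJ T) j, Real.log p / p ≤ 1 := by
    intro j hj
    refine le_trans ?_ hsumU
    exact mul_le_mul_of_nonneg_left
      (Finset.sum_le_sum_of_subset_of_nonneg (hUsub j hj) fun p hp _ => hlogU p hp) (by positivity)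
  -- the top block: sizes
  have htopn : ∀ p ∈ Sj T M (JJ T) (JJ T + 1), Real.log y ≤ Real.log p ∧ y < p ∧
      (p : ℝ) ≤ T ∧ ∀ a : ℂ, ‖a‖ ≤ Real.exp (M / 2) / L → ‖(p : ℂ) ^ (-(1 / 2 + a))‖ ≤
        (p : ℝ) ^ (-(1 / 2) : ℝ) * Real.exp (Real.exp (M / 2)) := by
    intro p hp
    have hpp := prime_Sj hT1 hp
    have h1 := (mem_Sj hT1).mp hp
    have hp0 : (0 : ℝ) < p := by exact_mod_cast hpp.pos
    have h2 : y < p := by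
      have h3 := h1.2.1
      rw [yy, if_neg (by omega), if_pos le_rfl, show JJ T + 1 - 1 = JJ T by omega, bet] at h3
      refine lt_of_eq_of_lt ?_ h3
      rw [hy]
      congr 3
      ring
    have h6 := h1.2.2
    rw [show JJ T + 1 + 1 = JJ T + 2 by ring, yy_last] at h6
    have h5 : Real.log p ≤ L := by
      rw [hLdef]
      exact Real.log_le_log hp0 h6
    refine ⟨Real.log_le_log hy0 h2.le, h2, h6, fun a ha => ?_⟩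
    refine (norm_x hpp a).trans ?_
    gcongr
    calc ‖a‖ * Real.log p ≤ (Real.exp (M / 2) / L) * L := by gcongr
      _ = _ := by field_simp
  have htop34 : ∀ p ∈ Sj T M (JJ T) (JJ T + 1), ∀ a : ℂ, ‖a‖ ≤ Real.exp (M / 2) / L →
      ‖(p : ℂ) ^ (-(1 / 2 + a))‖ ≤ 3 / 4 := by
    intro p hp a ha
    obtain ⟨h1, h2, h3, h4⟩ := htopn p hp
    have hp0 : (0 : ℝ) < p := by linarith
    refine (h4 a ha).trans ?_
    rw [Real.rpow_def_of_pos hp0, ← Real.exp_add]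
    have h8 : Real.exp ((M : ℝ) / 2) + 1 ≤ Real.exp (-(M : ℝ)) * L / 2 := by
      rw [Real.exp_neg, inv_mul_eq_div, div_div, le_div_iff₀ (by positivity)]
      linarith
    rw [hy'] at h1
    calc Real.exp (Real.log p * (-(1 / 2)) + Real.exp (M / 2)) ≤ Real.exp (-1) :=
          Real.exp_le_exp.mpr (by linarith)
      _ ≤ 3 / 4 := by
          rw [Real.exp_neg]
          have : (2 : ℝ) ≤ Real.exp 1 := by linarith [Real.exp_one_gt_d9]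
          calc (Real.exp 1)⁻¹ ≤ (2 : ℝ)⁻¹ := by gcongr
            _ ≤ 3 / 4 := by norm_num
  have hlow34 : ∀ p ∈ PS 0 y, ‖(p : ℂ) ^ (-(1 / 2 + a₁))‖ ≤ 3 / 4 ∧
      ‖(p : ℂ) ^ (-(1 / 2 + a₂))‖ ≤ 3 / 4 ∧ ‖(p : ℂ) ^ (-(1 / 2 + b₁))‖ ≤ 3 / 4 ∧
      ‖(p : ℂ) ^ (-(1 / 2 + b₂))‖ ≤ 3 / 4 := by
    intro p hp
    obtain ⟨h1, h2, h3, h4⟩ := hshiftU p hp
    exact ⟨(nx' (hUp p hp) h1).trans (by norm_num), (nx' (hUp p hp) h2).trans (by norm_num),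
      (nx' (hUp p hp) h3).trans (by norm_num), (nx' (hUp p hp) h4).trans (by norm_num)⟩
  -- the top block
  obtain ⟨Sx, hSx⟩ : ∃ S, S = Sj T M (JJ T) (JJ T + 1) := ⟨_, rfl⟩
  have htop : ES (Sj T M (JJ T) (JJ T + 1)) (Z4 a₁ a₂ b₁ b₂ (Sj T M (JJ T) (JJ T + 1))) *
      ∏ p ∈ Sj T M (JJ T) (JJ T + 1), W4 a₁ a₂ b₁ b₂ p =
      ∏ p ∈ Sj T M (JJ T) (JJ T + 1), V4 a₁ a₂ b₁ b₂ p := by
    rw [ES_Z4, ← Finset.prod_mul_distrib]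
    refine Finset.prod_congr rfl fun p hp => ?_
    rw [mul_comm]
    exact exact0 hLF (prime_Sj hT1 hp).ne_zero (htop34 p hp a₁ ha₁) (htop34 p hp a₂ ha₂)
      (htop34 p hp b₁ hb₁) (htop34 p hp b₂ hb₂)
  have htopV : ‖∏ p ∈ Sj T M (JJ T) (JJ T + 1), V4 a₁ a₂ b₁ b₂ p‖ ≤ Real.exp (1 / 2) := by
    refine (norm_prod_V4 (t := fun p => (p : ℝ) ^ (-(1 / 2) : ℝ) * Real.exp (Real.exp (M / 2)))
      (fun p _ => by positivity) (fun p hp => ?_)).trans ?_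
    · obtain ⟨-, -, -, h4⟩ := htopn p hp
      exact ⟨h4 a₁ ha₁, h4 a₂ ha₂, h4 b₁ hb₁, h4 b₂ hb₂⟩
    · apply Real.exp_le_exp.2
      have e1 : ∀ p ∈ Sj T M (JJ T) (JJ T + 1),
          ((p : ℝ) ^ (-(1 / 2) : ℝ) * Real.exp (Real.exp (M / 2))) ^ 4 =
          Real.exp (4 * Real.exp (M / 2)) * ((p : ℝ) ^ 2)⁻¹ := by
        intro p _
        rw [mul_pow, ← Real.exp_nat_mul, show ((p : ℝ) ^ (-(1 / 2) : ℝ)) ^ 4 =
          (((p : ℝ) ^ (-(1 / 2) : ℝ)) ^ 2) ^ 2 by ring, x_sq, inv_pow]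
        push_cast
        ring
      rw [Finset.sum_congr rfl e1, ← Finset.mul_sum]
      have hfl1 : 1 ≤ ⌊y⌋₊ := Nat.one_le_iff_ne_zero.2 (Nat.floor_pos.2 (by linarith)).ne'
      have hfl : y / 2 ≤ (⌊y⌋₊ : ℝ) := by
        have := Nat.sub_one_lt_floor y
        linarith
      have hyT : y ≤ T := by
        rw [← Real.log_le_log_iff hy0 hT0, hy', ← hLdef]
        have h44 : Real.exp (-(M : ℝ)) ≤ 1 := Real.exp_le_one_iff.2 (by linarith)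
        exact mul_le_of_le_one_left (by linarith) h44
      have hsub : Sj T M (JJ T) (JJ T + 1) ⊆ Finset.Ioc ⌊y⌋₊ ⌊T⌋₊ := by
        intro p hp
        obtain ⟨-, h2, h3, -⟩ := htopn p hp
        rw [Finset.mem_Ioc]
        exact ⟨(Nat.floor_lt hy0.le).2 h2, Nat.le_floor h3⟩
      have hs : ∑ p ∈ Sj T M (JJ T) (JJ T + 1), ((p : ℝ) ^ 2)⁻¹ ≤ 2 / y := by
        calc ∑ p ∈ Sj T M (JJ T) (JJ T + 1), ((p : ℝ) ^ 2)⁻¹
            ≤ ∑ p ∈ Finset.Ioc ⌊y⌋₊ ⌊T⌋₊, ((p : ℝ) ^ 2)⁻¹ :=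
              Finset.sum_le_sum_of_subset_of_nonneg hsub fun p _ _ => by positivity
          _ ≤ ((⌊y⌋₊ : ℕ) : ℝ)⁻¹ - ((⌊T⌋₊ : ℕ) : ℝ)⁻¹ :=
              sum_Ioc_inv_sq_le_sub (by omega) (Nat.floor_le_floor hyT)
          _ ≤ ((⌊y⌋₊ : ℕ) : ℝ)⁻¹ := by
              have : (0 : ℝ) ≤ ((⌊T⌋₊ : ℕ) : ℝ)⁻¹ := by positivity
              linarith
          _ ≤ (y / 2)⁻¹ := by
              apply inv_anti₀ (by positivity) hfl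
          _ = 2 / y := by rw [inv_div]
      have h8 : 4 * Real.exp ((M : ℝ) / 2) + 2 ≤ Real.log y := by
        rw [hy', Real.exp_neg, inv_mul_eq_div, le_div_iff₀ eM]
        linarith
      have h9 : Real.exp (4 * Real.exp ((M : ℝ) / 2)) ≤ y / 4 := by
        rw [le_div_iff₀ (by norm_num)]
        have h10 : (4 : ℝ) ≤ Real.exp 2 := by
          have h2 : Real.exp 2 = Real.exp 1 ^ 2 := by rw [← Real.exp_nat_mul]; norm_num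
          have h3 : (2.7182818283 : ℝ) < Real.exp 1 := Real.exp_one_gt_d9
          rw [h2]
          calc (4 : ℝ) = 2 ^ 2 := by norm_num
            _ ≤ Real.exp 1 ^ 2 := by
                apply pow_le_pow_left₀ (by norm_num)
                exact le_trans (by norm_num) h3.le
        calc Real.exp (4 * Real.exp ((M : ℝ) / 2)) * 4
            ≤ Real.exp (4 * Real.exp ((M : ℝ) / 2)) * Real.exp 2 := by gcongr
          _ = Real.exp (4 * Real.exp ((M : ℝ) / 2) + 2) := by rw [Real.exp_add]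
          _ ≤ Real.exp (Real.log y) := Real.exp_le_exp.2 h8
          _ = y := Real.exp_log hy0
      calc Real.exp (4 * Real.exp ((M : ℝ) / 2)) * ∑ p ∈ Sj T M (JJ T) (JJ T + 1), ((p : ℝ) ^ 2)⁻¹
          ≤ (y / 4) * (2 / y) := by gcongr
        _ = 1 / 2 := by
            field_simp
            norm_num
  -- the lower blocks for `u = 0`
  have hVlow : ‖∏ p ∈ PS 0 y, V4 a₁ a₂ b₁ b₂ p‖ ≤ Real.exp (3 / 2) := by
    refine (norm_prod_V4 (t := fun p => (p : ℝ) ^ (-(1 / 2) : ℝ) * (50 / 49))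
      (fun p _ => by positivity) (fun p hp => ?_)).trans ?_
    · obtain ⟨h1, h2, h3, h4⟩ := hshiftU p hp
      exact ⟨nx (hUp p hp) h1, nx (hUp p hp) h2, nx (hUp p hp) h3, nx (hUp p hp) h4⟩
    · apply Real.exp_le_exp.2
      have e1 : ∀ p ∈ PS 0 y, ((p : ℝ) ^ (-(1 / 2) : ℝ) * (50 / 49)) ^ 4 =
          (50 / 49) ^ 4 * ((p : ℝ) ^ 2)⁻¹ := by
        intro p _
        rw [mul_pow, show ((p : ℝ) ^ (-(1 / 2) : ℝ)) ^ 4 =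
          (((p : ℝ) ^ (-(1 / 2) : ℝ)) ^ 2) ^ 2 by ring, x_sq, inv_pow]
        ring
      rw [Finset.sum_congr rfl e1, ← Finset.mul_sum]
      have h1 := sum_inv_sq_le hUp
      calc (50 / 49 : ℝ) ^ 4 * ∑ p ∈ PS 0 y, ((p : ℝ) ^ 2)⁻¹ ≤ (50 / 49) ^ 4 * 1 := by gcongr
        _ ≤ 3 / 2 := by norm_num
  -- the blocks
  set ε : ℕ → ℝ := fun j => C₁ * (Real.exp (3 * rho M (Sj T M (JJ T) j)) - 1 +
    Real.exp (-((ll M (JJ T) j : ℝ) / 2))) with hε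
  have hε0 : ∀ j, 0 ≤ ε j := fun j => by
    have h1 : 1 ≤ Real.exp (3 * rho M (Sj T M (JJ T) j)) :=
      Real.one_le_exp (by have := rho_nonneg M (Sj T M (JJ T) j); positivity)
    have h2 := Real.exp_pos (-((ll M (JJ T) j : ℝ) / 2))
    simp only [hε]
    apply mul_nonneg hC₁.le
    linarith
  have hrho := sum_rho hT1 (M := M) (J := JJ T) (by omega)
  have hεsum : ∑ j ∈ Finset.range (JJ T + 1), ε j ≤ lam := by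
    refine le_trans ?_ hs1
    simp only [hε]
    rw [← Finset.mul_sum, Finset.sum_add_distrib]
    have h2 : ∑ j ∈ Finset.range (JJ T + 1), Real.exp (-((ll M (JJ T) j : ℝ) / 2)) ≤
        2 * Real.exp (-(5 * Real.exp (3 / 4 * (M : ℝ)))) := by
      refine le_trans (Finset.sum_le_sum fun j _ => ?_) (sum_exp_KK (J := JJ T) ?_ (by norm_num))
      · apply Real.exp_le_exp.mpr
        have : 10 * KK M (JJ T) j ≤ (ll M (JJ T) j : ℝ) := Nat.le_ceil _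
        linarith
      · have := Real.one_le_exp (show 0 ≤ 3 / 4 * (M : ℝ) by positivity)
        linarith
    have h3 : ∑ j ∈ Finset.range (JJ T + 1), (Real.exp (3 * rho M (Sj T M (JJ T) j)) - 1) ≤
        6 * (4 * (2 : ℝ) ^ (-(((M : ℝ) - 3) / 2))) := by
      refine le_trans (Finset.sum_le_sum (g := fun j => 6 * rho M (Sj T M (JJ T) j)) fun j hj => ?_) ?_
      · have h4 := rho_nonneg M (Sj T M (JJ T) j)
        have h5 : rho M (Sj T M (JJ T) j) ≤ 4 * (2 : ℝ) ^ (-(((M : ℝ) - 3) / 2)) :=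
          (Finset.single_le_sum (f := fun j => rho M (Sj T M (JJ T) j))
            (fun i _ => rho_nonneg M _) hj).trans hrho
        have h6 : |3 * rho M (Sj T M (JJ T) j)| ≤ 1 := by
          rw [abs_of_nonneg (by positivity)]; linarith
        have h7 := Real.abs_exp_sub_one_le h6
        rw [abs_of_nonneg (by positivity : 0 ≤ 3 * rho M (Sj T M (JJ T) j))] at h7
        have h8 := le_abs_self (Real.exp (3 * rho M (Sj T M (JJ T) j)) - 1)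
        linarith
      · rw [← Finset.mul_sum]
        gcongr
    gcongr
  obtain ⟨WB, hWB⟩ : ∃ WB : ℕ → ℂ, WB = fun j => ∏ p ∈ Sj T M (JJ T) j, W4 a₁ a₂ b₁ b₂ p :=
    ⟨_, rfl⟩
  obtain ⟨z, hz⟩ : ∃ z : ℕ → ℂ, z = fun j => ES (Sj T M (JJ T) j)
    (fun f => Z4 a₁ a₂ b₁ b₂ (Sj T M (JJ T) j) f * Psi T M k j f) * WB j := ⟨_, rfl⟩
  obtain ⟨w, hw⟩ : ∃ w : ℕ → ℂ, w = fun j => LP4 u a₁ a₂ b₁ b₂ (Sj T M (JJ T) j) * WB j :=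
    ⟨_, rfl⟩
  have hzw : ∀ j ∈ Finset.range (JJ T + 1), ‖z j - w j‖ ≤ ε j * ‖w j‖ := by
    intro j hj
    have hj' : j ≤ JJ T := by have := Finset.mem_range.mp hj; omega
    have hcond := (hT₁ T ((le_max_left _ _).trans hT) j hj' (1 / 2) le_rfl).1
    have hcond' : 16 * Real.exp (C₁ * ∑ p ∈ Sj T M (JJ T) j, 1 / (p : ℝ)) ≤
        Real.exp ((ll M (JJ T) j : ℝ) / 2) := by
      refine le_trans (le_of_eq ?_) hcond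
      congr 3
      refine Finset.sum_congr rfl fun p _ => ?_
      rw [one_div, ← Real.rpow_neg_one]
      norm_num
    have h1 := hB M (ll M (JJ T) j) (Sj T M (JJ T) j) k a₁ a₂ b₁ b₂ (by omega)
      (fun p hp => prime_Sj hT1 hp) (hk.trans hu₁1) (hshift j hj') (hsumj j hj') hcond'
    rw [← hu] at h1
    have h2 : ‖ES (Sj T M (JJ T) j)
      (fun f => Z4 a₁ a₂ b₁ b₂ (Sj T M (JJ T) j) f * Psi T M k j f) -
        LP4 u a₁ a₂ b₁ b₂ (Sj T M (JJ T) j)‖ ≤ ε j * ‖LP4 u a₁ a₂ b₁ b₂ (Sj T M (JJ T) j)‖ := h1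
    simp only [hz, hw]
    rw [← sub_mul, norm_mul, norm_mul, ← mul_assoc]
    exact mul_le_mul_of_nonneg_right h2 (norm_nonneg _)
  have hQ := prod_sub_le' (Finset.range (JJ T + 1)) z w ε (fun j _ => hε0 j) hzw
  -- the product of the local factors
  have hQeq : ∏ j ∈ Finset.range (JJ T + 1), w j =
      ∏ p ∈ PS 0 y, (W4 a₁ a₂ b₁ b₂ p * L4 u a₁ a₂ b₁ b₂ p) := by
    rw [hy, ← prod_biUnion_Sj hT1]
    refine Finset.prod_congr rfl fun j _ => ?_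
    simp only [hw, hWB]
    rw [LP4_eq, ← Finset.prod_mul_distrib]
    exact Finset.prod_congr rfl fun p _ => mul_comm _ _
  have hpB := prod4 hC hLF hUp hu1 hshiftU hsumU
  rw [← hQeq] at hpB
  have hku : u ^ 2 - 4 * u = k ^ 2 - 4 := by rw [hu]; ring
  have hku2 : |k ^ 2 - 4| ≤ 5 * |u| := by
    rw [← hku]
    calc |u ^ 2 - 4 * u| ≤ |u ^ 2| + |4 * u| := abs_sub _ _
      _ = |u| * |u| + 4 * |u| := by
          rw [abs_pow, abs_mul, pow_two, abs_of_pos (show (0 : ℝ) < 4 by norm_num)]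
      _ ≤ 1 / 10 * |u| + 4 * |u| := by gcongr
      _ ≤ 5 * |u| := by linarith
  rw [hku] at hpB
  obtain ⟨V, hV⟩ : ∃ V, V = ∏ p ∈ PS 0 y, V4 a₁ a₂ b₁ b₂ p := ⟨_, rfl⟩
  obtain ⟨Q, hQdef⟩ : ∃ Q, Q = ∏ j ∈ Finset.range (JJ T + 1), w j := ⟨_, rfl⟩
  obtain ⟨sp, hsp⟩ : ∃ sp, sp = ∑ p ∈ PS 0 y, (1 : ℝ) / p := ⟨_, rfl⟩
  obtain ⟨E, hEdef⟩ : ∃ E, E = Real.exp ((k ^ 2 - 4) * sp) := ⟨_, rfl⟩
  obtain ⟨X, hX⟩ : ∃ X, X = L ^ (k ^ 2 - 4) := ⟨_, rfl⟩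
  have hXe : X = Real.exp ((k ^ 2 - 4) * Real.log L) := by
    rw [hX, Real.rpow_def_of_pos hL]; congr 1; ring
  have hX0 : 0 < X := by rw [hXe]; exact Real.exp_pos _
  have hE0 : 0 < E := by rw [hEdef]; exact Real.exp_pos _
  have hsi' := hsi y hy2
  have hlogy : Real.log (Real.log y) = -(M : ℝ) + Real.log L := by
    rw [hy', Real.log_mul (Real.exp_pos _).ne' hL.ne', Real.log_exp]
  rw [hlogy, ← hsp] at hsi'
  obtain ⟨δ, hδ⟩ : ∃ δ : ℝ, δ = 5 * (C₃ + M) * |u| := ⟨_, rfl⟩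
  have hδ0 : 0 ≤ δ := by rw [hδ]; positivity
  have hδ1 : |(k ^ 2 - 4) * (sp - Real.log L)| ≤ δ := by
    rw [abs_mul]
    have h2 : |sp - Real.log L| ≤ C₃ + M := by
      have h3 := abs_le.mp hsi'
      rw [abs_le]
      constructor <;> linarith [h3.1, h3.2]
    calc |k ^ 2 - 4| * |sp - Real.log L| ≤ (5 * |u|) * (C₃ + M) := by gcongr
      _ = δ := by rw [hδ]; ring
  have hEX : E = X * Real.exp ((k ^ 2 - 4) * (sp - Real.log L)) := by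
    rw [hEdef, hXe, ← Real.exp_add]; congr 1; ring
  obtain ⟨A, hA⟩ : ∃ A, A = Real.exp (∑ j ∈ Finset.range (JJ T + 1), ε j) := ⟨_, rfl⟩
  obtain ⟨B, hBB⟩ : ∃ B, B = Real.exp ((9 * C + 5) * |u|) := ⟨_, rfl⟩
  obtain ⟨D, hD⟩ : ∃ D, D = Real.exp δ := ⟨_, rfl⟩
  have hA1 : 1 ≤ A := hA ▸ Real.one_le_exp (Finset.sum_nonneg fun j _ => hε0 j)
  have hB1 : 1 ≤ B := hBB ▸ Real.one_le_exp (by positivity)
  have hE1 : E ≤ D * X := by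
    rw [hEX, hD, mul_comm]
    gcongr
    exact (le_abs_self _).trans hδ1
  have hE2 : |E - X| ≤ (D - 1) * X := by
    have h1 : ∀ t : ℝ, |t| ≤ δ → |Real.exp t - 1| ≤ D - 1 := by
      intro t ht
      have h2 := abs_le.mp ht
      rw [hD, abs_le]
      constructor
      · have h3 : Real.exp (-δ) ≤ Real.exp t := Real.exp_le_exp.mpr h2.1
        have h4 : 1 - δ ≤ Real.exp (-δ) := by have := Real.add_one_le_exp (-δ); linarith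
        have h5 := Real.add_one_le_exp δ
        linarith
      · have h3 : Real.exp t ≤ Real.exp δ := Real.exp_le_exp.mpr h2.2
        linarith
    have h2 := h1 _ hδ1
    have h3 : E - X = (Real.exp ((k ^ 2 - 4) * (sp - Real.log L)) - 1) * X := by rw [hEX]; ring
    rw [h3, abs_mul, abs_of_pos hX0]
    gcongr
  rw [← hsp, ← hEdef, ← hV, ← hBB, ← hQdef] at hpB
  rw [← hA, ← hQdef] at hQ
  rw [← hV] at hVlow
  have hmain := abc_bound hA1 hB1 hE0 hQ hpB hE2 hE1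
  have h5 : A * B * D ≤ 1 + η / 8 := by
    rw [hA, hBB, hD, ← Real.exp_add, ← Real.exp_add]
    have h6 : ∑ j ∈ Finset.range (JJ T + 1), ε j + (9 * C + 5) * |u| + δ ≤
        Real.log (1 + η / 8) := by
      have h7 : (9 * C + 5) * |u| + δ = K * |u| := by rw [hδ, hK]; ring
      have h8 : Real.log (1 + η / 8) = lam + lam := by rw [hlamdef]; ring
      linarith
    calc _ ≤ Real.exp (Real.log (1 + η / 8)) := Real.exp_le_exp.mpr h6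
      _ = 1 + η / 8 := Real.exp_log (by linarith)
  -- conclusion
  obtain ⟨TT, hTT⟩ : ∃ TT, TT = ∏ p ∈ Sj T M (JJ T) (JJ T + 1), V4 a₁ a₂ b₁ b₂ p := ⟨_, rfl⟩
  rw [← hTT] at htop htopV
  obtain ⟨WW, hWW⟩ : ∃ WW, WW = ∏ p ∈ PS 0 T, W4 a₁ a₂ b₁ b₂ p := ⟨_, rfl⟩
  have hWsplit : WW = (∏ j ∈ Finset.range (JJ T + 1), WB j) * WB (JJ T + 1) := by
    rw [hWW, ← UU_SB hT1 M (JJ T), prod_UU hT1, Finset.prod_range_succ _ (JJ T + 1), hWB]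
  have hlowV : (∏ j ∈ Finset.range (JJ T + 1), ES (Sj T M (JJ T) j)
      (Z4 a₁ a₂ b₁ b₂ (Sj T M (JJ T) j))) * ∏ j ∈ Finset.range (JJ T + 1), WB j = V := by
    rw [hV, hy, ← prod_biUnion_Sj hT1, ← Finset.prod_mul_distrib]
    refine Finset.prod_congr rfl fun j hj => ?_
    have hj' : j ≤ JJ T := by have := Finset.mem_range.mp hj; omega
    simp only [hWB]
    rw [ES_Z4, ← Finset.prod_mul_distrib]
    refine Finset.prod_congr rfl fun p hp => ?_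
    rw [mul_comm]
    obtain ⟨g1, g2, g3, g4⟩ := hlow34 p (hUsub j hj' hp)
    exact exact0 hLF (prime_Sj hT1 hp).ne_zero g1 g2 g3 g4
  have hid : (RZ4 T M (NN T M (k - 2)) a₁ a₂ b₁ b₂ -
      (X : ℂ) * RZ4 T M (fun _ => 1) a₁ a₂ b₁ b₂) * WW =
      ((∏ j ∈ Finset.range (JJ T + 1), z j) - (X : ℂ) * V) * TT := by
    rw [RZ4_NN hT1, RZ4_one hT1, hWsplit, ← hlowV, ← htop]
    have e1 : ∏ j ∈ Finset.range (JJ T + 1), z j = (∏ j ∈ Finset.range (JJ T + 1),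
        ES (Sj T M (JJ T) j) (fun f => Z4 a₁ a₂ b₁ b₂ (Sj T M (JJ T) j) f * Psi T M k j f)) *
        ∏ j ∈ Finset.range (JJ T + 1), WB j := by
      rw [← Finset.prod_mul_distrib]
      simp only [hz]
    have e2 : ∏ p ∈ Sj T M (JJ T) (JJ T + 1), W4 a₁ a₂ b₁ b₂ p = WB (JJ T + 1) := by rw [hWB]
    rw [e1, e2]
    ring
  have hEPW : EP T (a₁ + b₁) * EP T (a₁ + b₂) * EP T (a₂ + b₁) * EP T (a₂ + b₂) * WW = 1 := by
    rw [hWW]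
    apply EP_W4
    intro p hp
    have hp' := (mem_PS le_rfl hT0.le).mp hp
    refine ⟨hp'.1, ?_⟩
    obtain ⟨j, hj, hpj⟩ := exists_Sj hT1 M (JJ T) hp'.1 hp'.2.2
    rcases Nat.lt_or_ge j (JJ T + 1) with h | h
    · exact hlow34 p (hUsub j (by omega) hpj)
    · have hj' : j = JJ T + 1 := by omega
      rw [hj'] at hpj
      exact ⟨htop34 p hpj a₁ ha₁, htop34 p hpj a₂ ha₂, htop34 p hpj b₁ hb₁, htop34 p hpj b₂ hb₂⟩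
  have hEPn : ‖EP T (a₁ + b₁)‖ * ‖EP T (a₁ + b₂)‖ * ‖EP T (a₂ + b₁)‖ * ‖EP T (a₂ + b₂)‖ *
      ‖WW‖ = 1 := by
    rw [← norm_mul, ← norm_mul, ← norm_mul, ← norm_mul, hEPW, norm_one]
  obtain ⟨PP, hPP⟩ : ∃ PP, PP = ‖EP T (a₁ + b₁)‖ * ‖EP T (a₁ + b₂)‖ * ‖EP T (a₂ + b₁)‖ *
    ‖EP T (a₂ + b₂)‖ := ⟨_, rfl⟩
  rw [← hPP] at hEPn
  have hPP0 : 0 ≤ PP := by rw [hPP]; positivity
  rw [← hX, ← hPP]
  obtain ⟨R, hR⟩ : ∃ R, R = RZ4 T M (NN T M (k - 2)) a₁ a₂ b₁ b₂ -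
      (X : ℂ) * RZ4 T M (fun _ => 1) a₁ a₂ b₁ b₂ := ⟨_, rfl⟩
  rw [← hR] at hid ⊢
  have hb1 : ‖R‖ * ‖WW‖ ≤ η * X := by
    rw [← norm_mul, hid, norm_mul]
    have h7 : ‖V‖ * ‖TT‖ ≤ 8 := by
      calc ‖V‖ * ‖TT‖ ≤ Real.exp (3 / 2) * Real.exp (1 / 2) := by gcongr
        _ = Real.exp 2 := by rw [← Real.exp_add]; norm_num
        _ ≤ 8 := by
            have h2 : Real.exp 2 = Real.exp 1 ^ 2 := by rw [← Real.exp_nat_mul]; norm_num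
            have h3 : Real.exp 1 < 2.7182818286 := Real.exp_one_lt_d9
            rw [h2]
            calc Real.exp 1 ^ 2 ≤ 2.7182818286 ^ 2 := by
                  apply pow_le_pow_left₀ (Real.exp_pos 1).le h3.le
              _ ≤ 8 := by norm_num
    calc ‖(∏ j ∈ Finset.range (JJ T + 1), z j) - (X : ℂ) * V‖ * ‖TT‖
        ≤ (A * B * D - 1) * (X * ‖V‖) * ‖TT‖ := by gcongr
      _ = (A * B * D - 1) * X * (‖V‖ * ‖TT‖) := by ring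
      _ ≤ (η / 8) * X * 8 := by
          have h9 : (A * B * D - 1) * X ≤ (η / 8) * X := by
            gcongr
            linarith
          calc (A * B * D - 1) * X * (‖V‖ * ‖TT‖) ≤ (η / 8) * X * (‖V‖ * ‖TT‖) := by gcongr
            _ ≤ _ := by gcongr
      _ = η * X := by ring
  calc ‖R‖ = ‖R‖ * (PP * ‖WW‖) := by rw [hEPn, mul_one]
    _ = (‖R‖ * ‖WW‖) * PP := by ring
    _ ≤ η * X * PP := by gcongr

end K3
end Pool.Agent.Lib.MP_973905_nt
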