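import Pool.Agent.Lib.MP_973905_nt.K3.Stmts
import Pool.Agent.Lib.MP_973905_nt.K1.SHFour

/-! The mean square of the short sum, with bad blocks. -/

namespace Pool.Agent.Lib.MP_973905_nt
namespace K3

open MeasureTheory ProbabilityTheory Complex Filter Topology

namespace SDB

variable {m : ℕ} {Sb : Fin m → Finset ℕ}

lemma bc_pow {F : (ℕ → ℂ) → ℂ} (hF : BC Sb F) (n : ℕ) : BC Sb (fun f => F f ^ n) := by
  obtain ⟨h1, C, h2⟩ := hF
  refine ⟨h1.pow n, C ^ n, fun ω => ?_⟩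
  rw [norm_pow]
  exact pow_le_pow_left₀ (norm_nonneg _) (h2 ω) n

lemma bc_prod {ι : Type*} (s : Finset ι) {F : ι → (ℕ → ℂ) → ℂ} (h : ∀ i ∈ s, BC Sb (F i)) :
    BC Sb (fun f => ∏ i ∈ s, F i f) := by
  classical
  induction s using Finset.induction_on with
  | empty => simpa using bc_const (Sb := Sb) (1 : ℂ)
  | insert a s ha ih =>
    simp only [Finset.prod_insert ha]
    exact (h a (Finset.mem_insert_self _ _)).mul (ih fun i hi => h i (Finset.mem_insert_of_mem hi))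

lemma bc_div_const {F : (ℕ → ℂ) → ℂ} (hF : BC Sb F) (c : ℂ) : BC Sb (fun f => F f / c) := by
  have h := hF.const_mul c⁻¹
  refine ⟨?_, ?_⟩
  · have h1 := h.1
    simp only [div_eq_inv_mul]
    exact h1
  · obtain ⟨B, hB⟩ := h.2
    refine ⟨B, fun ω => ?_⟩
    show ‖F (XX Sb ω) / c‖ ≤ B
    rw [div_eq_inv_mul]
    exact hB ω

lemma bc_tw (w : ℂ) (n : ℕ) : BC Sb (fun f => tw w f n) := (bc_apply n).const_mul _

lemma bc_Pj (A : ℕ) (S : Finset ℕ) (w : ℂ) : BC Sb (fun f => Pj A S (tw w f)) := by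
  unfold Pj QQ
  exact bc_sum _ fun p _ => bc_sum _ fun a _ => bc_div_const (bc_pow (bc_tw w p) a) _

lemma bc_Ntr {F : (ℕ → ℂ) → ℂ} (hF : BC Sb F) (l : ℕ) (α : ℝ) : BC Sb (fun f => Ntr l α (F f)) := by
  unfold Ntr
  exact bc_sum _ fun i _ => bc_div_const (bc_pow (hF.const_mul _) i) _

lemma bc_AQ (T : ℝ) (M J : ℕ) (α : ℝ) (g h : Finset ℕ) (w : ℂ) :
    BC Sb (fun f => AQ T M J α g h (tw w f)) := by
  unfold AQ
  refine bc_prod _ fun j _ => ?_
  unfold Fq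
  refine BC.mul ?_ ?_
  · split_ifs
    · exact bc_Ntr (bc_Pj _ _ _) _ _
    · exact bc_const _
  · split_ifs
    · exact bc_pow (bc_div_const (bc_Pj _ _ _) _) _
    · exact bc_const _

lemma bc_SD (δ T : ℝ) (w : ℂ) : BC Sb (fun f => SD δ T (tw w f)) := by
  unfold SD
  exact bc_sum _ fun n _ => (bc_tw w n).const_mul _

end SDB

open SDB in
theorem stSDBad (h8 : StCore4) (h11 : StRepD) : StSDBad := by
  intro δ hδ hδ8
  obtain ⟨C, hC, M₀, hM₀, core⟩ := h8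
  obtain ⟨g, hgc, hgi, rep⟩ := h11 δ hδ hδ8
  have hg1 : Integrable (fun ξ : ℝ => ‖g ξ‖) := by simpa using hgi 0
  have hg2 : Integrable (fun ξ : ℝ => ‖g ξ‖ * (7 * (1 + |ξ|)) ^ 100) := by
    have h := (hgi 100).const_mul (7 ^ 100 : ℝ)
    refine h.congr (Filter.Eventually.of_forall fun ξ => ?_)
    simp only [mul_pow]
    ring
  set A := ∫ ξ : ℝ, ‖g ξ‖ with hA
  set I₀ := ∫ ξ : ℝ, ‖g ξ‖ * (7 * (1 + |ξ|)) ^ 100 with hI
  have hA0 : 0 ≤ A := integral_nonneg fun ξ => norm_nonneg _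
  have hI0 : 0 ≤ I₀ := integral_nonneg fun ξ => by positivity
  set lam := A + 1 with hlam
  have hlam0 : 0 < lam := by linarith
  have hlog : 0 ≤ Real.log (1 + lam * I₀) := Real.log_nonneg (by nlinarith [mul_nonneg hlam0.le hI0])
  refine ⟨C + Real.log (1 + lam * I₀), by linarith, M₀, fun M hM => ?_⟩
  obtain ⟨T₀, hT₀, core⟩ := core M hM
  refine ⟨T₀, hT₀, fun T hT k hk g' h' hgh => ?_⟩
  have hT3 : 3 ≤ T := hT₀.trans hT
  have hT1 : 1 < T := by linarith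
  have hL : 0 < Real.log T := Real.log_pos hT1
  have core := core T hT k hk g' h' hgh
  set L := Real.log T with hLd
  set Sb := SB T M (JJ T) with hSb
  set Pr := ∏ j ∈ h', Real.exp (-(20 * KK M (JJ T) j)) with hPr
  have hPr0 : 0 ≤ Pr := Finset.prod_nonneg fun j _ => (Real.exp_pos _).le
  set N : (ℕ → ℂ) → ℂ := fun f => AQ T M (JJ T) (k - 2) g' h' (tw (1 / 2) f) with hN
  set S : (ℕ → ℂ) → ℂ := fun f => SD δ T (tw (1 / 2) f) with hS
  set Z : ℝ → (ℕ → ℂ) → ℂ := fun ξ f =>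
    ZZ (PS 0 T) (tw (1 / 2 + (1 - 2 * Real.pi * ξ * I) / L) f) with hZ
  have bN : BC Sb N := bc_AQ _ _ _ _ _ _ _
  have bS : BC Sb S := bc_SD _ _ _
  have hzre : ∀ ξ : ℝ, (1 - 2 * Real.pi * ξ * I : ℂ).re = 1 := fun ξ => K1.SHF.zz_re ξ
  have hzn : ∀ ξ : ℝ, 1 + ‖(1 - 2 * Real.pi * ξ * I : ℂ)‖ ≤ 7 * (1 + |ξ|) := fun ξ =>
    K1.SHF.norm_zz_le ξ
  have bZ : ∀ ξ, BC Sb (Z ξ) := by
    intro ξ
    refine bc_ZZ (fun p hp => XB.prime_PS hp) ?_
    rw [add_re, div_ofReal_re, hzre]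
    have h0 : 0 ≤ 1 / L := by positivity
    have h1 : (1 / 2 : ℂ).re = 1 / 2 := by norm_num
    rw [h1]
    linarith
  set W := ER Sb (fun f => ‖S f‖ ^ 2 * ‖N f‖ ^ 2) with hW
  have iS : Integrable (fun ω => ‖S (XX Sb ω)‖ ^ 2 * ‖N (XX Sb ω)‖ ^ 2) (PP0 Sb) := by
    refine ((bS.mul bN).norm_sq.integrable).congr (Filter.Eventually.of_forall fun ω => ?_)
    simp only [norm_mul, mul_pow]
  have iZ : ∀ ξ, Integrable (fun ω => ‖Z ξ (XX Sb ω)‖ ^ 4 * ‖N (XX Sb ω)‖ ^ 2) (PP0 Sb) := by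
    intro ξ
    refine ((((bZ ξ).mul (bZ ξ)).mul bN).norm_sq.integrable).congr
      (Filter.Eventually.of_forall fun ω => ?_)
    simp only [norm_mul, mul_pow]
    ring
  have hW0 : 0 ≤ W := by
    rw [hW, ER_eq]
    exact integral_nonneg fun ω => by positivity
  set B : (ℕ → ℂ) → ℂ := fun f => (starRingEnd ℂ) (S f) * (N f * (starRingEnd ℂ) (N f)) with hB
  have bB : BC Sb B := bS.conj.mul (bN.mul bN.conj)
  obtain ⟨-, rep⟩ := rep T hT1 M (JJ T) (1 / 2) (by norm_num)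
  obtain ⟨rep1, rep2⟩ := rep B bB
  have e1 : (W : ℂ) = ER Sb (fun f => S f * B f) := by
    rw [hW, ER_eq, ER_eq, ← integral_complex_ofReal]
    refine integral_congr_ae (Filter.Eventually.of_forall fun ω => ?_)
    simp only [hB]
    rw [mul_conj', ← mul_assoc, mul_conj']
    push_cast
    rfl
  set E := Real.exp (C * M) * L ^ (k ^ 2) * Pr with hE
  have hE0 : 0 ≤ E := by positivity
  have h2 : ∀ ξ : ℝ, ‖ER Sb (fun f => Z ξ f ^ 2 * B f)‖ ≤
      lam / 2 * E * (7 * (1 + |ξ|)) ^ 100 + W / (2 * lam) := by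
    intro ξ
    have hc := core (1 - 2 * Real.pi * ξ * I) (by rw [hzre]; norm_num)
    have h3 : ‖ER Sb (fun f => Z ξ f ^ 2 * B f)‖ ≤
        lam / 2 * ER Sb (fun f => ‖Z ξ f‖ ^ 4 * ‖N f‖ ^ 2) + W / (2 * lam) := by
      rw [hW, ER_eq, ER_eq, ER_eq, ← integral_const_mul, ← integral_div,
        ← integral_add ((iZ ξ).const_mul _) (iS.div_const _)]
      refine (norm_integral_le_integral_norm _).trans ?_
      refine integral_mono_of_nonneg (Filter.Eventually.of_forall fun ω => norm_nonneg _)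
        (((iZ ξ).const_mul _).add (iS.div_const _)) (Filter.Eventually.of_forall fun ω => ?_)
      simp only [hB, norm_mul, norm_pow, RCLike.norm_conj]
      set a := ‖Z ξ (XX Sb ω)‖
      set s := ‖S (XX Sb ω)‖
      set n := ‖N (XX Sb ω)‖
      have h4 : a ^ 2 * s ≤ lam / 2 * a ^ 4 + s ^ 2 / (2 * lam) := by
        have h5 : lam / 2 * a ^ 4 + s ^ 2 / (2 * lam) - a ^ 2 * s =
            (lam * a ^ 2 - s) ^ 2 / (2 * lam) := by
          field_simp
          ring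
        have h6 : 0 ≤ (lam * a ^ 2 - s) ^ 2 / (2 * lam) := by positivity
        linarith
      calc a ^ 2 * (s * (n * n)) = (a ^ 2 * s) * n ^ 2 := by ring
        _ ≤ (lam / 2 * a ^ 4 + s ^ 2 / (2 * lam)) * n ^ 2 := by gcongr
        _ = lam / 2 * (a ^ 4 * n ^ 2) + s ^ 2 * n ^ 2 / (2 * lam) := by ring
    refine h3.trans (add_le_add ?_ le_rfl)
    have h7 : Real.exp (C * M) * (1 + ‖(1 - 2 * Real.pi * ξ * I : ℂ)‖) ^ 100 * L ^ (k ^ 2) * Pr ≤
        E * (7 * (1 + |ξ|)) ^ 100 := by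
      have h8 : (1 + ‖(1 - 2 * Real.pi * ξ * I : ℂ)‖) ^ 100 ≤ (7 * (1 + |ξ|)) ^ 100 :=
        pow_le_pow_left₀ (by positivity) (hzn ξ) 100
      calc Real.exp (C * M) * (1 + ‖(1 - 2 * Real.pi * ξ * I : ℂ)‖) ^ 100 * L ^ (k ^ 2) * Pr
          = E * (1 + ‖(1 - 2 * Real.pi * ξ * I : ℂ)‖) ^ 100 := by rw [hE]; ring
        _ ≤ _ := by gcongr
    calc lam / 2 * ER Sb (fun f => ‖Z ξ f‖ ^ 4 * ‖N f‖ ^ 2)
        ≤ lam / 2 * (E * (7 * (1 + |ξ|)) ^ 100) := by
          gcongr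
          exact hc.trans h7
      _ = _ := by ring
  have h9 : W ≤ ∫ ξ : ℝ, (lam / 2 * E * (‖g ξ‖ * (7 * (1 + |ξ|)) ^ 100) + W / (2 * lam) * ‖g ξ‖) := by
    have h10 : W = ‖(W : ℂ)‖ := by rw [norm_real, Real.norm_of_nonneg hW0]
    have h11 : ER Sb (fun f => S f * B f) = ∫ ξ : ℝ, g ξ * ER Sb (fun f => Z ξ f ^ 2 * B f) := rep2
    have h12 : W = ‖∫ ξ : ℝ, g ξ * ER Sb (fun f => Z ξ f ^ 2 * B f)‖ := by
      rw [← h11, ← e1]
      exact h10
    refine h12.le.trans ((norm_integral_le_integral_norm _).trans ?_)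
    refine integral_mono_of_nonneg (Filter.Eventually.of_forall fun ξ => norm_nonneg _)
      ((hg2.const_mul _).add (hg1.const_mul _)) (Filter.Eventually.of_forall fun ξ => ?_)
    simp only [norm_mul]
    calc ‖g ξ‖ * ‖ER Sb (fun f => Z ξ f ^ 2 * B f)‖
        ≤ ‖g ξ‖ * (lam / 2 * E * (7 * (1 + |ξ|)) ^ 100 + W / (2 * lam)) := by
          gcongr
          exact h2 ξ
      _ = _ := by ring
  rw [integral_add (hg2.const_mul _) (hg1.const_mul _), integral_const_mul, integral_const_mul,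
    ← hA, ← hI] at h9
  have h12 : W / (2 * lam) * A ≤ W / 2 := by
    have h13 : W / 2 - W / (2 * lam) * A = W / (2 * lam) := by
      rw [hlam]
      field_simp
      ring
    have h14 : 0 ≤ W / (2 * lam) := by positivity
    linarith
  have h15 : W ≤ E * (1 + lam * I₀) := by nlinarith
  refine h15.trans ?_
  have h16 : 1 + lam * I₀ ≤ Real.exp (Real.log (1 + lam * I₀) * M) := by
    have h17 : (1 : ℝ) ≤ M := by exact_mod_cast hM₀.trans hM
    have h18 : 0 < 1 + lam * I₀ := by positivity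
    calc 1 + lam * I₀ = Real.exp (Real.log (1 + lam * I₀) * 1) := by rw [mul_one, Real.exp_log h18]
      _ ≤ _ := by
        apply Real.exp_le_exp.2
        gcongr
  calc E * (1 + lam * I₀) ≤ E * Real.exp (Real.log (1 + lam * I₀) * M) := by gcongr
    _ = _ := by
      have h19 : (C + Real.log (1 + lam * I₀)) * M = C * M + Real.log (1 + lam * I₀) * M := by ring
      rw [h19, Real.exp_add, hE]
      ring

end K3
end Pool.Agent.Lib.MP_973905_nt
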