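import Pool.Agent.Lib.MP_973905_nt.K3.Stmts

/-! Module (4): `∑_{n ≤ x} d(n)²/n ~ (log x)⁴/(4 π²)`. -/

set_option autoImplicit false

namespace Pool.Agent.Lib.MP_973905_nt
namespace K3
namespace DivSum

open Filter Topology ArithmeticFunction Finset

/-! ### Elementary inequalities -/

lemma pow_sub_le {a b : ℝ} (hb : 0 ≤ b) (hab : b ≤ a) (k : ℕ) :
    a ^ (k + 1) - b ^ (k + 1) ≤ (k + 1) * ((a - b) * a ^ k) := by
  induction k with
  | zero => simp
  | succ k ih =>
    have ha : 0 ≤ a := hb.trans hab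
    have h1 : b ^ (k + 1) ≤ a ^ (k + 1) := pow_le_pow_left₀ hb hab _
    have h2 := mul_le_mul_of_nonneg_left ih ha
    have h3 := mul_le_mul_of_nonneg_left h1 (sub_nonneg.2 hab)
    have h4 : a ^ (k + 1 + 1) - b ^ (k + 1 + 1) =
        a * (a ^ (k + 1) - b ^ (k + 1)) + (a - b) * b ^ (k + 1) := by ring
    rw [h4]
    push_cast
    have h5 : a * ((k + 1) * ((a - b) * a ^ k)) = (k + 1) * ((a - b) * a ^ (k + 1)) := by ring
    rw [h5] at h2
    linarith

lemma le_pow_sub {a b : ℝ} (hb : 0 ≤ b) (hab : b ≤ a) (k : ℕ) :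
    (k + 1) * ((a - b) * b ^ k) ≤ a ^ (k + 1) - b ^ (k + 1) := by
  induction k with
  | zero => simp
  | succ k ih =>
    have h1 : b ^ (k + 1) ≤ a ^ (k + 1) := pow_le_pow_left₀ hb hab _
    have h2 := mul_le_mul_of_nonneg_left ih hb
    have h3 := mul_le_mul_of_nonneg_left h1 (sub_nonneg.2 hab)
    have h4 : a ^ (k + 1 + 1) - b ^ (k + 1 + 1) =
        b * (a ^ (k + 1) - b ^ (k + 1)) + (a - b) * a ^ (k + 1) := by ring
    rw [h4]
    push_cast
    have h5 : b * ((k + 1) * ((a - b) * b ^ k)) = (k + 1) * ((a - b) * b ^ (k + 1)) := by ring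
    rw [h5] at h2
    linarith

/-- the primitive -/
noncomputable def FF (L : ℝ) (k : ℕ) (t : ℝ) : ℝ := (L - Real.log t) ^ (k + 1) / (k + 1)

lemma FF_upper {L s t : ℝ} (hs : 0 < s) (hst : s ≤ t) (ht : Real.log t ≤ L) (k : ℕ) :
    FF L k s - FF L k t ≤ (t - s) * ((L - Real.log s) ^ k / s) := by
  have h0 : Real.log s ≤ Real.log t := Real.log_le_log hs hst
  have ht0 : 0 < t := hs.trans_le hst
  have h1 := pow_sub_le (a := L - Real.log s) (b := L - Real.log t) (by linarith) (by linarith) k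
  have h2 : Real.log t - Real.log s ≤ (t - s) / s := by
    rw [← Real.log_div ht0.ne' hs.ne']
    refine (Real.log_le_sub_one_of_pos (div_pos ht0 hs)).trans (le_of_eq ?_)
    field_simp
  have h3 : 0 ≤ (L - Real.log s) ^ k := pow_nonneg (by linarith) _
  have h4 : (0 : ℝ) < k + 1 := by positivity
  unfold FF
  rw [← sub_div, div_le_iff₀ h4]
  refine h1.trans ?_
  have h5 := mul_le_mul_of_nonneg_right h2 h3
  calc ((k : ℝ) + 1) * ((L - Real.log s - (L - Real.log t)) * (L - Real.log s) ^ k)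
      = (k + 1) * ((Real.log t - Real.log s) * (L - Real.log s) ^ k) := by ring
    _ ≤ (k + 1) * ((t - s) / s * (L - Real.log s) ^ k) := by gcongr
    _ = (t - s) * ((L - Real.log s) ^ k / s) * (k + 1) := by ring

lemma FF_lower {L s t : ℝ} (hs : 0 < s) (hst : s ≤ t) (ht : Real.log t ≤ L) (k : ℕ) :
    (t - s) * ((L - Real.log t) ^ k / t) ≤ FF L k s - FF L k t := by
  have h0 : Real.log s ≤ Real.log t := Real.log_le_log hs hst
  have ht0 : 0 < t := hs.trans_le hst
  have h1 := le_pow_sub (a := L - Real.log s) (b := L - Real.log t) (by linarith) (by linarith) k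
  have h2 : (t - s) / t ≤ Real.log t - Real.log s := by
    have h6 := Real.log_le_sub_one_of_pos (div_pos hs ht0)
    rw [Real.log_div hs.ne' ht0.ne'] at h6
    have h7 : (t - s) / t = 1 - s / t := by field_simp
    linarith
  have h3 : 0 ≤ (L - Real.log t) ^ k := pow_nonneg (by linarith) _
  have h4 : (0 : ℝ) < k + 1 := by positivity
  unfold FF
  rw [← sub_div, le_div_iff₀ h4]
  refine le_trans ?_ h1
  calc (t - s) * ((L - Real.log t) ^ k / t) * (k + 1)
      = (k + 1) * ((t - s) / t * (L - Real.log t) ^ k) := by ring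
    _ ≤ (k + 1) * ((Real.log t - Real.log s) * (L - Real.log t) ^ k) := by gcongr
    _ = (k + 1) * ((L - Real.log s - (L - Real.log t)) * (L - Real.log t) ^ k) := by ring

/-- `∑_{m ≤ x} (log x - log m)^k / m = (log x)^{k+1}/(k+1) + O((log x)^k)` -/
lemma sum_log_pow (x : ℝ) (hx : 1 ≤ x) (k : ℕ) :
    |∑ m ∈ Ioc 0 ⌊x⌋₊, (Real.log x - Real.log m) ^ k / m - (Real.log x) ^ (k + 1) / (k + 1)| ≤
      (Real.log x) ^ k := by
  set L := Real.log x with hL
  have hL0 : 0 ≤ L := Real.log_nonneg hx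
  set N := ⌊x⌋₊ with hN
  have hN1 : 1 ≤ N := by
    rw [hN]
    exact Nat.one_le_floor_iff x |>.2 hx
  have hNx : (N : ℝ) ≤ x := Nat.floor_le (by linarith)
  have hxN : x < N + 1 := Nat.lt_floor_add_one x
  have hlog : ∀ t : ℝ, 0 < t → t ≤ x → Real.log t ≤ L := fun t ht htx => Real.log_le_log ht htx
  have hF1 : FF L k 1 = L ^ (k + 1) / (k + 1) := by
    simp [FF]
  have hFpos : ∀ t : ℝ, 0 < t → t ≤ x → 0 ≤ FF L k t := by
    intro t ht htx
    unfold FF
    have := hlog t ht htx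
    have h2 : 0 ≤ (L - Real.log t) ^ (k + 1) := pow_nonneg (by linarith) _
    positivity
  -- upper bound
  have hup : ∀ n : ℕ, 1 ≤ n → (n : ℝ) ≤ x →
      ∑ m ∈ Ioc 0 n, (L - Real.log m) ^ k / m ≤ L ^ k + (FF L k 1 - FF L k n) := by
    intro n hn
    induction n, hn using Nat.le_induction with
    | base =>
      intro _
      simp
    | succ n hn ih =>
      intro hnx
      push_cast at hnx
      have ih' := ih (by linarith)
      rw [Finset.sum_Ioc_succ_top (Nat.zero_le n)]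
      have hn0 : (0 : ℝ) < n := by exact_mod_cast hn
      have h1 := FF_lower (L := L) (s := n) (t := n + 1) hn0 (by linarith)
        (hlog _ (by linarith) hnx) k
      push_cast
      have h2 : ((n : ℝ) + 1 - n) = 1 := by ring
      rw [h2, one_mul] at h1
      linarith
  -- lower bound
  have hlow : ∀ n : ℕ, (n : ℝ) + 1 ≤ x →
      FF L k 1 - FF L k (n + 1) ≤ ∑ m ∈ Ioc 0 n, (L - Real.log m) ^ k / m := by
    intro n
    induction n with
    | zero =>
      intro _
      simp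
    | succ n ih =>
      intro hnx
      push_cast at hnx
      have ih' := ih (by linarith)
      rw [Finset.sum_Ioc_succ_top (Nat.zero_le n)]
      have hn0 : (0 : ℝ) < (n : ℝ) + 1 := by positivity
      have h1 := FF_upper (L := L) (s := (n : ℝ) + 1) (t := (n : ℝ) + 1 + 1) hn0 (by linarith)
        (hlog _ (by linarith) hnx) k
      push_cast
      have h2 : ((n : ℝ) + 1 + 1 - (n + 1)) = 1 := by ring
      rw [h2, one_mul] at h1
      linarith
  have hup' := hup N hN1 hNx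
  have hlow' : FF L k 1 ≤ ∑ m ∈ Ioc 0 N, (L - Real.log m) ^ k / m := by
    obtain ⟨n, hn⟩ : ∃ n, N = n + 1 := ⟨N - 1, by omega⟩
    have h1 := hlow n (by
      have : ((n + 1 : ℕ) : ℝ) ≤ x := by rw [← hn]; exact hNx
      push_cast at this
      exact this)
    rw [hn, Finset.sum_Ioc_succ_top (Nat.zero_le n)]
    have hn0 : (0 : ℝ) < (n : ℝ) + 1 := by positivity
    have hnx : (n : ℝ) + 1 ≤ x := by
      have : ((n + 1 : ℕ) : ℝ) ≤ x := by rw [← hn]; exact hNx
      push_cast at this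
      exact this
    have hxn : x < (n : ℝ) + 1 + 1 := by
      have h3 := hxN
      rw [hn] at h3
      push_cast at h3
      exact h3
    have h2 := FF_upper (L := L) (s := (n : ℝ) + 1) (t := x) hn0 hnx (le_refl _) k
    have h3 : FF L k x = 0 := by
      simp [FF, hL]
    have h4 : 0 ≤ (L - Real.log ((n : ℝ) + 1)) ^ k / ((n : ℝ) + 1) := by
      have := hlog _ hn0 hnx
      have h5 : 0 ≤ (L - Real.log ((n : ℝ) + 1)) ^ k := pow_nonneg (by linarith) _
      positivity
    have h5 : (x - ((n : ℝ) + 1)) * ((L - Real.log ((n : ℝ) + 1)) ^ k / ((n : ℝ) + 1)) ≤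
        (L - Real.log ((n : ℝ) + 1)) ^ k / ((n : ℝ) + 1) := by
      have h6 : x - ((n : ℝ) + 1) ≤ 1 := by linarith
      calc _ ≤ 1 * ((L - Real.log ((n : ℝ) + 1)) ^ k / ((n : ℝ) + 1)) :=
            mul_le_mul_of_nonneg_right h6 h4
        _ = _ := one_mul _
    rw [h3] at h2
    push_cast
    linarith
  have hFN := hFpos N (by exact_mod_cast hN1) hNx
  rw [hF1] at hup' hlow'
  rw [abs_le]
  have hLk : 0 ≤ L ^ k := pow_nonneg hL0 k
  constructor <;> linarith

/-! ### The iterated divisor sums -/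

/-- the arithmetic function `1/n` -/
noncomputable def zi : ArithmeticFunction ℝ := ⟨fun n => (n : ℝ)⁻¹, by simp⟩

lemma zi_apply (n : ℕ) : zi n = (n : ℝ)⁻¹ := rfl

lemma zi_pow_nonneg (j n : ℕ) : 0 ≤ (zi ^ j) n := by
  induction j generalizing n with
  | zero =>
    rw [pow_zero, ArithmeticFunction.one_apply]
    split_ifs <;> norm_num
  | succ j ih =>
    rw [pow_succ', ArithmeticFunction.mul_apply]
    refine Finset.sum_nonneg fun x _ => mul_nonneg ?_ (ih _)
    rw [zi_apply]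
    positivity

/-- `∑_{n ≤ x} d_j(n)/n` -/
noncomputable def AA (j : ℕ) (x : ℝ) : ℝ := ∑ n ∈ Ioc 0 ⌊x⌋₊, (zi ^ j) n

lemma AA_nonneg (j : ℕ) (x : ℝ) : 0 ≤ AA j x := Finset.sum_nonneg fun n _ => zi_pow_nonneg j n

lemma AA_mono (j : ℕ) {x y : ℝ} (h : x ≤ y) : AA j x ≤ AA j y := by
  unfold AA
  refine Finset.sum_le_sum_of_subset_of_nonneg ?_ fun n _ _ => zi_pow_nonneg j n
  exact Finset.Ioc_subset_Ioc_right (Nat.floor_mono h)

lemma AA_succ (j : ℕ) (x : ℝ) : AA (j + 1) x = ∑ m ∈ Ioc 0 ⌊x⌋₊, (m : ℝ)⁻¹ * AA j (x / m) := by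
  unfold AA
  rw [pow_succ', ArithmeticFunction.sum_Ioc_mul_eq_sum_sum]
  refine Finset.sum_congr rfl fun m _ => ?_
  rw [zi_apply, Nat.floor_div_natCast]

lemma sum_inv_le (x : ℝ) (hx : 1 ≤ x) : ∑ m ∈ Ioc 0 ⌊x⌋₊, (m : ℝ)⁻¹ ≤ 1 + Real.log x := by
  have h := (abs_le.1 (sum_log_pow x hx 0)).2
  simp only [pow_zero, zero_add, pow_one, Nat.cast_zero, div_one, one_div] at h
  linarith

lemma AA_asymp (j : ℕ) : ∃ C : ℝ, 0 ≤ C ∧ ∀ x : ℝ, 1 ≤ x →
    |AA (j + 1) x - (Real.log x) ^ (j + 1) / (j + 1).factorial| ≤ C * (1 + Real.log x) ^ j := by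
  induction j with
  | zero =>
    refine ⟨1, zero_le_one, fun x hx => ?_⟩
    have h := sum_log_pow x hx 0
    have h1 : AA (0 + 1) x = ∑ m ∈ Ioc 0 ⌊x⌋₊, (Real.log x - Real.log m) ^ 0 / (m : ℝ) := by
      unfold AA
      refine Finset.sum_congr rfl fun m _ => ?_
      rw [zero_add, pow_one, zi_apply, pow_zero, one_div]
    rw [h1]
    simpa using h
  | succ j ih =>
    obtain ⟨C, hC, ih⟩ := ih
    refine ⟨C + 1, by linarith, fun x hx => ?_⟩
    set L := Real.log x with hL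
    have hL0 : 0 ≤ L := Real.log_nonneg hx
    have h1 : ∀ m ∈ Ioc 0 ⌊x⌋₊,
        |(m : ℝ)⁻¹ * (AA (j + 1) (x / m) - (L - Real.log m) ^ (j + 1) / (j + 1).factorial)| ≤
          (m : ℝ)⁻¹ * (C * (1 + L) ^ j) := by
      intro m hm
      obtain ⟨hm0, hmx⟩ := Finset.mem_Ioc.1 hm
      have hm1 : (1 : ℝ) ≤ m := by exact_mod_cast hm0
      have hmx' : (m : ℝ) ≤ x := (Nat.le_floor_iff (by linarith)).1 hmx
      have hxm : 1 ≤ x / m := by
        rw [le_div_iff₀ (by linarith)]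
        linarith
      have h2 := ih (x / m) hxm
      rw [Real.log_div (by linarith) (by linarith)] at h2
      have h3 : 0 ≤ Real.log m := Real.log_nonneg hm1
      have h4 : Real.log m ≤ L := Real.log_le_log (by linarith) hmx'
      rw [abs_mul, abs_of_nonneg (by positivity : (0 : ℝ) ≤ (m : ℝ)⁻¹)]
      refine mul_le_mul_of_nonneg_left (h2.trans ?_) (by positivity)
      gcongr
      linarith
    have h5 : AA (j + 1 + 1) x - L ^ (j + 1 + 1) / (j + 1 + 1).factorial =
        ∑ m ∈ Ioc 0 ⌊x⌋₊,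
          (m : ℝ)⁻¹ * (AA (j + 1) (x / m) - (L - Real.log m) ^ (j + 1) / (j + 1).factorial) +
        (1 / (j + 1).factorial : ℝ) * (∑ m ∈ Ioc 0 ⌊x⌋₊, (L - Real.log m) ^ (j + 1) / m -
          L ^ (j + 1 + 1) / ((j + 1 : ℕ) + 1)) := by
      rw [AA_succ (j + 1)]
      have h6 : ∑ m ∈ Ioc 0 ⌊x⌋₊,
          (m : ℝ)⁻¹ * (AA (j + 1) (x / m) - (L - Real.log m) ^ (j + 1) / (j + 1).factorial) =
          ∑ m ∈ Ioc 0 ⌊x⌋₊, (m : ℝ)⁻¹ * AA (j + 1) (x / m) -
          (1 / (j + 1).factorial : ℝ) * ∑ m ∈ Ioc 0 ⌊x⌋₊, (L - Real.log m) ^ (j + 1) / m := by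
        rw [Finset.mul_sum, ← Finset.sum_sub_distrib]
        refine Finset.sum_congr rfl fun m _ => ?_
        ring
      rw [h6, Nat.factorial_succ (j + 1)]
      push_cast
      have h7 : ((j + 1).factorial : ℝ) ≠ 0 := by exact_mod_cast (Nat.factorial_pos _).ne'
      field_simp
      ring
    rw [h5]
    have h8 := sum_log_pow x hx (j + 1)
    have h9 : |∑ m ∈ Ioc 0 ⌊x⌋₊,
          (m : ℝ)⁻¹ * (AA (j + 1) (x / m) - (L - Real.log m) ^ (j + 1) / (j + 1).factorial)| ≤
        C * (1 + L) ^ (j + 1) := by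
      refine (Finset.abs_sum_le_sum_abs _ _).trans ((Finset.sum_le_sum h1).trans ?_)
      rw [← Finset.sum_mul]
      calc (∑ m ∈ Ioc 0 ⌊x⌋₊, (m : ℝ)⁻¹) * (C * (1 + L) ^ j) ≤ (1 + L) * (C * (1 + L) ^ j) := by
            refine mul_le_mul_of_nonneg_right (sum_inv_le x hx) (by positivity)
        _ = C * (1 + L) ^ (j + 1) := by ring
    have h10 : |(1 / (j + 1).factorial : ℝ) * (∑ m ∈ Ioc 0 ⌊x⌋₊, (L - Real.log m) ^ (j + 1) / m -
          L ^ (j + 1 + 1) / ((j + 1 : ℕ) + 1))| ≤ (1 + L) ^ (j + 1) := by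
      rw [abs_mul, abs_of_nonneg (by positivity : (0 : ℝ) ≤ 1 / (j + 1).factorial)]
      have h11 : (1 / (j + 1).factorial : ℝ) ≤ 1 := by
        rw [div_le_one (by positivity)]
        exact_mod_cast Nat.factorial_pos _
      calc _ ≤ 1 * L ^ (j + 1) := mul_le_mul h11 h8 (abs_nonneg _) zero_le_one
        _ ≤ (1 + L) ^ (j + 1) := by
          rw [one_mul]
          gcongr
          linarith
    calc _ ≤ C * (1 + L) ^ (j + 1) + (1 + L) ^ (j + 1) := (abs_add_le _ _).trans (add_le_add h9 h10)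
      _ = (C + 1) * (1 + L) ^ (j + 1) := by ring

/-- the limit at `x / c` -/
lemma AA_tendsto (c : ℝ) (hc : 1 ≤ c) :
    Tendsto (fun x : ℝ => AA 4 (x / c) / (Real.log x) ^ 4) atTop (𝓝 (1 / 24)) := by
  obtain ⟨C, hC, h⟩ := AA_asymp 3
  have hc0 : 0 < c := by linarith
  have hlc : 0 ≤ Real.log c := Real.log_nonneg hc
  -- the quotient of the logarithms
  have hq : Tendsto (fun x : ℝ => (Real.log x - Real.log c) / Real.log x) atTop (𝓝 1) := by
    have h1 : Tendsto (fun x : ℝ => 1 - Real.log c * (Real.log x)⁻¹) atTop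
        (𝓝 (1 - Real.log c * 0)) :=
      (tendsto_const_nhds).sub ((tendsto_inv_atTop_zero.comp Real.tendsto_log_atTop).const_mul _)
    rw [mul_zero, sub_zero] at h1
    refine h1.congr' ?_
    filter_upwards [eventually_gt_atTop 1] with x hx
    have hx0 : Real.log x ≠ 0 := (Real.log_pos hx).ne'
    field_simp
  have hr : Tendsto (fun x : ℝ => C * (1 + Real.log x) ^ 3 / (Real.log x) ^ 4) atTop (𝓝 0) := by
    have h1 : Tendsto (fun x : ℝ => C * (((Real.log x)⁻¹ + 1) ^ 3 * (Real.log x)⁻¹)) atTop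
        (𝓝 (C * ((0 + 1) ^ 3 * 0))) := by
      have h2 : Tendsto (fun x : ℝ => (Real.log x)⁻¹) atTop (𝓝 0) :=
        tendsto_inv_atTop_zero.comp Real.tendsto_log_atTop
      exact (((h2.add_const 1).pow 3).mul h2).const_mul _
    rw [mul_zero, mul_zero] at h1
    refine h1.congr' ?_
    filter_upwards [eventually_gt_atTop 1] with x hx
    have hx0 : Real.log x ≠ 0 := (Real.log_pos hx).ne'
    field_simp
  have hmain : Tendsto (fun x : ℝ => ((Real.log x - Real.log c) / Real.log x) ^ 4 / 24) atTop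
      (𝓝 (1 ^ 4 / 24)) := (hq.pow 4).div_const 24
  rw [one_pow] at hmain
  have hdiff : Tendsto (fun x : ℝ => AA 4 (x / c) / (Real.log x) ^ 4 -
      ((Real.log x - Real.log c) / Real.log x) ^ 4 / 24) atTop (𝓝 0) := by
    refine squeeze_zero_norm' ?_ hr
    filter_upwards [eventually_ge_atTop c, eventually_gt_atTop 1] with x hx hx1
    have hx0 : 0 < Real.log x := Real.log_pos hx1
    have hxc : 1 ≤ x / c := by
      rw [le_div_iff₀ hc0]
      linarith
    have h1 := h (x / c) hxc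
    rw [Real.log_div (by linarith) hc0.ne'] at h1
    have h2 : ((3 + 1).factorial : ℝ) = 24 := by norm_num [Nat.factorial]
    rw [h2] at h1
    have h3 : AA 4 (x / c) / (Real.log x) ^ 4 -
        ((Real.log x - Real.log c) / Real.log x) ^ 4 / 24 =
        (AA (3 + 1) (x / c) - (Real.log x - Real.log c) ^ (3 + 1) / 24) / (Real.log x) ^ 4 := by
      rw [div_pow]
      ring
    rw [h3, norm_div, Real.norm_eq_abs, Real.norm_of_nonneg (by positivity)]
    refine div_le_div_of_nonneg_right (h1.trans ?_) (by positivity)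
    have h4 : 0 ≤ Real.log x - Real.log c :=
      sub_nonneg.2 (Real.log_le_log hc0 hx)
    gcongr
    linarith
  have := hdiff.add hmain
  rw [zero_add] at this
  refine this.congr fun x => ?_
  ring

lemma AA_bound : ∃ K : ℝ, 0 ≤ K ∧ ∀ x : ℝ, Real.exp 1 ≤ x → ∀ c : ℝ, 1 ≤ c →
    AA 4 (x / c) / (Real.log x) ^ 4 ≤ K := by
  obtain ⟨C, hC, h⟩ := AA_asymp 3
  refine ⟨1 + 8 * C, by positivity, fun x hx c hc => ?_⟩
  have hx1 : 1 ≤ x := le_trans (by
    have := Real.add_one_le_exp (1 : ℝ)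
    linarith) hx
  have hL : 1 ≤ Real.log x := by
    rw [← Real.log_exp 1]
    exact Real.log_le_log (Real.exp_pos 1) hx
  rw [div_le_iff₀ (by positivity)]
  have h1 : AA 4 (x / c) ≤ AA 4 x := AA_mono 4 (div_le_self (by linarith) hc)
  have h2 := (abs_le.1 (h x hx1)).2
  have h3 : ((3 + 1).factorial : ℝ) = 24 := by norm_num [Nat.factorial]
  rw [h3] at h2
  have h4 : (1 + Real.log x) ^ 3 ≤ 8 * (Real.log x) ^ 4 := by
    calc (1 + Real.log x) ^ 3 ≤ (2 * Real.log x) ^ 3 := by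
          gcongr
          linarith
      _ = 8 * (Real.log x) ^ 3 := by ring
      _ ≤ 8 * (Real.log x) ^ 4 :=
          mul_le_mul_of_nonneg_left (pow_le_pow_right₀ hL (by norm_num)) (by norm_num)
  have h5 := mul_le_mul_of_nonneg_left h4 hC
  have h6 : 0 ≤ (Real.log x) ^ 4 := by positivity
  have h7 : AA (3 + 1) x = AA 4 x := rfl
  rw [h7] at h2
  have h8 : (Real.log x) ^ (3 + 1) = (Real.log x) ^ 4 := rfl
  rw [h8] at h2
  nlinarith

/-! ### The identity `d² = μ(√·) * ζ⁴` -/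

/-- weights `1/n` -/
noncomputable def wt (f : ArithmeticFunction ℝ) : ArithmeticFunction ℝ :=
  ⟨fun n => f n * (n : ℝ)⁻¹, by simp⟩

lemma wt_apply (f : ArithmeticFunction ℝ) (n : ℕ) : wt f n = f n * (n : ℝ)⁻¹ := rfl

lemma wt_mul (f g : ArithmeticFunction ℝ) : wt (f * g) = wt f * wt g := by
  ext n
  rw [wt_apply, ArithmeticFunction.mul_apply, ArithmeticFunction.mul_apply, Finset.sum_mul]
  refine Finset.sum_congr rfl fun x hx => ?_
  rw [wt_apply, wt_apply, ← (Nat.mem_divisorsAntidiagonal.1 hx).1]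
  push_cast
  rw [mul_inv]
  ring

/-- `∑_{b² = n} μ(b)` -/
noncomputable def gs : ArithmeticFunction ℝ :=
  ⟨fun n => if IsSquare n then ((ArithmeticFunction.moebius (Nat.sqrt n) : ℤ) : ℝ) else 0, by simp⟩

lemma gs_apply (n : ℕ) : gs n =
    if IsSquare n then ((ArithmeticFunction.moebius (Nat.sqrt n) : ℤ) : ℝ) else 0 := rfl

lemma gs_sq (b : ℕ) : gs (b * b) = ((ArithmeticFunction.moebius b : ℤ) : ℝ) := by
  rw [gs_apply, if_pos ⟨b, rfl⟩, Nat.sqrt_eq]

lemma gs_not {n : ℕ} (h : ¬ IsSquare n) : gs n = 0 := by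
  rw [gs_apply, if_neg h]

lemma isSquare_left {m n : ℕ} (hmn : m.Coprime n) (h : IsSquare (m * n)) : IsSquare m := by
  obtain ⟨c, hc⟩ := h
  obtain ⟨d, hd⟩ := exists_eq_pow_of_mul_eq_pow (a := m) (b := n) (c := c) (k := 2)
    (by rw [gcd_eq_nat_gcd, hmn]; exact isUnit_one) (by rw [hc, sq])
  exact ⟨d, by rw [hd, sq]⟩

lemma gs_mult : gs.IsMultiplicative := by
  refine ⟨?_, fun {m n} hmn => ?_⟩
  · have h := gs_sq 1
    simpa using h
  · by_cases hm : IsSquare m
    · by_cases hn : IsSquare n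
      · obtain ⟨a, rfl⟩ := hm
        obtain ⟨b, rfl⟩ := hn
        have hab : a.Coprime b := Nat.Coprime.coprime_mul_left (Nat.Coprime.coprime_mul_left_right hmn)
        have h1 : a * a * (b * b) = (a * b) * (a * b) := by ring
        rw [h1, gs_sq, gs_sq, gs_sq, ArithmeticFunction.isMultiplicative_moebius.map_mul_of_coprime hab]
        push_cast
        rfl
      · rw [gs_not hn, mul_zero, gs_not]
        intro h
        rw [mul_comm] at h
        exact hn (isSquare_left hmn.symm h)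
    · rw [gs_not hm, zero_mul, gs_not]
      exact fun h => hm (isSquare_left hmn h)

/-- the divisor function -/
noncomputable def dR : ArithmeticFunction ℝ :=
  (ArithmeticFunction.zeta : ArithmeticFunction ℝ) * (ArithmeticFunction.zeta : ArithmeticFunction ℝ)

lemma dR_apply (n : ℕ) : dR n = (n.divisors.card : ℝ) := by
  unfold dR
  rw [ArithmeticFunction.coe_zeta_mul_apply]
  rw [Finset.card_eq_sum_ones, Nat.cast_sum]
  refine Finset.sum_congr rfl fun i hi => ?_
  have hi0 : i ≠ 0 := (Nat.pos_of_mem_divisors hi).ne'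
  rw [ArithmeticFunction.natCoe_apply, ArithmeticFunction.zeta_apply_ne hi0]

lemma dR_mult : dR.IsMultiplicative :=
  ArithmeticFunction.isMultiplicative_zeta.natCast.mul ArithmeticFunction.isMultiplicative_zeta.natCast

lemma dR_prime_pow {p : ℕ} (hp : p.Prime) (k : ℕ) : dR (p ^ k) = k + 1 := by
  rw [dR_apply, Nat.divisors_prime_pow hp, Finset.card_map, Finset.card_range]
  push_cast
  rfl

lemma mul_prime_pow (f g : ArithmeticFunction ℝ) {p : ℕ} (hp : p.Prime) (k : ℕ) :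
    (f * g) (p ^ k) = ∑ i ∈ Finset.range (k + 1), f (p ^ i) * g (p ^ (k - i)) := by
  rw [ArithmeticFunction.mul_apply, Nat.sum_divisorsAntidiagonal (fun a b => f a * g b),
    Nat.sum_divisors_prime_pow hp]
  refine Finset.sum_congr rfl fun i hi => ?_
  rw [Nat.pow_div (Nat.lt_succ_iff.1 (Finset.mem_range.1 hi)) hp.pos]

/-- `d_4(p^k)` -/
lemma d4_prime_pow {p : ℕ} (hp : p.Prime) (k : ℕ) :
    (dR * dR) (p ^ k) = (k + 1) * (k + 2) * (k + 3) / 6 := by
  rw [mul_prime_pow dR dR hp]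
  have h1 : ∀ i ∈ Finset.range (k + 1), dR (p ^ i) * dR (p ^ (k - i)) =
      ((i : ℝ) + 1) * (k - i + 1) := by
    intro i hi
    rw [dR_prime_pow hp, dR_prime_pow hp, Nat.cast_sub (Nat.lt_succ_iff.1 (Finset.mem_range.1 hi))]
  rw [Finset.sum_congr rfl h1]
  have h2 : ∀ (n : ℕ) (c : ℝ), ∑ i ∈ Finset.range (n + 1), ((i : ℝ) + 1) * (c - i + 1) =
      (n + 1) * (n + 2) / 2 * (c + 1) - n * (n + 1) * (n + 2) / 3 := by
    intro n c
    induction n with
    | zero => simp
    | succ n ih =>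
      rw [Finset.sum_range_succ, ih]
      push_cast
      ring
  rw [h2 k k]
  ring

lemma gs_prime_pow {p : ℕ} (hp : p.Prime) : gs (p ^ 0) = 1 ∧ gs (p ^ 1) = 0 ∧ gs (p ^ 2) = -1 ∧
    ∀ i, 3 ≤ i → gs (p ^ i) = 0 := by
  refine ⟨?_, ?_, ?_, fun i hi => ?_⟩
  · rw [pow_zero]
    have h := gs_sq 1
    simpa using h
  · rw [pow_one]
    refine gs_not ?_
    rintro ⟨r, hr⟩
    have h1 := Irreducible.isUnit_or_isUnit hp hr
    rcases h1 with h | h <;>
    · rw [Nat.isUnit_iff] at h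
      rw [h] at hr
      exact hp.one_lt.ne' (by simpa using hr)
  · rw [sq, gs_sq, ArithmeticFunction.moebius_apply_prime hp]
    norm_num
  · by_cases h : IsSquare (p ^ i)
    · obtain ⟨r, hr⟩ := h
      obtain ⟨j, hj, hrj⟩ := (Nat.dvd_prime_pow hp).1 (Dvd.intro r hr.symm)
      have h2 : 2 ≤ j := by
        have h3 : p ^ i = p ^ (j + j) := by rw [hr, hrj, pow_add]
        have h4 := Nat.pow_right_injective hp.two_le h3
        omega
      rw [hr, gs_sq, hrj, ArithmeticFunction.moebius_apply_prime_pow hp (by omega), if_neg (by omega)]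
      norm_num
    · exact gs_not h

lemma dsq_eq : ArithmeticFunction.pmul dR dR = gs * (dR * dR) := by
  rw [(dR_mult.pmul dR_mult).eq_iff_eq_on_prime_powers _ _ (gs_mult.mul (dR_mult.mul dR_mult))]
  intro p k hp
  rw [ArithmeticFunction.pmul_apply, dR_prime_pow hp, mul_prime_pow gs _ hp]
  obtain ⟨h0, h1, h2, h3⟩ := gs_prime_pow hp
  rcases k with _ | _ | k
  · rw [Finset.sum_range_one, h0, d4_prime_pow hp]
    push_cast
    norm_num
  · rw [Finset.sum_range_succ, Finset.sum_range_one, h0, h1, d4_prime_pow hp]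
    push_cast
    norm_num
  · have h4 : ∑ i ∈ Finset.range (k + 1 + 1 + 1), gs (p ^ i) * (dR * dR) (p ^ (k + 1 + 1 - i)) =
        ∑ i ∈ Finset.range 3, gs (p ^ i) * (dR * dR) (p ^ (k + 1 + 1 - i)) := by
      symm
      refine Finset.sum_subset (Finset.range_subset_range.2 (by omega)) fun i _ hi => ?_
      rw [Finset.mem_range, not_lt] at hi
      rw [h3 i hi, zero_mul]
    rw [h4, Finset.sum_range_succ, Finset.sum_range_succ, Finset.sum_range_one, h0, h1, h2,
      d4_prime_pow hp, d4_prime_pow hp, d4_prime_pow hp]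
    have h5 : k + 1 + 1 - 2 = k := by omega
    rw [h5]
    push_cast
    ring

lemma wt_zeta : wt (ArithmeticFunction.zeta : ArithmeticFunction ℝ) = zi := by
  ext n
  rw [wt_apply, zi_apply, ArithmeticFunction.natCoe_apply]
  rcases eq_or_ne n 0 with rfl | hn
  · simp
  · rw [ArithmeticFunction.zeta_apply_ne hn]
    simp

lemma wt_dsq : wt (ArithmeticFunction.pmul dR dR) = wt gs * zi ^ 4 := by
  rw [dsq_eq, wt_mul, wt_mul, dR, wt_mul, wt_zeta]
  ring

/-- the Möbius series -/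
lemma sum_moebius : ∑' b : ℕ, ((ArithmeticFunction.moebius b : ℤ) : ℝ) / (b : ℝ) ^ 2 =
    6 / Real.pi ^ 2 := by
  have h2 : (1 : ℝ) < (2 : ℂ).re := by norm_num
  have h := ArithmeticFunction.LSeries_zeta_mul_Lseries_moebius h2
  rw [ArithmeticFunction.LSeries_zeta_eq_riemannZeta h2, riemannZeta_two] at h
  have h1 : LSeries (fun n => ((ArithmeticFunction.moebius n : ℤ) : ℂ)) 2 =
      ((∑' b : ℕ, ((ArithmeticFunction.moebius b : ℤ) : ℝ) / (b : ℝ) ^ 2 : ℝ) : ℂ) := by
    rw [LSeries, Complex.ofReal_tsum]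
    refine tsum_congr fun n => ?_
    rcases eq_or_ne n 0 with rfl | hn
    · simp
    · rw [LSeries.term_of_ne_zero hn]
      push_cast
      congr 1
      have : (2 : ℂ) = ((2 : ℕ) : ℂ) := by norm_num
      rw [this, Complex.cpow_natCast]
  rw [h1] at h
  have hpi : (Real.pi : ℂ) ≠ 0 := by exact_mod_cast Real.pi_ne_zero
  have h3 : ((∑' b : ℕ, ((ArithmeticFunction.moebius b : ℤ) : ℝ) / (b : ℝ) ^ 2 : ℝ) : ℂ) =
      ((6 / Real.pi ^ 2 : ℝ) : ℂ) := by
    push_cast
    push_cast at h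
    field_simp at h ⊢
    linear_combination h
  exact_mod_cast h3

/-! ### The sum -/

lemma sum_eq (x : ℝ) (hx : 1 ≤ x) :
    ∑ n ∈ Ioc 0 ⌊x⌋₊, (n.divisors.card : ℝ) ^ 2 / n =
      ∑' b : ℕ, ((ArithmeticFunction.moebius b : ℤ) : ℝ) / (b : ℝ) ^ 2 * AA 4 (x / (b : ℝ) ^ 2) := by
  have h1 : ∑ n ∈ Ioc 0 ⌊x⌋₊, (n.divisors.card : ℝ) ^ 2 / n =
      ∑ n ∈ Ioc 0 ⌊x⌋₊, (wt gs * zi ^ 4) n := by
    refine Finset.sum_congr rfl fun n _ => ?_
    rw [← wt_dsq, wt_apply, ArithmeticFunction.pmul_apply, dR_apply]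
    ring
  have h2 : ∑ n ∈ Ioc 0 ⌊x⌋₊, (wt gs * zi ^ 4) n =
      ∑' n : ℕ, wt gs n * AA 4 (x / n) := by
    rw [ArithmeticFunction.sum_Ioc_mul_eq_sum_sum, tsum_eq_sum (s := Ioc 0 ⌊x⌋₊)]
    · refine Finset.sum_congr rfl fun n _ => ?_
      rw [AA, Nat.floor_div_natCast]
    · intro n hn
      rw [Finset.mem_Ioc, not_and_or, not_lt, not_le] at hn
      rcases hn with hn | hn
      · have : n = 0 := by omega
        rw [this, wt_apply]
        simp
      · have h3 : ⌊x / n⌋₊ = 0 := by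
          rw [Nat.floor_div_natCast, Nat.div_eq_of_lt hn]
        rw [AA, h3]
        simp
  rw [h1, h2]
  have hinj : Function.Injective (fun b : ℕ => b * b) := fun a b h => by
    simpa using Nat.mul_self_inj.1 h
  rw [← hinj.tsum_eq (f := fun n : ℕ => wt gs n * AA 4 (x / n))]
  · refine tsum_congr fun b => ?_
    rw [wt_apply, gs_sq]
    push_cast
    rw [sq]
    ring
  · intro n hn
    by_contra hc
    refine hn ?_
    show wt gs n * AA 4 (x / n) = 0
    rw [wt_apply, gs_not, zero_mul, zero_mul]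
    rintro ⟨r, hr⟩
    exact hc ⟨r, hr.symm⟩

theorem main : Tendsto (fun x : ℝ => (∑ n ∈ Ioc 0 ⌊x⌋₊, (n.divisors.card : ℝ) ^ 2 / n) /
    (Real.log x) ^ 4) atTop (𝓝 (1 / (4 * Real.pi ^ 2))) := by
  obtain ⟨K, hK, hKb⟩ := AA_bound
  have hlim : Tendsto (fun x : ℝ => ∑' b : ℕ, ((ArithmeticFunction.moebius b : ℤ) : ℝ) /
      (b : ℝ) ^ 2 * (AA 4 (x / (b : ℝ) ^ 2) / (Real.log x) ^ 4)) atTop
      (𝓝 (∑' b : ℕ, ((ArithmeticFunction.moebius b : ℤ) : ℝ) / (b : ℝ) ^ 2 * (1 / 24))) := by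
    refine tendsto_tsum_of_dominated_convergence (bound := fun b : ℕ => 1 / (b : ℝ) ^ 2 * K) ?_ ?_ ?_
    · exact (Real.summable_one_div_nat_pow.2 (by norm_num)).mul_right K
    · intro b
      rcases Nat.eq_zero_or_pos b with rfl | hb
      · simp
      · have hb1 : (1 : ℝ) ≤ (b : ℝ) ^ 2 := by
          have : (1 : ℝ) ≤ b := by exact_mod_cast hb
          exact one_le_pow₀ this
        exact (AA_tendsto _ hb1).const_mul _
    · filter_upwards [eventually_ge_atTop (Real.exp 1)] with x hx b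
      rcases Nat.eq_zero_or_pos b with rfl | hb
      · simp
      · have hb1 : (1 : ℝ) ≤ (b : ℝ) ^ 2 := by
          have : (1 : ℝ) ≤ b := by exact_mod_cast hb
          exact one_le_pow₀ this
        have hx1 : 1 ≤ x := le_trans (by
          have := Real.add_one_le_exp (1 : ℝ)
          linarith) hx
        have hL : 0 ≤ Real.log x := Real.log_nonneg hx1
        have h1 := hKb x hx _ hb1
        have h2 : 0 ≤ AA 4 (x / (b : ℝ) ^ 2) / (Real.log x) ^ 4 :=
          div_nonneg (AA_nonneg _ _) (by positivity)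
        rw [norm_mul, Real.norm_of_nonneg h2]
        refine mul_le_mul ?_ h1 h2 (by positivity)
        rw [norm_div, Real.norm_of_nonneg (by positivity : (0 : ℝ) ≤ (b : ℝ) ^ 2)]
        refine div_le_div_of_nonneg_right ?_ (by positivity)
        rw [Real.norm_eq_abs]
        exact_mod_cast ArithmeticFunction.abs_moebius_le_one
  rw [tsum_mul_right, sum_moebius] at hlim
  have hc : (6 / Real.pi ^ 2 * (1 / 24) : ℝ) = 1 / (4 * Real.pi ^ 2) := by
    have := Real.pi_ne_zero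
    field_simp
    norm_num
  rw [hc] at hlim
  refine hlim.congr' ?_
  filter_upwards [eventually_ge_atTop 1] with x hx
  rw [sum_eq x hx, ← tsum_div_const]
  refine tsum_congr fun b => ?_
  ring

end DivSum

/-- module (4) -/
theorem stDivSum : StDivSum := by
  unfold StDivSum
  refine DivSum.main.congr fun x => ?_
  congr 1

end K3
end Pool.Agent.Lib.MP_973905_nt
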