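import Pool.Agent.Lib.MP_973905_nt.K3.Stmts
import Pool.Agent.Lib.MP_973905_nt.Sharp

/-! Module (15) of K3: from Gaussian means to the mean over `[0, T]` (lower bound). -/

namespace Pool.Agent.Lib.MP_973905_nt
namespace K3

open MeasureTheory ProbabilityTheory Complex Filter Topology

namespace AL

/-- Averages of Gaussian means. -/
lemma average6 (T : ℝ) {F : ℝ → ℝ} (hF : Continuous F) {Cp : ℝ}
    (hFb : ∀ t, |F t| ≤ Cp * (1 + |t|) ^ 6) {a b : ℝ} (hab : a ≤ b) :
    ∫ τ in a..b, EG T τ F =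
      ∫ x, (∫ t in (x + a)..(x + b), F t) ∂(gaussianReal 0 (VV T)) ∧
    Integrable (fun x => ∫ t in (x + a)..(x + b), F t) (gaussianReal 0 (VV T)) ∧
    IntervalIntegrable (fun τ => EG T τ F) volume a b := by
  have hCp : 0 ≤ Cp := by
    have := (abs_nonneg _).trans (hFb 0)
    simpa using this
  have hint : Integrable (fun z : ℝ × ℝ => F (z.2 + z.1))
      ((volume.restrict (Set.Ioc a b)).prod (gaussianReal 0 (VV T))) := by
    have h1 : Integrable (fun τ : ℝ => Cp * (1 + |τ|) ^ 6) (volume.restrict (Set.Ioc a b)) :=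
      ((by fun_prop : Continuous fun τ : ℝ => Cp * (1 + |τ|) ^ 6).integrableOn_Icc).mono_set
        Set.Ioc_subset_Icc_self
    have h2 := h1.mul_prod (integrable_one_add_abs_pow 0 (VV T) 6)
    refine h2.mono' (hF.comp (by fun_prop)).aestronglyMeasurable
      (Filter.Eventually.of_forall fun z => ?_)
    rw [Real.norm_eq_abs]
    refine (hFb _).trans ?_
    have h3 : 1 + |z.2 + z.1| ≤ (1 + |z.1|) * (1 + |z.2|) := by
      have := abs_add_le z.2 z.1
      nlinarith [mul_nonneg (abs_nonneg z.1) (abs_nonneg z.2)]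
    calc Cp * (1 + |z.2 + z.1|) ^ 6 ≤ Cp * ((1 + |z.1|) * (1 + |z.2|)) ^ 6 := by gcongr
      _ = _ := by ring
  have e : ∀ x : ℝ, ∫ t in (x + a)..(x + b), F t = ∫ τ in Set.Ioc a b, F (x + τ) := by
    intro x
    rw [← intervalIntegral.integral_of_le hab, intervalIntegral.integral_comp_add_left]
  simp only [e]
  refine ⟨?_, hint.integral_prod_right, ?_⟩
  · rw [← integral_integral_swap hint, intervalIntegral.integral_of_le hab]
    congr 1
    funext τ
    rw [Sharp.EG_shift]
  · rw [intervalIntegrable_iff_integrableOn_Ioc_of_le hab]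
    refine hint.integral_prod_left.congr (Filter.Eventually.of_forall fun τ => ?_)
    simp only
    rw [Sharp.EG_shift]

/-- Gaussian tails with weight `(1+|x|)^6`. -/
lemma tail6 {v : NNReal} {l a : ℝ} (hl : 0 < l) :
    ∫ x, Set.indicator {x : ℝ | a < |x|} (fun x => (1 + |x|) ^ 6) x ∂(gaussianReal 0 v) ≤
      1440 * (l⁻¹) ^ 6 * Real.exp (l - l * a + 2 * v * l ^ 2) := by
  have hpt : ∀ x : ℝ, Set.indicator {x : ℝ | a < |x|} (fun x => (1 + |x|) ^ 6) x ≤
      720 * (l⁻¹) ^ 6 * Real.exp (l - l * a) * Real.exp ((2 * l) * |x|) := by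
    intro x
    by_cases hx : x ∈ {x : ℝ | a < |x|}
    · rw [Set.indicator_of_mem hx]
      have hx' : a < |x| := hx
      have h2 := Real.pow_div_factorial_le_exp (l * (1 + |x|)) (by positivity) 6
      rw [div_le_iff₀ (by positivity), mul_pow] at h2
      have h3 : (1 + |x|) ^ 6 ≤ 720 * (l⁻¹) ^ 6 * Real.exp (l * (1 + |x|)) := by
        have h4 := mul_le_mul_of_nonneg_left h2 (show 0 ≤ (l⁻¹) ^ 6 by positivity)
        rw [← mul_assoc, ← mul_pow, inv_mul_cancel₀ hl.ne', one_pow, one_mul] at h4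
        have h5 : ((Nat.factorial 6 : ℕ) : ℝ) = 720 := by norm_num [Nat.factorial]
        rw [h5] at h4
        linarith
      have h5 : Real.exp (l * (1 + |x|)) ≤ Real.exp (l - l * a) * Real.exp ((2 * l) * |x|) := by
        rw [← Real.exp_add]
        apply Real.exp_le_exp.mpr
        have := mul_le_mul_of_nonneg_left hx'.le hl.le
        linarith
      calc (1 + |x|) ^ 6 ≤ 720 * (l⁻¹) ^ 6 * Real.exp (l * (1 + |x|)) := h3
        _ ≤ 720 * (l⁻¹) ^ 6 * (Real.exp (l - l * a) * Real.exp ((2 * l) * |x|)) := by gcongr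
        _ = _ := by ring
    · rw [Set.indicator_of_notMem hx]
      positivity
  have hint : Integrable (fun t : ℝ => Real.exp ((2 * l) * |t|)) (gaussianReal 0 v) := by
    refine ((integrable_exp_mul_gaussianReal (2 * l)).add
      (integrable_exp_mul_gaussianReal (-(2 * l)))).mono' (by fun_prop)
      (Filter.Eventually.of_forall fun t => ?_)
    rw [Real.norm_eq_abs, abs_of_pos (Real.exp_pos _)]
    simp only [Pi.add_apply]
    rcases abs_cases t with ⟨h, _⟩ | ⟨h, _⟩ <;> rw [h]
    · linarith [Real.exp_pos (-(2 * l) * t)]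
    · rw [mul_neg, neg_mul]; linarith [Real.exp_pos (2 * l * t)]
  calc ∫ x, Set.indicator {x : ℝ | a < |x|} (fun x => (1 + |x|) ^ 6) x ∂(gaussianReal 0 v)
      ≤ ∫ x : ℝ, 720 * (l⁻¹) ^ 6 * Real.exp (l - l * a) * Real.exp ((2 * l) * |x|)
          ∂(gaussianReal 0 v) := by
        apply integral_mono_of_nonneg
        · exact Filter.Eventually.of_forall fun t =>
            Set.indicator_nonneg (fun t _ => by positivity) t
        · exact hint.const_mul _
        · exact Filter.Eventually.of_forall hpt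
    _ = 720 * (l⁻¹) ^ 6 * Real.exp (l - l * a) *
          ∫ x : ℝ, Real.exp ((2 * l) * |x|) ∂(gaussianReal 0 v) := by
        rw [integral_const_mul]
    _ ≤ 720 * (l⁻¹) ^ 6 * Real.exp (l - l * a) *
          (2 * Real.exp ((2 * l) * |0| + v * (2 * l) ^ 2 / 2)) := by
        gcongr
        exact integral_exp_abs_le 0 v (by positivity)
    _ = 1440 * (l⁻¹) ^ 6 * (Real.exp (l - l * a) * Real.exp (2 * v * l ^ 2)) := by
        rw [abs_zero, mul_zero, zero_add, show (v : ℝ) * (2 * l) ^ 2 / 2 = 2 * v * l ^ 2 by ring]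
        ring
    _ = _ := by rw [← Real.exp_add]

lemma ev_exp {δ : ℝ} (hδ : 0 < δ) (K : ℝ) (hK : 0 < K) : ∀ᶠ T : ℝ in atTop,
    K * T ^ 19 ≤ Real.exp (T ^ (δ / 16 : ℝ)) := by
  have h1 : Tendsto (fun T : ℝ => T ^ (δ / 16 : ℝ)) atTop atTop :=
    tendsto_rpow_atTop (by positivity)
  have h2 : ∀ᶠ u : ℝ in atTop, K * u ^ (304 / δ : ℝ) ≤ Real.exp u := by
    have := (isLittleO_rpow_exp_pos_mul_atTop (304 / δ) one_pos).def (c := K⁻¹) (by positivity)
    filter_upwards [this, eventually_ge_atTop 0] with u hu hu0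
    rw [Real.norm_eq_abs, Real.norm_eq_abs, abs_of_nonneg (by positivity),
      abs_of_pos (Real.exp_pos _), one_mul] at hu
    have h3 := mul_le_mul_of_nonneg_left hu hK.le
    rwa [← mul_assoc, mul_inv_cancel₀ hK.ne', one_mul] at h3
  filter_upwards [h1.eventually h2, eventually_ge_atTop 1] with T hT hT1
  rw [← Real.rpow_mul (by linarith : (0 : ℝ) ≤ T)] at hT
  have e : δ / 16 * (304 / δ) = ((19 : ℕ) : ℝ) := by
    field_simp
    norm_num
  rwa [e, Real.rpow_natCast] at hT

end AL

open AL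

/-- (15) from Gaussian means to the mean over `[0, T]` -/
theorem stAvgLow : StAvgLow := by
  intro δ hδ hδ8
  have ev1 : ∀ᶠ T : ℝ in atTop, Real.log T ≤ T ^ (δ / 16 : ℝ) := by
    have h := (isLittleO_log_rpow_atTop (r := δ / 16) (by positivity)).def (c := 1) one_pos
    filter_upwards [h, eventually_ge_atTop 1] with T hT hT1
    rw [one_mul, Real.norm_eq_abs, Real.norm_eq_abs, abs_of_nonneg (Real.log_nonneg hT1),
      abs_of_nonneg (by positivity)] at hT
    exact hT
  have ev2 := ev_exp hδ (64 * 1440 * Real.exp 3) (by positivity)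
  have ev3 : ∀ᶠ T : ℝ in atTop, 4 ≤ Real.log T := Real.tendsto_log_atTop.eventually_ge_atTop 4
  obtain ⟨T₀, hT₀⟩ := eventually_atTop.mp (ev1.and (ev2.and ev3))
  refine ⟨2, max 3 T₀, by norm_num, le_max_left _ _, fun T hT F hF hF0 hFb D hD hDE => ?_⟩
  have hT3 : 3 ≤ T := (le_max_left _ _).trans hT
  obtain ⟨h1, h2, h3⟩ := hT₀ T ((le_max_right _ _).trans hT)
  have hT0 : 0 < T := by linarith
  have hL : 0 < Real.log T := by linarith
  set a : ℝ := T / Real.log T with ha
  have ha0 : 0 < a := by positivity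
  have haT : a ≤ T / 4 := by
    rw [ha]
    exact div_le_div_of_nonneg_left hT0.le (by norm_num) h3
  set γ := gaussianReal 0 (VV (Td δ T)) with hγ
  set y : ℝ := T ^ (δ / 16 : ℝ) with hy
  have hy1 : 1 ≤ y := Real.one_le_rpow (by linarith) (by positivity)
  have hy0 : 0 < y := by linarith
  have hyT : y ^ 2 ≤ T := by
    rw [hy, ← Real.rpow_natCast, ← Real.rpow_mul hT0.le]
    calc T ^ (δ / 16 * ((2 : ℕ) : ℝ)) ≤ T ^ (1 : ℝ) := by
          apply Real.rpow_le_rpow_of_exponent_le (by linarith)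
          push_cast
          linarith
      _ = T := Real.rpow_one T
  have hV : ((VV (Td δ T) : NNReal) : ℝ) = T ^ 2 / y ^ 8 := by
    rw [VV_Td hT0, eq_div_iff (by positivity), hy, ← Real.rpow_natCast, ← Real.rpow_natCast,
      ← Real.rpow_mul hT0.le, ← Real.rpow_add hT0]
    congr 1
    push_cast
    ring
  -- the tail
  set q : ℝ := ∫ x, Set.indicator {x : ℝ | a < |x|} (fun x => (1 + |x|) ^ 6) x ∂γ with hq
  have hqi : Integrable (Set.indicator {x : ℝ | a < |x|} (fun x => (1 + |x|) ^ 6)) γ :=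
    (integrable_one_add_abs_pow 0 _ 6).indicator (measurableSet_lt measurable_const measurable_id.abs)
  have hq1 : T ^ 7 * (1 + T) ^ 6 * q ≤ 1 := by
    have hl : 0 < y ^ 2 / T := by positivity
    have h4 : q ≤ 1440 * ((y ^ 2 / T)⁻¹) ^ 6 * Real.exp (y ^ 2 / T - y ^ 2 / T * a +
        2 * ((VV (Td δ T) : NNReal) : ℝ) * (y ^ 2 / T) ^ 2) := tail6 hl
    have h5 : ((y ^ 2 / T)⁻¹) ^ 6 ≤ T ^ 6 := by
      have : (y ^ 2 / T)⁻¹ ≤ T := by
        rw [inv_div]
        exact div_le_self hT0.le (one_le_pow₀ hy1)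
      gcongr
    have h6 : y ^ 2 / T ≤ 1 := by rw [div_le_one hT0]; exact hyT
    have h7 : y ≤ y ^ 2 / T * a := by
      rw [ha, div_mul_div_comm, le_div_iff₀ (by positivity)]
      calc y * (T * Real.log T) = y * Real.log T * T := by ring
        _ ≤ y * y * T := by gcongr
        _ = y ^ 2 * T := by ring
    have h8 : 2 * ((VV (Td δ T) : NNReal) : ℝ) * (y ^ 2 / T) ^ 2 ≤ 2 := by
      rw [hV]
      have : 2 * (T ^ 2 / y ^ 8) * (y ^ 2 / T) ^ 2 = 2 * (1 / y ^ 4) := by
        field_simp
      rw [this]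
      have : 1 / y ^ 4 ≤ 1 := by
        rw [div_le_one (by positivity)]; exact one_le_pow₀ hy1
      linarith
    have h9 : q ≤ 1440 * T ^ 6 * (Real.exp 3 * Real.exp (-y)) := by
      refine h4.trans ?_
      rw [← Real.exp_add]
      exact mul_le_mul (by gcongr) (Real.exp_le_exp.2 (by linarith)) (Real.exp_pos _).le
        (by positivity)
    have h10 : (1 + T) ^ 6 ≤ 64 * T ^ 6 := by
      calc (1 + T) ^ 6 ≤ (2 * T) ^ 6 := by gcongr; linarith
        _ = _ := by ring
    calc T ^ 7 * (1 + T) ^ 6 * q ≤ T ^ 7 * (64 * T ^ 6) *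
          (1440 * T ^ 6 * (Real.exp 3 * Real.exp (-y))) := by
          gcongr
          exact integral_nonneg fun x => Set.indicator_nonneg (fun t _ => by positivity) x
      _ = (64 * 1440 * Real.exp 3 * T ^ 19) * Real.exp (-y) := by ring
      _ ≤ Real.exp y * Real.exp (-y) := by gcongr
      _ = 1 := by rw [← Real.exp_add]; simp
  have hFa : ∀ t, |F t| ≤ T ^ 6 * (1 + |t|) ^ 6 := fun t => by
    rw [abs_of_nonneg (hF0 t)]; exact hFb t
  have haT' : a ≤ T - a := by linarith
  obtain ⟨e1, j1, j2⟩ := average6 (Td δ T) hF hFa haT'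
  have hFi : ∀ u v : ℝ, IntervalIntegrable F volume u v := fun u v => hF.intervalIntegrable u v
  set A : ℝ := ∫ t in (0 : ℝ)..T, F t with hA
  -- lower bound
  have s1 : (T - 2 * a) * D ≤ ∫ τ in a..(T - a), EG (Td δ T) τ F := by
    have h4 : ∫ _ in a..(T - a), D ≤ ∫ τ in a..(T - a), EG (Td δ T) τ F := by
      refine intervalIntegral.integral_mono_on haT' (by simp) j2 fun τ hτ => ?_
      have h0 : 0 ≤ τ := by linarith [hτ.1]
      apply hDE τ
      · rw [abs_of_nonneg h0]; exact hτ.1
      · rw [abs_of_nonneg h0]; linarith [hτ.2]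
    rw [intervalIntegral.integral_const, smul_eq_mul] at h4
    linarith
  have s2 : ∀ x : ℝ, (∫ t in (x + a)..(x + (T - a)), F t) ≤
      A + T ^ 7 * (1 + T) ^ 6 * Set.indicator {x : ℝ | a < |x|} (fun x => (1 + |x|) ^ 6) x := by
    intro x
    by_cases hx : a < |x|
    · rw [Set.indicator_of_mem (show x ∈ {x : ℝ | a < |x|} from hx) _]
      have hA0 : 0 ≤ A := intervalIntegral.integral_nonneg hT0.le fun t _ => hF0 t
      have h8 := intervalIntegral.norm_integral_le_of_norm_le_const (a := x + a)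
        (b := x + (T - a)) (f := F) (C := T ^ 6 * ((1 + T) * (1 + |x|)) ^ 6) (fun t ht => by
          rw [Set.uIoc_of_le (by linarith)] at ht
          rw [Real.norm_eq_abs]
          refine (hFa t).trans ?_
          have h10 : |t| ≤ |x| + T := by
            rw [abs_le]
            constructor
            · linarith [ht.1, neg_abs_le x]
            · linarith [ht.2, le_abs_self x]
          have h11 : 1 + |t| ≤ (1 + T) * (1 + |x|) := by
            nlinarith [mul_nonneg hT0.le (abs_nonneg x)]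
          gcongr)
      rw [abs_of_nonneg (by linarith : 0 ≤ x + (T - a) - (x + a))] at h8
      have h9 : T ^ 6 * ((1 + T) * (1 + |x|)) ^ 6 * (x + (T - a) - (x + a)) ≤
          T ^ 6 * ((1 + T) * (1 + |x|)) ^ 6 * T := by
        gcongr
        linarith
      calc (∫ t in (x + a)..(x + (T - a)), F t)
          ≤ T ^ 6 * ((1 + T) * (1 + |x|)) ^ 6 * T := (le_abs_self _).trans (h8.trans h9)
        _ = T ^ 7 * (1 + T) ^ 6 * (1 + |x|) ^ 6 := by ring
        _ ≤ _ := by linarith
    · rw [Set.indicator_of_notMem (show x ∉ {x : ℝ | a < |x|} from hx) _, mul_zero, add_zero]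
      push Not at hx
      have h9 := abs_le.mp hx
      exact intervalIntegral.integral_mono_interval (by linarith) (by linarith) (by linarith)
        (Filter.Eventually.of_forall fun t => hF0 t) (hFi _ _)
  have s3 : ∫ x, (∫ t in (x + a)..(x + (T - a)), F t) ∂γ ≤ A + 1 := by
    calc ∫ x, (∫ t in (x + a)..(x + (T - a)), F t) ∂γ
        ≤ ∫ x, (A + T ^ 7 * (1 + T) ^ 6 *
          Set.indicator {x : ℝ | a < |x|} (fun x => (1 + |x|) ^ 6) x) ∂γ :=
          integral_mono j1 ((integrable_const _).add (hqi.const_mul _)) s2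
      _ = A + T ^ 7 * (1 + T) ^ 6 * q := by
          rw [integral_add (integrable_const _) (hqi.const_mul _), integral_const_mul]
          simp only [integral_const, probReal_univ, smul_eq_mul, one_mul]
          rfl
      _ ≤ A + 1 := by linarith
  have s4 : (T - 2 * a) * D ≤ A + 1 := by
    rw [e1] at s1
    exact s1.trans s3
  calc (1 - 2 / Real.log T) * D = T⁻¹ * ((T - 2 * a) * D) := by
        rw [ha]; field_simp
    _ ≤ T⁻¹ * (A + 1) := by gcongr
    _ = T⁻¹ * A + 1 / T := by ring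

end K3
end Pool.Agent.Lib.MP_973905_nt
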