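import Pool.Agent.Lib.MP_973905_nt.K3.Stmts

/-! Module (18): the Keating-Snaith constant is continuous at `k = 2` and `c_2 = 1 / (2 π²)`. -/

namespace Pool.Agent.Lib.MP_973905_nt
namespace K3.CK2

open MeasureTheory ProbabilityTheory Filter Topology
open Pool.Agent.Lib.MP_973905_nt.CK

/-! ### The Barnes function -/

lemma tendsto_one_sub : Tendsto (fun k : ℝ => 1 - k) (𝓝[<] 1) (𝓝[>] 0) := by
  rw [tendsto_nhdsWithin_iff]
  constructor
  · have : Tendsto (fun k : ℝ => 1 - k) (𝓝 1) (𝓝 (1 - 1)) := by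
      exact (continuous_const.sub continuous_id).tendsto 1
    rw [sub_self] at this
    exact this.mono_left nhdsWithin_le_nhds
  · filter_upwards [self_mem_nhdsWithin] with k hk
    simpa using hk

lemma tendsto_sub_one : Tendsto (fun k : ℝ => k - 1) (𝓝[>] 1) (𝓝[>] 0) := by
  rw [tendsto_nhdsWithin_iff]
  constructor
  · have : Tendsto (fun k : ℝ => k - 1) (𝓝 1) (𝓝 (1 - 1)) := by
      exact (continuous_id.sub continuous_const).tendsto 1
    rw [sub_self] at this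
    exact this.mono_left nhdsWithin_le_nhds
  · filter_upwards [self_mem_nhdsWithin] with k hk
    simpa using hk

lemma contGamma {x : ℝ} (hx : 0 < x) : ContinuousAt Real.Gamma x := by
  apply DifferentiableAt.continuousAt (𝕜 := ℝ)
  apply Real.differentiableAt_Gamma
  intro m h
  have : (0 : ℝ) ≤ m := by positivity
  linarith

lemma contG1 : ContinuousAt barnesG 1 := by
  rw [continuousAt_iff_continuous_left'_right']
  constructor
  · have h1 := (barnesG_tendsto (-1)).comp tendsto_one_sub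
    change Tendsto barnesG (𝓝[<] 1) (𝓝 (barnesG 1))
    rw [barnesG_one]
    refine h1.congr fun k => ?_
    simp only [Function.comp]
    congr 1
    ring
  · have h1 := (barnesG_tendsto 1).comp tendsto_sub_one
    change Tendsto barnesG (𝓝[>] 1) (𝓝 (barnesG 1))
    rw [barnesG_one]
    refine h1.congr fun k => ?_
    simp only [Function.comp]
    congr 1
    ring

lemma contG_step {x : ℝ} (hx : 0 < x) (h : ContinuousAt barnesG x) :
    ContinuousAt barnesG (x + 1) := by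
  have h0 : ContinuousAt (fun y : ℝ => y - 1) (x + 1) := by fun_prop
  have e : x + 1 - 1 = x := by ring
  have h1 : ContinuousAt (fun y : ℝ => Real.Gamma (y - 1)) (x + 1) :=
    ContinuousAt.comp (f := fun y : ℝ => y - 1) (g := Real.Gamma) (by rw [e]; exact contGamma hx) h0
  have h2 : ContinuousAt (fun y : ℝ => barnesG (y - 1)) (x + 1) :=
    ContinuousAt.comp (f := fun y : ℝ => y - 1) (g := barnesG) (by rw [e]; exact h) h0
  refine (h1.mul h2).congr ?_
  have hpos : ∀ᶠ y : ℝ in 𝓝 (x + 1), 1 < y := lt_mem_nhds (by linarith)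
  filter_upwards [hpos] with y hy
  have h3 := barnesG_add_one (show 0 < y - 1 by linarith)
  rw [sub_add_cancel] at h3
  exact h3.symm

lemma G2 : barnesG 2 = 1 := by
  have h := barnesG_add_one one_pos
  rw [Real.Gamma_one, barnesG_one] at h
  norm_num at h
  exact h

lemma G3 : barnesG 3 = 1 := by
  have h := barnesG_add_one two_pos
  rw [Real.Gamma_two, G2] at h
  norm_num at h
  exact h

lemma G4 : barnesG 4 = 2 := by
  have h := barnesG_add_one three_pos
  have e : Real.Gamma 3 = 2 := by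
    have h2 := Real.Gamma_nat_eq_factorial 2
    rw [show ((2 : ℕ) : ℝ) + 1 = 3 by norm_num] at h2
    rw [h2]
    norm_num [Nat.factorial]
  rw [e, G3] at h
  norm_num at h
  exact h

lemma G5 : barnesG 5 = 12 := by
  have h := barnesG_add_one four_pos
  have e : Real.Gamma 4 = 6 := by
    have h2 := Real.Gamma_nat_eq_factorial 3
    rw [show ((3 : ℕ) : ℝ) + 1 = 4 by norm_num] at h2
    rw [h2]
    norm_num [Nat.factorial]
  rw [e, G4] at h
  norm_num at h
  exact h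

lemma contG2 : ContinuousAt barnesG 2 := by
  have := contG_step one_pos contG1
  norm_num at this
  exact this

lemma contG3 : ContinuousAt barnesG 3 := by
  have := contG_step two_pos contG2
  norm_num at this
  exact this

lemma contG4 : ContinuousAt barnesG 4 := by
  have := contG_step three_pos contG3
  norm_num at this
  exact this

lemma contG5 : ContinuousAt barnesG 5 := by
  have := contG_step four_pos contG4
  norm_num at this
  exact this

lemma barnes_one : Tendsto (fun k : ℝ => barnesG (k + 1)) (𝓝 2) (𝓝 1) := by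
  have h : ContinuousAt (fun k : ℝ => barnesG (k + 1)) 2 :=
    ContinuousAt.comp (f := fun k : ℝ => k + 1) (g := barnesG)
      (by norm_num; exact contG3) (by fun_prop)
  have h2 := h.tendsto
  norm_num [G3] at h2
  exact h2

lemma barnes_two : Tendsto (fun k : ℝ => barnesG (2 * k + 1)) (𝓝 2) (𝓝 12) := by
  have h : ContinuousAt (fun k : ℝ => barnesG (2 * k + 1)) 2 :=
    ContinuousAt.comp (f := fun k : ℝ => 2 * k + 1) (g := barnesG)
      (by norm_num; exact contG5) (by fun_prop)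
  have h2 := h.tendsto
  norm_num [G5] at h2
  exact h2

/-! ### The arithmetic factor -/

lemma bc_two (m : ℕ) : bc 2 m = m + 1 := by
  have h1 : (2 : ℝ) + m = ((m + 1 : ℕ) : ℝ) + 1 := by push_cast; ring
  rw [bc, h1, Real.Gamma_nat_eq_factorial, Real.Gamma_two, one_mul, Nat.factorial_succ]
  have h4 : (m.factorial : ℝ) ≠ 0 := by exact_mod_cast m.factorial_ne_zero
  push_cast
  field_simp

lemma bc_cont {k : ℝ} (hk : 0 < k) (m : ℕ) : ContinuousAt (fun k : ℝ => bc k m) k := by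
  unfold bc
  have ha : ContinuousAt (fun k : ℝ => Real.Gamma (k + m)) k := by
    have : ContinuousAt Real.Gamma (k + m) := contGamma (by positivity)
    exact ContinuousAt.comp (f := fun k : ℝ => k + m) this (by fun_prop)
  have hb : ContinuousAt Real.Gamma k := contGamma hk
  refine ha.div (hb.mul continuousAt_const) ?_
  have h1 := (Real.Gamma_pos_of_pos hk).ne'
  have h4 : (m.factorial : ℝ) ≠ 0 := by exact_mod_cast m.factorial_ne_zero
  exact mul_ne_zero h1 h4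

lemma bc_le3 {k : ℝ} (hk : 0 < k) (hk3 : k ≤ 3) (m : ℕ) :
    bc k m ≤ (m + 1) * (m + 2) / 2 := by
  induction m with
  | zero => rw [bc_zero hk]; norm_num
  | succ m ih =>
    rw [bc_succ hk]
    have hm : (0 : ℝ) < m + 1 := by positivity
    have h1 : (k + m) / ((m : ℝ) + 1) ≤ (m + 3) / (m + 1) := by
      apply div_le_div_of_nonneg_right _ hm.le
      linarith
    have h0 : 0 ≤ (k + m) / ((m : ℝ) + 1) := by positivity
    calc bc k m * ((k + m) / ((m : ℝ) + 1)) ≤ ((m + 1) * (m + 2) / 2) * ((m + 3) / (m + 1)) :=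
          mul_le_mul ih h1 h0 (by positivity)
      _ = (m + 2) * (m + 3) / 2 := by field_simp
      _ = (((m + 1 : ℕ) : ℝ) + 1) * (((m + 1 : ℕ) : ℝ) + 2) / 2 := by push_cast; ring

lemma bc_sq_le {k : ℝ} (hk : 0 < k) (hk3 : k ≤ 3) (m : ℕ) : bc k m ^ 2 ≤ ((m : ℝ) + 2) ^ 4 := by
  have h1 : bc k m ≤ ((m : ℝ) + 2) ^ 2 := by
    refine (bc_le3 hk hk3 m).trans ?_
    have : (0 : ℝ) ≤ m := by positivity
    nlinarith
  calc bc k m ^ 2 ≤ (((m : ℝ) + 2) ^ 2) ^ 2 := pow_le_pow_left₀ (bc_pos hk m).le h1 2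
    _ = _ := by ring

lemma summable_p4 {x : ℝ} (hx0 : 0 ≤ x) (hx : x < 1) (a : ℝ) :
    Summable fun m : ℕ => ((m : ℝ) + a) ^ 4 * x ^ m := by
  have hn : ‖x‖ < 1 := by rwa [Real.norm_eq_abs, abs_of_nonneg hx0]
  have h4 := summable_pow_mul_geometric_of_norm_lt_one 4 hn
  have h3 := summable_pow_mul_geometric_of_norm_lt_one 3 hn
  have h2 := summable_pow_mul_geometric_of_norm_lt_one 2 hn
  have h1 := summable_pow_mul_geometric_of_norm_lt_one 1 hn
  have h0 := summable_geometric_of_lt_one hx0 hx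
  refine ((((h4.add (h3.mul_left (4 * a))).add (h2.mul_left (6 * a ^ 2))).add
    (h1.mul_left (4 * a ^ 3))).add (h0.mul_left (a ^ 4))).congr fun m => ?_
  ring

lemma summable_Fk3 {k x : ℝ} (hk : 0 < k) (hk3 : k ≤ 3) (hx0 : 0 ≤ x) (hx : x < 1) :
    Summable fun m : ℕ => bc k m ^ 2 * x ^ m := by
  refine Summable.of_nonneg_of_le (fun m => by positivity) (fun m => ?_) (summable_p4 hx0 hx 2)
  exact mul_le_mul_of_nonneg_right (bc_sq_le hk hk3 m) (by positivity)

/-- The constant of the quadratic remainder. -/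
noncomputable def C0 : ℝ := ∑' m : ℕ, ((m : ℝ) + 4) ^ 4 * (1 / 2) ^ m

lemma C0_nonneg : 0 ≤ C0 := tsum_nonneg fun m => by positivity

lemma Fk_bounds3 {k x : ℝ} (hk : 0 < k) (hk3 : k ≤ 3) (hx0 : 0 ≤ x) (hx : x ≤ 1 / 2) :
    1 + k ^ 2 * x ≤ Fk k x ∧ Fk k x ≤ 1 + k ^ 2 * x + C0 * x ^ 2 := by
  have hs := summable_Fk3 hk hk3 hx0 (by linarith : x < 1)
  constructor
  · have h := hs.sum_le_tsum (Finset.range 2) (fun m _ => by positivity)
    simp only [Finset.sum_range_succ, Finset.sum_range_zero] at h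
    rw [show (1 : ℕ) = 0 + 1 by rfl, bc_succ hk, bc_zero hk] at h
    simpa [Fk] using h
  · have e := hs.sum_add_tsum_nat_add 2
    simp only [Finset.sum_range_succ, Finset.sum_range_zero] at e
    rw [show (1 : ℕ) = 0 + 1 by rfl, bc_succ hk, bc_zero hk] at e
    have hs' : Summable fun m : ℕ => bc k (m + 2) ^ 2 * x ^ (m + 2) :=
      (summable_nat_add_iff 2).mpr hs
    have h2 : ∑' m : ℕ, bc k (m + 2) ^ 2 * x ^ (m + 2) ≤
        ∑' m : ℕ, x ^ 2 * (((m : ℝ) + 4) ^ 4 * (1 / 2) ^ m) := by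
      refine hs'.tsum_le_tsum (fun m => ?_)
        ((summable_p4 (by norm_num) (by norm_num) 4).mul_left _)
      have h3 : bc k (m + 2) ^ 2 ≤ ((m : ℝ) + 4) ^ 4 := by
        refine (bc_sq_le hk hk3 (m + 2)).trans (le_of_eq ?_)
        push_cast
        ring
      have h4 : x ^ m ≤ (1 / 2) ^ m := pow_le_pow_left₀ hx0 hx m
      calc bc k (m + 2) ^ 2 * x ^ (m + 2) = bc k (m + 2) ^ 2 * (x ^ 2 * x ^ m) := by ring
        _ ≤ ((m : ℝ) + 4) ^ 4 * (x ^ 2 * (1 / 2) ^ m) := by gcongr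
        _ = _ := by ring
    rw [tsum_mul_left] at h2
    have h5 : Fk k x = ∑' m : ℕ, bc k m ^ 2 * x ^ m := rfl
    rw [h5, ← e, C0]
    have h6 : (0 : ℝ) + 1 ^ 2 * x ^ 0 + (1 * ((k + ((0 : ℕ) : ℝ)) / (((0 : ℕ) : ℝ) + 1))) ^ 2 *
        x ^ (0 + 1) = 1 + k ^ 2 * x := by
      simp
    rw [h6]
    linarith

lemma lf_pos3 {k x : ℝ} (hk : 0 < k) (hk3 : k ≤ 3) (hx0 : 0 ≤ x) (hx : x ≤ 1 / 2) : 0 < lf k x := by
  have h1 := (Fk_bounds3 hk hk3 hx0 hx).1
  have h2 : 0 < Fk k x := by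
    have : 0 ≤ k ^ 2 * x := by positivity
    linarith
  have h3 : 0 < 1 - x := by linarith
  unfold lf
  positivity

lemma abs_log_lf3 {k x : ℝ} (hk : 0 < k) (hk3 : k ≤ 3) (hx0 : 0 ≤ x) (hx : x ≤ 1 / 2) :
    |Real.log (lf k x)| ≤ (C0 + 99) * x ^ 2 := by
  obtain ⟨h1, h2⟩ := Fk_bounds3 hk hk3 hx0 hx
  have hk2 : k ^ 2 ≤ 9 := by nlinarith
  have hkx : 0 ≤ k ^ 2 * x := by positivity
  have hF : 0 < Fk k x := by linarith
  have h3 : 0 < 1 - x := by linarith
  have hx2 : 0 ≤ x ^ 2 := by positivity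
  have hk20 : 0 ≤ k ^ 2 := by positivity
  have hC : 0 ≤ C0 * x ^ 2 := mul_nonneg C0_nonneg hx2
  have e : Real.log (lf k x) = k ^ 2 * Real.log (1 - x) + Real.log (Fk k x) := by
    rw [lf, Real.log_mul (by positivity) hF.ne', Real.log_rpow h3]
  -- bounds for `log (1 - x)`
  have h4 : Real.log (1 - x) ≤ -x := by
    have := Real.log_le_sub_one_of_pos h3; linarith
  have h7 : x / (1 - x) ≤ x + 2 * x ^ 2 := by
    rw [div_le_iff₀ h3]
    nlinarith [mul_nonneg hx2 (by linarith : (0 : ℝ) ≤ 1 - 2 * x)]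
  have h5 : -x - 2 * x ^ 2 ≤ Real.log (1 - x) := by
    have h8 := Real.one_sub_inv_le_log_of_pos h3
    have h9 : 1 - (1 - x)⁻¹ = -(x / (1 - x)) := by field_simp; ring
    rw [h9] at h8
    linarith
  -- bounds for `log F`
  have h10 : Real.log (Fk k x) ≤ k ^ 2 * x + C0 * x ^ 2 := by
    have h11 := Real.log_le_sub_one_of_pos hF
    linarith
  have h13 : k ^ 2 * x - 81 * x ^ 2 ≤ Real.log (Fk k x) := by
    have h14 : Real.log (1 + k ^ 2 * x) ≤ Real.log (Fk k x) := Real.log_le_log (by linarith) h1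
    have h15 := Real.one_sub_inv_le_log_of_pos (show 0 < 1 + k ^ 2 * x by linarith)
    have h16 : k ^ 2 * x - (k ^ 2 * x) ^ 2 ≤ 1 - (1 + k ^ 2 * x)⁻¹ := by
      have h17 : 1 - (1 + k ^ 2 * x)⁻¹ = (k ^ 2 * x) / (1 + k ^ 2 * x) := by
        have : (1 + k ^ 2 * x) ≠ 0 := by linarith
        field_simp; ring
      rw [h17, le_div_iff₀ (by linarith)]
      have : 0 ≤ (k ^ 2 * x) ^ 3 := by positivity
      nlinarith
    have h18 : (k ^ 2 * x) ^ 2 ≤ 81 * x ^ 2 := by
      have : (k ^ 2) ^ 2 ≤ 81 := by nlinarith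
      calc (k ^ 2 * x) ^ 2 = (k ^ 2) ^ 2 * x ^ 2 := by ring
        _ ≤ 81 * x ^ 2 := mul_le_mul_of_nonneg_right this hx2
    linarith
  rw [e, abs_le]
  have h19 := mul_le_mul_of_nonneg_left h4 hk20
  have h20 := mul_le_mul_of_nonneg_left h5 hk20
  have h21 : k ^ 2 * (2 * x ^ 2) ≤ 9 * (2 * x ^ 2) := mul_le_mul_of_nonneg_right hk2 (by positivity)
  constructor
  · nlinarith
  · nlinarith

lemma summable_log_lf3 {k : ℝ} (hk : 0 < k) (hk3 : k ≤ 3) :
    Summable fun p : Nat.Primes => Real.log (lf k (((p : ℕ) : ℝ)⁻¹)) := by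
  refine Summable.of_norm_bounded (g := fun p : Nat.Primes => (C0 + 99) * (((p : ℕ) : ℝ)⁻¹) ^ 2)
    (summable_prime_sq.mul_left _) fun p => ?_
  rw [Real.norm_eq_abs]
  exact abs_log_lf3 hk hk3 (prime_inv p).1 (prime_inv p).2

lemma aK_exp3 {k : ℝ} (hk : 0 < k) (hk3 : k ≤ 3) :
    aK k = Real.exp (∑' p : Nat.Primes, Real.log (lf k (((p : ℕ) : ℝ)⁻¹))) := by
  rw [aK_eq]
  refine (Real.rexp_tsum_eq_tprod (fun p => ?_) (summable_log_lf3 hk hk3)).symm
  exact lf_pos3 hk hk3 (prime_inv p).1 (prime_inv p).2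

lemma ev_pos : ∀ᶠ k : ℝ in 𝓝 2, 0 < k ∧ k ≤ 3 := by
  filter_upwards [lt_mem_nhds (show (0 : ℝ) < 2 by norm_num),
    gt_mem_nhds (show (2 : ℝ) < 3 by norm_num)] with k h1 h2
  exact ⟨h1, h2.le⟩

lemma Fk_tendsto {x : ℝ} (hx0 : 0 ≤ x) (hx : x < 1) :
    Tendsto (fun k : ℝ => Fk k x) (𝓝 2) (𝓝 (Fk 2 x)) := by
  refine tendsto_tsum_of_dominated_convergence (bound := fun m : ℕ => ((m : ℝ) + 2) ^ 4 * x ^ m)
    (summable_p4 hx0 hx 2) (fun m => ?_) ?_
  · exact ((bc_cont two_pos m).tendsto.pow 2).mul_const (x ^ m)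
  · filter_upwards [ev_pos] with k hk m
    have h3 : 0 ≤ bc k m ^ 2 * x ^ m := by positivity
    rw [Real.norm_eq_abs, abs_of_nonneg h3]
    exact mul_le_mul_of_nonneg_right (bc_sq_le hk.1 hk.2 m) (by positivity)

lemma Fk_two {x : ℝ} (hx0 : 0 ≤ x) (hx : x < 1) : Fk 2 x = (1 + x) / (1 - x) ^ 3 := by
  have hn : ‖x‖ < 1 := by rwa [Real.norm_eq_abs, abs_of_nonneg hx0]
  have h2 := hasSum_choose_mul_geometric_of_norm_lt_one 2 hn
  have h1 := hasSum_choose_mul_geometric_of_norm_lt_one 1 hn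
  have h3 : 0 < 1 - x := by linarith
  have h4 := (h2.mul_left 2).sub h1
  have h5 : HasSum (fun m : ℕ => bc 2 m ^ 2 * x ^ m) (2 * (1 / (1 - x) ^ (2 + 1)) -
      1 / (1 - x) ^ (1 + 1)) := by
    refine h4.congr_fun ?_
    intro m
    rw [bc_two, Nat.choose_one_right]
    have h6 : ((m + 2).choose 2 : ℝ) = ((m : ℝ) + 2) * (m + 1) / 2 := by
      rw [Nat.cast_choose_two]
      push_cast
      ring
    rw [h6]
    push_cast
    ring
  have h7 : Fk 2 x = ∑' m : ℕ, bc 2 m ^ 2 * x ^ m := rfl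
  rw [h7, h5.tsum_eq]
  field_simp
  ring

lemma lf_two {x : ℝ} (hx0 : 0 ≤ x) (hx : x < 1) : lf 2 x = 1 - x ^ 2 := by
  have h3 : 0 < 1 - x := by linarith
  have e : (1 - x) ^ ((2 : ℝ) ^ 2) = (1 - x) ^ 4 := by
    rw [show (2 : ℝ) ^ 2 = ((4 : ℕ) : ℝ) by norm_num, Real.rpow_natCast]
  rw [lf, Fk_two hx0 hx, e]
  field_simp
  ring

lemma lf_tendsto {x : ℝ} (hx0 : 0 ≤ x) (hx : x < 1) :
    Tendsto (fun k : ℝ => lf k x) (𝓝 2) (𝓝 (lf 2 x)) := by
  have hc : Continuous (fun k : ℝ => (1 - x) ^ (k ^ 2)) :=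
    continuous_const.rpow (continuous_id.pow 2) fun z => Or.inl (by
      have : 0 < 1 - x := by linarith
      exact this.ne')
  exact (hc.tendsto 2).mul (Fk_tendsto hx0 hx)

lemma aK_tendsto : Tendsto aK (𝓝 2) (𝓝 (aK 2)) := by
  have hlog : Tendsto (fun k : ℝ => ∑' p : Nat.Primes, Real.log (lf k (((p : ℕ) : ℝ)⁻¹)))
      (𝓝 2) (𝓝 (∑' p : Nat.Primes, Real.log (lf 2 (((p : ℕ) : ℝ)⁻¹)))) := by
    refine tendsto_tsum_of_dominated_convergence (bound := fun p : Nat.Primes =>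
      (C0 + 99) * (((p : ℕ) : ℝ)⁻¹) ^ 2) (summable_prime_sq.mul_left _) (fun p => ?_) ?_
    · have h1 := lf_tendsto (prime_inv p).1 (lt_of_le_of_lt (prime_inv p).2 (by norm_num))
      exact h1.log (lf_pos3 two_pos (by norm_num) (prime_inv p).1 (prime_inv p).2).ne'
    · filter_upwards [ev_pos] with k hk p
      rw [Real.norm_eq_abs]
      exact abs_log_lf3 hk.1 hk.2 (prime_inv p).1 (prime_inv p).2
  have h3 := (Real.continuous_exp.tendsto _).comp hlog
  rw [← aK_exp3 two_pos (by norm_num)] at h3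
  refine h3.congr' ?_
  filter_upwards [ev_pos] with k hk
  rw [aK_exp3 hk.1 hk.2]
  rfl

lemma aK_two : aK 2 = 6 / Real.pi ^ 2 := by
  have h1 := riemannZeta_eulerProduct_hasProd (s := 2) (by norm_num)
  rw [riemannZeta_two] at h1
  have h2 : HasProd (fun p : Nat.Primes => lf 2 (((p : ℕ) : ℝ)⁻¹)) (6 / Real.pi ^ 2) := by
    have h3 : Tendsto (fun s : Finset Nat.Primes => (∏ p ∈ s, (1 - ((p : ℕ) : ℂ) ^ (-(2 : ℂ)))⁻¹)⁻¹)
        atTop (𝓝 ((Real.pi : ℂ) ^ 2 / 6)⁻¹) := by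
      refine Tendsto.inv₀ h1 ?_
      have : (Real.pi : ℂ) ≠ 0 := by exact_mod_cast Real.pi_ne_zero
      exact div_ne_zero (pow_ne_zero _ this) (by norm_num)
    have h4 := (Complex.continuous_re.tendsto _).comp h3
    have h5 : (((Real.pi : ℂ) ^ 2 / 6)⁻¹).re = 6 / Real.pi ^ 2 := by
      have : ((Real.pi : ℂ) ^ 2 / 6)⁻¹ = ((6 / Real.pi ^ 2 : ℝ) : ℂ) := by
        push_cast
        rw [inv_div]
      rw [this, Complex.ofReal_re]
    rw [h5] at h4
    refine h4.congr fun s => ?_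
    simp only [Function.comp]
    have h6 : (∏ p ∈ s, (1 - ((p : ℕ) : ℂ) ^ (-(2 : ℂ)))⁻¹)⁻¹ =
        ((∏ p ∈ s, lf 2 (((p : ℕ) : ℝ)⁻¹) : ℝ) : ℂ) := by
      rw [Finset.prod_inv_distrib, inv_inv, Complex.ofReal_prod]
      refine Finset.prod_congr rfl fun p _ => ?_
      rw [lf_two (prime_inv p).1 (lt_of_le_of_lt (prime_inv p).2 (by norm_num))]
      push_cast
      congr 1
      rw [Complex.cpow_neg, inv_pow]
      congr 1
      norm_cast
    rw [h6, Complex.ofReal_re]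
  rw [aK_eq, h2.tprod_eq]

end K3.CK2

namespace K3

open CK2 Filter Topology

/-- (18) the Keating-Snaith constant at `2` -/
theorem stCK2 : StCK2 := by
  have h1 := aK_tendsto
  rw [aK_two] at h1
  have h3 := (h1.mul (barnes_one.pow 2)).div barnes_two (by norm_num)
  have e : 6 / Real.pi ^ 2 * 1 ^ 2 / 12 = 1 / (2 * Real.pi ^ 2) := by
    have : Real.pi ≠ 0 := Real.pi_ne_zero
    field_simp
    norm_num
  rw [e] at h3
  exact h3

end K3
end Pool.Agent.Lib.MP_973905_nt
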