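import Pool.Agent.Lib.MP_973905_nt.K1.Cross
import Pool.Agent.Lib.MP_973905_nt.K1.Shift
import Pool.Agent.Lib.MP_973905_nt.K3.AvgLow
import Pool.Agent.Lib.MP_973905_nt.K3.DivSum

/-! Module (3) of K3: the dual term is negligible. -/

namespace Pool.Agent.Lib.MP_973905_nt
namespace K3

open MeasureTheory ProbabilityTheory Complex Filter Topology K1

namespace Cross2

lemma Pd_nonneg (δ x : ℝ) : 0 ≤ Pd δ x :=
  mul_nonneg (Real.smoothTransition.nonneg _) (Real.smoothTransition.nonneg _)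

lemma Pd_le_one (δ x : ℝ) : Pd δ x ≤ 1 :=
  mul_le_one₀ (Real.smoothTransition.le_one _) (Real.smoothTransition.nonneg _)
    (Real.smoothTransition.le_one _)

lemma dv_nonneg (n : ℕ) : 0 ≤ dv n := Nat.cast_nonneg _

lemma dv_le (n : ℕ) : dv n ≤ n := by
  unfold dv
  exact_mod_cast Nat.card_divisors_le_self n

lemma Pd_zero_nat {δ T : ℝ} (hδ : 0 < δ) (hT : 1 < T) {n : ℕ} (h : T ^ (1 - δ) < n) :
    Pd δ (Real.log n / Real.log T) = 0 := by
  have hT0 : 0 < T := by linarith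
  have h1 : 1 - δ ≤ Real.log n / Real.log T := by
    rw [le_div_iff₀ (Real.log_pos hT), ← Real.log_rpow hT0]
    exact Real.log_le_log (Real.rpow_pos_of_pos hT0 _) h.le
  rw [Pd, Real.smoothTransition.zero_of_nonpos, zero_mul]
  apply div_nonpos_of_nonpos_of_nonneg <;> linarith

lemma dp_SD {δ T : ℝ} (hδ : 0 < δ) (hT : 1 < T) : DP (T ^ (1 - δ)) (T ^ 2) (SD δ T) := by
  have hT0 : 0 < T := by linarith
  have h1 : ∀ n ∈ Finset.Icc 1 ⌊T⌋₊, DP (T ^ (1 - δ)) T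
      (fun f => ((dv n * Pd δ (Real.log n / Real.log T) : ℝ) : ℂ) * f n) := by
    intro n hn
    rw [Finset.mem_Icc] at hn
    by_cases h : (n : ℝ) ≤ T ^ (1 - δ)
    · refine (dp_single ((dv n * Pd δ (Real.log n / Real.log T) : ℝ) : ℂ) n hn.1 h).mono le_rfl ?_
      rw [norm_real, Real.norm_eq_abs, abs_of_nonneg (mul_nonneg (dv_nonneg n) (Pd_nonneg _ _))]
      calc dv n * Pd δ (Real.log n / Real.log T) ≤ dv n * 1 :=
            mul_le_mul_of_nonneg_left (Pd_le_one _ _) (dv_nonneg n)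
        _ ≤ n := by rw [mul_one]; exact dv_le n
        _ ≤ T := (Nat.le_floor_iff hT0.le).1 hn.2
    · push Not at h
      rw [Pd_zero_nat hδ hT h]
      simpa using dp_zero (N := T ^ (1 - δ)) hT0.le
  have h2 := dp_sum (Finset.Icc 1 ⌊T⌋₊) (M := fun _ => T) h1
  refine h2.mono le_rfl ?_
  simp only [Finset.sum_const, Nat.card_Icc, add_tsub_cancel_right, nsmul_eq_mul]
  have := Nat.floor_le hT0.le
  nlinarith

/-- Mean square of the short sum on the line `Re s = 1/4`. -/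
lemma mean_SD {δ T : ℝ} (hδ : 0 < δ) (hδ1 : δ ≤ 1 / 8) (hT : 1 < T) (τ : ℝ) :
    EG (Td δ T) τ (fun t => ‖SD δ T (fs ((1 / 4 : ℝ) + t * I))‖ ^ 2) ≤
      T ^ ((1 - δ) / 2) * (∑ n ∈ Finset.Icc 1 ⌊T⌋₊, dv n ^ 2 / n) +
        (T ^ 2) ^ 2 * Real.exp (-(VV (Td δ T) / (2 * (T ^ (1 - 3 * δ / 8 : ℝ)) ^ 2))) := by
  have hT0 : 0 < T := by linarith
  have hle : T ^ (1 - δ) ≤ T ^ (1 - 3 * δ / 8 : ℝ) :=
    Real.rpow_le_rpow_of_exponent_le hT.le (by linarith)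
  have hle' : T ^ (1 - 3 * δ / 8 : ℝ) ≤ T := by
    calc T ^ (1 - 3 * δ / 8 : ℝ) ≤ T ^ (1 : ℝ) :=
          Real.rpow_le_rpow_of_exponent_le hT.le (by linarith)
      _ = T := Real.rpow_one T
  have hdp : DP (T ^ (1 - δ)) (T ^ 2) (fun f => SD δ T (tw (((1 / 4 : ℝ) : ℂ)) f)) :=
    (dp_SD hδ hT).twist (by simp)
  have h1 := transfer_sq (Sb := SB T 1 1) (N0 := T ^ (1 - 3 * δ / 8 : ℝ))
    (fun n h1 h2 => mem_factored hT 1 1 h1 (h2.trans hle')) hdp hle (Td δ T) τ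
  have h2 : EG (Td δ T) τ (fun t => ‖SD δ T (fs ((1 / 4 : ℝ) + t * I))‖ ^ 2) =
      EG (Td δ T) τ (fun t => ‖SD δ T (tw (((1 / 4 : ℝ) : ℂ)) (fs (t * I)))‖ ^ 2) := by
    congr 1
    funext t
    rw [(dp_SD hδ hT).fs_add]
  have h3 : ER (SB T 1 1) (fun f => ‖SD δ T (tw (((1 / 4 : ℝ) : ℂ)) f)‖ ^ 2) =
      ∑ n ∈ Finset.Icc 1 ⌊T⌋₊,
        ‖((dv n * Pd δ (Real.log n / Real.log T) : ℝ) : ℂ) *
          (n : ℂ) ^ (-(((1 / 4 : ℝ) : ℂ)))‖ ^ 2 := by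
    rw [← parseval (Sb := SB T 1 1) (Finset.Icc 1 ⌊T⌋₊) (fun n hn => ?_)
      (fun n => ((dv n * Pd δ (Real.log n / Real.log T) : ℝ) : ℂ) *
        (n : ℂ) ^ (-(((1 / 4 : ℝ) : ℂ))))]
    · congr 1
      funext f
      simp only [SD, tw, mul_assoc]
    · rw [Finset.mem_Icc] at hn
      exact mem_factored hT 1 1 hn.1 ((Nat.le_floor_iff hT0.le).1 hn.2)
  have h4 : ∑ n ∈ Finset.Icc 1 ⌊T⌋₊,
        ‖((dv n * Pd δ (Real.log n / Real.log T) : ℝ) : ℂ) *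
          (n : ℂ) ^ (-(((1 / 4 : ℝ) : ℂ)))‖ ^ 2 ≤
      T ^ ((1 - δ) / 2) * (∑ n ∈ Finset.Icc 1 ⌊T⌋₊, dv n ^ 2 / n) := by
    rw [Finset.mul_sum]
    refine Finset.sum_le_sum fun n hn => ?_
    rw [Finset.mem_Icc] at hn
    have hn0 : 0 < n := hn.1
    have hnR : (0 : ℝ) < n := by exact_mod_cast hn0
    by_cases hm : (n : ℝ) ≤ T ^ (1 - δ)
    · rw [norm_mul, norm_real, Real.norm_eq_abs,
        abs_of_nonneg (mul_nonneg (dv_nonneg n) (Pd_nonneg _ _)),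
        norm_natCast_cpow_of_pos hn0, mul_pow, ← Real.rpow_natCast ((n : ℝ) ^ _) 2,
        ← Real.rpow_mul (Nat.cast_nonneg n)]
      have e : (-((1 / 4 : ℝ) : ℂ)).re * ((2 : ℕ) : ℝ) = 1 / 2 + (-1) := by
        rw [neg_re, ofReal_re]; norm_num
      rw [e, Real.rpow_add hnR, Real.rpow_neg_one]
      have h6 : (dv n * Pd δ (Real.log n / Real.log T)) ^ 2 ≤ dv n ^ 2 := by
        have h7 : dv n * Pd δ (Real.log n / Real.log T) ≤ dv n :=
          mul_le_of_le_one_right (dv_nonneg n) (Pd_le_one _ _)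
        have h8 : 0 ≤ dv n * Pd δ (Real.log n / Real.log T) :=
          mul_nonneg (dv_nonneg n) (Pd_nonneg _ _)
        gcongr
      have h9 : (n : ℝ) ^ (1 / 2 : ℝ) ≤ T ^ ((1 - δ) / 2) := by
        calc (n : ℝ) ^ (1 / 2 : ℝ) ≤ (T ^ (1 - δ)) ^ (1 / 2 : ℝ) := by gcongr
          _ = T ^ ((1 - δ) / 2) := by
            rw [← Real.rpow_mul hT0.le]
            congr 1
            ring
      calc (dv n * Pd δ (Real.log n / Real.log T)) ^ 2 * ((n : ℝ) ^ (1 / 2 : ℝ) * (n : ℝ)⁻¹)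
          ≤ dv n ^ 2 * (T ^ ((1 - δ) / 2) * (n : ℝ)⁻¹) := by gcongr
        _ = T ^ ((1 - δ) / 2) * (dv n ^ 2 / n) := by ring
    · rw [Pd_zero_nat hδ hT (not_le.1 hm)]
      simp only [mul_zero, ofReal_zero, zero_mul, norm_zero, ne_eq, OfNat.ofNat_ne_zero,
        not_false_eq_true, zero_pow]
      positivity
  rw [h2]
  have h6 := (abs_le.1 h1).2
  rw [h3] at h6
  linarith

/-- The indicator of the tail. -/
noncomputable def Tl (δ T τ t : ℝ) : ℝ :=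
  Set.indicator {x : ℝ | T ^ (1 - δ / 8 : ℝ) < |x|} (fun x => (1 + |x|) ^ 6) (t - τ)

lemma Tl_nonneg (δ T τ t : ℝ) : 0 ≤ Tl δ T τ t := by
  unfold Tl
  exact Set.indicator_nonneg (fun t _ => by positivity) _

lemma Tl_int (δ T τ : ℝ) (v : NNReal) : Integrable (Tl δ T τ) (gaussianReal τ v) := by
  have hmeas : Measurable (Tl δ T τ) := by
    unfold Tl
    have h1 : Measurable (Set.indicator {x : ℝ | T ^ (1 - δ / 8 : ℝ) < |x|}
        (fun x : ℝ => (1 + |x|) ^ 6)) :=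
      Measurable.indicator (by fun_prop) (measurableSet_lt measurable_const measurable_id.abs)
    exact h1.comp (measurable_id.sub_const τ)
  refine integrable_of_poly τ v hmeas.aestronglyMeasurable (C := (1 + |τ|) ^ 6) (m := 6) fun t => ?_
  rw [Real.norm_eq_abs, abs_of_nonneg (Tl_nonneg δ T τ t), ← mul_pow]
  unfold Tl
  refine (Set.indicator_le_self' (fun x _ => by positivity) (t - τ)).trans ?_
  have h3 : 1 + |t - τ| ≤ (1 + |τ|) * (1 + |t|) := by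
    have := abs_sub t τ
    nlinarith [mul_nonneg (abs_nonneg τ) (abs_nonneg t)]
  simp only
  gcongr

lemma EG_Tl (δ T T' τ : ℝ) : EG T' τ (Tl δ T τ) =
    ∫ x, Set.indicator {x : ℝ | T ^ (1 - δ / 8 : ℝ) < |x|} (fun x => (1 + |x|) ^ 6) x
      ∂(gaussianReal 0 (VV T')) := by
  rw [Sharp.EG_shift]
  simp only [Tl, add_sub_cancel_right]

lemma EG_Tl_le {δ T : ℝ} (hδ : 0 < δ) (hδ1 : δ ≤ 1 / 8) (hT : 1 ≤ T) (τ : ℝ) :
    EG (Td δ T) τ (Tl δ T τ) ≤ 1440 * Real.exp 3 * T ^ 6 * Real.exp (-(T ^ (δ / 8 : ℝ))) := by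
  have hT0 : 0 < T := by linarith
  rw [EG_Tl]
  set l : ℝ := T ^ (-1 + δ / 4 : ℝ) with hl
  have hl0 : 0 < l := Real.rpow_pos_of_pos hT0 _
  refine (AL.tail6 (v := VV (Td δ T)) (l := l) (a := T ^ (1 - δ / 8 : ℝ)) hl0).trans ?_
  have e1 : l * T ^ (1 - δ / 8 : ℝ) = T ^ (δ / 8 : ℝ) := by
    rw [hl, ← Real.rpow_add hT0]
    congr 1
    ring
  have e2 : 2 * ((VV (Td δ T) : NNReal) : ℝ) * l ^ 2 = 2 := by
    rw [VV_Td hT0, hl, ← Real.rpow_natCast, ← Real.rpow_mul hT0.le, mul_assoc,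
      ← Real.rpow_add hT0]
    rw [show 2 - δ / 2 + (-1 + δ / 4) * ((2 : ℕ) : ℝ) = 0 by push_cast; ring, Real.rpow_zero,
      mul_one]
  have e3 : l ≤ 1 := Real.rpow_le_one_of_one_le_of_nonpos hT (by linarith)
  have e4 : l⁻¹ ≤ T := by
    rw [hl, ← Real.rpow_neg hT0.le]
    calc T ^ (-(-1 + δ / 4)) ≤ T ^ (1 : ℝ) := Real.rpow_le_rpow_of_exponent_le hT (by linarith)
      _ = T := Real.rpow_one T
  rw [e1, e2]
  have e5 : Real.exp (l - T ^ (δ / 8 : ℝ) + 2) ≤ Real.exp 3 * Real.exp (-(T ^ (δ / 8 : ℝ))) := by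
    rw [← Real.exp_add]
    apply Real.exp_le_exp.2
    linarith
  have h6 : (l⁻¹) ^ 6 ≤ T ^ 6 := by
    have : 0 ≤ l⁻¹ := by positivity
    gcongr
  calc 1440 * (l⁻¹) ^ 6 * Real.exp (l - T ^ (δ / 8 : ℝ) + 2)
      ≤ 1440 * T ^ 6 * (Real.exp 3 * Real.exp (-(T ^ (δ / 8 : ℝ)))) := by gcongr
    _ = _ := by ring

lemma Td_ge {δ T : ℝ} (hδ1 : δ ≤ 1 / 8) (hT : 1 ≤ T) : T ≤ Td δ T := by
  unfold Td
  calc T = T ^ (1 : ℝ) := (Real.rpow_one T).symm
    _ ≤ _ := Real.rpow_le_rpow_of_exponent_le hT (by linarith)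

end Cross2

open K3.Cross2 in
/-- The dual term is negligible. -/
theorem stCross2 : StCross2 := by
  intro δ hδ hδ1
  have hShift : StShift := stShift
  obtain ⟨B, hB1, hB⟩ := K1.Cross.FF_quarter
  obtain ⟨C, hC1, hC⟩ := K1.Cross.FF_exp
  have hdiv : ∀ᶠ T : ℝ in atTop, ∑ n ∈ Finset.Icc 1 ⌊T⌋₊, dv n ^ 2 / n ≤ (Real.log T) ^ 4 := by
    have h1 : (1 / (4 * Real.pi ^ 2) : ℝ) < 1 := by
      rw [div_lt_one (by positivity)]
      nlinarith [Real.pi_gt_three]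
    filter_upwards [(stDivSum : Tendsto _ _ _).eventually_lt_const h1, eventually_gt_atTop 1]
      with T h2 h3
    have h4 : 0 < Real.log T := Real.log_pos h3
    rw [div_lt_one (by positivity)] at h2
    exact h2.le
  have hev : ∀ᶠ T : ℝ in atTop, 12 ≤ T ∧ 2 * Real.log T ≤ T ^ (δ / 8) ∧
      (∑ n ∈ Finset.Icc 1 ⌊T⌋₊, dv n ^ 2 / n ≤ (Real.log T) ^ 4) ∧
      2 * Real.log T ≤ T ^ (δ / 64) ∧
      (4 * B ^ 2 * (1440 * Real.exp 3) + 1) * T ^ 19 ≤ Real.exp (T ^ (δ / 16)) ∧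
      12 * B ^ 2 ≤ T ^ (δ / 16) := by
    filter_upwards [eventually_ge_atTop (12 : ℝ), K1.Cross.log_ev (a := δ / 8) (by linarith),
      hdiv, K1.Cross.log_ev (a := δ / 64) (by linarith),
      AL.ev_exp hδ (4 * B ^ 2 * (1440 * Real.exp 3) + 1) (by positivity),
      (tendsto_rpow_atTop (y := δ / 16) (by linarith)).eventually_ge_atTop (12 * B ^ 2)]
      with T h1 h2 h3 h4 h5 h6
    exact ⟨h1, h2, h3, h4, h5, h6⟩
  obtain ⟨T₀, hT₀⟩ := eventually_atTop.mp hev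
  refine ⟨δ / 16, δ / 8, max 3 T₀, by linarith, by linarith, le_max_left _ _, ?_⟩
  intro T hT τ hτ1 hτ2 G hG
  obtain ⟨h12, hl1, hdv, hl2, hexp, hbig⟩ := hT₀ T ((le_max_right _ _).trans hT)
  have hT1 : 1 < T := by linarith
  have hTpos : 0 < T := by linarith
  have hlog : 0 < Real.log T := Real.log_pos hT1
  have hTd : T ≤ Td δ T := Td_ge hδ1 hT1.le
  have hTdpos : 0 < Td δ T := by linarith
  obtain ⟨gS, gS', hgSd, -, hgS, -, hgSb⟩ := K1.Cross.dp_poly' (dp_SD (δ := δ) hδ hT1)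
  obtain ⟨g, g', hgd, hg'd, hg, hg', hgb⟩ := K1.Cross.dp_poly' hG
  set θ : ℝ := δ / 16 with hθ
  have hg'b : ∀ s : ℂ, s.re ≤ 1 → ‖g' s‖ ≤ T ^ θ := by
    intro s hs
    rw [hg', RCLike.norm_conj]
    apply hgb
    rw [sub_re, one_re, conj_re]
    linarith
  set f : ℂ → ℂ := fun s => FF s ^ 2 * (gS s) ^ 2 * (g s * g' s) with hf
  have hfd : DifferentiableOn ℂ f {s : ℂ | 1 / 8 < s.re ∧ s.re < 3 / 4} := by
    intro s hs
    have h1 : DifferentiableAt ℂ FF s := FF_diff (lt_trans (by norm_num) hs.1)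
    exact (((h1.pow 2).mul ((hgSd s).pow 2)).mul ((hgd s).mul (hg'd s))).differentiableWithinAt
  have hV : VV (Td δ T) ≠ 0 := TSM.VV_ne hTdpos
  have hVpos : (0 : ℝ) < VV (Td δ T) := by
    have : 0 < VV (Td δ T) := pos_iff_ne_zero.2 hV
    exact_mod_cast this
  have hgrow : ∀ s : ℂ, 1 / 8 < s.re → s.re < 3 / 4 →
      ‖f s‖ ≤ C ^ 2 * (T ^ 2) ^ 2 * (T ^ θ * T ^ θ) * Real.exp (Real.pi * |s.im|) := by
    intro s h1 h2
    have e1 := hC s h1.le (by linarith)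
    have e2 := hgSb s (by linarith)
    have e3 := hgb s (by linarith)
    have e4 := hg'b s (by linarith)
    have hC0 : 0 < C := by linarith
    simp only [hf]
    rw [norm_mul, norm_mul, norm_mul, norm_pow, norm_pow]
    calc ‖FF s‖ ^ 2 * ‖gS s‖ ^ 2 * (‖g s‖ * ‖g' s‖)
        ≤ (C * Real.exp (Real.pi / 2 * |s.im|)) ^ 2 * (T ^ 2) ^ 2 * (T ^ θ * T ^ θ) := by gcongr
      _ = C ^ 2 * (T ^ 2) ^ 2 * (T ^ θ * T ^ θ) *
          (Real.exp (Real.pi / 2 * |s.im|) * Real.exp (Real.pi / 2 * |s.im|)) := by ring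
      _ = _ := by
        rw [← Real.exp_add]
        congr 2
        ring
  have key := hShift f (1 / 8) (3 / 4) (1 / 2) (1 / 4) τ (1 / (4 * VV (Td δ T))) (VV (Td δ T)) hV
    (by norm_num) (by norm_num) (by norm_num) (by norm_num) hfd (by positivity)
    (by
      have : (4 : ℝ) * (1 / (4 * VV (Td δ T))) * VV (Td δ T) = 1 := by field_simp
      rw [this])
    ⟨C ^ 2 * (T ^ 2) ^ 2 * (T ^ θ * T ^ θ) *
      Real.exp (Real.pi * |τ| + Real.pi ^ 2 * VV (Td δ T)), 0, by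
      intro s h1 h2
      refine (hgrow s h1 h2).trans ?_
      rw [pow_zero, mul_one, mul_assoc _ (Real.exp _), ← Real.exp_add]
      have h3 : Real.pi * |s.im| ≤ Real.pi * |τ| + Real.pi ^ 2 * VV (Td δ T) +
          1 / (4 * VV (Td δ T)) * (s.im - τ) ^ 2 := by
        have h4 : |s.im| ≤ |τ| + |s.im - τ| := by
          have := abs_add_le τ (s.im - τ)
          rwa [add_sub_cancel] at this
        have h5 : Real.pi * |s.im - τ| ≤ Real.pi ^ 2 * VV (Td δ T) +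
            1 / (4 * VV (Td δ T)) * (s.im - τ) ^ 2 := by
          rw [← sq_abs (s.im - τ)]
          set y := |s.im - τ| with hy
          have h6 : 0 ≤ (y / 2 - Real.pi * VV (Td δ T)) ^ 2 / VV (Td δ T) := by positivity
          have h7 : (y / 2 - Real.pi * VV (Td δ T)) ^ 2 / VV (Td δ T) =
              1 / (4 * VV (Td δ T)) * y ^ 2 - Real.pi * y + Real.pi ^ 2 * VV (Td δ T) := by
            field_simp
            ring
          linarith
        have hpi := Real.pi_pos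
        have h8 := mul_le_mul_of_nonneg_left h4 hpi.le
        linarith
      gcongr⟩
  have hconj : ∀ t : ℝ, 1 - (starRingEnd ℂ) (((1 / 2 : ℝ) : ℂ) + t * I) = ((1 / 2 : ℝ) : ℂ) + t * I := by
    intro t
    rw [TSM.one_sub_conj]
    norm_num
  have e0 : EG (Td δ T) τ (fun t => FF (1 / 2 + t * I) ^ 2 * (SD δ T (fs (1 / 2 + t * I))) ^ 2 *
      (G (fs (1 / 2 + t * I)) * (starRingEnd ℂ) (G (fs (1 / 2 + t * I))))) =
      ∫ t : ℝ, f (((1 / 2 : ℝ) : ℂ) + t * I) ∂(gaussianReal τ (VV (Td δ T))) := by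
    unfold EG
    congr 1
    funext t
    simp only [hf]
    rw [hg', hconj, ← hgS, ← hg]
    norm_num
  rw [e0, key, norm_mul]
  have hfac : ‖(Real.exp ((1 / 4 - 1 / 2) ^ 2 / (2 * VV (Td δ T))) : ℂ)‖ ≤ 2 := by
    rw [norm_real, Real.norm_eq_abs, abs_of_pos (Real.exp_pos _)]
    exact TSM.gfac (h12.trans hTd) (by norm_num)
  -- pointwise bound on the line `1/4`
  have hTθ : T ^ θ * T ^ θ ≤ T := by
    rw [← Real.rpow_add hTpos]
    calc T ^ (θ + θ) ≤ T ^ (1 : ℝ) :=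
          Real.rpow_le_rpow_of_exponent_le hT1.le (by rw [hθ]; linarith)
      _ = T := Real.rpow_one T
  have hpt : ∀ t : ℝ, ‖f (((1 / 4 : ℝ) : ℂ) + t * I)‖ ≤
      (B ^ 2 * T ^ (-(1 / 2) + δ / 8) * (T ^ θ * T ^ θ)) *
        ‖SD δ T (fs (((1 / 4 : ℝ) : ℂ) + t * I))‖ ^ 2 + B ^ 2 * T ^ 5 * Tl δ T τ t := by
    intro t
    have hre : (((1 / 4 : ℝ) : ℂ) + t * I).re = 1 / 4 := by simp
    have e1 := hB t
    have e2 := hgSb (((1 / 4 : ℝ) : ℂ) + t * I) (by rw [hre]; norm_num)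
    have e3 := hgb (((1 / 4 : ℝ) : ℂ) + t * I) (by rw [hre]; norm_num)
    have e4 := hg'b (((1 / 4 : ℝ) : ℂ) + t * I) (by rw [hre]; norm_num)
    rw [hgS]
    set s : ℂ := ((1 / 4 : ℝ) : ℂ) + t * I with hs
    simp only [hf]
    rw [norm_mul, norm_mul, norm_mul, norm_pow, norm_pow]
    have hB0 : 0 < B := by linarith
    have hp : (1 : ℝ) ≤ 1 + |t| := by linarith [abs_nonneg t]
    by_cases ht : T ^ (1 - δ / 8 : ℝ) < |t - τ|
    · have h1 : 1 ≤ Tl δ T τ t := by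
        unfold Tl
        rw [Set.indicator_of_mem (by exact ht)]
        exact one_le_pow₀ (by linarith [abs_nonneg (t - τ)])
      have h2 : ‖FF s‖ ≤ B := by
        refine e1.trans ?_
        have : (1 + |t|) ^ (-(1 / 4) : ℝ) ≤ 1 :=
          Real.rpow_le_one_of_one_le_of_nonpos hp (by norm_num)
        nlinarith
      calc ‖FF s‖ ^ 2 * ‖gS s‖ ^ 2 * (‖g s‖ * ‖g' s‖)
          ≤ B ^ 2 * (T ^ 2) ^ 2 * (T ^ θ * T ^ θ) := by gcongr
        _ ≤ B ^ 2 * (T ^ 2) ^ 2 * T := by gcongr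
        _ = B ^ 2 * T ^ 5 * 1 := by ring
        _ ≤ B ^ 2 * T ^ 5 * Tl δ T τ t := by gcongr
        _ ≤ _ := by
          have : 0 ≤ (B ^ 2 * T ^ (-(1 / 2) + δ / 8) * (T ^ θ * T ^ θ)) * ‖gS s‖ ^ 2 := by
            positivity
          linarith
    · push Not at ht
      have h1 : T ^ (1 - δ / 4) ≤ |t| := by
        have h3 : T ^ (1 - δ / 8 : ℝ) * (2 * Real.log T) ≤ T := by
          calc T ^ (1 - δ / 8 : ℝ) * (2 * Real.log T) ≤ T ^ (1 - δ / 8 : ℝ) * T ^ (δ / 8) := by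
                gcongr
            _ = T := by rw [← Real.rpow_add hTpos]; norm_num
        have h5 : T ^ (1 - δ / 8 : ℝ) ≤ T / (2 * Real.log T) := by
          rw [le_div_iff₀ (by positivity)]; exact h3
        have h6 : T ^ (1 - δ / 4) ≤ T ^ (1 - δ / 8 : ℝ) :=
          Real.rpow_le_rpow_of_exponent_le hT1.le (by linarith)
        have h7 : T / Real.log T = T / (2 * Real.log T) + T / (2 * Real.log T) := by
          field_simp
          norm_num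
        have h8 : |τ| ≤ |t| + |t - τ| := by
          have := abs_sub_abs_le_abs_sub τ t
          rw [abs_sub_comm] at this
          linarith
        linarith
      have h2 : ((1 + |t|) ^ (-(1 / 4) : ℝ)) ^ 2 ≤ T ^ (-(1 / 2) + δ / 8) := by
        calc ((1 + |t|) ^ (-(1 / 4) : ℝ)) ^ 2 ≤ ((T ^ (1 - δ / 4)) ^ (-(1 / 4) : ℝ)) ^ 2 := by
              have : (1 + |t|) ^ (-(1 / 4) : ℝ) ≤ (T ^ (1 - δ / 4)) ^ (-(1 / 4) : ℝ) :=
                Real.rpow_le_rpow_of_nonpos (by positivity) (by linarith) (by norm_num)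
              gcongr
          _ = T ^ (-(1 / 2) + δ / 8) := by
              rw [← Real.rpow_natCast, ← Real.rpow_mul hTpos.le, ← Real.rpow_mul hTpos.le]
              congr 1
              push_cast
              ring
      calc ‖FF s‖ ^ 2 * ‖gS s‖ ^ 2 * (‖g s‖ * ‖g' s‖)
          ≤ (B * (1 + |t|) ^ (-(1 / 4) : ℝ)) ^ 2 * ‖gS s‖ ^ 2 * (T ^ θ * T ^ θ) := by
            gcongr
        _ = B ^ 2 * ((1 + |t|) ^ (-(1 / 4) : ℝ)) ^ 2 * ‖gS s‖ ^ 2 * (T ^ θ * T ^ θ) := by ring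
        _ ≤ B ^ 2 * T ^ (-(1 / 2) + δ / 8) * ‖gS s‖ ^ 2 * (T ^ θ * T ^ θ) := by gcongr
        _ = (B ^ 2 * T ^ (-(1 / 2) + δ / 8) * (T ^ θ * T ^ θ)) * ‖gS s‖ ^ 2 := by ring
        _ ≤ _ := by
          have : 0 ≤ B ^ 2 * T ^ 5 * Tl δ T τ t :=
            mul_nonneg (by positivity) (Tl_nonneg δ T τ t)
          linarith
  have hcont : Continuous fun t : ℝ => SD δ T (fs (((1 / 4 : ℝ) : ℂ) + t * I)) := by
    have : (fun t : ℝ => SD δ T (fs (((1 / 4 : ℝ) : ℂ) + t * I))) =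
        fun t : ℝ => gS (((1 / 4 : ℝ) : ℂ) + t * I) := by
      funext t; rw [hgS]
    rw [this]
    exact hgSd.continuous.comp (by fun_prop)
  have hintS : Integrable (fun t : ℝ => ‖SD δ T (fs (((1 / 4 : ℝ) : ℂ) + t * I))‖ ^ 2)
      (gaussianReal τ (VV (Td δ T))) := by
    refine integrable_of_poly τ (VV (Td δ T)) (hcont.norm.pow 2).aestronglyMeasurable
      (C := (T ^ 2) ^ 2) (m := 0) fun t => ?_
    rw [Real.norm_eq_abs, abs_of_nonneg (by positivity), pow_zero, mul_one, hgS]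
    have := hgSb (((1 / 4 : ℝ) : ℂ) + t * I) (by simp)
    gcongr
  have hmean := mean_SD hδ hδ1 hT1 τ
  -- sizes
  have hx16 : T ^ (δ / 16) ≤ T ^ (δ / 8 : ℝ) :=
    Real.rpow_le_rpow_of_exponent_le hT1.le (by linarith)
  have hexp2 : (4 * B ^ 2 * (1440 * Real.exp 3) + 1) * T ^ 19 * Real.exp (-(T ^ (δ / 16))) ≤ 1 := by
    rw [Real.exp_neg, ← div_eq_mul_inv, div_le_one (Real.exp_pos _)]
    exact hexp
  have hT19 : (1 : ℝ) ≤ T ^ 12 := one_le_pow₀ hT1.le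
  have hm1 : (T ^ 2) ^ 2 * Real.exp (-(VV (Td δ T) / (2 * (T ^ (1 - 3 * δ / 8 : ℝ)) ^ 2))) ≤ 1 := by
    have e1 : (VV (Td δ T) : ℝ) / (2 * (T ^ (1 - 3 * δ / 8 : ℝ)) ^ 2) = T ^ (δ / 4) / 2 := by
      have e2 : ((VV (Td δ T) : NNReal) : ℝ) = T ^ (δ / 4) * (T ^ (1 - 3 * δ / 8 : ℝ)) ^ 2 := by
        rw [VV_Td hTpos, ← Real.rpow_natCast, ← Real.rpow_mul hTpos.le, ← Real.rpow_add hTpos]
        congr 1
        push_cast
        ring
      rw [e2]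
      have : T ^ (1 - 3 * δ / 8 : ℝ) ≠ 0 := (Real.rpow_pos_of_pos hTpos _).ne'
      field_simp
    rw [e1]
    have e3 : T ^ (δ / 16) ≤ T ^ (δ / 4) / 2 := by
      have h1 : T ^ (δ / 4) = T ^ (δ / 16) * T ^ (3 * δ / 16) := by
        rw [← Real.rpow_add hTpos]
        congr 1
        ring
      have h2 : 2 ≤ T ^ (3 * δ / 16) := by
        calc (2 : ℝ) ≤ 12 * B ^ 2 := by nlinarith
          _ ≤ T ^ (δ / 16) := hbig
          _ ≤ _ := Real.rpow_le_rpow_of_exponent_le hT1.le (by linarith)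
      rw [h1]
      have : 0 < T ^ (δ / 16) := Real.rpow_pos_of_pos hTpos _
      nlinarith
    calc (T ^ 2) ^ 2 * Real.exp (-(T ^ (δ / 4) / 2))
        ≤ T ^ 19 * Real.exp (-(T ^ (δ / 16))) := by
          have h1 : (T ^ 2) ^ 2 ≤ T ^ 19 := by
            rw [← pow_mul]
            exact pow_le_pow_right₀ hT1.le (by norm_num)
          gcongr
      _ ≤ (4 * B ^ 2 * (1440 * Real.exp 3) + 1) * (T ^ 19 * Real.exp (-(T ^ (δ / 16)))) := by
          have h1 : 0 ≤ T ^ 19 * Real.exp (-(T ^ (δ / 16))) := by positivity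
          have h2 : 0 ≤ 4 * B ^ 2 * (1440 * Real.exp 3) := by positivity
          nlinarith
      _ ≤ 1 := by rw [← mul_assoc]; exact hexp2
  have hlog4 : (Real.log T) ^ 4 ≤ T ^ (δ / 16) := by
    have h1 : (Real.log T) ^ 4 ≤ (T ^ (δ / 64)) ^ 4 := by
      have : Real.log T ≤ T ^ (δ / 64) := by linarith
      gcongr
    refine h1.trans (le_of_eq ?_)
    rw [← Real.rpow_natCast, ← Real.rpow_mul hTpos.le]
    congr 1
    push_cast
    ring
  have hint : ∫ t : ℝ, ‖f (((1 / 4 : ℝ) : ℂ) + t * I)‖ ∂(gaussianReal τ (VV (Td δ T))) ≤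
      (B ^ 2 * T ^ (-(1 / 2) + δ / 8) * (T ^ θ * T ^ θ)) * (2 * T ^ ((1 - δ) / 2 + δ / 16)) +
        B ^ 2 * T ^ 5 * EG (Td δ T) τ (Tl δ T τ) := by
    have h1 : ∫ t : ℝ, ‖f (((1 / 4 : ℝ) : ℂ) + t * I)‖ ∂(gaussianReal τ (VV (Td δ T))) ≤
        ∫ t : ℝ, ((B ^ 2 * T ^ (-(1 / 2) + δ / 8) * (T ^ θ * T ^ θ)) *
          ‖SD δ T (fs (((1 / 4 : ℝ) : ℂ) + t * I))‖ ^ 2 + B ^ 2 * T ^ 5 * Tl δ T τ t)
          ∂(gaussianReal τ (VV (Td δ T))) := by
      apply integral_mono_of_nonneg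
      · exact Filter.Eventually.of_forall fun t => norm_nonneg _
      · exact (hintS.const_mul _).add ((Tl_int δ T τ _).const_mul _)
      · exact Filter.Eventually.of_forall hpt
    refine h1.trans ?_
    rw [integral_add (hintS.const_mul _) ((Tl_int δ T τ _).const_mul _), integral_const_mul,
      integral_const_mul]
    have h2 : ∫ t : ℝ, ‖SD δ T (fs (((1 / 4 : ℝ) : ℂ) + t * I))‖ ^ 2
        ∂(gaussianReal τ (VV (Td δ T))) ≤ 2 * T ^ ((1 - δ) / 2 + δ / 16) := by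
      have h3 : 1 ≤ T ^ ((1 - δ) / 2 + δ / 16) := Real.one_le_rpow hT1.le (by linarith)
      have h4 : ∫ t : ℝ, ‖SD δ T (fs (((1 / 4 : ℝ) : ℂ) + t * I))‖ ^ 2
          ∂(gaussianReal τ (VV (Td δ T))) =
        EG (Td δ T) τ (fun t => ‖SD δ T (fs (((1 / 4 : ℝ) : ℂ) + t * I))‖ ^ 2) := rfl
      have h5 : T ^ ((1 - δ) / 2) * (∑ n ∈ Finset.Icc 1 ⌊T⌋₊, dv n ^ 2 / n) ≤
          T ^ ((1 - δ) / 2 + δ / 16) := by
        rw [Real.rpow_add hTpos]
        exact mul_le_mul_of_nonneg_left (hdv.trans hlog4) (by positivity)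
      rw [h4]
      linarith
    have hB0 : 0 < B := by linarith
    have : ∫ t : ℝ, Tl δ T τ t ∂(gaussianReal τ (VV (Td δ T))) = EG (Td δ T) τ (Tl δ T τ) := rfl
    rw [this]
    gcongr
  have hfin : ‖∫ t : ℝ, f (((1 / 4 : ℝ) : ℂ) + t * I) *
      cexp ((((1 / 4 - 1 / 2) * (t - τ) / VV (Td δ T) : ℝ) : ℂ) * I)
        ∂(gaussianReal τ (VV (Td δ T)))‖ ≤
      ∫ t : ℝ, ‖f (((1 / 4 : ℝ) : ℂ) + t * I)‖ ∂(gaussianReal τ (VV (Td δ T))) := by
    refine (norm_integral_le_integral_norm _).trans (le_of_eq ?_)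
    congr 1
    funext t
    rw [norm_mul, norm_exp_ofReal_mul_I, mul_one]
  have hmain : 2 * ((B ^ 2 * T ^ (-(1 / 2) + δ / 8) * (T ^ θ * T ^ θ)) *
        (2 * T ^ ((1 - δ) / 2 + δ / 16)) + B ^ 2 * T ^ 5 * EG (Td δ T) τ (Tl δ T τ)) ≤
      T ^ (-(δ / 8)) := by
    have hq := EG_Tl_le hδ hδ1 hT1.le τ
    set q := EG (Td δ T) τ (Tl δ T τ) with hqd
    have hB0 : 0 < B := by linarith
    have e1 : T ^ (-(1 / 2) + δ / 8) * (T ^ θ * T ^ θ) * T ^ ((1 - δ) / 2 + δ / 16) =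
        T ^ (-(δ / 8)) * T ^ (-(δ / 16)) := by
      rw [← Real.rpow_add hTpos, ← Real.rpow_add hTpos, ← Real.rpow_add hTpos,
        ← Real.rpow_add hTpos]
      congr 1
      rw [hθ]; ring
    have h1 : 12 * B ^ 2 * T ^ (-(δ / 16)) ≤ 1 := by
      rw [Real.rpow_neg hTpos.le]
      have : 0 < T ^ (δ / 16) := Real.rpow_pos_of_pos hTpos _
      rw [← div_eq_mul_inv, div_le_one this]
      exact hbig
    have hx : 0 < T ^ (-(δ / 8)) := Real.rpow_pos_of_pos hTpos _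
    have h2 : 2 * ((B ^ 2 * T ^ (-(1 / 2) + δ / 8) * (T ^ θ * T ^ θ)) *
        (2 * T ^ ((1 - δ) / 2 + δ / 16))) ≤ 1 / 2 * T ^ (-(δ / 8)) := by
      calc 2 * ((B ^ 2 * T ^ (-(1 / 2) + δ / 8) * (T ^ θ * T ^ θ)) *
            (2 * T ^ ((1 - δ) / 2 + δ / 16)))
          = 4 * B ^ 2 * (T ^ (-(1 / 2) + δ / 8) * (T ^ θ * T ^ θ) *
              T ^ ((1 - δ) / 2 + δ / 16)) := by ring
        _ = 1 / 3 * (12 * B ^ 2 * T ^ (-(δ / 16))) * T ^ (-(δ / 8)) := by rw [e1]; ring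
        _ ≤ 1 / 2 * 1 * T ^ (-(δ / 8)) := by
            gcongr
            norm_num
        _ = _ := by ring
    have h3 : 2 * (B ^ 2 * T ^ 5 * q) ≤ 1 / 2 * T ^ (-(δ / 8)) := by
      have h4 : (T : ℝ)⁻¹ ≤ T ^ (-(δ / 8)) := by
        rw [← Real.rpow_neg_one]
        exact Real.rpow_le_rpow_of_exponent_le hT1.le (by linarith)
      have h5 : 4 * (B ^ 2 * T ^ 5 * q) ≤ T⁻¹ := by
        rw [← one_div, le_div_iff₀ hTpos]
        have h6 : q ≤ 1440 * Real.exp 3 * T ^ 6 * Real.exp (-(T ^ (δ / 16))) := by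
          refine hq.trans ?_
          gcongr
        calc 4 * (B ^ 2 * T ^ 5 * q) * T = 4 * B ^ 2 * T ^ 6 * q := by ring
          _ ≤ 4 * B ^ 2 * T ^ 6 * (1440 * Real.exp 3 * T ^ 6 * Real.exp (-(T ^ (δ / 16)))) := by
              gcongr
          _ = 4 * B ^ 2 * (1440 * Real.exp 3) * T ^ 12 * Real.exp (-(T ^ (δ / 16))) := by ring
          _ ≤ (4 * B ^ 2 * (1440 * Real.exp 3) + 1) * T ^ 19 * Real.exp (-(T ^ (δ / 16))) := by
              gcongr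
              · linarith
              · exact hT1.le
              · norm_num
          _ ≤ 1 := hexp2
      linarith
    linarith
  calc ‖(Real.exp ((1 / 4 - 1 / 2) ^ 2 / (2 * VV (Td δ T))) : ℂ)‖ *
        ‖∫ t : ℝ, f (((1 / 4 : ℝ) : ℂ) + t * I) *
          cexp ((((1 / 4 - 1 / 2) * (t - τ) / VV (Td δ T) : ℝ) : ℂ) * I)
            ∂(gaussianReal τ (VV (Td δ T)))‖
      ≤ 2 * ((B ^ 2 * T ^ (-(1 / 2) + δ / 8) * (T ^ θ * T ^ θ)) *
        (2 * T ^ ((1 - δ) / 2 + δ / 16)) + B ^ 2 * T ^ 5 * EG (Td δ T) τ (Tl δ T τ)) := by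
        gcongr
        exact hfin.trans hint
    _ ≤ _ := hmain

end K3
end Pool.Agent.Lib.MP_973905_nt
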