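import Pool.Agent.Lib.MP_973905_nt.K3.Stmts
import Pool.Agent.Lib.MP_973905_nt.K1.Strip

/-! Modules (17), (19) of K3: the lower bound on `[0, T]` and the final theorem. -/

namespace Pool.Agent.Lib.MP_973905_nt
namespace K3

open MeasureTheory ProbabilityTheory Complex Filter Topology K1

/-- (17) lower bound on `[0, T]` -/
theorem stLow (h16 : StLowT) (h15 : StAvgLow) : StLow := by
  intro ε hε
  obtain ⟨C0, hC0, hz⟩ := Strip.zeta_lin
  set e : ℝ := min ε 1 / 2 with he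
  have hm : 0 < min ε 1 := lt_min hε one_pos
  have he0 : 0 < e := by rw [he]; positivity
  have he1 : e ≤ 1 / 2 := by
    have : min ε 1 ≤ 1 := min_le_right _ _
    rw [he]; linarith
  have he2 : 2 * e ≤ ε := by
    have : min ε 1 ≤ ε := min_le_left _ _
    rw [he]; linarith
  obtain ⟨δ, hδ, hδ8, k₁, hk₁, hk₁', T₁, hT₁, hlow⟩ := h16 e he0
  obtain ⟨C, T₂, hC, hT₂, havg⟩ := h15 δ hδ hδ8
  set q : ℝ := 1 / (2 * Real.pi ^ 2) with hq
  have hq0 : 0 < q := by positivity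
  have hev : ∀ᶠ T : ℝ in atTop, 2 * C / e ≤ Real.log T ∧ 2 / (e * q) ≤ T ∧ C0 ≤ T := by
    refine (Real.tendsto_log_atTop.eventually_ge_atTop _).and ((eventually_ge_atTop _).and
      (eventually_ge_atTop _))
  obtain ⟨T₃, hT₃⟩ := eventually_atTop.1 hev
  refine ⟨k₁, hk₁, max T₁ (max T₂ T₃), hT₁.trans (le_max_left _ _), fun T hT k hk hk1 => ?_⟩
  simp only [max_le_iff] at hT
  obtain ⟨hTa, hTb, hTc⟩ := hT
  obtain ⟨hL2, hTq, hTC⟩ := hT₃ T hTc
  have hT3 : 3 ≤ T := hT₁.trans hTa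
  have hT0 : 0 < T := by linarith
  have hL0 : 0 < Real.log T := Real.log_pos (by linarith)
  set Λ : ℝ := (Real.log T) ^ (k ^ 2) with hΛ
  have hL1 : 1 ≤ Real.log T := by
    rw [Real.le_log_iff_exp_le hT0]
    linarith [Real.exp_one_lt_d9]
  have hΛ1 : 1 ≤ Λ := Real.one_le_rpow hL1 (sq_nonneg _)
  have hcont : Continuous fun t : ℝ => ‖riemannZeta (1 / 2 + t * I)‖ ^ (2 * k) := by
    have h1 := continuous_zeta_line (σ := 1 / 2) (by norm_num)
    have h2 : Continuous fun t : ℝ => riemannZeta (1 / 2 + t * I) := by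
      refine h1.congr fun t => ?_
      push_cast
      rfl
    exact h2.norm.rpow_const fun t => Or.inr (by linarith)
  have hbd : ∀ t : ℝ, ‖riemannZeta (1 / 2 + t * I)‖ ^ (2 * k) ≤ T ^ 6 * (1 + |t|) ^ 6 := by
    intro t
    have h1 := hz (1 / 2 + t * I) (by simp; norm_num) (by simp; norm_num)
    have him : ((1 : ℂ) / 2 + t * I).im = t := by simp
    rw [him] at h1
    have h2 : (1 : ℝ) ≤ T * (1 + |t|) := by
      have := abs_nonneg t
      nlinarith
    calc ‖riemannZeta (1 / 2 + t * I)‖ ^ (2 * k) ≤ (T * (1 + |t|)) ^ (2 * k) := by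
          apply Real.rpow_le_rpow (norm_nonneg _) _ (by linarith)
          exact h1.trans (by gcongr)
      _ ≤ (T * (1 + |t|)) ^ (6 : ℝ) :=
          Real.rpow_le_rpow_of_exponent_le h2 (by linarith)
      _ = (T * (1 + |t|)) ^ 6 := by
          rw [← Real.rpow_natCast]; norm_num
      _ = _ := by rw [mul_pow]
  have hD0 : 0 ≤ (1 - e) * q * Λ :=
    mul_nonneg (mul_nonneg (by linarith) hq0.le) (by linarith)
  have h1 := havg T hTb (fun t => ‖riemannZeta (1 / 2 + t * I)‖ ^ (2 * k)) hcont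
    (fun t => by positivity) hbd ((1 - e) * q * Λ) hD0
    (fun τ hτ1 hτ2 => hlow T hTa k hk hk1 τ hτ1 hτ2)
  have hCL : C / Real.log T ≤ e / 2 := by
    rw [div_le_iff₀ hL0]
    rw [div_le_iff₀ he0] at hL2
    linarith
  have hTi : 1 / T ≤ e / 2 * q * Λ := by
    have h5 : 1 / T ≤ e / 2 * q := by
      rw [div_le_iff₀ hT0]
      rw [div_le_iff₀ (by positivity)] at hTq
      linarith
    calc 1 / T ≤ e / 2 * q * 1 := by linarith
      _ ≤ _ := by gcongr
  have h3 : (1 - e / 2) * ((1 - e) * q * Λ) ≤ (1 - C / Real.log T) * ((1 - e) * q * Λ) := by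
    apply mul_le_mul_of_nonneg_right _ hD0
    linarith
  have h4 : (1 - ε) * q * Λ ≤ (1 - e / 2) * ((1 - e) * q * Λ) - e / 2 * q * Λ := by
    have h5 : (1 - e / 2) * ((1 - e) * q * Λ) - e / 2 * q * Λ =
        ((1 - e / 2) * (1 - e) - e / 2) * (q * Λ) := by ring
    rw [h5, mul_assoc]
    apply mul_le_mul_of_nonneg_right _ (mul_nonneg hq0.le (by linarith))
    nlinarith
  have h6 : (1 - ε) * q * Λ ≤ T⁻¹ * ∫ t in (0 : ℝ)..T, ‖riemannZeta (1 / 2 + t * I)‖ ^ (2 * k) := by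
    linarith
  exact h6

/-- (19) the final theorem -/
theorem stFinal (h17 : StLow) (h18 : StCK2) : StFinal := by
  intro ε hε
  set q : ℝ := 1 / (2 * Real.pi ^ 2) with hq
  have hq0 : 0 < q := by positivity
  obtain ⟨k₂, hk₂, T₀, hT₀, hlow⟩ := h17 (ε / 2) (by positivity)
  have hC : Tendsto cK (𝓝 2) (𝓝 q) := h18
  have hev : ∀ᶠ k in 𝓝 (2 : ℝ), 0 < cK k ∧ (1 - ε) * cK k < (1 - ε / 2) * q := by
    refine (hC.eventually (lt_mem_nhds hq0)).and ?_
    have h1 : Tendsto (fun k => (1 - ε) * cK k) (𝓝 2) (𝓝 ((1 - ε) * q)) := hC.const_mul _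
    refine h1.eventually (gt_mem_nhds ?_)
    nlinarith
  obtain ⟨r, hr, hball⟩ := Metric.eventually_nhds_iff.1 hev
  refine ⟨min k₂ (2 + r / 2), lt_min hk₂ (by linarith), T₀, hT₀, fun T hT k hk hk1 => ?_⟩
  have hka : k ≤ k₂ := hk1.trans (min_le_left _ _)
  have hkb : k ≤ 2 + r / 2 := hk1.trans (min_le_right _ _)
  have hT3 : 3 ≤ T := hT₀.trans hT
  have hL0 : 0 < Real.log T := Real.log_pos (by linarith)
  have hΛ0 : 0 < (Real.log T) ^ (k ^ 2) := Real.rpow_pos_of_pos hL0 _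
  obtain ⟨hc0, hc1⟩ := hball (show dist k 2 < r by
    rw [Real.dist_eq, abs_of_nonneg (by linarith)]; linarith)
  have h1 := hlow T hT k hk hka
  rw [le_div_iff₀ (mul_pos hc0 hΛ0)]
  calc (1 - ε) * (cK k * (Real.log T) ^ (k ^ 2)) = ((1 - ε) * cK k) * (Real.log T) ^ (k ^ 2) := by
        ring
    _ ≤ ((1 - ε / 2) * q) * (Real.log T) ^ (k ^ 2) :=
        mul_le_mul_of_nonneg_right hc1.le hΛ0.le
    _ ≤ _ := h1

end K3
end Pool.Agent.Lib.MP_973905_nt
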