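import Pool.Agent.Lib.MP_973905_nt.K3.Defs

/-! Statements (as propositions) of the modules for the sharp lower bound `k → 2+`. -/

namespace Pool.Agent.Lib.MP_973905_nt
namespace K3

open MeasureTheory ProbabilityTheory Complex Filter Topology K1

/-- (1) pairing of `ζ²` with one frequency, Gaussian means of variance `T^{2-δ/2}` -/
def StZ2Pair : Prop := ∀ δ : ℝ, 0 < δ → δ ≤ 1 / 8 → ∃ T₀ : ℝ, 3 ≤ T₀ ∧ ∀ T, T₀ ≤ T → ∀ τ : ℝ,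
    T / Real.log T ≤ |τ| → |τ| ≤ 3 / 2 * T → ∀ u v : ℕ, 1 ≤ u → 1 ≤ v →
    (u : ℝ) ≤ T ^ (1 - 3 * δ / 8 : ℝ) → (v : ℝ) ≤ T ^ (1 - 3 * δ / 8 : ℝ) →
    ‖EG (Td δ T) τ (fun t => riemannZeta (1 / 2 + t * I) ^ 2 *
        (fs (t * I) u * (starRingEnd ℂ) (fs (t * I) v))) -
      (if u ∣ v then (dv (v / u) : ℂ) * ((v / u : ℕ) : ℂ) ^ (-(1 / 2 : ℂ)) else 0)‖ ≤ T ^ (-20 : ℝ)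

/-- (2) means of `ζ²` times Dirichlet polynomials -/
def StTransferZ2 : Prop := ∀ δ : ℝ, 0 < δ → δ ≤ 1 / 8 → ∃ T₀ : ℝ, 3 ≤ T₀ ∧ ∀ T, T₀ ≤ T → ∀ τ : ℝ,
    T / Real.log T ≤ |τ| → |τ| ≤ 3 / 2 * T → ∀ (M : ℕ) (G H : (ℕ → ℂ) → ℂ),
    DP (T ^ (1 - 3 * δ / 8 : ℝ)) (T ^ 3) G → DP (T ^ (1 - 3 * δ / 8 : ℝ)) (T ^ 3) H →
    ‖EG (Td δ T) τ (fun t => riemannZeta (1 / 2 + t * I) ^ 2 *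
        (G (fs (t * I)) * (starRingEnd ℂ) (H (fs (t * I))))) -
      ER (SB T M (JJ T)) (fun f => ZZ (PS 0 T) (tw (1 / 2) f) ^ 2 *
        (G f * (starRingEnd ℂ) (H f)))‖ ≤ T ^ (-2 : ℝ)

/-- (3) the dual term is negligible -/
def StCross2 : Prop := ∀ δ : ℝ, 0 < δ → δ ≤ 1 / 8 → ∃ θ κ T₀ : ℝ, 0 < θ ∧ 0 < κ ∧ 3 ≤ T₀ ∧
    ∀ T, T₀ ≤ T → ∀ τ : ℝ, T / Real.log T ≤ |τ| → |τ| ≤ 3 / 2 * T → ∀ G : (ℕ → ℂ) → ℂ,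
    DP (T ^ θ) (T ^ θ) G →
    ‖EG (Td δ T) τ (fun t => FF (1 / 2 + t * I) ^ 2 * (SD δ T (fs (1 / 2 + t * I))) ^ 2 *
      (G (fs (1 / 2 + t * I)) * (starRingEnd ℂ) (G (fs (1 / 2 + t * I)))))‖ ≤ T ^ (-κ)

/-- (4) the asymptotics of `∑ d(n)²/n` -/
def StDivSum : Prop := Tendsto (fun x : ℝ => (∑ n ∈ Finset.Icc 1 ⌊x⌋₊, dv n ^ 2 / n) /
    (Real.log x) ^ 4) atTop (𝓝 (1 / (4 * Real.pi ^ 2)))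

/-- (5) local factor with four shifts -/
def StLF4 : Prop := ∃ C : ℝ, 0 < C ∧ ∀ (u x : ℝ) (x₁ x₂ y₁ y₂ : ℂ), |u| ≤ 1 / 10 → 0 ≤ x → x ≤ 3 / 4 →
    ‖x₁‖ ≤ 3 / 4 → ‖x₂‖ ≤ 3 / 4 → ‖y₁‖ ≤ 3 / 4 → ‖y₂‖ ≤ 3 / 4 →
    ‖x₁‖ ≤ 2 * x → ‖x₂‖ ≤ 2 * x → ‖y₁‖ ≤ 2 * x → ‖y₂‖ ≤ 2 * x →
    ‖(1 - x₁ * y₁) * (1 - x₁ * y₂) * (1 - x₂ * y₁) * (1 - x₂ * y₂) * LF4 u x x₁ x₂ y₁ y₂ -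
      ((1 + (u ^ 2 - 4 * u) * x ^ 2 : ℝ) : ℂ) * (1 - x₁ * x₂ * y₁ * y₂)‖ ≤
      C * |u| * x * (‖x₁ - x‖ + ‖x₂ - x‖ + ‖y₁ - x‖ + ‖y₂ - x‖ + x ^ 3)

/-- (6) one block with four shifts -/
def StBlock4 : Prop := ∃ C₁ : ℝ, 0 < C₁ ∧ ∀ (A l : ℕ) (S : Finset ℕ) (k : ℝ) (a₁ a₂ b₁ b₂ : ℂ),
    1 ≤ A → (∀ p ∈ S, p.Prime) → |k - 2| ≤ 1 / 10 →
    (∀ p ∈ S, ‖a₁‖ * Real.log p ≤ 1 / 50 ∧ ‖a₂‖ * Real.log p ≤ 1 / 50 ∧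
      ‖b₁‖ * Real.log p ≤ 1 / 50 ∧ ‖b₂‖ * Real.log p ≤ 1 / 50) →
    (‖a₁‖ + ‖a₂‖ + ‖b₁‖ + ‖b₂‖) * ∑ p ∈ S, Real.log p / p ≤ 1 →
    16 * Real.exp (C₁ * ∑ p ∈ S, 1 / (p : ℝ)) ≤ Real.exp (l / 2) →
    ‖ES S (fun f => ZZ S (tw (1 / 2 + a₁) f) * ZZ S (tw (1 / 2 + a₂) f) *
        (starRingEnd ℂ) (ZZ S (tw (1 / 2 + (starRingEnd ℂ) b₁) f) *
          ZZ S (tw (1 / 2 + (starRingEnd ℂ) b₂) f)) *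
        (Ntr l (k - 2) (Pj A S (tw (1 / 2) f)) *
          (starRingEnd ℂ) (Ntr l (k - 2) (Pj A S (tw (1 / 2) f))))) - LP4 (2 - k) a₁ a₂ b₁ b₂ S‖ ≤
      C₁ * (Real.exp (3 * rho A S) - 1 + Real.exp (-(l / 2))) * ‖LP4 (2 - k) a₁ a₂ b₁ b₂ S‖

/-- (7) comparison of the twisted and the untwisted shifted fourth moment in the random model -/
def StRA4 : Prop := ∀ η : ℝ, 0 < η → ∃ M₀ : ℕ, ∀ M : ℕ, M₀ ≤ M → ∃ κ₁ : ℝ, 0 < κ₁ ∧ κ₁ ≤ 1 / 10 ∧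
    ∃ T₀ : ℝ, 3 ≤ T₀ ∧ ∀ T, T₀ ≤ T → ∀ k : ℝ, |k - 2| ≤ κ₁ → ∀ a₁ a₂ b₁ b₂ : ℂ,
    ‖a₁‖ ≤ Real.exp (M / 2) / Real.log T → ‖a₂‖ ≤ Real.exp (M / 2) / Real.log T →
    ‖b₁‖ ≤ Real.exp (M / 2) / Real.log T → ‖b₂‖ ≤ Real.exp (M / 2) / Real.log T →
    ‖RZ4 T M (NN T M (k - 2)) a₁ a₂ b₁ b₂ -
        (((Real.log T) ^ (k ^ 2 - 4) : ℝ) : ℂ) * RZ4 T M (fun _ => 1) a₁ a₂ b₁ b₂‖ ≤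
      η * (Real.log T) ^ (k ^ 2 - 4) *
        (‖EP T (a₁ + b₁)‖ * ‖EP T (a₁ + b₂)‖ * ‖EP T (a₂ + b₁)‖ * ‖EP T (a₂ + b₂)‖)

/-- (8) crude fourth moment in the random model, with bad blocks -/
def StCore4 : Prop := ∃ C : ℝ, 0 < C ∧ ∃ M₀ : ℕ, 1 ≤ M₀ ∧ ∀ M : ℕ, M₀ ≤ M → ∃ T₀ : ℝ, 3 ≤ T₀ ∧
    ∀ T, T₀ ≤ T → ∀ k : ℝ, |k - 2| ≤ 1 / 10 → ∀ g h : Finset ℕ, g ∪ h = Finset.range (JJ T + 1) →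
    ∀ z : ℂ, 0 ≤ z.re →
    ER (SB T M (JJ T)) (fun f => ‖ZZ (PS 0 T) (tw ((1 / 2 : ℂ) + z / Real.log T) f)‖ ^ 4 *
        ‖AQ T M (JJ T) (k - 2) g h (tw (1 / 2) f)‖ ^ 2) ≤
      Real.exp (C * M) * (1 + ‖z‖) ^ 100 * (Real.log T) ^ (k ^ 2) *
        ∏ j ∈ h, Real.exp (-(20 * KK M (JJ T) j))

/-- (9) crude second moment of `N(k)` in the random model, with bad blocks -/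
def StSecQ : Prop := ∃ C : ℝ, 0 < C ∧ ∃ M₀ : ℕ, 1 ≤ M₀ ∧ ∀ M : ℕ, M₀ ≤ M → ∃ T₀ : ℝ, 3 ≤ T₀ ∧
    ∀ T, T₀ ≤ T → ∀ k : ℝ, |k - 2| ≤ 1 / 10 → ∀ g h : Finset ℕ, g ∪ h = Finset.range (JJ T + 1) →
    ER (SB T M (JJ T)) (fun f => ‖AQ T M (JJ T) k g h (tw (1 / 2) f)‖ ^ 2) ≤
      Real.exp (C * M) * (Real.log T) ^ (k ^ 2) * ∏ j ∈ h, Real.exp (-(20 * KK M (JJ T) j))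

/-- (10) our polynomials are short -/
def StLenQ : Prop := ∀ θ : ℝ, 0 < θ → ∃ M₀ : ℕ, ∀ M : ℕ, M₀ ≤ M → ∃ T₀ : ℝ, 3 ≤ T₀ ∧ ∀ T, T₀ ≤ T →
    ∀ α : ℝ, |α| ≤ 3 → ∀ g h : Finset ℕ, DP (T ^ θ) (T ^ θ) (AQ T M (JJ T) α g h)

/-- (11) Fourier representation of `SD` -/
def StRepD : Prop := ∀ δ : ℝ, 0 < δ → δ ≤ 1 / 8 → ∃ g : ℝ → ℂ, Continuous g ∧
    (∀ n : ℕ, Integrable (fun ξ : ℝ => ‖g ξ‖ * (1 + |ξ|) ^ n)) ∧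
    ∀ T : ℝ, 1 < T → ∀ (M J : ℕ) (w : ℂ), 0 < w.re →
      (∀ ω, SD δ T (tw w (XX (SB T M J) ω)) = ∫ ξ : ℝ, g ξ *
        ZZ (PS 0 T) (tw (w + (1 - 2 * Real.pi * ξ * I) / Real.log T) (XX (SB T M J) ω)) ^ 2) ∧
      ∀ B : (ℕ → ℂ) → ℂ, BC (SB T M J) B →
        Integrable (fun ξ : ℝ => g ξ * ER (SB T M J) (fun f =>
          ZZ (PS 0 T) (tw (w + (1 - 2 * Real.pi * ξ * I) / Real.log T) f) ^ 2 * B f)) ∧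
        ER (SB T M J) (fun f => SD δ T (tw w f) * B f) = ∫ ξ : ℝ, g ξ * ER (SB T M J) (fun f =>
          ZZ (PS 0 T) (tw (w + (1 - 2 * Real.pi * ξ * I) / Real.log T) f) ^ 2 * B f)

/-- (12a) the correlation with the short sum -/
def StSDZeta : Prop := ∀ δ η : ℝ, 0 < δ → δ ≤ 1 / 8 → 0 < η → ∃ M₀ : ℕ, ∀ M : ℕ, M₀ ≤ M →
    ∃ κ₁ : ℝ, 0 < κ₁ ∧ κ₁ ≤ 1 / 10 ∧ ∃ T₀ : ℝ, 3 ≤ T₀ ∧ ∀ T, T₀ ≤ T → ∀ k : ℝ, |k - 2| ≤ κ₁ →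
    ‖ER (SB T M (JJ T)) (fun f => ZZ (PS 0 T) (tw (1 / 2) f) ^ 2 *
        (starRingEnd ℂ) (SD δ T (tw (1 / 2) f)) *
        (NN T M (k - 2) (tw (1 / 2) f) * (starRingEnd ℂ) (NN T M (k - 2) (tw (1 / 2) f)))) -
      (((Real.log T) ^ (k ^ 2 - 4) *
        ∑ n ∈ Finset.Icc 1 ⌊T⌋₊, dv n ^ 2 * Pd δ (Real.log n / Real.log T) / n : ℝ) : ℂ)‖ ≤
      η * (Real.log T) ^ (k ^ 2)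

/-- (12b) the mean square of the short sum -/
def StSDSq : Prop := ∀ δ η : ℝ, 0 < δ → δ ≤ 1 / 8 → 0 < η → ∃ M₀ : ℕ, ∀ M : ℕ, M₀ ≤ M →
    ∃ κ₁ : ℝ, 0 < κ₁ ∧ κ₁ ≤ 1 / 10 ∧ ∃ T₀ : ℝ, 3 ≤ T₀ ∧ ∀ T, T₀ ≤ T → ∀ k : ℝ, |k - 2| ≤ κ₁ →
    |ER (SB T M (JJ T)) (fun f => ‖SD δ T (tw (1 / 2) f)‖ ^ 2 * ‖NN T M (k - 2) (tw (1 / 2) f)‖ ^ 2) -
      (Real.log T) ^ (k ^ 2 - 4) *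
        ∑ n ∈ Finset.Icc 1 ⌊T⌋₊, dv n ^ 2 * Pd δ (Real.log n / Real.log T) ^ 2 / n| ≤
      η * (Real.log T) ^ (k ^ 2)

/-- (13) the mean square of the short sum, with bad blocks -/
def StSDBad : Prop := ∀ δ : ℝ, 0 < δ → δ ≤ 1 / 8 → ∃ C : ℝ, 0 < C ∧ ∃ M₀ : ℕ, ∀ M : ℕ, M₀ ≤ M →
    ∃ T₀ : ℝ, 3 ≤ T₀ ∧ ∀ T, T₀ ≤ T → ∀ k : ℝ, |k - 2| ≤ 1 / 10 → ∀ g h : Finset ℕ,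
    g ∪ h = Finset.range (JJ T + 1) →
    ER (SB T M (JJ T)) (fun f => ‖SD δ T (tw (1 / 2) f)‖ ^ 2 *
        ‖AQ T M (JJ T) (k - 2) g h (tw (1 / 2) f)‖ ^ 2) ≤
      Real.exp (C * M) * (Real.log T) ^ (k ^ 2) * ∏ j ∈ h, Real.exp (-(20 * KK M (JJ T) j))

/-- (14) pointwise inequality for one block -/
def StPoint4 : Prop := ∀ (l m : ℕ) (K α : ℝ) (z : ℂ), 1 ≤ K → 10 * K ≤ l → (l : ℝ) ≤ 11 * K →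
    12 * K ≤ m → 0 ≤ α → α ≤ 1 / 10 →
    (1 - Real.exp (-K)) ^ 2 * ‖Ntr l α z‖ ^ 2 ≤
      (‖Ntr l α z‖ ^ 2 + ‖Ntr l α z * (z / K) ^ m‖ ^ 2) ^ (1 / 2 : ℝ) *
        (‖Ntr l (2 + α) z‖ ^ 2 + Real.exp (10 * K) * ‖(z / K) ^ m‖ ^ 2) ^ (α / (2 * (2 + α)))

/-- (15) from Gaussian means to the mean over `[0, T]` -/
def StAvgLow : Prop := ∀ δ : ℝ, 0 < δ → δ ≤ 1 / 8 → ∃ C T₀ : ℝ, 0 < C ∧ 3 ≤ T₀ ∧ ∀ T, T₀ ≤ T →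
    ∀ F : ℝ → ℝ, Continuous F → (∀ t, 0 ≤ F t) → (∀ t, F t ≤ T ^ 6 * (1 + |t|) ^ 6) → ∀ D : ℝ,
    0 ≤ D → (∀ τ : ℝ, T / Real.log T ≤ |τ| → |τ| ≤ 3 / 2 * T → D ≤ EG (Td δ T) τ F) →
    (1 - C / Real.log T) * D ≤ T⁻¹ * (∫ t in (0 : ℝ)..T, F t) + 1 / T

/-- (16) lower bound for each Gaussian mean -/
def StLowT : Prop := ∀ ε : ℝ, 0 < ε → ∃ δ : ℝ, 0 < δ ∧ δ ≤ 1 / 8 ∧ ∃ k₁ : ℝ, 2 < k₁ ∧ k₁ ≤ 21 / 10 ∧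
    ∃ T₀ : ℝ, 3 ≤ T₀ ∧ ∀ T, T₀ ≤ T → ∀ k : ℝ, 2 ≤ k → k ≤ k₁ → ∀ τ : ℝ, T / Real.log T ≤ |τ| →
    |τ| ≤ 3 / 2 * T →
    (1 - ε) * (1 / (2 * Real.pi ^ 2)) * (Real.log T) ^ (k ^ 2) ≤
      EG (Td δ T) τ (fun t => ‖riemannZeta (1 / 2 + t * I)‖ ^ (2 * k))

/-- (17) lower bound on `[0, T]` -/
def StLow : Prop := ∀ ε : ℝ, 0 < ε → ∃ k₁ : ℝ, 2 < k₁ ∧ ∃ T₀ : ℝ, 3 ≤ T₀ ∧ ∀ T, T₀ ≤ T →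
    ∀ k : ℝ, 2 ≤ k → k ≤ k₁ →
    (1 - ε) * (1 / (2 * Real.pi ^ 2)) * (Real.log T) ^ (k ^ 2) ≤
      T⁻¹ * ∫ t in (0 : ℝ)..T, ‖riemannZeta (1 / 2 + t * I)‖ ^ (2 * k)

/-- (18) the Keating-Snaith constant at `2` -/
def StCK2 : Prop := Tendsto cK (𝓝 2) (𝓝 (1 / (2 * Real.pi ^ 2)))

/-- (19) the final theorem -/
def StFinal : Prop := ∀ ε : ℝ, 0 < ε → ∃ k₁ : ℝ, 2 < k₁ ∧ ∃ T₀ : ℝ, 3 ≤ T₀ ∧ ∀ T, T₀ ≤ T →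
    ∀ k : ℝ, 2 ≤ k → k ≤ k₁ →
    1 - ε ≤ (T⁻¹ * ∫ t in (0 : ℝ)..T, ‖riemannZeta (1 / 2 + t * I)‖ ^ (2 * k)) /
      (cK k * (Real.log T) ^ (k ^ 2))

end K3
end Pool.Agent.Lib.MP_973905_nt
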