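import Pool.Agent.Lib.MP_973905_nt.K3.LowTA

/-!
K3, module (16): the lower bound for each Gaussian mean.
-/

namespace Pool.Agent.Lib.MP_973905_nt
namespace K3

open MeasureTheory ProbabilityTheory Complex Filter Topology K1 K1.Lower

namespace LowT

lemma n1 {q η : ℝ} (hq : 0 < q) (hη : 0 < η) :
    q * (1 - η) ≤ q * (1 - η / 2) - 4 * (q / 2 * η / 16) := by
  nlinarith [mul_pos hq hη]

lemma n2 {q η : ℝ} (hq : 0 < q) (hη : 0 < η) :
    q * (1 + η / 8) + 6 * (q / 2 * η / 16) ≤ q * (1 + η) := by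
  nlinarith [mul_pos hq hη]

lemma n3 {q η : ℝ} (hq1 : q ≤ 1) (hη : 0 < η) : q / 2 * η / 16 ≤ η := by
  nlinarith [mul_le_mul_of_nonneg_right hq1 hη.le]

lemma n4 {η : ℝ} (hη : 0 < η) : 1 - η / 2 ≤ (1 - η / 8) * (1 - 8 * (η / 32)) := by
  nlinarith [sq_nonneg η]

lemma n5 {δ : ℝ} (hδ : 0 < δ) (hδ8 : δ ≤ 1 / 8) : 1 - 8 * δ ≤ (1 - 2 * δ) ^ 4 := by
  have h := one_add_mul_le_pow (show (-2 : ℝ) ≤ -(2 * δ) by linarith) 4
  push_cast at h
  have e : (1 + -(2 * δ)) = 1 - 2 * δ := by ring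
  rw [e] at h
  linarith

lemma n6 {ε η : ℝ} (hε : 0 < ε) (hη : η = ε / 20) (hη1 : η ≤ 1 / 40) :
    (1 - ε) * (1 + η) < (1 - η) ^ 4 := by
  have hη0 : 0 < η := by rw [hη]; positivity
  have h := one_add_mul_le_pow (show (-2 : ℝ) ≤ -η by linarith) 4
  push_cast at h
  have e : (1 + -η) = 1 - η := by ring
  rw [e] at h
  have h8 : ε = 20 * η := by rw [hη]; ring
  have h7 : (1 - ε) * (1 + η) ≤ 1 - ε + η := by nlinarith [mul_pos hε hη0]
  linarith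

end LowT

open LowT in
/-- (16) lower bound for each Gaussian mean -/
theorem stLowT (h2 : StTransferZ2) (h3 : StCross2) (h4 : StDivSum) (h9 : StSecQ) (h10 : StLenQ)
    (h12a : StSDZeta) (h12b : StSDSq) (h13 : StSDBad) (h14 : StPoint4) : StLowT := by
  intro ε hε
  -- reduce to small `ε`
  wlog hε1 : ε ≤ 1 / 2 generalizing ε
  · push Not at hε1
    obtain ⟨δ, hδ, hδ8, k₁, hk₁, hk₁', T₀, hT₀, h⟩ := this (1 / 2) (by norm_num) le_rfl
    refine ⟨δ, hδ, hδ8, k₁, hk₁, hk₁', T₀, hT₀, fun T hT k hk hk1 τ hτ1 hτ2 => ?_⟩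
    refine le_trans ?_ (h T hT k hk hk1 τ hτ1 hτ2)
    have hT1 : 1 < T := by linarith
    have hL : 0 < Real.log T := Real.log_pos hT1
    gcongr
  set q : ℝ := 1 / (2 * Real.pi ^ 2) with hq
  have hq0 : 0 < q := by positivity
  have hqa : 1 / (4 * Real.pi ^ 2) = q / 2 := by rw [hq]; field_simp; norm_num
  set η : ℝ := ε / 20 with hη
  have hη0 : 0 < η := by positivity
  have hη1 : η ≤ 1 / 40 := by rw [hη]; linarith
  -- the numerical inequality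
  have hnum : ((1 - ε) * q) ^ (1 / 2 : ℝ) * (q * (1 + η)) ^ (1 / 2 : ℝ) < (1 - η) * (q * (1 - η)) := by
    have h1 : 0 < 1 - ε := by linarith
    have h1η : 0 < 1 - η := by linarith
    have hpos : 0 < (1 - η) * (q * (1 - η)) := mul_pos h1η (mul_pos hq0 h1η)
    rw [← Real.mul_rpow (by positivity) (by positivity), ← Real.sqrt_eq_rpow]
    rw [Real.sqrt_lt' hpos]
    have h5 : (1 - ε) * (1 + η) < (1 - η) ^ 4 := n6 hε hη hη1
    calc (1 - ε) * q * (q * (1 + η)) = q ^ 2 * ((1 - ε) * (1 + η)) := by ring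
      _ < q ^ 2 * (1 - η) ^ 4 := by gcongr
      _ = _ := by ring
  set a : ℝ := q / 2 with ha
  have ha0 : 0 < a := by positivity
  set η₁ : ℝ := a * η / 16 with hη₁
  have hη₁0 : 0 < η₁ := by positivity
  have hq1 : q ≤ 1 := by
    rw [hq, div_le_one (by positivity)]
    nlinarith [Real.pi_gt_three]
  have hη₁η : η₁ ≤ η := n3 hq1 hη0
  have hη₁1 : η₁ ≤ 1 := by linarith
  set δ : ℝ := η / 32 with hδd
  have hδ : 0 < δ := by positivity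
  have hδ8 : δ ≤ 1 / 8 := by rw [hδd]; linarith
  obtain ⟨θ₀, κ, Tc, hθ₀, hκ, hTc, hcr⟩ := h3 δ hδ hδ8
  set θ : ℝ := min θ₀ (δ / 4) with hθd
  have hθ : 0 < θ := lt_min hθ₀ (by positivity)
  have hθδ : θ ≤ δ / 4 := min_le_right _ _
  obtain ⟨C9, hC9, M9, -, h9⟩ := h9
  obtain ⟨C13, hC13, M13, h13⟩ := h13 δ hδ hδ8
  obtain ⟨M10, h10⟩ := h10 θ hθ
  obtain ⟨M12a, h12a⟩ := h12a δ η₁ hδ hδ8 hη₁0
  obtain ⟨M12b, h12b⟩ := h12b δ η₁ hδ hδ8 hη₁0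
  obtain ⟨M16, h16⟩ := evM C13 η₁ hC13 hη₁0 hη₁1
  set M : ℕ := M9 + M13 + M10 + M12a + M12b + M16 with hM
  obtain ⟨T9, hT9, h9⟩ := h9 M (by omega)
  obtain ⟨T13, hT13, h13⟩ := h13 M (by omega)
  obtain ⟨T10, hT10, h10⟩ := h10 M (by omega)
  obtain ⟨κa, hκa, hκa1, Ta, hTa, h12a⟩ := h12a M (by omega)
  obtain ⟨κb, hκb, hκb1, Tb, hTb, h12b⟩ := h12b M (by omega)
  have h16 := h16 M (by omega)
  obtain ⟨T2, hT2, h2⟩ := h2 δ hδ hδ8
  -- the range of `k`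
  set Ce : ℝ := 3 * Real.exp (C9 * M) with hCe
  have hCe0 : 0 < Ce := by positivity
  obtain ⟨k₀, hk₀, hk₀'⟩ := exists_k1 (C := Ce) (by linarith) hq0 hCe0 hnum
  set k₁ : ℝ := min k₀ (min (2 + κa) (2 + κb)) with hk₁
  have hk₁2 : 2 < k₁ := lt_min hk₀ (lt_min (by linarith) (by linarith))
  have hk₁a : k₁ ≤ 2 + κa := (min_le_right _ _).trans (min_le_left _ _)
  have hk₁b : k₁ ≤ 2 + κb := (min_le_right _ _).trans (min_le_right _ _)
  refine ⟨δ, hδ, hδ8, k₁, hk₁2, by linarith, ?_⟩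
  -- large `T`
  have hev := (((ev_str hδ 7 (show 0 < η₁ / 4 by positivity)).and
    (ev_str hδ 4 (show (0 : ℝ) < 1 by norm_num))).and ((ev_V M).and ev_2)).and
    (((K1.Lower.ev_neg_pow hκ (show 0 < η₁ / 2 by positivity)).and
      (K1.Lower.ev_neg_pow (show (0 : ℝ) < 2 by norm_num) hη₁0)).and
      ((sum_upper h4 (show 0 < a * η / 8 by positivity) δ).and
      (sum_lower h4 (show 0 < a * η / 8 by positivity) hδ hδ8)))
  obtain ⟨Te, hTe⟩ := eventually_atTop.1 hev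
  refine ⟨max (max (max T9 T13) (max T10 Ta)) (max (max Tb T2) (max Tc Te)), ?_, ?_⟩
  · exact hT9.trans ((le_max_left _ _).trans ((le_max_left _ _).trans (le_max_left _ _)))
  intro T hT k hk2 hkk τ hτ1 hτ2
  simp only [max_le_iff] at hT
  obtain ⟨⟨⟨hTT9, hTT13⟩, hTT10, hTTa⟩, ⟨hTTb, hTT2⟩, hTTc, hTTe⟩ := hT
  have hT3 : 3 ≤ T := hT9.trans hTT9
  have hT1 : 1 < T := by linarith
  have hT0 : 0 < T := by linarith
  have hL : 0 < Real.log T := Real.log_pos hT1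
  have hL1 : 1 ≤ Real.log T := by
    rw [Real.le_log_iff_exp_le hT0]
    linarith [Real.exp_one_lt_d9]
  obtain ⟨⟨⟨e7, e4⟩, eV, e2⟩, ⟨eκ, e22⟩, eU, eL⟩ := hTe T hTTe
  have hk0 : 0 < k := by linarith
  have hk21 : k ≤ 21 / 10 := by linarith
  have hka : |k - 2| ≤ κa := by rw [abs_of_nonneg (by linarith)]; linarith
  have hkb : |k - 2| ≤ κb := by rw [abs_of_nonneg (by linarith)]; linarith
  have hk10 : |k - 2| ≤ 1 / 10 := by linarith
  set Λ : ℝ := (Real.log T) ^ (k ^ 2) with hΛ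
  have hΛ1 : 1 ≤ Λ := K1.Lower.one_le_LL hT3
  have hΛ0 : 0 < Λ := by linarith
  have hdp : ∀ α : ℝ, |α| ≤ 3 → ∀ g h : Finset ℕ, DP (T ^ θ) (T ^ θ) (AQ T M (JJ T) α g h) :=
    h10 T hTT10
  have hα3 : |k - 2| ≤ 3 := by linarith
  have hk3 : |k| ≤ 3 := by rw [abs_of_pos hk0]; linarith
  have hdN : DP (T ^ θ) (T ^ θ) (NN T M (k - 2)) := by
    have := hdp (k - 2) hα3 (Finset.range (JJ T + 1)) ∅
    refine this.congr fun f _ => AQ_NN T M (k - 2) f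
  set e0 : ℝ := Real.exp (-(T ^ (δ / 4 : ℝ) / 2)) with he0
  have he00 : 0 < e0 := Real.exp_pos _
  have hT2e : T ^ (-2 : ℝ) ≤ η₁ := e22.trans (div_le_self hη₁0.le hL1)
  have hTκ : T ^ (-κ) ≤ η₁ / 2 := eκ.trans (div_le_self (by positivity) hL1)
  have h4L : (Real.log T) ^ (k ^ 2 - 4) * (Real.log T) ^ 4 = Λ := four_log hT1 k
  have hLk : 0 ≤ (Real.log T) ^ (k ^ 2 - 4) := Real.rpow_nonneg hL.le _
  -- (H1)
  set A1 : ℝ := (Real.log T) ^ (k ^ 2 - 4) *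
    ∑ n ∈ Finset.Icc 1 ⌊T⌋₊, dv n ^ 2 * Pd δ (Real.log n / Real.log T) / n with hA1
  have hA1l : a * (1 - η / 2) * Λ ≤ A1 := by
    rw [hqa] at eL
    have h5 : (a - a * η / 8) * ((1 - 2 * δ) * Real.log T) ^ 4 =
        (a - a * η / 8) * (1 - 2 * δ) ^ 4 * (Real.log T) ^ 4 := by ring
    rw [h5] at eL
    have h6 : 1 - 8 * δ ≤ (1 - 2 * δ) ^ 4 := n5 hδ hδ8
    have h7 : a * (1 - η / 2) ≤ (a - a * η / 8) * (1 - 2 * δ) ^ 4 := by
      have h8 : (1 - η / 8) * (1 - 8 * δ) ≤ (1 - η / 8) * (1 - 2 * δ) ^ 4 := by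
        apply mul_le_mul_of_nonneg_left h6; linarith
      have h9 : 1 - η / 2 ≤ (1 - η / 8) * (1 - 8 * δ) := n4 hη0
      calc a * (1 - η / 2) ≤ a * ((1 - η / 8) * (1 - 2 * δ) ^ 4) := by
            apply mul_le_mul_of_nonneg_left (h9.trans h8) ha0.le
        _ = _ := by ring
    calc a * (1 - η / 2) * Λ = (Real.log T) ^ (k ^ 2 - 4) * (a * (1 - η / 2) * (Real.log T) ^ 4) := by
          rw [← h4L]; ring
      _ ≤ (Real.log T) ^ (k ^ 2 - 4) * ((a - a * η / 8) * (1 - 2 * δ) ^ 4 * (Real.log T) ^ 4) := by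
          gcongr
      _ ≤ _ := by
          rw [hA1]
          exact mul_le_mul_of_nonneg_left eL hLk
  have hH1 := H1 (M := M) hδ hδ8 hT3 hθ hθδ (α := k - 2) (A := A1) (η := η₁) (Λ := Λ) hdN (τ := τ)
    (fun G H hG hH => h2 T hTT2 τ hτ1 hτ2 M G H hG hH) (h12a T hTTa k hka)
    (hT2e.trans (le_mul_of_one_le_right hη₁0.le hΛ1))
  have hA : q * (1 - η) * Λ ≤ 2 * (A1 - 2 * (η₁ * Λ)) := by
    have h5 : 2 * (a * (1 - η / 2) * Λ - 2 * (η₁ * Λ)) ≤ 2 * (A1 - 2 * (η₁ * Λ)) := by linarith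
    refine le_trans ?_ h5
    have h6 : 2 * (a * (1 - η / 2) * Λ - 2 * (η₁ * Λ)) = (q * (1 - η / 2) - 4 * η₁) * Λ := by
      rw [ha]; ring
    rw [h6]
    exact mul_le_mul_of_nonneg_right (n1 hq0 hη0) hΛ0.le
  -- (H2)
  set A2 : ℝ := (Real.log T) ^ (k ^ 2 - 4) *
    ∑ n ∈ Finset.Icc 1 ⌊T⌋₊, dv n ^ 2 * Pd δ (Real.log n / Real.log T) ^ 2 / n with hA2
  have hA2u : A2 ≤ a * (1 + η / 8) * Λ := by
    rw [hqa] at eU
    calc A2 ≤ (Real.log T) ^ (k ^ 2 - 4) * ((a + a * η / 8) * (Real.log T) ^ 4) := by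
          rw [hA2]
          exact mul_le_mul_of_nonneg_left eU hLk
      _ = a * (1 + η / 8) * ((Real.log T) ^ (k ^ 2 - 4) * (Real.log T) ^ 4) := by ring
      _ = _ := by rw [h4L]
  have hs12 := (abs_le.1 (h12b T hTTb k hkb)).2
  have hs12' : ER (SB T M (JJ T)) (fun f => ‖SD δ T (tw (1 / 2) f)‖ ^ 2 *
      ‖NN T M (k - 2) (tw (1 / 2) f)‖ ^ 2) ≤ a * (1 + η / 8) * Λ + η₁ * Λ := by linarith
  have hH2 := H2 (M := M) hδ hδ8 hT3 hθ hθδ (α := k - 2) (Λ := Λ) (C := Real.exp (C13 * M))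
    (hdp (k - 2) hα3) (τ := τ)
    (hcr T hTTc τ hτ1 hτ2 (NN T M (k - 2)) (hdN.mono
      (Real.rpow_le_rpow_of_exponent_le hT1.le (min_le_left _ _))
      (Real.rpow_le_rpow_of_exponent_le hT1.le (min_le_left _ _)))) hs12' (h13 T hTT13 k hk10)
  have hB : (2 * (a * (1 + η / 8) * Λ + η₁ * Λ + T ^ 6 * e0) + 2 * T ^ (-κ)) +
      4 * (Real.exp (C13 * M) * Λ) * (∏ j ∈ Finset.range (JJ T + 1),
        (1 + Real.exp (-(20 * KK M (JJ T) j))) - 1) +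
      2 ^ (Finset.range (JJ T + 1)).card * (4 * (T ^ 6 * e0)) ≤ q * (1 + η) * Λ := by
    have b1 : 4 * (Real.exp (C13 * M) * Λ) * (∏ j ∈ Finset.range (JJ T + 1),
        (1 + Real.exp (-(20 * KK M (JJ T) j))) - 1) ≤ η₁ * Λ := by
      have := mul_le_mul_of_nonneg_right (h16 (JJ T)).1 hΛ0.le
      linarith
    have b2 : (2 : ℝ) ^ (Finset.range (JJ T + 1)).card * (4 * (T ^ 6 * e0)) ≤ η₁ * Λ := by
      calc (2 : ℝ) ^ (Finset.range (JJ T + 1)).card * (4 * (T ^ 6 * e0)) ≤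
          T * (4 * (T ^ 6 * e0)) := by gcongr
        _ = 4 * (T ^ 7 * e0) := by ring
        _ ≤ 4 * (η₁ / 4) := by gcongr
        _ = η₁ * 1 := by ring
        _ ≤ η₁ * Λ := by gcongr
    have b3 : 2 * (T ^ 6 * e0) ≤ η₁ * Λ := by
      have h6 : T ^ 6 * e0 ≤ T ^ 7 * e0 := by
        apply mul_le_mul_of_nonneg_right _ he00.le
        exact pow_le_pow_right₀ hT1.le (by norm_num)
      calc 2 * (T ^ 6 * e0) ≤ 2 * (η₁ / 4) := by linarith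
        _ ≤ η₁ * 1 := by linarith
        _ ≤ η₁ * Λ := by gcongr
    have b4 : 2 * T ^ (-κ) ≤ η₁ * Λ := by
      calc 2 * T ^ (-κ) ≤ η₁ * 1 := by linarith
        _ ≤ η₁ * Λ := by gcongr
    have b5 : 2 * (a * (1 + η / 8) * Λ) + 6 * (η₁ * Λ) ≤ q * (1 + η) * Λ := by
      have h6 : 2 * (a * (1 + η / 8) * Λ) + 6 * (η₁ * Λ) = (q * (1 + η / 8) + 6 * η₁) * Λ := by
        rw [ha]; ring
      rw [h6]
      exact mul_le_mul_of_nonneg_right (n2 hq0 hη0) hΛ0.le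
    linarith
  -- (H3)
  have hH3 := H3 (M := M) (k := k) hδ hδ8 hT3 hθ hθδ (C := Real.exp (C9 * M)) (Λ := Λ) (hdp k hk3) τ
    (h9 T hTT9 k hk10)
  have hE : Real.exp (C9 * M) * Λ * ∏ j ∈ Finset.range (JJ T + 1),
      (1 + Real.exp (-(10 * KK M (JJ T) j))) + T ^ 2 * e0 *
        ∏ j ∈ Finset.range (JJ T + 1), (1 + Real.exp (10 * KK M (JJ T) j)) ≤ Ce * Λ := by
    have c1 := (h16 (JJ T)).2.2
    have c2 : T ^ 2 * e0 * ∏ j ∈ Finset.range (JJ T + 1), (1 + Real.exp (10 * KK M (JJ T) j)) ≤ 1 := by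
      calc T ^ 2 * e0 * ∏ j ∈ Finset.range (JJ T + 1), (1 + Real.exp (10 * KK M (JJ T) j)) ≤
          T ^ 2 * e0 * T ^ 2 := by gcongr
        _ = T ^ 4 * e0 := by ring
        _ ≤ 1 := e4
    have c3 : 1 ≤ Real.exp (C9 * M) := Real.one_le_exp (by positivity)
    have c4 : 1 ≤ Real.exp (C9 * M) * Λ := one_le_mul_of_one_le_of_one_le c3 hΛ1
    calc Real.exp (C9 * M) * Λ * ∏ j ∈ Finset.range (JJ T + 1),
          (1 + Real.exp (-(10 * KK M (JJ T) j))) + T ^ 2 * e0 *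
          ∏ j ∈ Finset.range (JJ T + 1), (1 + Real.exp (10 * KK M (JJ T) j))
        ≤ Real.exp (C9 * M) * Λ * 2 + 1 := by gcongr
      _ ≤ _ := by rw [hCe]; linarith
  -- conclusion
  by_contra hcon
  push Not at hcon
  have hX : 0 < (1 - ε) * q * Λ := mul_pos (mul_pos (by linarith) hq0) hΛ0
  have hmain := comb (δ := δ) (T := T) (k := k) (θ := θ) (M := M) h14 hδ hT3 hk2 hk21 hdp (τ := τ)
    (A := q * (1 - η) * Λ) (B := q * (1 + η) * Λ) (E := Ce * Λ) (X := (1 - ε) * q * Λ)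
    (mul_pos (mul_pos hq0 (by linarith)) hΛ0) (mul_pos hCe0 hΛ0) hX (hA.trans hH1)
    (hH2.trans hB) (hH3.trans hE) hcon.le
  have hc : 1 - η ≤ cM T M ^ 2 := by
    refine le_trans ?_ (h16 (JJ T)).2.1
    linarith
  have hfin := hk₀' k hk2 (hkk.trans (min_le_left _ _))
  have hsplit : ((1 - ε) * q * Λ) ^ (1 / k) * (q * (1 + η) * Λ) ^ (1 / 2 : ℝ) *
      (Ce * Λ) ^ ((k - 2) / (2 * k)) = (((1 - ε) * q) ^ (1 / k) * (q * (1 + η)) ^ (1 / 2 : ℝ) *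
      Ce ^ ((k - 2) / (2 * k))) * Λ := by
    rw [Real.mul_rpow (mul_pos (by linarith) hq0).le hΛ0.le,
      Real.mul_rpow (by positivity) hΛ0.le, Real.mul_rpow hCe0.le hΛ0.le]
    have h5 : Λ ^ (1 / k) * Λ ^ (1 / 2 : ℝ) * Λ ^ ((k - 2) / (2 * k)) = Λ := by
      rw [← Real.rpow_add hΛ0, ← Real.rpow_add hΛ0]
      have : 1 / k + 1 / 2 + (k - 2) / (2 * k) = 1 := by field_simp; ring
      rw [this, Real.rpow_one]
    calc _ = (((1 - ε) * q) ^ (1 / k) * (q * (1 + η)) ^ (1 / 2 : ℝ) * Ce ^ ((k - 2) / (2 * k))) *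
          (Λ ^ (1 / k) * Λ ^ (1 / 2 : ℝ) * Λ ^ ((k - 2) / (2 * k))) := by ring
      _ = _ := by rw [h5]
  rw [hsplit] at hmain
  have hlow : (1 - η) * (q * (1 - η) * Λ) ≤ cM T M ^ 2 * (q * (1 - η) * Λ) := by
    apply mul_le_mul_of_nonneg_right hc
    exact (mul_pos (mul_pos hq0 (by linarith)) hΛ0).le
  have h6 : (1 - η) * (q * (1 - η)) * Λ ≤ (((1 - ε) * q) ^ (1 / k) * (q * (1 + η)) ^ (1 / 2 : ℝ) *
      Ce ^ ((k - 2) / (2 * k))) * Λ := by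
    calc (1 - η) * (q * (1 - η)) * Λ = (1 - η) * (q * (1 - η) * Λ) := by ring
      _ ≤ _ := hlow.trans hmain
  have h7 := le_of_mul_le_mul_right h6 hΛ0
  linarith

end K3
end Pool.Agent.Lib.MP_973905_nt
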