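import Pool.Agent.Lib.MP_973905_nt.K3.Stmts

/-! Pointwise inequality for one block, module (14) of K3. -/

namespace Pool.Agent.Lib.MP_973905_nt
namespace K3

open MeasureTheory ProbabilityTheory Complex Filter Topology K1

namespace Pt4

lemma norm_Ntr_le_sum (l : ℕ) {α : ℝ} (hα : 0 ≤ α) (z : ℂ) :
    ‖Ntr l α z‖ ≤ ∑ i ∈ Finset.range (l + 1), (α * ‖z‖) ^ i / i.factorial := by
  refine (norm_sum_le _ _).trans (Finset.sum_le_sum fun i _ => ?_)
  rw [norm_div, norm_pow, norm_natCast, norm_mul, norm_real, Real.norm_eq_abs, abs_of_nonneg hα]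

lemma norm_Ntr_le_exp (l : ℕ) {α : ℝ} (hα : 0 ≤ α) (z : ℂ) :
    ‖Ntr l α z‖ ≤ Real.exp (α * ‖z‖) :=
  (norm_Ntr_le_sum l hα z).trans (Real.sum_le_exp_of_nonneg (by positivity) _)

lemma Ntr_k_lower (l : ℕ) {K k : ℝ} (hK : 1 ≤ K) (hl : 10 * K ≤ l) (hk0 : 0 ≤ k)
    (hk1 : k ≤ 21 / 10) {z : ℂ} (hz : ‖z‖ ≤ K) :
    (1 - Real.exp (-K)) * Real.exp (k * z.re) ≤ ‖Ntr l k z‖ := by
  have h1 := norm_exp_sub_sum_le_exp_norm_sub_sum ((k : ℂ) * z) (l + 1)
  have h2 := exp_tail (l + 1) (norm_nonneg ((k : ℂ) * z))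
  have h3 : ‖(k : ℂ) * z‖ ≤ 21 / 10 * K := by
    rw [norm_mul, norm_real, Real.norm_eq_abs, abs_of_nonneg hk0]
    exact mul_le_mul hk1 hz (norm_nonneg _) (by norm_num)
  have h4 : ‖cexp ((k : ℂ) * z)‖ = Real.exp (k * z.re) := by
    rw [norm_exp, re_ofReal_mul]
  have h5 : Real.exp (-((l + 1 : ℕ) : ℝ)) * Real.exp (3 * ‖(k : ℂ) * z‖) ≤
      Real.exp (-K) * Real.exp (k * z.re) := by
    rw [← Real.exp_add, ← Real.exp_add]
    apply Real.exp_le_exp.mpr
    have h6 : -(21 / 10 * K) ≤ k * z.re := by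
      have h7 : |k * z.re| ≤ 21 / 10 * K := by
        rw [abs_mul, abs_of_nonneg hk0]
        exact mul_le_mul hk1 ((abs_re_le_norm z).trans hz) (abs_nonneg _) (by norm_num)
      linarith [neg_abs_le (k * z.re)]
    push_cast
    linarith
  have h8 : ‖cexp ((k : ℂ) * z) - Ntr l k z‖ ≤ Real.exp (-K) * Real.exp (k * z.re) :=
    (h1.trans h2).trans h5
  have h9 := norm_sub_norm_le (cexp ((k : ℂ) * z)) (Ntr l k z)
  rw [h4] at h9
  linarith

lemma rpow_sq_half {x : ℝ} (hx : 0 ≤ x) : (x ^ 2) ^ (1 / 2 : ℝ) = x := by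
  rw [← Real.sqrt_eq_rpow, Real.sqrt_sq hx]

end Pt4

open Pt4 in
theorem stPoint4 : StPoint4 := by
  intro l m K α z hK hl1 hl2 hm hα0 hα1
  have hK0 : 0 < K := by linarith
  have he0 : 0 < Real.exp (-K) := Real.exp_pos _
  have he1 : Real.exp (-K) < 1 := by
    rw [Real.exp_lt_one_iff]; linarith
  set N : ℝ := ‖Ntr l α z‖ with hN
  have hN0 : 0 ≤ N := norm_nonneg _
  set Q : ℝ := ‖(z / K) ^ m‖ with hQ
  have hQ0 : 0 ≤ Q := norm_nonneg _
  have hk : 0 < 2 + α := by linarith
  have hex0 : 0 ≤ α / (2 * (2 + α)) := by positivity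
  have hfac1 : N ≤ (N ^ 2 + ‖Ntr l α z * (z / K) ^ m‖ ^ 2) ^ (1 / 2 : ℝ) := by
    calc N = (N ^ 2) ^ (1 / 2 : ℝ) := (rpow_sq_half hN0).symm
      _ ≤ _ := by
          apply Real.rpow_le_rpow (by positivity) _ (by norm_num)
          exact le_add_of_nonneg_right (by positivity)
  have hQval : Q = (‖z‖ / K) ^ m := by
    rw [hQ, norm_pow, norm_div, norm_real, Real.norm_eq_abs, abs_of_pos hK0]
  have hone : (1 - Real.exp (-K)) ^ 2 * N ^ 2 ≤ N * N := by
    have : (1 - Real.exp (-K)) ^ 2 ≤ 1 := by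
      apply pow_le_one₀ (by linarith) (by linarith)
    nlinarith [mul_nonneg hN0 hN0]
  rcases le_or_gt ‖z‖ K with hz | hz
  · -- small `z`
    have h1 := (Ntr_ratio l (α := α) (by rw [abs_of_nonneg hα0]; linarith) hK hl1 hz).2
    have h2 := Ntr_k_lower l hK hl1 (k := 2 + α) (by linarith) (by linarith) hz
    rw [← hN] at h1
    have h3 : (1 - Real.exp (-K)) * Real.exp (α * z.re) ≤
        (‖Ntr l (2 + α : ℝ) z‖ ^ 2 + Real.exp (10 * K) * Q ^ 2) ^ (α / (2 * (2 + α))) := by
      have h4 : ((1 - Real.exp (-K)) * Real.exp ((2 + α) * z.re)) ^ 2 ≤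
          ‖Ntr l (2 + α : ℝ) z‖ ^ 2 + Real.exp (10 * K) * Q ^ 2 := by
        have := pow_le_pow_left₀ (mul_nonneg (by linarith) (Real.exp_pos _).le) h2 2
        have h5 : 0 ≤ Real.exp (10 * K) * Q ^ 2 := by positivity
        linarith
      refine le_trans ?_ (Real.rpow_le_rpow (by positivity) h4 hex0)
      rw [mul_pow, Real.mul_rpow (by positivity) (by positivity)]
      have h6 : (Real.exp ((2 + α) * z.re) ^ 2) ^ (α / (2 * (2 + α))) = Real.exp (α * z.re) := by
        rw [← Real.exp_nat_mul, ← Real.exp_mul]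
        congr 1
        push_cast
        field_simp
      rw [h6]
      have h7 : 1 - Real.exp (-K) ≤ ((1 - Real.exp (-K)) ^ 2) ^ (α / (2 * (2 + α))) := by
        rw [← Real.rpow_natCast, ← Real.rpow_mul (by linarith)]
        have h8 : ((2 : ℕ) : ℝ) * (α / (2 * (2 + α))) ≤ 1 := by
          push_cast
          rw [mul_div_assoc', div_le_one (by positivity)]
          linarith
        calc 1 - Real.exp (-K) = (1 - Real.exp (-K)) ^ (1 : ℝ) := (Real.rpow_one _).symm
          _ ≤ _ := Real.rpow_le_rpow_of_exponent_ge (by linarith) (by linarith) h8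
      exact mul_le_mul_of_nonneg_right h7 (Real.exp_pos _).le
    have h9 : (1 - Real.exp (-K)) ^ 2 * N ≤ (1 - Real.exp (-K)) * Real.exp (α * z.re) := by
      have h10 : (1 - Real.exp (-K)) * N ≤ Real.exp (α * z.re) := by
        calc (1 - Real.exp (-K)) * N ≤
            (1 - Real.exp (-K)) * ((1 + Real.exp (-K)) * Real.exp (α * z.re)) :=
              mul_le_mul_of_nonneg_left h1 (by linarith)
          _ = (1 - Real.exp (-K) ^ 2) * Real.exp (α * z.re) := by ring
          _ ≤ 1 * Real.exp (α * z.re) := by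
              apply mul_le_mul_of_nonneg_right _ (Real.exp_pos _).le
              nlinarith [sq_nonneg (Real.exp (-K))]
          _ = _ := one_mul _
      calc (1 - Real.exp (-K)) ^ 2 * N = (1 - Real.exp (-K)) * ((1 - Real.exp (-K)) * N) := by ring
        _ ≤ _ := mul_le_mul_of_nonneg_left h10 (by linarith)
    calc (1 - Real.exp (-K)) ^ 2 * N ^ 2 = N * ((1 - Real.exp (-K)) ^ 2 * N) := by ring
      _ ≤ _ := mul_le_mul hfac1 (h9.trans h3) (by positivity) (le_trans hN0 hfac1)
  · have hQ1 : 1 ≤ Q := by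
      rw [hQval]
      exact one_le_pow₀ ((one_le_div hK0).2 hz.le)
    have hbase : Real.exp (10 * K) ≤
        ‖Ntr l (2 + α : ℝ) z‖ ^ 2 + Real.exp (10 * K) * Q ^ 2 := by
      have h1 : 1 ≤ Q ^ 2 := one_le_pow₀ hQ1
      have h2 : Real.exp (10 * K) * 1 ≤ Real.exp (10 * K) * Q ^ 2 :=
        mul_le_mul_of_nonneg_left h1 (Real.exp_pos _).le
      have h3 : 0 ≤ ‖Ntr l (2 + α : ℝ) z‖ ^ 2 := by positivity
      linarith
    rcases le_or_gt ‖z‖ (2 * K) with hz2 | hz2
    · have h1 : N ≤ Real.exp (α * (2 * K)) :=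
        (norm_Ntr_le_exp l hα0 z).trans (Real.exp_le_exp.mpr (mul_le_mul_of_nonneg_left hz2 hα0))
      have h2 : N ≤ (‖Ntr l (2 + α : ℝ) z‖ ^ 2 + Real.exp (10 * K) * Q ^ 2) ^
          (α / (2 * (2 + α))) := by
        refine h1.trans (le_trans ?_ (Real.rpow_le_rpow (Real.exp_pos _).le hbase hex0))
        rw [← Real.exp_mul]
        apply Real.exp_le_exp.mpr
        rw [mul_div_assoc', le_div_iff₀ (by positivity)]
        have : 0 ≤ α * K := by positivity
        nlinarith
      exact hone.trans (mul_le_mul hfac1 h2 hN0 (le_trans hN0 hfac1))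
    · have hlam : 2 ≤ ‖z‖ / K := by rw [le_div_iff₀ hK0]; exact hz2.le
      have hlm : l ≤ m := by
        have : (l : ℝ) ≤ m := by linarith
        exact_mod_cast this
      have h1 : N ≤ Q := by
        have h2 : N ≤ (‖z‖ / K) ^ l * Real.exp (α * K) := by
          refine (norm_Ntr_le_sum l hα0 z).trans ?_
          calc ∑ i ∈ Finset.range (l + 1), (α * ‖z‖) ^ i / i.factorial
              ≤ ∑ i ∈ Finset.range (l + 1), (‖z‖ / K) ^ l * ((α * K) ^ i / i.factorial) := by
                refine Finset.sum_le_sum fun i hi => ?_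
                have hi' : i ≤ l := by
                  have := Finset.mem_range.1 hi
                  omega
                have h3 : α * ‖z‖ = (‖z‖ / K) * (α * K) := by field_simp
                rw [h3, mul_pow, mul_div_assoc]
                apply mul_le_mul_of_nonneg_right _ (by positivity)
                exact pow_le_pow_right₀ (by linarith) hi'
            _ = (‖z‖ / K) ^ l * ∑ i ∈ Finset.range (l + 1), ((α * K) ^ i / i.factorial) := by
                rw [Finset.mul_sum]
            _ ≤ _ := by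
                apply mul_le_mul_of_nonneg_left _ (by positivity)
                exact Real.sum_le_exp_of_nonneg (by positivity) _
        have h4 : Real.exp (α * K) ≤ (‖z‖ / K) ^ (m - l) := by
          have h5 : K ≤ ((m - l : ℕ) : ℝ) := by
            rw [Nat.cast_sub hlm]
            linarith
          have h6 : (2 : ℝ) ^ (m - l) ≤ (‖z‖ / K) ^ (m - l) :=
            pow_le_pow_left₀ (by norm_num) hlam _
          refine le_trans ?_ h6
          have h7 : Real.exp (α * K) ≤ Real.exp (((m - l : ℕ) : ℝ) * Real.log 2) := by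
            apply Real.exp_le_exp.mpr
            have := Real.log_two_gt_d9
            nlinarith
          refine h7.trans (le_of_eq ?_)
          rw [Real.exp_nat_mul, Real.exp_log (by norm_num)]
        rw [hQval]
        calc N ≤ (‖z‖ / K) ^ l * Real.exp (α * K) := h2
          _ ≤ (‖z‖ / K) ^ l * (‖z‖ / K) ^ (m - l) :=
              mul_le_mul_of_nonneg_left h4 (by positivity)
          _ = (‖z‖ / K) ^ m := by rw [← pow_add, Nat.add_sub_cancel' hlm]
      have h2 : N * Q ≤ (N ^ 2 + ‖Ntr l α z * (z / K) ^ m‖ ^ 2) ^ (1 / 2 : ℝ) := by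
        calc N * Q = ((N * Q) ^ 2) ^ (1 / 2 : ℝ) := (rpow_sq_half (by positivity)).symm
          _ ≤ _ := by
              apply Real.rpow_le_rpow (by positivity) _ (by norm_num)
              rw [norm_mul, ← hN, ← hQ]
              exact le_add_of_nonneg_left (by positivity)
      have h3 : 1 ≤ (‖Ntr l (2 + α : ℝ) z‖ ^ 2 + Real.exp (10 * K) * Q ^ 2) ^
          (α / (2 * (2 + α))) := by
        refine le_trans ?_ (Real.rpow_le_rpow (Real.exp_pos _).le hbase hex0)
        rw [← Real.exp_mul]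
        apply Real.one_le_exp
        positivity
      calc (1 - Real.exp (-K)) ^ 2 * N ^ 2 ≤ N * N := hone
        _ ≤ (N * Q) * 1 := by rw [mul_one]; exact mul_le_mul_of_nonneg_left h1 hN0
        _ ≤ _ := mul_le_mul h2 h3 zero_le_one (le_trans (by positivity) h2)

end K3
end Pool.Agent.Lib.MP_973905_nt
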