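import Pool.Agent.Lib.MP_973905_nt.K3.Stmts
import Pool.Agent.Lib.MP_973905_nt.K3.TransferZ2
import Pool.Agent.Lib.MP_973905_nt.K3.SDBad
import Pool.Agent.Lib.MP_973905_nt.K1.SHFourier

/-! Module (12) of K3: the correlation of the square of the Euler product with the short sum, and the
mean square of the short sum. -/

namespace Pool.Agent.Lib.MP_973905_nt
namespace K3

open MeasureTheory ProbabilityTheory Complex Filter Topology K1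

namespace SDM

open SDB K1.SHF

lemma EP_eq (T : ℝ) (a : ℂ) : EP T a = K1.SHF.EE T a := rfl

lemma Ntr_zero (l : ℕ) (z : ℂ) : Ntr l 0 z = 1 := by
  rw [Ntr, Finset.sum_eq_single 0]
  · simp
  · intro i _ hi
    simp [hi]
  · intro h
    simp at h

lemma AQ_zero (T : ℝ) (M : ℕ) (g : Finset ℕ) (f : ℕ → ℂ) : AQ T M (JJ T) 0 g ∅ f = 1 := by
  rw [AQ]
  refine Finset.prod_eq_one fun j _ => ?_
  rw [Fq]
  simp [Ntr_zero]

/-- Crude bound for the shifted moments with two pairs of equal shifts. -/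
lemma crude4 {T : ℝ} {M : ℕ} (hT1 : 1 < T) {G : (ℕ → ℂ) → ℂ}
    (bG : BC (SB T M (JJ T)) (fun f => G (tw (1 / 2) f))) {E : ℝ} {z w : ℂ} (hz : 0 ≤ z.re)
    (hw : 0 ≤ w.re) (hE : 0 ≤ E)
    (cr : ∀ z : ℂ, 0 ≤ z.re →
      ER (SB T M (JJ T)) (fun f => ‖ZZ (PS 0 T) (tw ((1 / 2 : ℂ) + z / Real.log T) f)‖ ^ 4 *
        ‖G (tw (1 / 2) f)‖ ^ 2) ≤ E * (1 + ‖z‖) ^ 100) :
    ‖RZ4 T M G (z / Real.log T) (z / Real.log T) (w / Real.log T) (w / Real.log T)‖ ≤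
      E * ((1 + ‖z‖) * (1 + ‖w‖)) ^ 100 := by
  have hL : 0 < Real.log T := Real.log_pos hT1
  have c1 := cr z hz
  have c2 := cr ((starRingEnd ℂ) w) (by simpa using hw)
  rw [RCLike.norm_conj] at c2
  set L := Real.log T with hLd
  set Sb := SB T M (JJ T) with hSb
  set N : (ℕ → ℂ) → ℂ := fun f => G (tw (1 / 2) f) with hN
  set Z₁ : (ℕ → ℂ) → ℂ := fun f => ZZ (PS 0 T) (tw ((1 / 2 : ℂ) + z / L) f) with hZ₁
  set Z₂ : (ℕ → ℂ) → ℂ := fun f => ZZ (PS 0 T) (tw ((1 / 2 : ℂ) + (starRingEnd ℂ) w / L) f) with hZ₂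
  have b1 : BC Sb Z₁ := bc_ZZ (fun p hp => XB.prime_PS hp) (by
    rw [add_re, div_ofReal_re]
    have : 0 ≤ z.re / L := by positivity
    norm_num
    linarith)
  have b2 : BC Sb Z₂ := bc_ZZ (fun p hp => XB.prime_PS hp) (by
    rw [add_re, div_ofReal_re, conj_re]
    have : 0 ≤ w.re / L := by positivity
    norm_num
    linarith)
  have hconj : (starRingEnd ℂ) (w / (L : ℂ)) = (starRingEnd ℂ) w / (L : ℂ) := by
    rw [map_div₀, conj_ofReal]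
  have e1 : RZ4 T M G (z / L) (z / L) (w / L) (w / L) =
      ER Sb (fun f => Z₁ f * Z₁ f * (starRingEnd ℂ) (Z₂ f * Z₂ f) *
        (N f * (starRingEnd ℂ) (N f))) := by
    rw [RZ4, hconj]
  have i1 : Integrable (fun ω => ‖Z₁ (XX Sb ω)‖ ^ 4 * ‖N (XX Sb ω)‖ ^ 2) (PP0 Sb) := by
    refine (((b1.mul b1).mul bG).norm_sq.integrable).congr (Filter.Eventually.of_forall fun ω => ?_)
    simp only [norm_mul, mul_pow]
    ring
  have i2 : Integrable (fun ω => ‖Z₂ (XX Sb ω)‖ ^ 4 * ‖N (XX Sb ω)‖ ^ 2) (PP0 Sb) := by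
    refine (((b2.mul b2).mul bG).norm_sq.integrable).congr (Filter.Eventually.of_forall fun ω => ?_)
    simp only [norm_mul, mul_pow]
    ring
  have h1 : ‖RZ4 T M G (z / L) (z / L) (w / L) (w / L)‖ ≤
      (ER Sb (fun f => ‖Z₁ f‖ ^ 4 * ‖N f‖ ^ 2) + ER Sb (fun f => ‖Z₂ f‖ ^ 4 * ‖N f‖ ^ 2)) / 2 := by
    rw [e1, ER_eq, ER_eq, ER_eq, ← integral_add i1 i2, ← integral_div]
    refine (norm_integral_le_integral_norm _).trans ?_
    refine integral_mono_of_nonneg (Filter.Eventually.of_forall fun ω => norm_nonneg _)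
      ((i1.add i2).div_const _) (Filter.Eventually.of_forall fun ω => ?_)
    simp only [norm_mul, RCLike.norm_conj]
    set a := ‖Z₁ (XX Sb ω)‖
    set b := ‖Z₂ (XX Sb ω)‖
    set n := ‖N (XX Sb ω)‖
    have h2 : a ^ 2 * b ^ 2 ≤ (a ^ 4 + b ^ 4) / 2 := by nlinarith [sq_nonneg (a ^ 2 - b ^ 2)]
    calc a * a * (b * b) * (n * n) = (a ^ 2 * b ^ 2) * n ^ 2 := by ring
      _ ≤ ((a ^ 4 + b ^ 4) / 2) * n ^ 2 := by gcongr
      _ = _ := by ring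
  refine h1.trans ?_
  have hp1 : 1 ≤ (1 + ‖z‖) ^ 100 := one_le_pow₀ (by linarith [norm_nonneg z])
  have hp2 : 1 ≤ (1 + ‖w‖) ^ 100 := one_le_pow₀ (by linarith [norm_nonneg w])
  rw [mul_pow]
  generalize (1 + ‖z‖) ^ 100 = u at hp1 c1 ⊢
  generalize (1 + ‖w‖) ^ 100 = v at hp2 c2 ⊢
  have h3 : u ≤ u * v := le_mul_of_one_le_right (by linarith) hp2
  have h4 : v ≤ u * v := le_mul_of_one_le_left (by linarith) hp1
  have h5 : E * u ≤ E * (u * v) := mul_le_mul_of_nonneg_left h3 hE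
  have h6 : E * v ≤ E * (u * v) := mul_le_mul_of_nonneg_left h4 hE
  linarith

/-- Comparison of the shifted moments with and without the polynomial, all shifts. -/
lemma keyD (h7 : StRA4) (h8 : StCore4) : ∃ A : ℕ, ∀ η : ℝ, 0 < η → ∃ M₀ : ℕ, 1 ≤ M₀ ∧
    ∀ M : ℕ, M₀ ≤ M → ∃ κ₁ : ℝ, 0 < κ₁ ∧ κ₁ ≤ 1 / 10 ∧ ∃ T₀ : ℝ, 3 ≤ T₀ ∧ ∀ T, T₀ ≤ T →
    ∀ k : ℝ, |k - 2| ≤ κ₁ → ∀ z w : ℂ, 0 ≤ z.re → 0 ≤ w.re →
    ‖RZ4 T M (NN T M (k - 2)) (z / Real.log T) (z / Real.log T) (w / Real.log T)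
        (w / Real.log T) - (((Real.log T) ^ (k ^ 2 - 4) : ℝ) : ℂ) *
      RZ4 T M (fun _ => 1) (z / Real.log T) (z / Real.log T) (w / Real.log T) (w / Real.log T)‖ ≤
      η * (Real.log T) ^ (k ^ 2) * ((1 + ‖z‖) ^ A * (1 + ‖w‖) ^ A) := by
  obtain ⟨C, hC, Mc, hMc, cr⟩ := h8
  obtain ⟨C₀, hC₀, hEE⟩ := EE_le
  set q := ⌈C⌉₊ with hq
  have hqC : C ≤ q := Nat.le_ceil C
  refine ⟨100 + (2 * q + 2), fun η hη => ?_⟩
  obtain ⟨Mr, ra⟩ := h7 (η / C₀ ^ 4) (by positivity)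
  obtain ⟨Me, hMe⟩ := exists_nat_ge (Real.log (2 / η))
  refine ⟨max Mc (max Mr Me), hMc.trans (le_max_left _ _), fun M hM => ?_⟩
  have hM1 : Mc ≤ M := (le_max_left _ _).trans hM
  have hM2 : Mr ≤ M := ((le_max_left _ _).trans (le_max_right _ _)).trans hM
  have hM3 : Me ≤ M := ((le_max_right _ _).trans (le_max_right _ _)).trans hM
  obtain ⟨κ₁, hκ₁, hκ₁1, Tr, hTr, ra⟩ := ra M hM2
  obtain ⟨Tc, hTc, cr⟩ := cr M hM1
  refine ⟨κ₁, hκ₁, hκ₁1, max Tr Tc, hTr.trans (le_max_left _ _), fun T hT k hk z w hz hw => ?_⟩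
  have hTTr : Tr ≤ T := (le_max_left _ _).trans hT
  have hTTc : Tc ≤ T := (le_max_right _ _).trans hT
  have hT3 : 3 ≤ T := hTr.trans hTTr
  have hT1 : 1 < T := by linarith
  have hL : 0 < Real.log T := Real.log_pos hT1
  have hk10 : |k - 2| ≤ 1 / 10 := hk.trans hκ₁1
  have ra := ra T hTTr k hk (z / Real.log T) (z / Real.log T) (w / Real.log T) (w / Real.log T)
  -- the two crude bounds
  have crN := cr T hTTc k hk10 (Finset.range (JJ T + 1)) ∅ (by simp)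
  have cr1 := cr T hTTc 2 (by norm_num) (Finset.range (JJ T + 1)) ∅ (by simp)
  simp only [Finset.prod_empty, mul_one, sub_self, AQ_zero] at crN cr1
  simp only [AQ_NN] at crN
  set L := Real.log T with hLd
  have hre : 0 ≤ (z / (L : ℂ) + w / (L : ℂ)).re := by
    rw [add_re, div_ofReal_re, div_ofReal_re]
    positivity
  have hEE := hEE T hT3 (z / L + w / L) hre
  have hLk : L ^ (k ^ 2 - 4) * L ^ 4 = L ^ (k ^ 2) := by
    rw [← Real.rpow_natCast L 4, ← Real.rpow_add hL]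
    congr 1
    push_cast
    ring
  have hLk0 : 0 < L ^ (k ^ 2 - 4) := Real.rpow_pos_of_pos hL _
  have hLk2 : 0 < L ^ (k ^ 2) := Real.rpow_pos_of_pos hL _
  have hu1 : 1 ≤ 1 + ‖z‖ := by linarith [norm_nonneg z]
  have hu2 : 1 ≤ 1 + ‖w‖ := by linarith [norm_nonneg w]
  set A := 100 + (2 * q + 2) with hA
  set P := (1 + ‖z‖) * (1 + ‖w‖) with hP
  have hP1 : 1 ≤ P := one_le_mul_of_one_le_of_one_le hu1 hu2
  have hPA : (1 + ‖z‖) ^ A * (1 + ‖w‖) ^ A = P ^ A := by rw [hP, mul_pow]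
  rw [hPA]
  by_cases hcase : ‖z‖ ≤ Real.exp (M / 2) ∧ ‖w‖ ≤ Real.exp (M / 2)
  · have n1 : ‖z / (L : ℂ)‖ ≤ Real.exp (M / 2) / L := by
      rw [norm_div, norm_real, Real.norm_eq_abs, abs_of_pos hL]
      gcongr
      exact hcase.1
    have n2 : ‖w / (L : ℂ)‖ ≤ Real.exp (M / 2) / L := by
      rw [norm_div, norm_real, Real.norm_eq_abs, abs_of_pos hL]
      gcongr
      exact hcase.2
    have ra := ra n1 n1 n2 n2
    rw [EP_eq] at ra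
    refine ra.trans ?_
    calc η / C₀ ^ 4 * L ^ (k ^ 2 - 4) * (‖EE T (z / L + w / L)‖ * ‖EE T (z / L + w / L)‖ *
          ‖EE T (z / L + w / L)‖ * ‖EE T (z / L + w / L)‖)
        = η / C₀ ^ 4 * L ^ (k ^ 2 - 4) * ‖EE T (z / L + w / L)‖ ^ 4 := by ring
      _ ≤ η / C₀ ^ 4 * L ^ (k ^ 2 - 4) * (C₀ * L) ^ 4 := by gcongr
      _ = η * (L ^ (k ^ 2 - 4) * L ^ 4) := by field_simp
      _ = η * L ^ (k ^ 2) := by rw [hLk]
      _ ≤ _ := le_mul_of_one_le_right (by positivity) (one_le_pow₀ hP1)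
  · have hbig : Real.exp (M / 2) ≤ P := by
      rw [not_and_or, not_le, not_le] at hcase
      rcases hcase with h | h
      · calc Real.exp (M / 2) ≤ ‖z‖ := h.le
          _ ≤ (1 + ‖z‖) * 1 := by linarith
          _ ≤ P := by rw [hP]; gcongr
      · calc Real.exp (M / 2) ≤ ‖w‖ := h.le
          _ ≤ 1 * (1 + ‖w‖) := by linarith
          _ ≤ P := by rw [hP]; gcongr
    clear_value P
    have h1 : Real.exp (C * M) * Real.exp M ≤ P ^ (2 * q + 2) := by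
      calc Real.exp (C * M) * Real.exp M = Real.exp ((C + 1) * M) := by
            rw [← Real.exp_add]; congr 1; ring
        _ ≤ Real.exp (((2 * q + 2 : ℕ) : ℝ) * (M / 2)) := by
            apply Real.exp_le_exp.2
            push_cast
            have : (C + 1) * M ≤ (q + 1) * M := by gcongr
            linarith
        _ = Real.exp (M / 2) ^ (2 * q + 2) := by rw [Real.exp_nat_mul]
        _ ≤ _ := pow_le_pow_left₀ (Real.exp_pos _).le hbig _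
    have h2 : 2 ≤ η * Real.exp M := by
      have h3 : Real.log (2 / η) ≤ M := hMe.trans (by exact_mod_cast hM3)
      have h4 : 2 / η ≤ Real.exp M := by
        rw [← Real.exp_log (show 0 < 2 / η by positivity)]
        exact Real.exp_le_exp.2 h3
      rw [div_le_iff₀ hη] at h4
      linarith
    have hα : |k - 2| ≤ 1 := by linarith
    have bN : BC (SB T M (JJ T)) (fun f => NN T M (k - 2) (tw (1 / 2) f)) :=
      bc_NN hT1 (hMc.trans hM1) hα (by norm_num)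
    have cN := crude4 hT1 bN hz hw (E := Real.exp (C * M) * L ^ (k ^ 2)) (by positivity)
      (fun z hz => (crN z hz).trans_eq (mul_right_comm _ _ _))
    rw [← hP] at cN
    have c1 := crude4 (G := fun _ => 1) (M := M) hT1 (bc_const 1) hz hw
      (E := Real.exp (C * M) * L ^ 4) (by positivity)
      (fun z hz => by
        have h5 := cr1 z hz
        rw [show ((2 : ℝ) ^ 2) = ((4 : ℕ) : ℝ) by norm_num, Real.rpow_natCast] at h5
        exact h5.trans_eq (mul_right_comm _ _ _))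
    rw [← hP] at c1
    have hP100 : 0 ≤ P ^ 100 := by positivity
    have h5 : ‖((L ^ (k ^ 2 - 4) : ℝ) : ℂ) *
        RZ4 T M (fun _ => 1) (z / L) (z / L) (w / L) (w / L)‖ ≤
        Real.exp (C * M) * L ^ (k ^ 2) * P ^ 100 := by
      rw [norm_mul, norm_real, Real.norm_eq_abs, abs_of_pos hLk0]
      calc L ^ (k ^ 2 - 4) * ‖RZ4 T M (fun _ => 1) (z / L) (z / L) (w / L) (w / L)‖ ≤
          L ^ (k ^ 2 - 4) * (Real.exp (C * M) * L ^ 4 * P ^ 100) := by gcongr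
        _ = Real.exp (C * M) * (L ^ (k ^ 2 - 4) * L ^ 4) * P ^ 100 := by ring
        _ = _ := by rw [hLk]
    refine (norm_sub_le _ _).trans ((add_le_add cN h5).trans ?_)
    rw [hA, pow_add P 100]
    generalize P ^ 100 = P₁ at hP100 ⊢
    generalize P ^ (2 * q + 2) = P₂ at h1 ⊢
    calc Real.exp (C * M) * L ^ (k ^ 2) * P₁ + Real.exp (C * M) * L ^ (k ^ 2) * P₁
        = 2 * Real.exp (C * M) * P₁ * L ^ (k ^ 2) := by ring
      _ ≤ (η * Real.exp M) * Real.exp (C * M) * P₁ * L ^ (k ^ 2) := by gcongr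
      _ = η * L ^ (k ^ 2) * (P₁ * (Real.exp (C * M) * Real.exp M)) := by ring
      _ ≤ η * L ^ (k ^ 2) * (P₁ * P₂) := by gcongr

/-! ### the exact formulas without polynomial -/

lemma cpow_half_sq {n : ℕ} (hn : 1 ≤ n) :
    (n : ℂ) ^ (-(1 / 2 : ℂ)) * (n : ℂ) ^ (-(1 / 2 : ℂ)) = ((1 / (n : ℝ) : ℝ) : ℂ) := by
  have hn0 : (n : ℂ) ≠ 0 := by exact_mod_cast (by omega : n ≠ 0)
  rw [← cpow_add _ _ hn0]
  norm_num
  rw [cpow_neg_one]

lemma conj_cpow_half (n : ℕ) :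
    (starRingEnd ℂ) ((n : ℂ) ^ (-(1 / 2 : ℂ))) = (n : ℂ) ^ (-(1 / 2 : ℂ)) := by
  have h : (-(1 / 2 : ℂ)) = ((-(1 / 2) : ℝ) : ℂ) := by push_cast; ring
  have h2 : (n : ℂ) = ((n : ℝ) : ℂ) := by push_cast; rfl
  rw [h, h2, ← ofReal_cpow (Nat.cast_nonneg n), conj_ofReal]

/-- The mean of the squared Euler product times the conjugated short sum. -/
lemma er_conj_SD {δ T : ℝ} (hT : 1 < T) (M J : ℕ) :
    ER (SB T M J) (fun f => ZZ (PS 0 T) (tw (1 / 2) f) ^ 2 *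
      (starRingEnd ℂ) (SD δ T (tw (1 / 2) f))) =
      ((∑ n ∈ Finset.Icc 1 ⌊T⌋₊, dv n ^ 2 * Pd δ (Real.log n / Real.log T) / n : ℝ) : ℂ) := by
  have hT0 : 0 < T := by linarith
  have hZ : BC (SB T M J) (fun f => ZZ (PS 0 T) (tw (1 / 2) f)) :=
    bc_ZZ (fun p hp => XB.prime_PS hp) (by norm_num)
  have e1 : ER (SB T M J) (fun f => ZZ (PS 0 T) (tw (1 / 2) f) ^ 2 *
      (starRingEnd ℂ) (SD δ T (tw (1 / 2) f))) =
      ER (SB T M J) (fun f => ∑ n ∈ Finset.Icc 1 ⌊T⌋₊,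
        (((dv n * Pd δ (Real.log n / Real.log T) : ℝ) : ℂ) * (n : ℂ) ^ (-(1 / 2 : ℂ))) *
        (ZZ (PS 0 T) (tw (1 / 2) f) ^ 2 * (f 1 * (starRingEnd ℂ) (f n)))) := by
    simp only [ER_eq]
    refine integral_congr_ae (Filter.Eventually.of_forall fun ω => ?_)
    simp only [SD, map_sum, Finset.mul_sum]
    refine Finset.sum_congr rfl fun n _ => ?_
    rw [(cmul_XX (SB T M J) ω).1, tw, map_mul, map_mul, conj_ofReal, conj_cpow_half]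
    ring
  rw [e1, ER_sum _ fun n _ => BC.const_mul ((bc_pow hZ 2).mul
    ((bc_apply 1).mul (bc_apply n).conj)) _]
  push_cast
  refine Finset.sum_congr rfl fun n hn => ?_
  rw [Finset.mem_Icc] at hn
  have hnT : (n : ℝ) ≤ T := (Nat.le_floor_iff hT0.le).mp hn.2
  rw [ER_const_mul, TransferZ2.er_pair2 hT M J le_rfl (by exact_mod_cast hT.le) hn.1 hnT, if_pos (one_dvd _),
    Nat.div_one]
  have h := cpow_half_sq hn.1
  push_cast at h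
  calc _ = (dv n : ℂ) ^ 2 * (Pd δ (Real.log n / Real.log T) : ℂ) *
        ((n : ℂ) ^ (-(1 / 2 : ℂ)) * (n : ℂ) ^ (-(1 / 2 : ℂ))) := by push_cast; ring
    _ = _ := by rw [h]; ring

/-- The mean square of the short sum. -/
lemma er_SD_sq {δ T : ℝ} (hT : 1 < T) (M J : ℕ) :
    ER (SB T M J) (fun f => ‖SD δ T (tw (1 / 2) f)‖ ^ 2) =
      ∑ n ∈ Finset.Icc 1 ⌊T⌋₊, dv n ^ 2 * Pd δ (Real.log n / Real.log T) ^ 2 / n := by
  have hT0 : 0 < T := by linarith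
  have e1 : ER (SB T M J) (fun f => ‖SD δ T (tw (1 / 2) f)‖ ^ 2) =
      ER (SB T M J) (fun f => ‖∑ n ∈ Finset.Icc 1 ⌊T⌋₊,
        (((dv n * Pd δ (Real.log n / Real.log T) : ℝ) : ℂ) * (n : ℂ) ^ (-(1 / 2 : ℂ))) *
          f n‖ ^ 2) := by
    simp only [ER_eq]
    refine integral_congr_ae (Filter.Eventually.of_forall fun ω => ?_)
    simp only [SD, tw, mul_assoc]
  rw [e1, parseval _ (fun n hn => by
    rw [Finset.mem_Icc] at hn
    exact mem_factored hT M J hn.1 ((Nat.le_floor_iff hT0.le).mp hn.2))]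
  refine Finset.sum_congr rfl fun n hn => ?_
  rw [Finset.mem_Icc] at hn
  have hn0 : (0 : ℝ) < n := by exact_mod_cast hn.1
  rw [norm_mul, mul_pow, norm_real, Real.norm_eq_abs, sq_abs, norm_natCast_cpow_of_pos hn.1]
  have h : ((n : ℝ) ^ (-(1 / 2 : ℂ)).re) ^ 2 = 1 / n := by
    rw [← Real.rpow_natCast, ← Real.rpow_mul hn0.le]
    norm_num
    rw [Real.rpow_neg_one]
  rw [h]
  ring

end SDM

open SDM SDB K1.SHF in
/-- (12a) the correlation with the short sum -/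
theorem stSDZeta (h7 : StRA4) (h8 : StCore4) (h11 : StRepD) : StSDZeta := by
  intro δ η hδ hδ8 hη
  obtain ⟨g, hgc, hgi, rep⟩ := h11 δ hδ hδ8
  obtain ⟨A, key⟩ := keyD h7 h8
  set K : ℝ := ∫ ξ : ℝ, ‖g ξ‖ * (1 + |ξ|) ^ A with hK
  have hK0 : 0 ≤ K := integral_nonneg fun ξ => by positivity
  obtain ⟨M₀, hM₀, key⟩ := key (η / (7 ^ A * (K + 1))) (by positivity)
  refine ⟨M₀, fun M hM => ?_⟩
  obtain ⟨κ₁, hκ₁, hκ₁1, T₀, hT₀, key⟩ := key M hM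
  refine ⟨κ₁, hκ₁, hκ₁1, T₀, hT₀, fun T hT k hk => ?_⟩
  have hT3 : 3 ≤ T := hT₀.trans hT
  have hT1 : 1 < T := by linarith
  have hL : 0 < Real.log T := Real.log_pos hT1
  have key := key T hT k hk
  have hα : |k - 2| ≤ 1 := by linarith
  obtain ⟨-, rep⟩ := rep T hT1 M (JJ T) (1 / 2) (by norm_num)
  set L := Real.log T with hLd
  have hzre : ∀ ξ : ℝ, (1 - 2 * Real.pi * ξ * I : ℂ).re = 1 := fun ξ => K1.SHF.zz_re ξ
  have hzn : ∀ ξ : ℝ, 1 + ‖(1 - 2 * Real.pi * ξ * I : ℂ)‖ ≤ 7 * (1 + |ξ|) := fun ξ =>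
    K1.SHF.norm_zz_le ξ
  have bZ : BC (SB T M (JJ T)) (fun f => ZZ (PS 0 T) (tw (1 / 2) f)) :=
    bc_ZZ (fun p hp => XB.prime_PS hp) (by norm_num)
  -- the representation, for a general polynomial
  have main : ∀ G : (ℕ → ℂ) → ℂ, BC (SB T M (JJ T)) (fun f => G (tw (1 / 2) f)) →
      Integrable (fun ξ : ℝ => g ξ * RZ4 T M G ((1 - 2 * Real.pi * ξ * I) / L)
        ((1 - 2 * Real.pi * ξ * I) / L) ((0 : ℂ) / L) ((0 : ℂ) / L)) ∧
      (starRingEnd ℂ) (ER (SB T M (JJ T)) (fun f => ZZ (PS 0 T) (tw (1 / 2) f) ^ 2 *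
        (starRingEnd ℂ) (SD δ T (tw (1 / 2) f)) *
        (G (tw (1 / 2) f) * (starRingEnd ℂ) (G (tw (1 / 2) f))))) =
      ∫ ξ : ℝ, g ξ * RZ4 T M G ((1 - 2 * Real.pi * ξ * I) / L)
        ((1 - 2 * Real.pi * ξ * I) / L) ((0 : ℂ) / L) ((0 : ℂ) / L) := by
    intro G bG
    obtain ⟨r1, r2⟩ := rep (fun f => (starRingEnd ℂ) (ZZ (PS 0 T) (tw (1 / 2) f) ^ 2) *
      (G (tw (1 / 2) f) * (starRingEnd ℂ) (G (tw (1 / 2) f))))
      ((bc_pow bZ 2).conj.mul (bG.mul bG.conj))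
    have e1 : ∀ ξ : ℝ, ER (SB T M (JJ T)) (fun f =>
        ZZ (PS 0 T) (tw (1 / 2 + (1 - 2 * Real.pi * ξ * I) / L) f) ^ 2 *
        ((starRingEnd ℂ) (ZZ (PS 0 T) (tw (1 / 2) f) ^ 2) *
          (G (tw (1 / 2) f) * (starRingEnd ℂ) (G (tw (1 / 2) f))))) =
        RZ4 T M G ((1 - 2 * Real.pi * ξ * I) / L) ((1 - 2 * Real.pi * ξ * I) / L)
          ((0 : ℂ) / L) ((0 : ℂ) / L) := by
      intro ξ
      rw [RZ4]
      congr 1
      funext f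
      simp only [zero_div, map_zero, add_zero]
      ring
    simp only [e1] at r1 r2
    refine ⟨r1, ?_⟩
    rw [← r2, ← ER_conj]
    congr 1
    funext f
    simp only [map_mul, conj_conj, map_pow]
    ring
  set N : (ℕ → ℂ) → ℂ := fun f => NN T M (k - 2) (tw (1 / 2) f) with hN
  have bN : BC (SB T M (JJ T)) N := bc_NN hT1 (hM₀.trans hM) hα (by norm_num)
  obtain ⟨i1, r1⟩ := main (NN T M (k - 2)) bN
  obtain ⟨i2, r2⟩ := main (fun _ => 1) (bc_const 1)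
  simp only [map_one, mul_one] at r2
  rw [er_conj_SD hT1, conj_ofReal] at r2
  set c : ℝ := L ^ (k ^ 2 - 4) with hc
  set X := ER (SB T M (JJ T)) (fun f => ZZ (PS 0 T) (tw (1 / 2) f) ^ 2 *
    (starRingEnd ℂ) (SD δ T (tw (1 / 2) f)) *
        (NN T M (k - 2) (tw (1 / 2) f) * (starRingEnd ℂ) (NN T M (k - 2) (tw (1 / 2) f)))) with hX
  have hd : (starRingEnd ℂ) X - ((c * ∑ n ∈ Finset.Icc 1 ⌊T⌋₊,
      dv n ^ 2 * Pd δ (Real.log n / L) / n : ℝ) : ℂ) =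
      ∫ ξ : ℝ, g ξ * (RZ4 T M (NN T M (k - 2)) ((1 - 2 * Real.pi * ξ * I) / L)
        ((1 - 2 * Real.pi * ξ * I) / L) ((0 : ℂ) / L) ((0 : ℂ) / L) -
        (c : ℂ) * RZ4 T M (fun _ => 1) ((1 - 2 * Real.pi * ξ * I) / L)
        ((1 - 2 * Real.pi * ξ * I) / L) ((0 : ℂ) / L) ((0 : ℂ) / L)) := by
    rw [r1, ofReal_mul, r2, ← integral_const_mul, ← integral_sub i1 (i2.const_mul _)]
    congr 1
    funext ξ
    ring
  have hn : ‖X - ((c * ∑ n ∈ Finset.Icc 1 ⌊T⌋₊, dv n ^ 2 * Pd δ (Real.log n / L) / n : ℝ) : ℂ)‖ =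
      ‖(starRingEnd ℂ) X - ((c * ∑ n ∈ Finset.Icc 1 ⌊T⌋₊,
        dv n ^ 2 * Pd δ (Real.log n / L) / n : ℝ) : ℂ)‖ := by
    rw [← RCLike.norm_conj (X - _), map_sub, conj_ofReal]
  rw [hn, hd]
  have hb : ∀ ξ : ℝ, ‖g ξ * (RZ4 T M (NN T M (k - 2)) ((1 - 2 * Real.pi * ξ * I) / L)
        ((1 - 2 * Real.pi * ξ * I) / L) ((0 : ℂ) / L) ((0 : ℂ) / L) -
        (c : ℂ) * RZ4 T M (fun _ => 1) ((1 - 2 * Real.pi * ξ * I) / L)
        ((1 - 2 * Real.pi * ξ * I) / L) ((0 : ℂ) / L) ((0 : ℂ) / L))‖ ≤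
      ‖g ξ‖ * (1 + |ξ|) ^ A * (η / (K + 1) * L ^ (k ^ 2)) := by
    intro ξ
    have h1 := key (1 - 2 * Real.pi * ξ * I) 0 (by rw [hzre]; norm_num) le_rfl
    rw [norm_mul]
    have h2 : (1 + ‖(1 - 2 * Real.pi * ξ * I : ℂ)‖) ^ A ≤ 7 ^ A * (1 + |ξ|) ^ A := by
      rw [← mul_pow]
      exact pow_le_pow_left₀ (by positivity) (hzn ξ) A
    rw [norm_zero, add_zero, one_pow, mul_one] at h1
    refine (mul_le_mul_of_nonneg_left h1 (norm_nonneg _)).trans ?_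
    have h3 : η / (7 ^ A * (K + 1)) * L ^ (k ^ 2) * (1 + ‖(1 - 2 * Real.pi * ξ * I : ℂ)‖) ^ A ≤
        η / (7 ^ A * (K + 1)) * L ^ (k ^ 2) * (7 ^ A * (1 + |ξ|) ^ A) :=
      mul_le_mul_of_nonneg_left h2 (by positivity)
    refine (mul_le_mul_of_nonneg_left h3 (norm_nonneg _)).trans (le_of_eq ?_)
    field_simp
  refine (norm_integral_le_of_norm_le ((hgi A).mul_const _)
    (Filter.Eventually.of_forall hb)).trans ?_
  rw [integral_mul_const, ← hK]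
  calc K * (η / (K + 1) * L ^ (k ^ 2)) ≤ (K + 1) * (η / (K + 1) * L ^ (k ^ 2)) := by
        gcongr
        linarith
    _ = _ := by field_simp

open SDM SDB K1.SHF in
/-- (12b) the mean square of the short sum -/
theorem stSDSq (h7 : StRA4) (h8 : StCore4) (h11 : StRepD) : StSDSq := by
  intro δ η hδ hδ8 hη
  obtain ⟨g, hgc, hgi, rep⟩ := h11 δ hδ hδ8
  obtain ⟨A, key⟩ := keyD h7 h8
  set K : ℝ := ∫ ξ : ℝ, ‖g ξ‖ * (1 + |ξ|) ^ A with hK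
  have hK0 : 0 ≤ K := integral_nonneg fun ξ => by positivity
  obtain ⟨M₀, hM₀, key⟩ := key (η / (7 ^ A * (K + 1)) ^ 2) (by positivity)
  refine ⟨M₀, fun M hM => ?_⟩
  obtain ⟨κ₁, hκ₁, hκ₁1, T₀, hT₀, key⟩ := key M hM
  refine ⟨κ₁, hκ₁, hκ₁1, T₀, hT₀, fun T hT k hk => ?_⟩
  have hT3 : 3 ≤ T := hT₀.trans hT
  have hT1 : 1 < T := by linarith
  have hL : 0 < Real.log T := Real.log_pos hT1
  have key := key T hT k hk
  have hα : |k - 2| ≤ 1 := by linarith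
  obtain ⟨-, rep⟩ := rep T hT1 M (JJ T) (1 / 2) (by norm_num)
  set L := Real.log T with hLd
  have hzre : ∀ ξ : ℝ, (1 - 2 * Real.pi * ξ * I : ℂ).re = 1 := fun ξ => K1.SHF.zz_re ξ
  have hzn : ∀ ξ : ℝ, 1 + ‖(1 - 2 * Real.pi * ξ * I : ℂ)‖ ≤ 7 * (1 + |ξ|) := fun ξ =>
    K1.SHF.norm_zz_le ξ
  set z : ℝ → ℂ := fun ξ => 1 - 2 * Real.pi * ξ * I with hz
  have bZ : ∀ ξ : ℝ, BC (SB T M (JJ T)) (fun f => ZZ (PS 0 T) (tw (1 / 2 + z ξ / L) f)) := by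
    intro ξ
    refine bc_ZZ (fun p hp => XB.prime_PS hp) ?_
    rw [add_re, div_ofReal_re, hzre]
    have h0 : 0 ≤ 1 / L := by positivity
    have h1 : (1 / 2 : ℂ).re = 1 / 2 := by norm_num
    rw [h1]
    linarith
  have bS : BC (SB T M (JJ T)) (fun f => SD δ T (tw (1 / 2) f)) := bc_SD _ _ _
  -- the representation, for a general polynomial
  have main : ∀ G : (ℕ → ℂ) → ℂ, BC (SB T M (JJ T)) (fun f => G (tw (1 / 2) f)) →
      (∀ ξ : ℝ, Integrable (fun ξ₂ : ℝ => g ξ₂ * RZ4 T M G (z ξ₂ / L) (z ξ₂ / L)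
        ((starRingEnd ℂ) (z ξ) / L) ((starRingEnd ℂ) (z ξ) / L))) ∧
      Integrable (fun ξ : ℝ => g ξ * (starRingEnd ℂ) (∫ ξ₂ : ℝ, g ξ₂ *
        RZ4 T M G (z ξ₂ / L) (z ξ₂ / L) ((starRingEnd ℂ) (z ξ) / L)
          ((starRingEnd ℂ) (z ξ) / L))) ∧
      ((ER (SB T M (JJ T)) (fun f => ‖SD δ T (tw (1 / 2) f)‖ ^ 2 *
        ‖G (tw (1 / 2) f)‖ ^ 2) : ℝ) : ℂ) =
      ∫ ξ : ℝ, g ξ * (starRingEnd ℂ) (∫ ξ₂ : ℝ, g ξ₂ *
        RZ4 T M G (z ξ₂ / L) (z ξ₂ / L) ((starRingEnd ℂ) (z ξ) / L)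
          ((starRingEnd ℂ) (z ξ) / L)) := by
    intro G bG
    obtain ⟨r1, r2⟩ := rep (fun f => (starRingEnd ℂ) (SD δ T (tw (1 / 2) f)) *
      (G (tw (1 / 2) f) * (starRingEnd ℂ) (G (tw (1 / 2) f))))
      (bS.conj.mul (bG.mul bG.conj))
    have inner : ∀ ξ : ℝ, Integrable (fun ξ₂ : ℝ => g ξ₂ * RZ4 T M G (z ξ₂ / L) (z ξ₂ / L)
        ((starRingEnd ℂ) (z ξ) / L) ((starRingEnd ℂ) (z ξ) / L)) ∧
        ER (SB T M (JJ T)) (fun f => ZZ (PS 0 T) (tw (1 / 2 + z ξ / L) f) ^ 2 *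
          ((starRingEnd ℂ) (SD δ T (tw (1 / 2) f)) *
            (G (tw (1 / 2) f) * (starRingEnd ℂ) (G (tw (1 / 2) f))))) =
        (starRingEnd ℂ) (∫ ξ₂ : ℝ, g ξ₂ * RZ4 T M G (z ξ₂ / L) (z ξ₂ / L)
          ((starRingEnd ℂ) (z ξ) / L) ((starRingEnd ℂ) (z ξ) / L)) := by
      intro ξ
      obtain ⟨i3, r3⟩ := rep (fun f =>
        (starRingEnd ℂ) (ZZ (PS 0 T) (tw (1 / 2 + z ξ / L) f) ^ 2) *
        (G (tw (1 / 2) f) * (starRingEnd ℂ) (G (tw (1 / 2) f))))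
        ((bc_pow (bZ ξ) 2).conj.mul (bG.mul bG.conj))
      have e3 : ∀ ξ₂ : ℝ, ER (SB T M (JJ T)) (fun f =>
          ZZ (PS 0 T) (tw (1 / 2 + (1 - 2 * Real.pi * ξ₂ * I) / L) f) ^ 2 *
          ((starRingEnd ℂ) (ZZ (PS 0 T) (tw (1 / 2 + z ξ / L) f) ^ 2) *
          (G (tw (1 / 2) f) * (starRingEnd ℂ) (G (tw (1 / 2) f))))) =
          RZ4 T M G (z ξ₂ / L) (z ξ₂ / L) ((starRingEnd ℂ) (z ξ) / L)
            ((starRingEnd ℂ) (z ξ) / L) := by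
        intro ξ₂
        rw [RZ4]
        congr 1
        funext f
        simp only [map_div₀, conj_conj, conj_ofReal, map_mul, map_pow, hz]
        ring
      simp only [e3] at i3 r3
      refine ⟨i3, ?_⟩
      rw [← r3, ← ER_conj]
      congr 1
      funext f
      simp only [map_mul, conj_conj, map_pow]
      ring
    have e1 := fun ξ => (inner ξ).2
    have e1' : ∀ ξ : ℝ, ER (SB T M (JJ T)) (fun f =>
        ZZ (PS 0 T) (tw (1 / 2 + (1 - 2 * Real.pi * ξ * I) / L) f) ^ 2 *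
          ((starRingEnd ℂ) (SD δ T (tw (1 / 2) f)) *
            (G (tw (1 / 2) f) * (starRingEnd ℂ) (G (tw (1 / 2) f))))) =
        (starRingEnd ℂ) (∫ ξ₂ : ℝ, g ξ₂ * RZ4 T M G (z ξ₂ / L) (z ξ₂ / L)
          ((starRingEnd ℂ) (z ξ) / L) ((starRingEnd ℂ) (z ξ) / L)) := e1
    simp only [e1'] at r1 r2
    refine ⟨fun ξ => (inner ξ).1, r1, ?_⟩
    rw [← r2, ER_eq, ER_eq, ← integral_complex_ofReal]
    congr 1
    funext ω
    rw [← mul_assoc, mul_conj, mul_conj, normSq_eq_norm_sq, normSq_eq_norm_sq]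
    push_cast
    rfl
  have bN : BC (SB T M (JJ T)) (fun f => NN T M (k - 2) (tw (1 / 2) f)) :=
    bc_NN hT1 (hM₀.trans hM) hα (by norm_num)
  obtain ⟨j1, i1, r1⟩ := main (NN T M (k - 2)) bN
  obtain ⟨j2, i2, r2⟩ := main (fun _ => 1) (bc_const 1)
  simp only [norm_one, one_pow, mul_one] at r2
  rw [er_SD_sq hT1] at r2
  set c : ℝ := L ^ (k ^ 2 - 4) with hc
  have hzre' : ∀ ξ : ℝ, (z ξ).re = 1 := hzre
  have hzn' : ∀ ξ : ℝ, 1 + ‖z ξ‖ ≤ 7 * (1 + |ξ|) := hzn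
  clear_value z
  have hd : ((ER (SB T M (JJ T)) (fun f => ‖SD δ T (tw (1 / 2) f)‖ ^ 2 *
      ‖NN T M (k - 2) (tw (1 / 2) f)‖ ^ 2) - c * ∑ n ∈ Finset.Icc 1 ⌊T⌋₊,
        dv n ^ 2 * Pd δ (Real.log n / L) ^ 2 / n : ℝ) : ℂ) =
      ∫ ξ : ℝ, g ξ * (starRingEnd ℂ) (∫ ξ₂ : ℝ, g ξ₂ * (RZ4 T M (NN T M (k - 2)) (z ξ₂ / L)
        (z ξ₂ / L) ((starRingEnd ℂ) (z ξ) / L) ((starRingEnd ℂ) (z ξ) / L) -
        (c : ℂ) * RZ4 T M (fun _ => 1) (z ξ₂ / L)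
        (z ξ₂ / L) ((starRingEnd ℂ) (z ξ) / L) ((starRingEnd ℂ) (z ξ) / L))) := by
    rw [ofReal_sub, r1, ofReal_mul, r2, ← integral_const_mul, ← integral_sub i1 (i2.const_mul _)]
    congr 1
    funext ξ
    have h1 : ∫ ξ₂ : ℝ, g ξ₂ * (RZ4 T M (NN T M (k - 2)) (z ξ₂ / L)
        (z ξ₂ / L) ((starRingEnd ℂ) (z ξ) / L) ((starRingEnd ℂ) (z ξ) / L) -
        (c : ℂ) * RZ4 T M (fun _ => 1) (z ξ₂ / L)
        (z ξ₂ / L) ((starRingEnd ℂ) (z ξ) / L) ((starRingEnd ℂ) (z ξ) / L)) =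
        (∫ ξ₂ : ℝ, g ξ₂ * RZ4 T M (NN T M (k - 2)) (z ξ₂ / L)
        (z ξ₂ / L) ((starRingEnd ℂ) (z ξ) / L) ((starRingEnd ℂ) (z ξ) / L)) -
        (c : ℂ) * ∫ ξ₂ : ℝ, g ξ₂ * RZ4 T M (fun _ => 1) (z ξ₂ / L)
        (z ξ₂ / L) ((starRingEnd ℂ) (z ξ) / L) ((starRingEnd ℂ) (z ξ) / L) := by
      rw [← integral_const_mul, ← integral_sub (j1 ξ) ((j2 ξ).const_mul _)]
      congr 1
      funext ξ₂
      ring
    rw [h1, map_sub, map_mul, conj_ofReal]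
    ring
  have h2 : ∀ x : ℝ, (1 + ‖z x‖) ^ A ≤ 7 ^ A * (1 + |x|) ^ A := by
    intro x
    rw [← mul_pow]
    exact pow_le_pow_left₀ (by positivity) (hzn' x) A
  have hb2 : ∀ ξ : ℝ, ‖∫ ξ₂ : ℝ, g ξ₂ * (RZ4 T M (NN T M (k - 2)) (z ξ₂ / L)
        (z ξ₂ / L) ((starRingEnd ℂ) (z ξ) / L) ((starRingEnd ℂ) (z ξ) / L) -
        (c : ℂ) * RZ4 T M (fun _ => 1) (z ξ₂ / L)
        (z ξ₂ / L) ((starRingEnd ℂ) (z ξ) / L) ((starRingEnd ℂ) (z ξ) / L))‖ ≤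
      K * ((1 + |ξ|) ^ A * (η / (K + 1) ^ 2 * L ^ (k ^ 2))) := by
    intro ξ
    have hb : ∀ ξ₂ : ℝ, ‖g ξ₂ * (RZ4 T M (NN T M (k - 2)) (z ξ₂ / L)
        (z ξ₂ / L) ((starRingEnd ℂ) (z ξ) / L) ((starRingEnd ℂ) (z ξ) / L) -
        (c : ℂ) * RZ4 T M (fun _ => 1) (z ξ₂ / L)
        (z ξ₂ / L) ((starRingEnd ℂ) (z ξ) / L) ((starRingEnd ℂ) (z ξ) / L))‖ ≤
        ‖g ξ₂‖ * (1 + |ξ₂|) ^ A * ((1 + |ξ|) ^ A * (η / (K + 1) ^ 2 * L ^ (k ^ 2))) := by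
      intro ξ₂
      have h1 := key (z ξ₂) ((starRingEnd ℂ) (z ξ)) (by rw [hzre']; norm_num)
        (by rw [conj_re, hzre']; norm_num)
      rw [norm_mul]
      rw [RCLike.norm_conj] at h1
      have h3 := h2 ξ
      have h4 := h2 ξ₂
      refine (mul_le_mul_of_nonneg_left h1 (norm_nonneg _)).trans ?_
      calc ‖g ξ₂‖ * (η / (7 ^ A * (K + 1)) ^ 2 * L ^ (k ^ 2) *
            ((1 + ‖z ξ₂‖) ^ A * (1 + ‖z ξ‖) ^ A)) ≤
            ‖g ξ₂‖ * (η / (7 ^ A * (K + 1)) ^ 2 * L ^ (k ^ 2) *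
              ((7 ^ A * (1 + |ξ₂|) ^ A) * (7 ^ A * (1 + |ξ|) ^ A))) := by
            gcongr
        _ = _ := by
            field_simp
    refine (norm_integral_le_of_norm_le ((hgi A).mul_const _)
      (Filter.Eventually.of_forall hb)).trans ?_
    rw [integral_mul_const, ← hK]
  rw [← Real.norm_eq_abs, ← norm_real, hd]
  have hb3 : ∀ ξ : ℝ, ‖g ξ * (starRingEnd ℂ) (∫ ξ₂ : ℝ, g ξ₂ * (RZ4 T M (NN T M (k - 2)) (z ξ₂ / L)
        (z ξ₂ / L) ((starRingEnd ℂ) (z ξ) / L) ((starRingEnd ℂ) (z ξ) / L) -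
        (c : ℂ) * RZ4 T M (fun _ => 1) (z ξ₂ / L)
        (z ξ₂ / L) ((starRingEnd ℂ) (z ξ) / L) ((starRingEnd ℂ) (z ξ) / L)))‖ ≤
      ‖g ξ‖ * (1 + |ξ|) ^ A * (K * (η / (K + 1) ^ 2 * L ^ (k ^ 2))) := by
    intro ξ
    rw [norm_mul, RCLike.norm_conj]
    refine (mul_le_mul_of_nonneg_left (hb2 ξ) (norm_nonneg _)).trans (le_of_eq ?_)
    ring
  refine (norm_integral_le_of_norm_le ((hgi A).mul_const _)
    (Filter.Eventually.of_forall hb3)).trans ?_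
  rw [integral_mul_const, ← hK]
  have hKK : K * K ≤ (K + 1) ^ 2 := by
    have : (K + 1) ^ 2 = K * K + 2 * K + 1 := by ring
    linarith
  calc K * (K * (η / (K + 1) ^ 2 * L ^ (k ^ 2))) = (K * K) * (η / (K + 1) ^ 2 * L ^ (k ^ 2)) := by ring
    _ ≤ (K + 1) ^ 2 * (η / (K + 1) ^ 2 * L ^ (k ^ 2)) := by gcongr
    _ = _ := by field_simp

end K3
end Pool.Agent.Lib.MP_973905_nt
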