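import Pool.Agent.Lib.MP_973905_nt.K3.Stmts
import Pool.Agent.Lib.MP_973905_nt.Fourth2
import Pool.Agent.Lib.MP_973905_nt.Core3

/-! Module K3 (9): second moment of our polynomials of exponent `k` near `2` in the random model,
with bad blocks. -/

namespace Pool.Agent.Lib.MP_973905_nt
namespace K3

open MeasureTheory ProbabilityTheory Complex Filter Topology

namespace SecQ

lemma Ntr_tail3 (l : ℕ) {α : ℝ} (hα : |α| ≤ 3) (z : ℂ) :
    ‖cexp (α * z) - Ntr l α z‖ ≤ Real.exp (-l) * Real.exp (9 * ‖z‖) := by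
  have h1 := norm_exp_sub_sum_le_exp_norm_sub_sum (α * z) (l + 1)
  have h2 := exp_tail (l + 1) (norm_nonneg (α * z))
  have h3 : ‖(α : ℂ) * z‖ ≤ 3 * ‖z‖ := by
    rw [norm_mul, norm_real, Real.norm_eq_abs]
    exact mul_le_mul_of_nonneg_right hα (norm_nonneg _)
  refine (h1.trans h2).trans ?_
  have h4 : 3 * ‖(α : ℂ) * z‖ ≤ 9 * ‖z‖ := by linarith
  have h5 : Real.exp (-((l + 1 : ℕ) : ℝ)) ≤ Real.exp (-(l : ℝ)) := by
    apply Real.exp_le_exp.2
    push_cast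
    linarith
  exact mul_le_mul h5 (Real.exp_le_exp.2 h4) (Real.exp_pos _).le (Real.exp_pos _).le

lemma norm_Ntr_le3 (l : ℕ) {α : ℝ} (hα : |α| ≤ 3) (z : ℂ) : ‖Ntr l α z‖ ≤ Real.exp (3 * ‖z‖) := by
  have h3 : ‖(α : ℂ) * z‖ ≤ 3 * ‖z‖ := by
    rw [norm_mul, norm_real, Real.norm_eq_abs]
    exact mul_le_mul_of_nonneg_right hα (norm_nonneg _)
  calc ‖Ntr l α z‖ ≤ ∑ i ∈ Finset.range (l + 1), (3 * ‖z‖) ^ i / i.factorial := by
        refine (norm_sum_le _ _).trans (Finset.sum_le_sum fun i _ => ?_)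
        rw [norm_div, norm_pow, norm_natCast]
        gcongr
    _ ≤ Real.exp (3 * ‖z‖) := Real.sum_le_exp_of_nonneg (by positivity) _

lemma yp_half {p : ℕ} : yp (1 / 2) (1 / 2) p = (p : ℝ) ^ (-(1 / 2) : ℝ) := max_self _

lemma half_sq (p : ℕ) : ((p : ℝ) ^ (-(1 / 2) : ℝ)) ^ 2 = 1 / p := by
  rw [← Real.rpow_natCast, ← Real.rpow_mul (Nat.cast_nonneg p), one_div]
  norm_num
  exact Real.rpow_neg_one _

lemma half_four (p : ℕ) : ((p : ℝ) ^ (-(1 / 2) : ℝ)) ^ 4 = ((p : ℝ) ^ 2)⁻¹ := by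
  rw [show (4 : ℕ) = 2 * 2 from rfl, pow_mul, half_sq, one_div, inv_pow]

/-- Good blocks. -/
lemma good_blockQ : ∃ C : ℝ, 0 ≤ C ∧ ∀ (A l : ℕ) (S : Finset ℕ) (k : ℝ), 1 ≤ A →
    |k| ≤ 3 → (∀ p ∈ S, p.Prime) →
    ES S (fun f => ‖Ntr l k (Pj A S (tw ((1 / 2 : ℝ) : ℂ) f))‖ ^ 2) ≤
      Real.exp (∑ p ∈ S, (k ^ 2 * (1 / p) + C * ((p : ℝ) ^ 2)⁻¹)) *
      Real.exp (33 * Real.exp (-l + C * ∑ p ∈ S, (1 : ℝ) / p)) := by
  obtain ⟨C1, hC1, h1⟩ := ES_exp 3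
  obtain ⟨C2, hC2, h2⟩ := ES_exp_norm (q := 9) (by norm_num)
  refine ⟨C1 + C2, by positivity, fun A l S k hA hk hS => ?_⟩
  have hy : ∀ p ∈ S, yp ((1 / 2 : ℝ) : ℂ).re (1 / 2) p ≤ 3 / 4 := by
    intro p hp
    rw [ofReal_re, yp_half]
    exact (prime_rpow_le (hS p hp) le_rfl).2
  set η := Real.exp (-(l : ℝ)) with hη
  have hη0 : 0 < η := Real.exp_pos _
  have hη1 : η ≤ 1 := by rw [hη, Real.exp_le_one_iff]; linarith [Nat.cast_nonneg (α := ℝ) l]
  set P : (ℕ → ℂ) → ℂ := fun f => Pj A S (tw ((1 / 2 : ℝ) : ℂ) f) with hP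
  have bP : BS S P := bs_Pj A S S _
  set F1 : (ℕ → ℂ) → ℝ := fun f => ‖(ZZ S (tw ((1 / 2 : ℝ) : ℂ) f)) ^ 0 *
    cexp (((k : ℝ) : ℂ) * P f)‖ ^ 2 with hF1
  set F2 : (ℕ → ℂ) → ℝ := fun f => ‖(ZZ S (tw ((1 / 2 : ℝ) : ℂ) f)) ^ 0‖ ^ 2 *
    Real.exp (9 * ‖P f‖) ^ 2 with hF2
  have bZ : BS S (fun f => ZZ S (tw ((1 / 2 : ℝ) : ℂ) f)) := bs_ZZ hS (by rw [ofReal_re]; norm_num)
  have b1 : BS S F1 := ((bZ.pow 0).mul ((bs_const S _).mul bP).cexp).norm_sq
  have b2 : BS S F2 := XB.BS.mulR (bZ.pow 0).norm_sq (XB.BS.expnorm bP (by norm_num))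
  have b1' : BS S (fun f => (1 + η) * F1 f) := XB.BS.mulR (bs_const S _) b1
  have b2' : BS S (fun f => (2 * η) * F2 f) := XB.BS.mulR (bs_const S _) b2
  have g1 := h1 A 0 S ((1 / 2 : ℝ) : ℂ) ((k : ℝ) : ℂ) (1 / 2) hA (by norm_num)
    (by rw [norm_real, Real.norm_eq_abs]; exact hk) hS hy
  have g2 := h2 A 0 S ((1 / 2 : ℝ) : ℂ) (1 / 2) hA (by norm_num) (by rw [ofReal_re]; norm_num) hS hy
  have step : ES S (fun f => ‖Ntr l k (P f)‖ ^ 2) ≤
      ES S (fun f => (1 + η) * F1 f + (2 * η) * F2 f) := by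
    apply ES_mono
    · intro ω; positivity
    · exact (BS.add b1' b2').integrable
    · intro ω
      set f := ext S ω
      have ht := Ntr_tail3 l hk (P f)
      have hn : ‖Ntr l k (P f)‖ ≤ ‖cexp (((k : ℝ) : ℂ) * P f)‖ + η * Real.exp (9 * ‖P f‖) := by
        have := norm_sub_norm_le (Ntr l k (P f)) (cexp (((k : ℝ) : ℂ) * P f))
        rw [norm_sub_rev] at this
        linarith
      set a := ‖cexp (((k : ℝ) : ℂ) * P f)‖ with ha
      set s := Real.exp (9 * ‖P f‖) with hs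
      have h3 : ‖Ntr l k (P f)‖ ^ 2 ≤ (1 + η) * a ^ 2 + 2 * η * s ^ 2 := by
        calc ‖Ntr l k (P f)‖ ^ 2 ≤ (a + η * s) ^ 2 :=
              pow_le_pow_left₀ (norm_nonneg _) hn 2
          _ ≤ _ := XB.sq_split hη0.le hη1
      have e1 : F1 f = a ^ 2 := by
        simp only [hF1, pow_zero, one_mul, ha]
      have e2 : F2 f = s ^ 2 := by
        simp only [hF2, pow_zero, norm_one, one_pow, one_mul, hs]
      rw [e1, e2]
      exact h3
  have e3 : ES S (fun f => (1 + η) * F1 f + (2 * η) * F2 f) =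
      (1 + η) * ES S F1 + (2 * η) * ES S F2 := by
    rw [XB.ES_add b1' b2', XB.ES_const_mul, XB.ES_const_mul]
  rw [e3] at step
  refine step.trans ?_
  set Y := ∑ p ∈ S, (1 : ℝ) / p with hY
  have hY0 : 0 ≤ Y := Finset.sum_nonneg fun p _ => by positivity
  set E := ∑ p ∈ S, (k ^ 2 * (1 / p) + (C1 + C2) * ((p : ℝ) ^ 2)⁻¹) with hE
  have hE0 : 0 ≤ E := Finset.sum_nonneg fun p _ => by positivity
  have g1' : ES S F1 ≤ Real.exp E := by
    refine g1.trans (Real.exp_le_exp.2 ?_)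
    rw [hE]
    refine Finset.sum_le_sum fun p _ => ?_
    rw [ofReal_re, yp_half, half_four]
    have e4 : ‖((0 : ℕ) : ℂ) * (p : ℂ) ^ (-((1 / 2 : ℝ) : ℂ)) +
        ((k : ℝ) : ℂ) * (((p : ℝ) ^ (-(1 / 2) : ℝ) : ℝ) : ℂ)‖ ^ 2 = k ^ 2 * (1 / p) := by
      rw [Nat.cast_zero, zero_mul, zero_add, norm_mul, mul_pow, norm_real, norm_real,
        Real.norm_eq_abs, Real.norm_eq_abs, sq_abs, sq_abs, half_sq]
    rw [e4]
    have : (0 : ℝ) ≤ ((p : ℝ) ^ 2)⁻¹ := by positivity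
    nlinarith
  have g2' : ES S F2 ≤ 16 * Real.exp ((C1 + C2) * Y) := by
    refine g2.trans ?_
    have e5 : ∑ p ∈ S, yp ((1 / 2 : ℝ) : ℂ).re (1 / 2) p ^ 2 = Y := by
      rw [hY]
      refine Finset.sum_congr rfl fun p _ => ?_
      rw [ofReal_re, yp_half, half_sq]
    rw [e5]
    gcongr
    linarith
  have hexpE : 1 ≤ Real.exp E := Real.one_le_exp hE0
  have hexpY : 1 ≤ Real.exp ((C1 + C2) * Y) := Real.one_le_exp (by positivity)
  rw [Real.exp_add, ← hη]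
  calc (1 + η) * ES S F1 + 2 * η * ES S F2
      ≤ (1 + η) * Real.exp E + 2 * η * (16 * Real.exp ((C1 + C2) * Y)) := by gcongr
    _ ≤ Real.exp E * (33 * (η * Real.exp ((C1 + C2) * Y)) + 1) :=
        XB.fin_good hη0.le hexpE hexpY
    _ ≤ _ := by
        gcongr
        exact Real.add_one_le_exp _

/-- Bad blocks. -/
lemma bad_blockQ : ∃ C : ℝ, 0 ≤ C ∧ ∀ (A r : ℕ) (S : Finset ℕ) (G : (ℕ → ℂ) → ℂ), 1 ≤ A →
    (∀ p ∈ S, p.Prime) →
    (∀ f, ‖G f‖ ≤ (1 / 4) ^ r * Real.exp (99 * ‖Pj A S (tw ((1 / 2 : ℝ) : ℂ) f)‖)) →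
    ES S (fun f => ‖G f‖ ^ 2) ≤
      (1 / 16) ^ r * (16 * Real.exp (C * ∑ p ∈ S, (1 : ℝ) / p)) := by
  obtain ⟨C2, hC2, h2⟩ := ES_exp_norm (q := 99) (by norm_num)
  refine ⟨C2, hC2, fun A r S G hA hS hG => ?_⟩
  have hy : ∀ p ∈ S, yp ((1 / 2 : ℝ) : ℂ).re (1 / 2) p ≤ 3 / 4 := by
    intro p hp
    rw [ofReal_re, yp_half]
    exact (prime_rpow_le (hS p hp) le_rfl).2
  have g2 := h2 A 0 S ((1 / 2 : ℝ) : ℂ) (1 / 2) hA (by norm_num) (by rw [ofReal_re]; norm_num) hS hy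
  have bZ : BS S (fun f => ZZ S (tw ((1 / 2 : ℝ) : ℂ) f)) := bs_ZZ hS (by rw [ofReal_re]; norm_num)
  have bP : BS S (fun f => Pj A S (tw ((1 / 2 : ℝ) : ℂ) f)) := bs_Pj A S S _
  set F2 : (ℕ → ℂ) → ℝ := fun f => ‖(ZZ S (tw ((1 / 2 : ℝ) : ℂ) f)) ^ 0‖ ^ 2 *
    Real.exp (99 * ‖Pj A S (tw ((1 / 2 : ℝ) : ℂ) f)‖) ^ 2 with hF2
  have b2 : BS S F2 := XB.BS.mulR (bZ.pow 0).norm_sq (XB.BS.expnorm bP (by norm_num))
  have b2' : BS S (fun f => (1 / 16 : ℝ) ^ r * F2 f) := XB.BS.mulR (bs_const S _) b2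
  have e5 : ∑ p ∈ S, yp ((1 / 2 : ℝ) : ℂ).re (1 / 2) p ^ 2 = ∑ p ∈ S, (1 : ℝ) / p := by
    refine Finset.sum_congr rfl fun p _ => ?_
    rw [ofReal_re, yp_half, half_sq]
  rw [e5] at g2
  calc ES S (fun f => ‖G f‖ ^ 2) ≤ ES S (fun f => (1 / 16 : ℝ) ^ r * F2 f) := by
        apply ES_mono
        · intro ω; positivity
        · exact b2'.integrable
        · intro ω
          have h3 := pow_le_pow_left₀ (norm_nonneg _) (hG (ext S ω)) 2
          have h4 : ((1 / 4 : ℝ) ^ r) ^ 2 = (1 / 16) ^ r := by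
            rw [← pow_mul, mul_comm, pow_mul]; norm_num
          rw [mul_pow, h4] at h3
          simp only [hF2, pow_zero, norm_one, one_pow, one_mul]
          exact h3
    _ = (1 / 16 : ℝ) ^ r * ES S F2 := XB.ES_const_mul _ _
    _ ≤ _ := by gcongr

lemma mq_le {M J j : ℕ} (hj : j ≤ J) : ((mq M J j : ℕ) : ℝ) ≤ 24 * KK M J j := by
  have hK := Len.KK_ge_one (M := M) hj
  have h1 := Nat.ceil_lt_add_one (show 0 ≤ KK M J j by linarith)
  unfold mq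
  push_cast
  linarith

lemma le_mq (M J j : ℕ) : 12 * KK M J j ≤ ((mq M J j : ℕ) : ℝ) := by
  have h1 := Nat.le_ceil (KK M J j)
  unfold mq
  push_cast
  linarith

lemma Fq_good {T : ℝ} {M J : ℕ} {α : ℝ} {g h : Finset ℕ} {j : ℕ} (hg : j ∈ g) (hh : j ∉ h)
    (f : ℕ → ℂ) : Fq T M J α g h j f = Ntr (ll M J j) α (Pj M (Sj T M J j) f) := by
  rw [Fq, if_pos hg, if_neg hh, mul_one]

lemma Fq_bad {T : ℝ} {M J : ℕ} {α : ℝ} (hα : |α| ≤ 3) {g h : Finset ℕ} {j : ℕ} (hj : j ≤ J)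
    (hh : j ∈ h) (f : ℕ → ℂ) : ‖Fq T M J α g h j f‖ ≤
      (1 / 4) ^ (mq M J j) * Real.exp (99 * ‖Pj M (Sj T M J j) f‖) := by
  set P := Pj M (Sj T M J j) f
  have hK := Len.KK_ge_one (M := M) hj
  have h1 : ‖(if j ∈ g then Ntr (ll M J j) α P else 1)‖ ≤ Real.exp (3 * ‖P‖) := by
    split_ifs
    · exact norm_Ntr_le3 _ hα _
    · rw [norm_one]; exact Real.one_le_exp (by positivity)
  have h2 : ‖(P / (KK M J j : ℂ)) ^ (mq M J j)‖ ≤ (1 / 4) ^ (mq M J j) * Real.exp (96 * ‖P‖) := by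
    have h3 := pow_div_le (mq M J j) (K := 96 * KK M J j) (by linarith)
      (by have := mq_le (M := M) hj; linarith) (96 * P)
    have hK0 : (KK M J j : ℂ) ≠ 0 := by
      have : KK M J j ≠ 0 := by linarith
      exact_mod_cast this
    have e : 96 * P / ((96 * KK M J j : ℝ) : ℂ) = P / (KK M J j : ℂ) := by
      push_cast
      field_simp
    rw [e, norm_mul] at h3
    simpa using h3
  rw [Fq, if_pos hh, norm_mul]
  calc _ ≤ Real.exp (3 * ‖P‖) * ((1 / 4) ^ (mq M J j) * Real.exp (96 * ‖P‖)) :=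
        mul_le_mul h1 h2 (norm_nonneg _) (Real.exp_pos _).le
    _ = (1 / 4) ^ (mq M J j) * (Real.exp (3 * ‖P‖) * Real.exp (96 * ‖P‖)) := by ring
    _ = (1 / 4) ^ (mq M J j) * Real.exp (99 * ‖P‖) := by
        rw [← Real.exp_add]; congr 2; ring

/-- The numerical bound for bad blocks. -/
lemma bad_numQ {M J j : ℕ} {B : ℝ} (h : 6 + B ≤ KK M J j) :
    (1 / 16 : ℝ) ^ (mq M J j) * (16 * Real.exp B) ≤ Real.exp (-(20 * KK M J j)) := by
  have h1 := le_mq M J j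
  have hl2 : 0.6931471803 < Real.log 2 := Real.log_two_gt_d9
  have hl2' : Real.log 2 < 0.6931471808 := Real.log_two_lt_d9
  have hK : 0 < KK M J j := Real.exp_pos _
  have e1 : (1 / 16 : ℝ) ^ (mq M J j) = Real.exp (-(4 * Real.log 2) * mq M J j) := by
    rw [mul_comm, Real.exp_nat_mul, Real.exp_neg]
    congr 1
    rw [show (4 * Real.log 2) = ((4 : ℕ) : ℝ) * Real.log 2 by norm_num, Real.exp_nat_mul,
      Real.exp_log (by norm_num)]
    norm_num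
  have e2 : (16 : ℝ) = Real.exp (4 * Real.log 2) := by
    rw [show (4 * Real.log 2) = ((4 : ℕ) : ℝ) * Real.log 2 by norm_num, Real.exp_nat_mul,
      Real.exp_log (by norm_num)]
    norm_num
  rw [e1, e2, ← Real.exp_add, ← Real.exp_add]
  apply Real.exp_le_exp.2
  nlinarith

lemma Fq_dep {T : ℝ} {M J : ℕ} {α : ℝ} {g h : Finset ℕ} {j : ℕ} {w : ℂ} {f f' : ℕ → ℂ}
    (hf : ∀ p ∈ Sj T M J j, f p = f' p) :
    Fq T M J α g h j (tw w f) = Fq T M J α g h j (tw w f') := by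
  have h1 : Pj M (Sj T M J j) (tw w f) = Pj M (Sj T M J j) (tw w f') := by
    unfold Pj
    refine Finset.sum_congr rfl fun p hp => ?_
    simp only [tw, hf p hp]
  simp only [Fq, h1]

theorem main : StSecQ := by
  obtain ⟨Cg, hCg, good⟩ := good_blockQ
  obtain ⟨Cb, hCb, bad⟩ := bad_blockQ
  obtain ⟨Cs, hCs, hS0⟩ := XB.sum_inv_S0
  obtain ⟨Cr, hCr, hrange⟩ := XB.sum_inv_block
  obtain ⟨C3, hC3, hinv⟩ := sum_inv
  set C := 5 * C3 + 2 * Cg + 165 * Real.exp (2 * Cg) with hC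
  refine ⟨C, by positivity, ⌈100 + 80 * Cb⌉₊ + 1, by omega, fun M hM => ?_⟩
  have hMr : 100 + 80 * Cb ≤ M := by
    have h1 := Nat.le_ceil (100 + 80 * Cb)
    have h2 : (⌈100 + 80 * Cb⌉₊ : ℝ) ≤ M := by exact_mod_cast (by omega :
      ⌈100 + 80 * Cb⌉₊ ≤ M)
    linarith
  have hM1 : 1 ≤ M := by omega
  have hM1' : (1 : ℝ) ≤ M := by exact_mod_cast hM1
  set D := Cr + 10 * (6 + 2 * (Cb + Cg) * (1 + Cs)) + 2 with hD
  obtain ⟨T₀, hT₀, hev⟩ := XB.eventually_T M 0 D 0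
  refine ⟨T₀, hT₀, fun T hT k hk g h hgh => ?_⟩
  rw [abs_le] at hk
  have hk0 : 0 ≤ k := by linarith
  have hk3 : |k| ≤ 3 := by rw [abs_le]; constructor <;> linarith
  have hk5 : k ^ 2 ≤ 5 := by nlinarith
  obtain ⟨hb1, _, hbet, hK0, _⟩ := hev T hT
  have hT3 : 3 ≤ T := hT₀.trans hT
  have hT1 : 1 < T := by linarith
  have hT0 : 0 < T := by linarith
  have hL : 0 < Real.log T := Real.log_pos hT1
  set J := JJ T with hJ
  set L := Real.log T with hLdef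
  set b := Real.log L with hb
  have hDC : Cr ≤ D := by
    have : 0 ≤ 10 * (6 + 2 * (Cb + Cg) * (1 + Cs)) := by positivity
    linarith
  obtain ⟨hj, -⟩ := hrange T hT3 M J (hDC.trans hbet)
  set Y : ℕ → ℝ := fun j => ∑ p ∈ Sj T M J j, (1 : ℝ) / p with hY
  have hY0 : Y 0 ≤ b + Cs := hS0 T hT3 M J
  have hYj : ∀ j, 1 ≤ j → j ≤ J → Y j ≤ 2 := fun j h1 h2 => hj j h1 h2
  have hKge : ∀ j, j ≤ J → 10 * (6 + Cb * 4) ≤ KK M J j := by
    intro j hjJ
    have h1 := Real.add_one_le_exp (3 / 4 * ((M : ℝ) + J - j))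
    have h2 : (j : ℝ) ≤ J := by exact_mod_cast hjJ
    unfold KK
    linarith
  have hK0' : 10 * (6 + 2 * (Cb + Cg) * (b + Cs)) ≤ KK M J 0 := by
    refine le_trans ?_ hK0
    have h1 : 0 ≤ Cb + Cg := by positivity
    have h2 : 10 * (6 + 2 * (Cb + Cg) * (b + Cs)) ≤
        10 * (6 + 2 * (Cb + Cg) * (1 + Cs)) * (b + 1) := XB.aux_K (by linarith) hCs.le h1
    have h5 : 10 * (6 + 2 * (Cb + Cg) * (1 + Cs)) * (b + 1) ≤ D * (b + 1) := by
      gcongr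
      linarith
    exact h2.trans h5
  -- bad blocks
  have hbad : ∀ j, j ≤ J → 6 + Cb * Y j ≤ KK M J j := by
    intro j hjJ
    rcases Nat.eq_zero_or_pos j with rfl | hpos
    · have h1 : Cb * Y 0 ≤ Cb * (b + Cs) := by gcongr
      have h2 : 0 ≤ Cg * (b + Cs) := by positivity
      have h3 : 0 ≤ Cb * (b + Cs) := by positivity
      linarith
    · have h1 : Cb * Y j ≤ Cb * 2 := by
        have := hYj j hpos hjJ
        gcongr
      have h2 := hKge j hjJ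
      linarith
  have hgood : ∀ j, j ≤ J → Real.exp (-(ll M J j : ℝ) + Cg * Y j) ≤
      Real.exp (2 * Cg) * Real.exp (-KK M J j) := by
    intro j hjJ
    rw [← Real.exp_add]
    apply Real.exp_le_exp.2
    have hKpos := Len.KK_ge_one (M := M) hjJ
    have hl : 10 * KK M J j ≤ ll M J j := Nat.le_ceil _
    rcases Nat.eq_zero_or_pos j with rfl | hpos
    · have h1 : Cg * Y 0 ≤ Cg * (b + Cs) := by gcongr
      have h2 : 0 ≤ Cb * (b + Cs) := by positivity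
      have h3 : 0 ≤ Cg * (b + Cs) := by positivity
      linarith
    · have h1 : Cg * Y j ≤ Cg * 2 := by
        have := hYj j hpos hjJ
        gcongr
      linarith
  have hh : h ⊆ Finset.range (J + 1) := by
    rw [← hgh]; exact Finset.subset_union_right
  -- the exponents
  set F : ℕ → ℝ := fun p => k ^ 2 * (1 / p) + Cg * ((p : ℝ) ^ 2)⁻¹ with hF
  have hF0 : ∀ p, 0 ≤ F p := fun p => by simp only [hF]; positivity
  set Ex : ℕ → ℝ := fun j => ∑ p ∈ Sj T M J j, F p with hEx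
  have hsum : ∑ j ∈ Finset.range (J + 1) \ h, Ex j ≤ k ^ 2 * b + (5 * C3 + 2 * Cg) := by
    have h2 := XB.sum_blocks_le hT1 M J (Finset.sdiff_subset (s := Finset.range (J + 1)) (t := h))
      F hF0
    refine h2.trans ?_
    have hyyT : yy T M J (J + 1) ≤ T := XB.yy_le hT1 M J (by omega)
    have hsub : PS 0 (yy T M J (J + 1)) ⊆ PS 0 T := XB.PS_mono (yy_nonneg hT0.le _ _ _) hyyT
    refine (Finset.sum_le_sum_of_subset_of_nonneg hsub fun p _ _ => hF0 p).trans ?_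
    have s1 : ∑ p ∈ PS 0 T, (1 : ℝ) / p ≤ b + C3 := by
      have h3 := (abs_le.1 (hinv T (by linarith))).2
      linarith
    have s4 : ∑ p ∈ PS 0 T, ((p : ℝ) ^ 2)⁻¹ ≤ 2 := XB.sum_inv_sq fun p hp => XB.prime_PS hp
    have e : ∑ p ∈ PS 0 T, F p = k ^ 2 * ∑ p ∈ PS 0 T, (1 : ℝ) / p +
        Cg * ∑ p ∈ PS 0 T, ((p : ℝ) ^ 2)⁻¹ := by
      simp only [hF, Finset.sum_add_distrib, ← Finset.mul_sum]
    rw [e]
    have u1 : k ^ 2 * ∑ p ∈ PS 0 T, (1 : ℝ) / p ≤ k ^ 2 * b + 5 * C3 := by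
      calc _ ≤ k ^ 2 * (b + C3) := by gcongr
        _ ≤ k ^ 2 * b + 5 * C3 := by
            rw [mul_add]; gcongr
    have u5 : Cg * ∑ p ∈ PS 0 T, ((p : ℝ) ^ 2)⁻¹ ≤ 2 * Cg := by
      calc _ ≤ Cg * 2 := by gcongr
        _ = _ := by ring
    linarith
  -- factorisation
  have hw : (1 / 2 : ℂ) = ((1 / 2 : ℝ) : ℂ) := by push_cast; rfl
  rw [hw]
  set Φ : ℕ → (ℕ → ℂ) → ℝ := fun j f =>
    ‖(if j < J + 1 then Fq T M J k g h j (tw ((1 / 2 : ℝ) : ℂ) f) else 1)‖ ^ 2 with hΦ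
  have e1 : ∀ f : ℕ → ℂ, ‖AQ T M J k g h (tw ((1 / 2 : ℝ) : ℂ) f)‖ ^ 2 =
      ∏ j ∈ Finset.range (J + 2), Φ j f := by
    intro f
    rw [AQ, Finset.prod_pow, ← norm_prod]
    congr 2
    rw [Finset.prod_range_succ _ (J + 1), if_neg (lt_irrefl _), mul_one]
    refine Finset.prod_congr rfl fun j hj => ?_
    rw [if_pos (Finset.mem_range.mp hj)]
  simp only [e1]
  rw [ER_prod' hT1 M J Φ (by
    intro j f g' hfg
    simp only [hΦ]
    rw [Fq_dep hfg]), Finset.prod_range_succ]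
  have h2 : ES (Sj T M J (J + 1)) (Φ (J + 1)) = 1 := by
    have : Φ (J + 1) = fun _ => 1 := by
      ext f; simp [hΦ]
    rw [this]; unfold ES; simp
  rw [h2, mul_one]
  set P := ∏ j ∈ h, Real.exp (-(20 * KK M J j)) with hP
  have hP0 : 0 ≤ P := Finset.prod_nonneg fun j _ => (Real.exp_pos _).le
  have hnn : ∀ j, 0 ≤ ES (Sj T M J j) (Φ j) := fun j => ES_nonneg fun ω => by
    simp only [hΦ]; positivity
  have hprod : ∏ j ∈ Finset.range (J + 1), ES (Sj T M J j) (Φ j) ≤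
      P * Real.exp (∑ j ∈ Finset.range (J + 1) \ h,
        (Ex j + 33 * (Real.exp (2 * Cg) * Real.exp (-KK M J j)))) := by
    rw [← Finset.prod_sdiff hh, mul_comm P, Real.exp_sum]
    refine mul_le_mul ?_ ?_ (Finset.prod_nonneg fun j _ => hnn j)
      (Finset.prod_nonneg fun j _ => (Real.exp_pos _).le)
    · refine Finset.prod_le_prod (fun j _ => hnn j) fun j hj => ?_
      obtain ⟨hj1, hj2⟩ := Finset.mem_sdiff.1 hj
      have hjJ : j ≤ J := by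
        have := Finset.mem_range.1 hj1
        omega
      have hjg : j ∈ g := by
        rw [← hgh, Finset.mem_union] at hj1
        tauto
      have h1 := good M (ll M J j) (Sj T M J j) k hM1 hk3 (fun p hp => prime_Sj hT1 hp)
      have e2 : ES (Sj T M J j) (Φ j) = ES (Sj T M J j) (fun f =>
          ‖Ntr (ll M J j) k (Pj M (Sj T M J j) (tw ((1 / 2 : ℝ) : ℂ) f))‖ ^ 2) := by
        congr 1; ext f
        simp only [hΦ]
        rw [if_pos (Finset.mem_range.mp hj1), Fq_good hjg hj2]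
      rw [e2]
      refine h1.trans ?_
      rw [← Real.exp_add]
      apply Real.exp_le_exp.2
      have h2 := hgood j hjJ
      simp only [hEx, hF]
      gcongr
    · refine Finset.prod_le_prod (fun j _ => hnn j) fun j hj => ?_
      have hjr := hh hj
      have hjJ : j ≤ J := by
        have := Finset.mem_range.1 hjr
        omega
      have h1 := bad M (mq M J j) (Sj T M J j)
        (fun f => Fq T M J k g h j (tw ((1 / 2 : ℝ) : ℂ) f)) hM1 (fun p hp => prime_Sj hT1 hp)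
        (fun f => Fq_bad hk3 hjJ hj _)
      have e2 : ES (Sj T M J j) (Φ j) = ES (Sj T M J j) (fun f =>
          ‖Fq T M J k g h j (tw ((1 / 2 : ℝ) : ℂ) f)‖ ^ 2) := by
        congr 1; ext f
        simp only [hΦ]
        rw [if_pos (Finset.mem_range.mp hjr)]
      rw [e2]
      exact h1.trans (bad_numQ (hbad j hjJ))
  have hsumK : ∑ j ∈ Finset.range (J + 1) \ h, Real.exp (-KK M J j) ≤ 5 :=
    (Finset.sum_le_sum_of_subset_of_nonneg Finset.sdiff_subset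
      (fun _ _ _ => (Real.exp_pos _).le)).trans (XB.sum_exp_KK M J)
  have hexp : ∑ j ∈ Finset.range (J + 1) \ h,
        (Ex j + 33 * (Real.exp (2 * Cg) * Real.exp (-KK M J j))) ≤ k ^ 2 * b + C := by
    rw [Finset.sum_add_distrib]
    have h1 : ∑ j ∈ Finset.range (J + 1) \ h, 33 * (Real.exp (2 * Cg) * Real.exp (-KK M J j)) ≤
        165 * Real.exp (2 * Cg) := by
      rw [← Finset.mul_sum, ← Finset.mul_sum]
      calc 33 * (Real.exp (2 * Cg) * ∑ j ∈ Finset.range (J + 1) \ h, Real.exp (-KK M J j))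
          ≤ 33 * (Real.exp (2 * Cg) * 5) := by gcongr
        _ = _ := by ring
    linarith
  have hCM : C ≤ C * M := le_mul_of_one_le_right (by positivity) hM1'
  have e3 : L ^ (k ^ 2) = Real.exp (k ^ 2 * b) := by
    rw [Real.rpow_def_of_pos hL, ← hb, mul_comm]
  calc ∏ j ∈ Finset.range (J + 1), ES (Sj T M J j) (Φ j) ≤
      P * Real.exp (∑ j ∈ Finset.range (J + 1) \ h,
        (Ex j + 33 * (Real.exp (2 * Cg) * Real.exp (-KK M J j)))) := hprod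
    _ ≤ P * Real.exp (C * M + k ^ 2 * b) := by
        refine mul_le_mul_of_nonneg_left (Real.exp_le_exp.2 ?_) hP0
        linarith
    _ = Real.exp (C * M) * L ^ (k ^ 2) * P := by
        rw [e3, Real.exp_add]; ring

end SecQ

/-- Module K3 (9). -/
theorem stSecQ : StSecQ := SecQ.main

end K3
end Pool.Agent.Lib.MP_973905_nt
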