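import Pool.Agent.Lib.MP_973905_nt.K3.Z2Pair
import Pool.Agent.Lib.MP_973905_nt.K3.TransferZ2
import Pool.Agent.Lib.MP_973905_nt.K3.Cross2
import Pool.Agent.Lib.MP_973905_nt.K3.DivSum
import Pool.Agent.Lib.MP_973905_nt.K3.LF4
import Pool.Agent.Lib.MP_973905_nt.K3.Block4
import Pool.Agent.Lib.MP_973905_nt.K3.RA4
import Pool.Agent.Lib.MP_973905_nt.K3.Core4
import Pool.Agent.Lib.MP_973905_nt.K3.SecQ
import Pool.Agent.Lib.MP_973905_nt.K3.LenQ
import Pool.Agent.Lib.MP_973905_nt.K3.RepD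
import Pool.Agent.Lib.MP_973905_nt.K3.SDMain
import Pool.Agent.Lib.MP_973905_nt.K3.SDBad
import Pool.Agent.Lib.MP_973905_nt.K3.Point4
import Pool.Agent.Lib.MP_973905_nt.K3.AvgLow
import Pool.Agent.Lib.MP_973905_nt.K3.CK2
import Pool.Agent.Lib.MP_973905_nt.K3.LowT
import Pool.Agent.Lib.MP_973905_nt.K3.Final

/-! Assembly of the lower bound in the joint limit `T → ∞`, `k → 2+`. -/

namespace Pool.Agent.Lib.MP_973905_nt.K3

theorem final : StFinal := by
  have h7 := stRA4 stLF4 (stBlock4 stLF4)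
  have h12a := stSDZeta h7 stCore4 stRepD
  have h12b := stSDSq h7 stCore4 stRepD
  have h16 := stLowT (stTransferZ2 stZ2Pair) stCross2 stDivSum stSecQ stLenQ h12a h12b
    (stSDBad stCore4 stRepD) stPoint4
  exact stFinal (stLow h16 stAvgLow) stCK2

end Pool.Agent.Lib.MP_973905_nt.K3
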