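import Pool.Agent.Lib.MP_973905_nt.K1.Stmts

/-! Definitions for the sharp lower bound in the joint limit `T → ∞`, `k → 2+` (folder K3). -/

namespace Pool.Agent.Lib.MP_973905_nt
namespace K3

open MeasureTheory ProbabilityTheory Complex Filter Topology

/-- The divisor function. -/
noncomputable def dv (n : ℕ) : ℝ := (n.divisors.card : ℝ)

/-- Cutoff: `1` on `[-1, 1 - 2δ]`, `0` outside `[-2, 1 - δ]`. -/
noncomputable def Pd (δ x : ℝ) : ℝ :=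
  Real.smoothTransition ((1 - δ - x) / δ) * Real.smoothTransition (x + 2)

/-- Smoothed partial sum of `ζ²` of length `T^{1 - δ}`. -/
noncomputable def SD (δ T : ℝ) (f : ℕ → ℂ) : ℂ :=
  ∑ n ∈ Finset.Icc 1 ⌊T⌋₊, ((dv n * Pd δ (Real.log n / Real.log T) : ℝ) : ℂ) * f n

/-- `EG (Td δ T) τ` is the Gaussian mean with centre `τ` and variance `T^{2 - δ/2}`. -/
noncomputable def Td (δ T : ℝ) : ℝ := T ^ ((20 - 5 * δ) / 19 : ℝ)

lemma VV_Td {δ T : ℝ} (hT : 0 < T) : ((VV (Td δ T) : NNReal) : ℝ) = T ^ (2 - δ / 2 : ℝ) := by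
  unfold Td
  rw [VV_coe (Real.rpow_nonneg hT.le _), ← Real.rpow_mul hT.le]
  congr 1
  ring

/-- Exponents for the bad blocks (larger than `rr`). -/
noncomputable def mq (M J j : ℕ) : ℕ := 12 * ⌈KK M J j⌉₊

/-- One factor of our Dirichlet polynomials (as `Fc`, with `mq` instead of `rr`). -/
noncomputable def Fq (T : ℝ) (M J : ℕ) (α : ℝ) (g h : Finset ℕ) (j : ℕ) (f : ℕ → ℂ) : ℂ :=
  (if j ∈ g then Ntr (ll M J j) α (Pj M (Sj T M J j) f) else 1) *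
    (if j ∈ h then (Pj M (Sj T M J j) f / (KK M J j : ℂ)) ^ (mq M J j) else 1)

/-- Our Dirichlet polynomials (as `AA`, with `mq` instead of `rr`). -/
noncomputable def AQ (T : ℝ) (M J : ℕ) (α : ℝ) (g h : Finset ℕ) (f : ℕ → ℂ) : ℂ :=
  ∏ j ∈ Finset.range (J + 1), Fq T M J α g h j f

lemma AQ_empty (T : ℝ) (M J : ℕ) (α : ℝ) (g : Finset ℕ) (f : ℕ → ℂ) :
    AQ T M J α g ∅ f = AA T M J α g ∅ f := by
  simp [AQ, AA, Fq, Fc]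

lemma AQ_NN (T : ℝ) (M : ℕ) (α : ℝ) (f : ℕ → ℂ) :
    AQ T M (JJ T) α (Finset.range (JJ T + 1)) ∅ f = K1.NN T M α f := AQ_empty _ _ _ _ _ _

/-- The Euler product at `1 + a`. -/
noncomputable def EP (T : ℝ) (a : ℂ) : ℂ := ∏ p ∈ PS 0 T, (1 - (p : ℂ) ^ (-(1 + a)))⁻¹

/-- Shifted fourth moment of the Euler product over `p ≤ T` times `|G|²` in the random model. -/
noncomputable def RZ4 (T : ℝ) (M : ℕ) (G : (ℕ → ℂ) → ℂ) (a₁ a₂ b₁ b₂ : ℂ) : ℂ :=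
  ER (SB T M (JJ T)) (fun f => ZZ (PS 0 T) (tw (1 / 2 + a₁) f) * ZZ (PS 0 T) (tw (1 / 2 + a₂) f) *
    (starRingEnd ℂ) (ZZ (PS 0 T) (tw (1 / 2 + (starRingEnd ℂ) b₁) f) *
      ZZ (PS 0 T) (tw (1 / 2 + (starRingEnd ℂ) b₂) f)) *
    (G (tw (1 / 2) f) * (starRingEnd ℂ) (G (tw (1 / 2) f))))

/-- The local factor with four shifts. -/
noncomputable def LF4 (u x : ℝ) (x₁ x₂ y₁ y₂ : ℂ) : ℂ :=
  Real.circleAverage (fun z : ℂ => (1 - x₁ * z)⁻¹ * (1 - x₂ * z)⁻¹ *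
    (1 - y₁ * (starRingEnd ℂ) z)⁻¹ * (1 - y₂ * (starRingEnd ℂ) z)⁻¹ *
    ((‖1 - x * z‖ ^ (2 * u) : ℝ) : ℂ)) 0 1

/-- The product of the local factors over a set of primes. -/
noncomputable def LP4 (u : ℝ) (a₁ a₂ b₁ b₂ : ℂ) (S : Finset ℕ) : ℂ :=
  ∏ p ∈ S, LF4 u ((p : ℝ) ^ (-(1 / 2) : ℝ)) ((p : ℂ) ^ (-(1 / 2 + a₁))) ((p : ℂ) ^ (-(1 / 2 + a₂)))
    ((p : ℂ) ^ (-(1 / 2 + b₁))) ((p : ℂ) ^ (-(1 / 2 + b₂)))

end K3
end Pool.Agent.Lib.MP_973905_nt
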