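import Pool.Agent.Lib.MP_973905_nt.K3.Stmts
import Pool.Agent.Lib.MP_973905_nt.K1.Lower
import Pool.Agent.Lib.MP_973905_nt.K1.UpperHolder

/-! Module (16): lower bound for each Gaussian mean. -/

namespace Pool.Agent.Lib.MP_973905_nt
namespace K3

open MeasureTheory ProbabilityTheory Complex Filter Topology K1 K1.Lower

namespace LowT

/-! ### the polynomials -/

/-- the truncated exponential of the block `j` -/
noncomputable def Nj (T : ℝ) (M : ℕ) (α : ℝ) (f : ℕ → ℂ) (j : ℕ) : ℝ :=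
  ‖Ntr (ll M (JJ T) j) α (Pj M (Sj T M (JJ T) j) f)‖

/-- the power of the block `j` -/
noncomputable def Qj (T : ℝ) (M : ℕ) (f : ℕ → ℂ) (j : ℕ) : ℝ :=
  ‖(Pj M (Sj T M (JJ T) j) f / (KK M (JJ T) j : ℂ)) ^ (mq M (JJ T) j)‖

lemma norm_AQ (T : ℝ) (M : ℕ) (α : ℝ) {g h : Finset ℕ} (hg : g ⊆ Finset.range (JJ T + 1))
    (hh : h ⊆ Finset.range (JJ T + 1)) (f : ℕ → ℂ) : ‖AQ T M (JJ T) α g h f‖ =
      (∏ j ∈ g, Nj T M α f j) * ∏ j ∈ h, Qj T M f j := by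
  have e1 : ∀ j ∈ Finset.range (JJ T + 1), ‖Fq T M (JJ T) α g h j f‖ =
      (if j ∈ g then Nj T M α f j else 1) * (if j ∈ h then Qj T M f j else 1) := by
    intro j _
    unfold Fq
    rw [norm_mul]
    congr 1
    · split_ifs <;> simp [Nj]
    · split_ifs <;> simp [Qj]
  rw [AQ, norm_prod, Finset.prod_congr rfl e1, Finset.prod_mul_distrib, Finset.prod_ite_mem,
    Finset.prod_ite_mem, Finset.inter_eq_right.mpr hg, Finset.inter_eq_right.mpr hh]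

lemma norm_NN (T : ℝ) (M : ℕ) (α : ℝ) (f : ℕ → ℂ) :
    ‖NN T M α f‖ = ∏ j ∈ Finset.range (JJ T + 1), Nj T M α f j := by
  rw [← AQ_NN, norm_AQ T M α (Finset.Subset.refl _) (Finset.empty_subset _), Finset.prod_empty,
    mul_one]

/-- the first product -/
noncomputable def Wp (T : ℝ) (M : ℕ) (α : ℝ) (f : ℕ → ℂ) : ℝ :=
  ∏ j ∈ Finset.range (JJ T + 1), (Nj T M α f j ^ 2 + (Nj T M α f j * Qj T M f j) ^ 2)

/-- the second product -/
noncomputable def Vp (T : ℝ) (M : ℕ) (k : ℝ) (f : ℕ → ℂ) : ℝ :=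
  ∏ j ∈ Finset.range (JJ T + 1), (Nj T M k f j ^ 2 + Real.exp (10 * KK M (JJ T) j) * Qj T M f j ^ 2)

lemma expandW (T : ℝ) (M : ℕ) (α : ℝ) (f : ℕ → ℂ) :
    Wp T M α f = ∑ g ∈ (Finset.range (JJ T + 1)).powerset,
      ‖AQ T M (JJ T) α (Finset.range (JJ T + 1)) (Finset.range (JJ T + 1) \ g) f‖ ^ 2 := by
  rw [Wp, Finset.prod_add]
  refine Finset.sum_congr rfl fun g hg => ?_
  rw [norm_AQ T M α (Finset.Subset.refl _) Finset.sdiff_subset f, mul_pow, ← Finset.prod_pow,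
    ← Finset.prod_pow]
  simp only [mul_pow]
  rw [Finset.prod_mul_distrib, ← mul_assoc]
  congr 1
  rw [mul_comm, Finset.prod_sdiff (Finset.mem_powerset.1 hg)]

lemma expandV (T : ℝ) (M : ℕ) (k : ℝ) (f : ℕ → ℂ) :
    Vp T M k f = ∑ g ∈ (Finset.range (JJ T + 1)).powerset,
      (∏ j ∈ Finset.range (JJ T + 1) \ g, Real.exp (10 * KK M (JJ T) j)) *
      ‖AQ T M (JJ T) k g (Finset.range (JJ T + 1) \ g) f‖ ^ 2 := by
  rw [Vp, Finset.prod_add]
  refine Finset.sum_congr rfl fun g hg => ?_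
  rw [norm_AQ T M k (Finset.mem_powerset.1 hg) Finset.sdiff_subset f, mul_pow, ← Finset.prod_pow,
    ← Finset.prod_pow, Finset.prod_mul_distrib]
  ring

lemma Nj_nonneg (T : ℝ) (M : ℕ) (α : ℝ) (f : ℕ → ℂ) (j : ℕ) : 0 ≤ Nj T M α f j := norm_nonneg _

lemma Qj_nonneg (T : ℝ) (M : ℕ) (f : ℕ → ℂ) (j : ℕ) : 0 ≤ Qj T M f j := norm_nonneg _

lemma KK_one {M J j : ℕ} (h : j ≤ J) : 1 ≤ KK M J j := Len.KK_ge_one h

lemma ll_bounds {M J j : ℕ} (h : j ≤ J) : 10 * KK M J j ≤ ll M J j ∧ (ll M J j : ℝ) ≤ 11 * KK M J j := by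
  have h1 := KK_one (M := M) h
  refine ⟨Nat.le_ceil _, ?_⟩
  have h2 := (Nat.ceil_lt_add_one (show 0 ≤ 10 * KK M J j by linarith)).le
  unfold ll
  linarith

lemma mq_bound (M J j : ℕ) : 12 * KK M J j ≤ mq M J j := by
  unfold mq
  push_cast
  have := Nat.le_ceil (KK M J j)
  linarith

/-- the pointwise inequality -/
lemma pointwise (hP : StPoint4) (T : ℝ) (M : ℕ) {α : ℝ} (hα0 : 0 ≤ α) (hα1 : α ≤ 1 / 10) (f : ℕ → ℂ) :
    (∏ j ∈ Finset.range (JJ T + 1), (1 - Real.exp (-KK M (JJ T) j))) ^ 2 * ‖NN T M α f‖ ^ 2 ≤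
      Wp T M α f ^ (1 / 2 : ℝ) * Vp T M (2 + α) f ^ (α / (2 * (2 + α))) := by
  rw [norm_NN, ← Finset.prod_pow, ← Finset.prod_pow, ← Finset.prod_mul_distrib, Wp, Vp,
    ← Real.finsetProd_rpow _ _ (fun j _ => by positivity),
    ← Real.finsetProd_rpow _ _ (fun j _ => by positivity), ← Finset.prod_mul_distrib]
  refine Finset.prod_le_prod (fun j _ => by positivity) fun j hj => ?_
  have hjJ : j ≤ JJ T := by rw [Finset.mem_range] at hj; omega
  have h1 := hP (ll M (JJ T) j) (mq M (JJ T) j) (KK M (JJ T) j) α (Pj M (Sj T M (JJ T) j) f)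
    (KK_one hjJ) (ll_bounds hjJ).1 (ll_bounds hjJ).2 (mq_bound _ _ _) hα0 hα1
  rw [norm_mul (Ntr _ _ _)] at h1
  exact h1

/-! ### transfer to the random model -/

lemma fac {T : ℝ} (hT : 1 < T) {M : ℕ} {a : ℝ} (ha : a ≤ 1) (n : ℕ) (h1 : 1 ≤ n) (h2 : (n : ℝ) ≤ T ^ a) :
    n ∈ Nat.factoredNumbers (UU (SB T M (JJ T))) := by
  refine mem_factored hT M (JJ T) h1 (h2.trans ?_)
  calc T ^ a ≤ T ^ (1 : ℝ) := Real.rpow_le_rpow_of_exponent_le hT.le ha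
    _ = T := Real.rpow_one T

lemma tr_sq {δ T : ℝ} (hδ : 0 < δ) (hT : 1 < T) (M : ℕ) {N B : ℝ} {G : (ℕ → ℂ) → ℂ} (hG : DP N B G)
    (hN : N ≤ T ^ (1 - 3 * δ / 8 : ℝ)) (τ : ℝ) :
    |EG (Td δ T) τ (fun t => ‖G (fs (1 / 2 + t * I))‖ ^ 2) -
      ER (SB T M (JJ T)) (fun f => ‖G (tw (1 / 2) f)‖ ^ 2)| ≤
      B ^ 2 * Real.exp (-(T ^ (δ / 4 : ℝ) / 2)) := by
  have hT0 : 0 < T := by linarith
  have h1 := transfer_sq (Sb := SB T M (JJ T)) (fun n => fac hT (M := M) (by linarith) n)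
    (hG.twist (w := (1 / 2 : ℂ)) (by norm_num)) hN (Td δ T) τ
  have e1 : ∀ t : ℝ, ‖(fun f => G (tw (1 / 2) f)) (fs (t * I))‖ ^ 2 =
      ‖G (fs (1 / 2 + t * I))‖ ^ 2 := by
    intro t
    simp only
    rw [← hG.fs_add]
  have e3 : (VV (Td δ T) : ℝ) / (2 * (T ^ (1 - 3 * δ / 8 : ℝ)) ^ 2) = T ^ (δ / 4 : ℝ) / 2 := by
    rw [VV_Td hT0, ← Real.rpow_natCast (T ^ (1 - 3 * δ / 8 : ℝ)), ← Real.rpow_mul hT0.le]
    have : T ^ (2 - δ / 2 : ℝ) = T ^ (δ / 4 : ℝ) * T ^ ((1 - 3 * δ / 8) * ((2 : ℕ) : ℝ)) := by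
      rw [← Real.rpow_add hT0]
      congr 1
      push_cast
      ring
    rw [this]
    have h0 : 0 < T ^ ((1 - 3 * δ / 8) * ((2 : ℕ) : ℝ)) := Real.rpow_pos_of_pos hT0 _
    field_simp
  simp only [e1] at h1
  rw [e3] at h1
  exact h1

lemma Pd_nonneg (δ x : ℝ) : 0 ≤ Pd δ x :=
  mul_nonneg (Real.smoothTransition.nonneg _) (Real.smoothTransition.nonneg _)

lemma Pd_le_one (δ x : ℝ) : Pd δ x ≤ 1 :=
  mul_le_one₀ (Real.smoothTransition.le_one _) (Real.smoothTransition.nonneg _)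
    (Real.smoothTransition.le_one _)

lemma Pd_one {δ x : ℝ} (hδ : 0 < δ) (h1 : -1 ≤ x) (h2 : x ≤ 1 - 2 * δ) : Pd δ x = 1 := by
  rw [Pd, Real.smoothTransition.one_of_one_le, Real.smoothTransition.one_of_one_le (by linarith),
    mul_one]
  rw [le_div_iff₀ hδ]; linarith

lemma Pd_zero {δ x : ℝ} (hδ : 0 < δ) (h : 1 - δ ≤ x) : Pd δ x = 0 := by
  rw [Pd, Real.smoothTransition.zero_of_nonpos, zero_mul]
  apply div_nonpos_of_nonpos_of_nonneg _ hδ.le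
  linarith

lemma dv_nonneg (n : ℕ) : 0 ≤ dv n := Nat.cast_nonneg _

lemma dv_le (n : ℕ) : dv n ≤ n := by
  unfold dv
  exact_mod_cast Nat.card_divisors_le_self n

lemma dp_SD {δ T : ℝ} (hδ : 0 < δ) (hT : 1 < T) : DP (T ^ (1 - δ)) (T ^ 2) (SD δ T) := by
  have hT0 : 0 < T := by linarith
  have hL : 0 < Real.log T := Real.log_pos hT
  have h1 : ∀ n ∈ Finset.Icc 1 ⌊T⌋₊, DP (T ^ (1 - δ)) T
      (fun f => ((dv n * Pd δ (Real.log n / Real.log T) : ℝ) : ℂ) * f n) := by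
    intro n hn
    rw [Finset.mem_Icc] at hn
    have hnT : (n : ℝ) ≤ T := (Nat.le_floor_iff hT0.le).mp hn.2
    by_cases h : (n : ℝ) ≤ T ^ (1 - δ)
    · refine (dp_single ((dv n * Pd δ (Real.log n / Real.log T) : ℝ) : ℂ) n hn.1 h).mono le_rfl ?_
      rw [norm_real, Real.norm_eq_abs, abs_of_nonneg (mul_nonneg (dv_nonneg n) (Pd_nonneg _ _))]
      calc dv n * Pd δ (Real.log n / Real.log T) ≤ dv n * 1 :=
            mul_le_mul_of_nonneg_left (Pd_le_one _ _) (dv_nonneg n)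
        _ ≤ n := by rw [mul_one]; exact dv_le n
        _ ≤ T := hnT
    · push Not at h
      have h2 : Pd δ (Real.log n / Real.log T) = 0 := by
        apply Pd_zero hδ
        rw [le_div_iff₀ hL, ← Real.log_rpow hT0]
        exact Real.log_le_log (Real.rpow_pos_of_pos hT0 _) h.le
      rw [h2, mul_zero]
      simpa using dp_zero (N := T ^ (1 - δ)) hT0.le
  have h2 := dp_sum (Finset.Icc 1 ⌊T⌋₊) (M := fun _ => T) h1
  refine h2.mono le_rfl ?_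
  simp only [Finset.sum_const, Nat.card_Icc, add_tsub_cancel_right, nsmul_eq_mul]
  rw [sq]
  exact mul_le_mul_of_nonneg_right (Nat.floor_le hT0.le) hT0.le

/-! ### the test function -/

/-- the test function -/
noncomputable def Dt (S F : ℂ) : ℂ := S + (starRingEnd ℂ) F ^ 2 * (starRingEnd ℂ) S

lemma Dt_sq {S F : ℂ} (hF : ‖F‖ = 1) : ‖Dt S F‖ ^ 2 = 2 * ‖S‖ ^ 2 + 2 * (F ^ 2 * S ^ 2).re := by
  have h1 : ‖(starRingEnd ℂ) F ^ 2 * (starRingEnd ℂ) S‖ = ‖S‖ := by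
    rw [norm_mul, norm_pow, RCLike.norm_conj, RCLike.norm_conj, hF, one_pow, one_mul]
  have h2 : ∀ a b : ℂ, ‖a + b‖ ^ 2 = ‖a‖ ^ 2 + ‖b‖ ^ 2 + 2 * (a * (starRingEnd ℂ) b).re := by
    intro a b
    rw [← normSq_eq_norm_sq, ← normSq_eq_norm_sq, ← normSq_eq_norm_sq, normSq_add]
  rw [Dt, h2, h1]
  simp only [map_mul, map_pow, conj_conj]
  have h3 : S * (F ^ 2 * S) = F ^ 2 * S ^ 2 := by ring
  rw [h3]
  ring

lemma Dt_le {S F : ℂ} (hF : ‖F‖ = 1) : ‖Dt S F‖ ≤ 2 * ‖S‖ := by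
  have h1 : ‖(starRingEnd ℂ) F ^ 2 * (starRingEnd ℂ) S‖ = ‖S‖ := by
    rw [norm_mul, norm_pow, RCLike.norm_conj, RCLike.norm_conj, hF, one_pow, one_mul]
  refine (norm_add_le _ _).trans ?_
  rw [h1]
  linarith

lemma zD {z S F : ℂ} (hz : (starRingEnd ℂ) z = F * z) :
    2 * (z ^ 2 * (starRingEnd ℂ) S).re ≤ ‖z‖ ^ 2 * ‖Dt S F‖ := by
  have h1 : z ^ 2 * (starRingEnd ℂ) (Dt S F) = z ^ 2 * (starRingEnd ℂ) S +
      (starRingEnd ℂ) (z ^ 2 * (starRingEnd ℂ) S) := by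
    rw [Dt]
    simp only [map_add, map_mul, map_pow, conj_conj]
    rw [hz]
    ring
  have h2 : (z ^ 2 * (starRingEnd ℂ) (Dt S F)).re = 2 * (z ^ 2 * (starRingEnd ℂ) S).re := by
    rw [h1, add_re, conj_re]
    ring
  rw [← h2]
  refine (re_le_norm _).trans ?_
  rw [norm_mul, norm_pow, RCLike.norm_conj]

/-! ### integrability -/

lemma dp_poly {N B : ℝ} {G : (ℕ → ℂ) → ℂ} (h : DP N B G) :
    Continuous (fun t : ℝ => G (fs (1 / 2 + t * I))) ∧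
      ∀ t : ℝ, ‖G (fs (1 / 2 + t * I))‖ ≤ B := dp_half h

lemma int_sq {N B : ℝ} {G : (ℕ → ℂ) → ℂ} (h : DP N B G) (τ : ℝ) (v : NNReal) :
    Integrable (fun t : ℝ => ‖G (fs (1 / 2 + t * I))‖ ^ 2) (gaussianReal τ v) := by
  obtain ⟨h1, h2⟩ := dp_poly h
  refine integrable_of_poly τ v (C := B ^ 2) (m := 0) (h1.norm.pow 2).aestronglyMeasurable fun t => ?_
  rw [pow_zero, mul_one, Real.norm_eq_abs, abs_of_nonneg (by positivity)]
  exact pow_le_pow_left₀ (norm_nonneg _) (h2 t) 2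

section

variable {δ T k θ : ℝ} {M : ℕ}

/-- lower bound for the correlation with the test function -/
lemma H1 (hδ : 0 < δ) (hδ8 : δ ≤ 1 / 8) (hT3 : 3 ≤ T) (hθ : 0 < θ) (hθδ : θ ≤ δ / 4)
    {α A η Λ : ℝ} (hdp : DP (T ^ θ) (T ^ θ) (NN T M α)) {τ : ℝ}
    (h2 : ∀ G H : (ℕ → ℂ) → ℂ, DP (T ^ (1 - 3 * δ / 8 : ℝ)) (T ^ 3) G →
      DP (T ^ (1 - 3 * δ / 8 : ℝ)) (T ^ 3) H →
      ‖EG (Td δ T) τ (fun t => riemannZeta (1 / 2 + t * I) ^ 2 *
        (G (fs (t * I)) * (starRingEnd ℂ) (H (fs (t * I))))) -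
        ER (SB T M (JJ T)) (fun f => ZZ (PS 0 T) (tw (1 / 2) f) ^ 2 *
          (G f * (starRingEnd ℂ) (H f)))‖ ≤ T ^ (-2 : ℝ))
    (h12 : ‖ER (SB T M (JJ T)) (fun f => ZZ (PS 0 T) (tw (1 / 2) f) ^ 2 *
        (starRingEnd ℂ) (SD δ T (tw (1 / 2) f)) *
        (NN T M α (tw (1 / 2) f) * (starRingEnd ℂ) (NN T M α (tw (1 / 2) f)))) - ((A : ℝ) : ℂ)‖ ≤ η * Λ)
    (ht : T ^ (-2 : ℝ) ≤ η * Λ) :
    2 * (A - 2 * (η * Λ)) ≤ EG (Td δ T) τ (fun t => ‖riemannZeta (1 / 2 + t * I)‖ ^ 2 *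
      ‖Dt (SD δ T (fs (1 / 2 + t * I))) (FF (1 / 2 + t * I))‖ *
      ‖NN T M α (fs (1 / 2 + t * I))‖ ^ 2) := by
  have hT1 : 1 < T := by linarith
  have hT0 : 0 < T := by linarith
  have hSD := dp_SD hδ hT1
  set G : (ℕ → ℂ) → ℂ := fun f => NN T M α (tw (1 / 2) f) with hG
  set H : (ℕ → ℂ) → ℂ := fun f => SD δ T (tw (1 / 2) f) * NN T M α (tw (1 / 2) f) with hH
  have hTθ : T ^ θ ≤ T := by
    calc T ^ θ ≤ T ^ (1 : ℝ) := Real.rpow_le_rpow_of_exponent_le hT1.le (by linarith)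
      _ = T := Real.rpow_one T
  have hlen1 : T ^ θ ≤ T ^ (1 - 3 * δ / 8 : ℝ) :=
    Real.rpow_le_rpow_of_exponent_le hT1.le (by linarith)
  have hlen2 : T ^ (1 - δ) * T ^ θ ≤ T ^ (1 - 3 * δ / 8 : ℝ) := by
    rw [← Real.rpow_add hT0]
    exact Real.rpow_le_rpow_of_exponent_le hT1.le (by linarith)
  have hco1 : T ^ θ ≤ T ^ 3 := hTθ.trans (by nlinarith [sq_nonneg T, sq_nonneg (T - 1)])
  have hco2 : T ^ 2 * T ^ θ ≤ T ^ 3 := by
    calc T ^ 2 * T ^ θ ≤ T ^ 2 * T := by gcongr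
      _ = T ^ 3 := by ring
  have hGd : DP (T ^ (1 - 3 * δ / 8 : ℝ)) (T ^ 3) G :=
    (hdp.twist (w := (1 / 2 : ℂ)) (by norm_num)).mono hlen1 hco1
  have hHd : DP (T ^ (1 - 3 * δ / 8 : ℝ)) (T ^ 3) H :=
    ((hSD.mul hdp).twist (w := (1 / 2 : ℂ)) (by norm_num)).mono hlen2 hco2
  have h3 := h2 G H hGd hHd
  obtain ⟨Cz, hCz, hzb⟩ := zeta_poly_half
  obtain ⟨cS, bS⟩ := dp_poly hSD
  obtain ⟨cN, bN⟩ := dp_poly hdp
  have e1 : ∀ t : ℝ, riemannZeta (1 / 2 + t * I) ^ 2 * (G (fs (t * I)) * (starRingEnd ℂ) (H (fs (t * I)))) =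
      riemannZeta (1 / 2 + t * I) ^ 2 * (starRingEnd ℂ) (SD δ T (fs (1 / 2 + t * I))) *
        ((‖NN T M α (fs (1 / 2 + t * I))‖ ^ 2 : ℝ) : ℂ) := by
    intro t
    simp only [hG, hH]
    rw [← hdp.fs_add, ← hSD.fs_add, map_mul, ← normSq_eq_norm_sq, ← mul_conj]
    ring
  have e2 : ∀ f : ℕ → ℂ, ZZ (PS 0 T) (tw (1 / 2) f) ^ 2 * (G f * (starRingEnd ℂ) (H f)) =
      ZZ (PS 0 T) (tw (1 / 2) f) ^ 2 * (starRingEnd ℂ) (SD δ T (tw (1 / 2) f)) *
        (NN T M α (tw (1 / 2) f) * (starRingEnd ℂ) (NN T M α (tw (1 / 2) f))) := by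
    intro f
    simp only [hG, hH, map_mul]
    ring
  simp only [e1, e2] at h3
  have h4 : A - 2 * (η * Λ) ≤ (EG (Td δ T) τ (fun t => riemannZeta (1 / 2 + t * I) ^ 2 *
      (starRingEnd ℂ) (SD δ T (fs (1 / 2 + t * I))) *
        ((‖NN T M α (fs (1 / 2 + t * I))‖ ^ 2 : ℝ) : ℂ))).re := by
    set X := EG (Td δ T) τ (fun t => riemannZeta (1 / 2 + t * I) ^ 2 *
      (starRingEnd ℂ) (SD δ T (fs (1 / 2 + t * I))) *
        ((‖NN T M α (fs (1 / 2 + t * I))‖ ^ 2 : ℝ) : ℂ)) with hX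
    set Y := ER (SB T M (JJ T)) (fun f => ZZ (PS 0 T) (tw (1 / 2) f) ^ 2 *
        (starRingEnd ℂ) (SD δ T (tw (1 / 2) f)) *
        (NN T M α (tw (1 / 2) f) * (starRingEnd ℂ) (NN T M α (tw (1 / 2) f)))) with hY
    have h5 : ‖X - ((A : ℝ) : ℂ)‖ ≤ 2 * (η * Λ) := by
      calc ‖X - ((A : ℝ) : ℂ)‖ = ‖(X - Y) + (Y - ((A : ℝ) : ℂ))‖ := by congr 1; ring
        _ ≤ ‖X - Y‖ + ‖Y - ((A : ℝ) : ℂ)‖ := norm_add_le _ _
        _ ≤ η * Λ + η * Λ := add_le_add (h3.trans ht) h12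
        _ = _ := by ring
    have h6 := (abs_re_le_norm (X - ((A : ℝ) : ℂ))).trans h5
    rw [sub_re, ofReal_re] at h6
    have := (abs_le.1 h6).1
    linarith
  have hi1 : Integrable (fun t : ℝ => riemannZeta (1 / 2 + t * I) ^ 2 *
      (starRingEnd ℂ) (SD δ T (fs (1 / 2 + t * I))) *
        ((‖NN T M α (fs (1 / 2 + t * I))‖ ^ 2 : ℝ) : ℂ)) (gaussianReal τ (VV (Td δ T))) := by
    refine integrable_of_poly τ _ (C := Cz ^ 2 * T ^ 2 * (T ^ θ) ^ 2) (m := 4) ?_ fun t => ?_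
    · exact (((continuous_zeta_half.pow 2).mul (continuous_conj.comp cS)).mul
        (continuous_ofReal.comp (cN.norm.pow 2))).aestronglyMeasurable
    · rw [norm_mul, norm_mul, norm_pow, RCLike.norm_conj, norm_real, Real.norm_eq_abs,
        abs_of_nonneg (sq_nonneg _)]
      calc ‖riemannZeta (1 / 2 + t * I)‖ ^ 2 * ‖SD δ T (fs (1 / 2 + t * I))‖ *
            ‖NN T M α (fs (1 / 2 + t * I))‖ ^ 2 ≤ (Cz * (1 + |t|) ^ 2) ^ 2 * T ^ 2 * (T ^ θ) ^ 2 := by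
            gcongr
            · exact hzb t
            · exact bS t
            · exact bN t
        _ = _ := by ring
  have hi2 : Integrable (fun t : ℝ => ‖riemannZeta (1 / 2 + t * I)‖ ^ 2 *
      ‖Dt (SD δ T (fs (1 / 2 + t * I))) (FF (1 / 2 + t * I))‖ *
      ‖NN T M α (fs (1 / 2 + t * I))‖ ^ 2) (gaussianReal τ (VV (Td δ T))) := by
    refine integrable_of_poly τ _ (C := Cz ^ 2 * (2 * T ^ 2) * (T ^ θ) ^ 2) (m := 4) ?_ fun t => ?_
    · unfold Dt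
      exact (((continuous_zeta_half.norm.pow 2).mul (cS.add (((continuous_conj.comp
        continuous_FF_half).pow 2).mul (continuous_conj.comp cS))).norm).mul
        (cN.norm.pow 2)).aestronglyMeasurable
    · rw [Real.norm_eq_abs, abs_of_nonneg (by positivity)]
      have h7 := Dt_le (S := SD δ T (fs (1 / 2 + t * I))) (FF_half' t)
      calc ‖riemannZeta (1 / 2 + t * I)‖ ^ 2 * ‖Dt (SD δ T (fs (1 / 2 + t * I))) (FF (1 / 2 + t * I))‖ *
            ‖NN T M α (fs (1 / 2 + t * I))‖ ^ 2 ≤ (Cz * (1 + |t|) ^ 2) ^ 2 * (2 * T ^ 2) * (T ^ θ) ^ 2 := by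
            gcongr
            · exact hzb t
            · exact h7.trans (by linarith [bS t])
            · exact bN t
        _ = _ := by ring
  calc 2 * (A - 2 * (η * Λ)) ≤ 2 * (EG (Td δ T) τ (fun t => riemannZeta (1 / 2 + t * I) ^ 2 *
      (starRingEnd ℂ) (SD δ T (fs (1 / 2 + t * I))) *
        ((‖NN T M α (fs (1 / 2 + t * I))‖ ^ 2 : ℝ) : ℂ))).re := by linarith
    _ = EG (Td δ T) τ (fun t => 2 * (riemannZeta (1 / 2 + t * I) ^ 2 *
      (starRingEnd ℂ) (SD δ T (fs (1 / 2 + t * I))) *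
        ((‖NN T M α (fs (1 / 2 + t * I))‖ ^ 2 : ℝ) : ℂ)).re) := by
        simp only [EG]
        rw [integral_const_mul]
        congr 1
        have := integral_re (𝕜 := ℂ) hi1
        simp only [RCLike.re_to_complex] at this
        exact this.symm
    _ ≤ _ := by
        simp only [EG]
        refine integral_mono ((hi1.re).const_mul 2) hi2 fun t => ?_
        have h8 := zD (S := SD δ T (fs (1 / 2 + t * I))) (conj_zeta_half t)
        rw [re_mul_ofReal, ← mul_assoc]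
        exact mul_le_mul_of_nonneg_right h8 (sq_nonneg _)

lemma cont_Dt {T : ℝ} (hδ : 0 < δ) (hT1 : 1 < T) :
    Continuous fun t : ℝ => Dt (SD δ T (fs (1 / 2 + t * I))) (FF (1 / 2 + t * I)) := by
  obtain ⟨cS, -⟩ := dp_poly (dp_SD hδ hT1)
  unfold Dt
  exact cS.add (((continuous_conj.comp continuous_FF_half).pow 2).mul (continuous_conj.comp cS))

lemma bd_Dt {T : ℝ} (hδ : 0 < δ) (hT1 : 1 < T) (t : ℝ) :
    ‖Dt (SD δ T (fs (1 / 2 + t * I))) (FF (1 / 2 + t * I))‖ ≤ 2 * T ^ 2 := by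
  obtain ⟨-, bS⟩ := dp_poly (dp_SD hδ hT1)
  exact (Dt_le (FF_half' t)).trans (by linarith [bS t])

lemma int_DA (hδ : 0 < δ) (hT1 : 1 < T) {N B : ℝ} {G : (ℕ → ℂ) → ℂ} (hG : DP N B G) (τ : ℝ)
    (v : NNReal) : Integrable (fun t : ℝ => ‖Dt (SD δ T (fs (1 / 2 + t * I))) (FF (1 / 2 + t * I))‖ ^ 2 *
      ‖G (fs (1 / 2 + t * I))‖ ^ 2) (gaussianReal τ v) := by
  obtain ⟨cG, bG⟩ := dp_poly hG
  refine integrable_of_poly τ v (C := (2 * T ^ 2) ^ 2 * B ^ 2) (m := 0)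
    (((cont_Dt hδ hT1).norm.pow 2).mul (cG.norm.pow 2)).aestronglyMeasurable fun t => ?_
  rw [pow_zero, mul_one, Real.norm_eq_abs, abs_of_nonneg (by positivity)]
  gcongr
  · exact bd_Dt hδ hT1 t
  · exact bG t

/-- one term of the second integral -/
lemma H2a (hδ : 0 < δ) (hδ8 : δ ≤ 1 / 8) (hT3 : 3 ≤ T) (hθ : 0 < θ) (hθδ : θ ≤ δ / 4)
    {G : (ℕ → ℂ) → ℂ} (hG : DP (T ^ θ) (T ^ θ) G) {X : ℝ} {τ : ℝ}
    (h13 : ER (SB T M (JJ T)) (fun f => ‖SD δ T (tw (1 / 2) f)‖ ^ 2 * ‖G (tw (1 / 2) f)‖ ^ 2) ≤ X) :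
    EG (Td δ T) τ (fun t => ‖SD δ T (fs (1 / 2 + t * I))‖ ^ 2 * ‖G (fs (1 / 2 + t * I))‖ ^ 2) ≤
      X + T ^ 6 * Real.exp (-(T ^ (δ / 4 : ℝ) / 2)) := by
  have hT1 : 1 < T := by linarith
  have hT0 : 0 < T := by linarith
  have hlen2 : T ^ (1 - δ) * T ^ θ ≤ T ^ (1 - 3 * δ / 8 : ℝ) := by
    rw [← Real.rpow_add hT0]
    exact Real.rpow_le_rpow_of_exponent_le hT1.le (by linarith)
  have h1 := tr_sq hδ hT1 M ((dp_SD hδ hT1).mul hG) hlen2 τ
  simp only [norm_mul, mul_pow] at h1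
  have h2 : (T ^ 2) ^ 2 * (T ^ θ) ^ 2 ≤ T ^ 6 := by
    have hTθ : T ^ θ ≤ T := by
      calc T ^ θ ≤ T ^ (1 : ℝ) := Real.rpow_le_rpow_of_exponent_le hT1.le (by linarith)
        _ = T := Real.rpow_one T
    calc (T ^ 2) ^ 2 * (T ^ θ) ^ 2 ≤ (T ^ 2) ^ 2 * T ^ 2 := by gcongr
      _ = T ^ 6 := by ring
  have h3 : (T ^ 2) ^ 2 * (T ^ θ) ^ 2 * Real.exp (-(T ^ (δ / 4 : ℝ) / 2)) ≤
      T ^ 6 * Real.exp (-(T ^ (δ / 4 : ℝ) / 2)) := by gcongr
  have h4 := (abs_le.1 h1).2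
  linarith

/-- upper bound for the mean square of the test function -/
lemma H2 (hδ : 0 < δ) (hδ8 : δ ≤ 1 / 8) (hT3 : 3 ≤ T) (hθ : 0 < θ) (hθδ : θ ≤ δ / 4)
    {α A E C Λ : ℝ}
    (hdp : ∀ g h : Finset ℕ, DP (T ^ θ) (T ^ θ) (AQ T M (JJ T) α g h)) {τ : ℝ}
    (h3 : ‖EG (Td δ T) τ (fun t => FF (1 / 2 + t * I) ^ 2 * (SD δ T (fs (1 / 2 + t * I))) ^ 2 *
      (NN T M α (fs (1 / 2 + t * I)) * (starRingEnd ℂ) (NN T M α (fs (1 / 2 + t * I)))))‖ ≤ E)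
    (h12 : ER (SB T M (JJ T)) (fun f => ‖SD δ T (tw (1 / 2) f)‖ ^ 2 *
      ‖NN T M α (tw (1 / 2) f)‖ ^ 2) ≤ A)
    (h13 : ∀ g h : Finset ℕ, g ∪ h = Finset.range (JJ T + 1) →
      ER (SB T M (JJ T)) (fun f => ‖SD δ T (tw (1 / 2) f)‖ ^ 2 * ‖AQ T M (JJ T) α g h (tw (1 / 2) f)‖ ^ 2) ≤
      C * Λ * ∏ j ∈ h, Real.exp (-(20 * KK M (JJ T) j))) :
    EG (Td δ T) τ (fun t => ‖Dt (SD δ T (fs (1 / 2 + t * I))) (FF (1 / 2 + t * I))‖ ^ 2 *
      Wp T M α (fs (1 / 2 + t * I))) ≤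
      (2 * (A + T ^ 6 * Real.exp (-(T ^ (δ / 4 : ℝ) / 2))) + 2 * E) +
      4 * (C * Λ) * (∏ j ∈ Finset.range (JJ T + 1), (1 + Real.exp (-(20 * KK M (JJ T) j))) - 1) +
      2 ^ (Finset.range (JJ T + 1)).card * (4 * (T ^ 6 * Real.exp (-(T ^ (δ / 4 : ℝ) / 2)))) := by
  have hT1 : 1 < T := by linarith
  have hT0 : 0 < T := by linarith
  set R := Finset.range (JJ T + 1) with hR
  set e := T ^ 6 * Real.exp (-(T ^ (δ / 4 : ℝ) / 2)) with he
  have he0 : 0 ≤ e := by positivity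
  have e1 : ∀ t : ℝ, ‖Dt (SD δ T (fs (1 / 2 + t * I))) (FF (1 / 2 + t * I))‖ ^ 2 *
      Wp T M α (fs (1 / 2 + t * I)) = ∑ g ∈ R.powerset,
        ‖Dt (SD δ T (fs (1 / 2 + t * I))) (FF (1 / 2 + t * I))‖ ^ 2 *
          ‖AQ T M (JJ T) α R (R \ g) (fs (1 / 2 + t * I))‖ ^ 2 := by
    intro t
    rw [expandW, Finset.mul_sum]
  simp only [e1]
  rw [Asm.EG_sum _ fun g _ => int_DA hδ hT1 (hdp R (R \ g)) τ _]
  have hNN : ∀ f : ℕ → ℂ, NN T M α f = AQ T M (JJ T) α R ∅ f := fun f => (AQ_NN T M α f).symm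
  refine Asm.sum_bound (s := fun j => Real.exp (-(20 * KK M (JJ T) j))) (by positivity) ?_ ?_
  · rw [Finset.sdiff_self]
    have i1 := int_DA hδ hT1 (hdp R ∅) τ (VV (Td δ T))
    have dN : DP (T ^ θ) (T ^ θ) (AQ T M (JJ T) α R ∅) := hdp R ∅
    obtain ⟨cS, bS⟩ := dp_poly (dp_SD hδ hT1)
    obtain ⟨cN, bN⟩ := dp_poly dN
    have i2 : Integrable (fun t : ℝ => ‖SD δ T (fs (1 / 2 + t * I))‖ ^ 2 *
        ‖AQ T M (JJ T) α R ∅ (fs (1 / 2 + t * I))‖ ^ 2) (gaussianReal τ (VV (Td δ T))) := by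
      refine integrable_of_poly τ _ (C := (T ^ 2) ^ 2 * (T ^ θ) ^ 2) (m := 0)
        ((cS.norm.pow 2).mul (cN.norm.pow 2)).aestronglyMeasurable fun t => ?_
      rw [pow_zero, mul_one, Real.norm_eq_abs, abs_of_nonneg (by positivity)]
      gcongr
      · exact bS t
      · exact bN t
    have i3 : Integrable (fun t : ℝ => FF (1 / 2 + t * I) ^ 2 * (SD δ T (fs (1 / 2 + t * I))) ^ 2 *
        (NN T M α (fs (1 / 2 + t * I)) * (starRingEnd ℂ) (NN T M α (fs (1 / 2 + t * I)))))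
        (gaussianReal τ (VV (Td δ T))) := by
      simp only [hNN]
      refine integrable_of_poly τ _ (C := (T ^ 2) ^ 2 * (T ^ θ * T ^ θ)) (m := 0)
        (((continuous_FF_half.pow 2).mul (cS.pow 2)).mul
          (cN.mul (continuous_conj.comp cN))).aestronglyMeasurable fun t => ?_
      rw [pow_zero, mul_one, norm_mul, norm_mul, norm_mul, norm_pow, norm_pow, FF_half' t, one_pow,
        one_mul, RCLike.norm_conj]
      gcongr
      · exact bS t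
      · exact bN t
      · exact bN t
    have h5 : EG (Td δ T) τ (fun t => ‖Dt (SD δ T (fs (1 / 2 + t * I))) (FF (1 / 2 + t * I))‖ ^ 2 *
        ‖AQ T M (JJ T) α R ∅ (fs (1 / 2 + t * I))‖ ^ 2) =
        2 * EG (Td δ T) τ (fun t => ‖SD δ T (fs (1 / 2 + t * I))‖ ^ 2 *
          ‖AQ T M (JJ T) α R ∅ (fs (1 / 2 + t * I))‖ ^ 2) +
        2 * (EG (Td δ T) τ (fun t => FF (1 / 2 + t * I) ^ 2 * (SD δ T (fs (1 / 2 + t * I))) ^ 2 *
      (NN T M α (fs (1 / 2 + t * I)) * (starRingEnd ℂ) (NN T M α (fs (1 / 2 + t * I)))))).re := by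
      have h6 : (EG (Td δ T) τ (fun t => FF (1 / 2 + t * I) ^ 2 * (SD δ T (fs (1 / 2 + t * I))) ^ 2 *
          (NN T M α (fs (1 / 2 + t * I)) * (starRingEnd ℂ) (NN T M α (fs (1 / 2 + t * I)))))).re =
          EG (Td δ T) τ (fun t => (FF (1 / 2 + t * I) ^ 2 * (SD δ T (fs (1 / 2 + t * I))) ^ 2 *
          (NN T M α (fs (1 / 2 + t * I)) * (starRingEnd ℂ) (NN T M α (fs (1 / 2 + t * I))))).re) := by
        have := integral_re (𝕜 := ℂ) i3
        simp only [RCLike.re_to_complex] at this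
        exact this.symm
      rw [h6]
      have i4 : Integrable (fun t : ℝ => (FF (1 / 2 + t * I) ^ 2 * (SD δ T (fs (1 / 2 + t * I))) ^ 2 *
        (NN T M α (fs (1 / 2 + t * I)) * (starRingEnd ℂ) (NN T M α (fs (1 / 2 + t * I))))).re)
        (gaussianReal τ (VV (Td δ T))) := i3.re
      simp only [EG]
      rw [← integral_const_mul, ← integral_const_mul, ← integral_add (i2.const_mul 2)
        (i4.const_mul 2)]
      congr 1
      funext t
      rw [Dt_sq (FF_half' t), mul_conj, normSq_eq_norm_sq, re_mul_ofReal, hNN]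
      ring
    rw [h5]
    have h7 := H2a (τ := τ) hδ hδ8 hT3 hθ hθδ dN (X := A) (M := M) (by simpa only [hNN] using h12)
    have h8 := (le_abs_self _).trans ((abs_re_le_norm _).trans h3)
    linarith
  · intro g hg
    have dN : DP (T ^ θ) (T ^ θ) (AQ T M (JJ T) α R (R \ g)) := hdp R (R \ g)
    have h7 := H2a (τ := τ) hδ hδ8 hT3 hθ hθδ dN (M := M) (h13 R (R \ g) (by
      rw [Finset.union_eq_left]; exact Finset.sdiff_subset))
    obtain ⟨cS, bS⟩ := dp_poly (dp_SD hδ hT1)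
    obtain ⟨cN, bN⟩ := dp_poly dN
    have i2 : Integrable (fun t : ℝ => ‖SD δ T (fs (1 / 2 + t * I))‖ ^ 2 *
        ‖AQ T M (JJ T) α R (R \ g) (fs (1 / 2 + t * I))‖ ^ 2) (gaussianReal τ (VV (Td δ T))) := by
      refine integrable_of_poly τ _ (C := (T ^ 2) ^ 2 * (T ^ θ) ^ 2) (m := 0)
        ((cS.norm.pow 2).mul (cN.norm.pow 2)).aestronglyMeasurable fun t => ?_
      rw [pow_zero, mul_one, Real.norm_eq_abs, abs_of_nonneg (by positivity)]
      gcongr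
      · exact bS t
      · exact bN t
    calc EG (Td δ T) τ (fun t => ‖Dt (SD δ T (fs (1 / 2 + t * I))) (FF (1 / 2 + t * I))‖ ^ 2 *
        ‖AQ T M (JJ T) α R (R \ g) (fs (1 / 2 + t * I))‖ ^ 2) ≤
        EG (Td δ T) τ (fun t => 4 * (‖SD δ T (fs (1 / 2 + t * I))‖ ^ 2 *
          ‖AQ T M (JJ T) α R (R \ g) (fs (1 / 2 + t * I))‖ ^ 2)) := by
          simp only [EG]
          refine integral_mono (int_DA hδ hT1 dN τ _) (i2.const_mul 4) fun t => ?_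
          simp only
          have h9 := Dt_le (S := SD δ T (fs (1 / 2 + t * I))) (FF_half' t)
          calc ‖Dt (SD δ T (fs (1 / 2 + t * I))) (FF (1 / 2 + t * I))‖ ^ 2 *
              ‖AQ T M (JJ T) α R (R \ g) (fs (1 / 2 + t * I))‖ ^ 2 ≤
              (2 * ‖SD δ T (fs (1 / 2 + t * I))‖) ^ 2 *
              ‖AQ T M (JJ T) α R (R \ g) (fs (1 / 2 + t * I))‖ ^ 2 := by gcongr
            _ = _ := by ring
      _ = 4 * EG (Td δ T) τ (fun t => (‖SD δ T (fs (1 / 2 + t * I))‖ ^ 2 *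
          ‖AQ T M (JJ T) α R (R \ g) (fs (1 / 2 + t * I))‖ ^ 2)) := by
          simp only [EG]
          rw [integral_const_mul]
      _ ≤ 4 * (C * Λ * ∏ j ∈ R \ g, Real.exp (-(20 * KK M (JJ T) j)) + e) := by gcongr
      _ = _ := by ring

/-- upper bound for the mean of the second product -/
lemma H3 (hδ : 0 < δ) (hδ8 : δ ≤ 1 / 8) (hT3 : 3 ≤ T) (hθ : 0 < θ) (hθδ : θ ≤ δ / 4)
    {C Λ : ℝ}
    (hdp : ∀ g h : Finset ℕ, DP (T ^ θ) (T ^ θ) (AQ T M (JJ T) k g h)) (τ : ℝ)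
    (h9 : ∀ g h : Finset ℕ, g ∪ h = Finset.range (JJ T + 1) →
      ER (SB T M (JJ T)) (fun f => ‖AQ T M (JJ T) k g h (tw (1 / 2) f)‖ ^ 2) ≤
      C * Λ * ∏ j ∈ h, Real.exp (-(20 * KK M (JJ T) j))) :
    EG (Td δ T) τ (fun t => Vp T M k (fs (1 / 2 + t * I))) ≤
      C * Λ * ∏ j ∈ Finset.range (JJ T + 1), (1 + Real.exp (-(10 * KK M (JJ T) j))) +
      T ^ 2 * Real.exp (-(T ^ (δ / 4 : ℝ) / 2)) *
        ∏ j ∈ Finset.range (JJ T + 1), (1 + Real.exp (10 * KK M (JJ T) j)) := by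
  have hT1 : 1 < T := by linarith
  have hT0 : 0 < T := by linarith
  set R := Finset.range (JJ T + 1) with hR
  have hlen : T ^ θ ≤ T ^ (1 - 3 * δ / 8 : ℝ) :=
    Real.rpow_le_rpow_of_exponent_le hT1.le (by linarith)
  have hTθ : T ^ θ ≤ T := by
    calc T ^ θ ≤ T ^ (1 : ℝ) := Real.rpow_le_rpow_of_exponent_le hT1.le (by linarith)
      _ = T := Real.rpow_one T
  simp only [expandV]
  rw [Asm.EG_sum _ fun g _ => (int_sq (hdp g (R \ g)) τ _).const_mul _]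
  have e2 : ∏ j ∈ R, (1 + Real.exp (-(10 * KK M (JJ T) j))) =
      ∑ g ∈ R.powerset, ∏ j ∈ R \ g, Real.exp (-(10 * KK M (JJ T) j)) := by
    rw [Finset.prod_add]
    refine Finset.sum_congr rfl fun g _ => ?_
    rw [Finset.prod_const_one, one_mul]
  have e3 : ∏ j ∈ R, (1 + Real.exp (10 * KK M (JJ T) j)) =
      ∑ g ∈ R.powerset, ∏ j ∈ R \ g, Real.exp (10 * KK M (JJ T) j) := by
    rw [Finset.prod_add]
    refine Finset.sum_congr rfl fun g _ => ?_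
    rw [Finset.prod_const_one, one_mul]
  rw [e2, e3, Finset.mul_sum, Finset.mul_sum, ← Finset.sum_add_distrib]
  refine Finset.sum_le_sum fun g hg => ?_
  have hgR : g ⊆ R := Finset.mem_powerset.1 hg
  have h1 := tr_sq hδ hT1 M (hdp g (R \ g)) hlen τ
  have h2 := h9 g (R \ g) (Finset.union_sdiff_of_subset hgR)
  have h3 := (abs_le.1 h1).2
  have h4 : (T ^ θ) ^ 2 * Real.exp (-(T ^ (δ / 4 : ℝ) / 2)) ≤
      T ^ 2 * Real.exp (-(T ^ (δ / 4 : ℝ) / 2)) := by gcongr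
  have h5 : EG (Td δ T) τ (fun t => ‖AQ T M (JJ T) k g (R \ g) (fs (1 / 2 + t * I))‖ ^ 2) ≤
      C * Λ * ∏ j ∈ R \ g, Real.exp (-(20 * KK M (JJ T) j)) +
        T ^ 2 * Real.exp (-(T ^ (δ / 4 : ℝ) / 2)) := by linarith
  have e4 : (∏ j ∈ R \ g, Real.exp (10 * KK M (JJ T) j)) *
      ∏ j ∈ R \ g, Real.exp (-(20 * KK M (JJ T) j)) =
      ∏ j ∈ R \ g, Real.exp (-(10 * KK M (JJ T) j)) := by
    rw [← Finset.prod_mul_distrib]
    refine Finset.prod_congr rfl fun j _ => ?_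
    rw [← Real.exp_add]
    congr 1; ring
  have hP0 : 0 ≤ ∏ j ∈ R \ g, Real.exp (10 * KK M (JJ T) j) :=
    Finset.prod_nonneg fun j _ => (Real.exp_pos _).le
  calc EG (Td δ T) τ (fun t => (∏ j ∈ R \ g, Real.exp (10 * KK M (JJ T) j)) *
        ‖AQ T M (JJ T) k g (R \ g) (fs (1 / 2 + t * I))‖ ^ 2)
      = (∏ j ∈ R \ g, Real.exp (10 * KK M (JJ T) j)) *
        EG (Td δ T) τ (fun t => ‖AQ T M (JJ T) k g (R \ g) (fs (1 / 2 + t * I))‖ ^ 2) := by
        simp only [EG]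
        rw [integral_const_mul]
    _ ≤ (∏ j ∈ R \ g, Real.exp (10 * KK M (JJ T) j)) *
        (C * Λ * ∏ j ∈ R \ g, Real.exp (-(20 * KK M (JJ T) j)) +
        T ^ 2 * Real.exp (-(T ^ (δ / 4 : ℝ) / 2))) := by gcongr
    _ = _ := by rw [mul_add, ← e4]; ring

end

/-! ### Hoelder -/

lemma Wp_nonneg (T : ℝ) (M : ℕ) (α : ℝ) (f : ℕ → ℂ) : 0 ≤ Wp T M α f :=
  Finset.prod_nonneg fun _ _ => by positivity

lemma Vp_nonneg (T : ℝ) (M : ℕ) (k : ℝ) (f : ℕ → ℂ) : 0 ≤ Vp T M k f :=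
  Finset.prod_nonneg fun _ _ => by positivity

/-- The product of the factors lost on the good blocks. -/
noncomputable def cM (T : ℝ) (M : ℕ) : ℝ :=
  ∏ j ∈ Finset.range (JJ T + 1), (1 - Real.exp (-KK M (JJ T) j))

lemma comb (hP : StPoint4) {δ T k θ : ℝ} {M : ℕ} (hδ : 0 < δ) (hT3 : 3 ≤ T) (hk2 : 2 ≤ k)
    (hk1 : k ≤ 21 / 10)
    (hdp : ∀ α : ℝ, |α| ≤ 3 → ∀ g h : Finset ℕ, DP (T ^ θ) (T ^ θ) (AQ T M (JJ T) α g h)) {τ : ℝ}
    {A B E X : ℝ} (hB : 0 < B) (hE : 0 < E) (hX : 0 < X)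
    (h1 : A ≤ EG (Td δ T) τ (fun t => ‖riemannZeta (1 / 2 + t * I)‖ ^ 2 *
      ‖Dt (SD δ T (fs (1 / 2 + t * I))) (FF (1 / 2 + t * I))‖ *
      ‖NN T M (k - 2) (fs (1 / 2 + t * I))‖ ^ 2))
    (h2 : EG (Td δ T) τ (fun t => ‖Dt (SD δ T (fs (1 / 2 + t * I))) (FF (1 / 2 + t * I))‖ ^ 2 *
      Wp T M (k - 2) (fs (1 / 2 + t * I))) ≤ B)
    (h3 : EG (Td δ T) τ (fun t => Vp T M k (fs (1 / 2 + t * I))) ≤ E)
    (h4 : EG (Td δ T) τ (fun t => ‖riemannZeta (1 / 2 + t * I)‖ ^ (2 * k)) ≤ X) :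
    cM T M ^ 2 * A ≤ X ^ (1 / k) * B ^ (1 / 2 : ℝ) * E ^ ((k - 2) / (2 * k)) := by
  have hT1 : 1 < T := by linarith
  have hk0 : 0 < k := by linarith
  set μ := gaussianReal τ (VV (Td δ T)) with hμ
  have hα : |k - 2| ≤ 3 := by rw [abs_le]; constructor <;> linarith
  have hkk : |k| ≤ 3 := by rw [abs_le]; constructor <;> linarith
  set R := Finset.range (JJ T + 1) with hR
  obtain ⟨Cz, hCz, hzb⟩ := zeta_poly_half
  have iX : Integrable (fun t : ℝ => ‖riemannZeta (1 / 2 + t * I)‖ ^ (2 * k)) μ := by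
    refine integrable_of_poly τ _ (C := 1 + Cz ^ 6) (m := 12) ?_ fun t => ?_
    · exact (continuous_zeta_half.norm.rpow_const fun _ => Or.inr (by linarith)).aestronglyMeasurable
    · rw [Real.norm_eq_abs, abs_of_nonneg (Real.rpow_nonneg (norm_nonneg _) _)]
      have h0 : 1 ≤ (1 + |t|) ^ 12 := one_le_pow₀ (by linarith [abs_nonneg t])
      rcases le_or_gt ‖riemannZeta (1 / 2 + t * I)‖ 1 with h | h
      · have h5 : ‖riemannZeta (1 / 2 + t * I)‖ ^ (2 * k) ≤ 1 :=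
          Real.rpow_le_one (norm_nonneg _) h (by linarith)
        have h6 : 0 ≤ Cz ^ 6 * (1 + |t|) ^ 12 := by positivity
        linarith
      · calc ‖riemannZeta (1 / 2 + t * I)‖ ^ (2 * k) ≤ ‖riemannZeta (1 / 2 + t * I)‖ ^ (6 : ℝ) :=
              Real.rpow_le_rpow_of_exponent_le h.le (by linarith)
          _ = ‖riemannZeta (1 / 2 + t * I)‖ ^ 6 := by exact_mod_cast Real.rpow_natCast _ 6
          _ ≤ (Cz * (1 + |t|) ^ 2) ^ 6 := pow_le_pow_left₀ (norm_nonneg _) (hzb t) 6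
          _ = Cz ^ 6 * (1 + |t|) ^ 12 := by ring
          _ ≤ (1 + Cz ^ 6) * (1 + |t|) ^ 12 := by gcongr; linarith
  have iW : Integrable (fun t : ℝ => ‖Dt (SD δ T (fs (1 / 2 + t * I))) (FF (1 / 2 + t * I))‖ ^ 2 *
      Wp T M (k - 2) (fs (1 / 2 + t * I))) μ := by
    have e1 : ∀ t : ℝ, ‖Dt (SD δ T (fs (1 / 2 + t * I))) (FF (1 / 2 + t * I))‖ ^ 2 *
        Wp T M (k - 2) (fs (1 / 2 + t * I)) = ∑ g ∈ R.powerset,
        ‖Dt (SD δ T (fs (1 / 2 + t * I))) (FF (1 / 2 + t * I))‖ ^ 2 *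
          ‖AQ T M (JJ T) (k - 2) R (R \ g) (fs (1 / 2 + t * I))‖ ^ 2 := by
      intro t
      rw [expandW, Finset.mul_sum]
    simp only [e1]
    exact integrable_finsetSum _ fun g _ => int_DA hδ hT1 (hdp _ hα R (R \ g)) τ _
  have iV : Integrable (fun t : ℝ => Vp T M k (fs (1 / 2 + t * I))) μ := by
    simp only [expandV]
    exact integrable_finsetSum _ fun g _ => (int_sq (hdp _ hkk g (R \ g)) τ _).const_mul _
  have hW0 : ∀ t : ℝ, 0 ≤ ‖Dt (SD δ T (fs (1 / 2 + t * I))) (FF (1 / 2 + t * I))‖ ^ 2 *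
      Wp T M (k - 2) (fs (1 / 2 + t * I)) := fun t => mul_nonneg (sq_nonneg _) (Wp_nonneg _ _ _ _)
  have hab : 1 / k + 1 / 2 + (k - 2) / (2 * k) = 1 := by field_simp; ring
  have hc0 : 0 ≤ (k - 2) / (2 * k) := div_nonneg (by linarith) (by linarith)
  have hH := holder3 iX iW iV (fun t => Real.rpow_nonneg (norm_nonneg _) _) hW0
    (fun t => Vp_nonneg _ _ _ _) (a := 1 / k) (b := 1 / 2) (c := (k - 2) / (2 * k)) (by positivity)
    (by norm_num) hc0 hab hX hB hE h4 h2 h3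
  have hHi := holder3_integrable iX iW iV (fun t => Real.rpow_nonneg (norm_nonneg _) _) hW0
    (fun t => Vp_nonneg _ _ _ _) (a := 1 / k) (b := 1 / 2) (c := (k - 2) / (2 * k)) (by positivity)
    (by norm_num) hc0 hab
  refine le_trans ?_ hH
  calc cM T M ^ 2 * A ≤ cM T M ^ 2 * EG (Td δ T) τ (fun t => ‖riemannZeta (1 / 2 + t * I)‖ ^ 2 *
      ‖Dt (SD δ T (fs (1 / 2 + t * I))) (FF (1 / 2 + t * I))‖ *
      ‖NN T M (k - 2) (fs (1 / 2 + t * I))‖ ^ 2) := by gcongr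
    _ = ∫ t, cM T M ^ 2 * (‖riemannZeta (1 / 2 + t * I)‖ ^ 2 *
      ‖Dt (SD δ T (fs (1 / 2 + t * I))) (FF (1 / 2 + t * I))‖ *
      ‖NN T M (k - 2) (fs (1 / 2 + t * I))‖ ^ 2) ∂μ := by
        simp only [EG]
        rw [integral_const_mul]
    _ ≤ _ := by
        refine integral_mono_of_nonneg (Filter.Eventually.of_forall fun t => by positivity) hHi
          (Filter.Eventually.of_forall fun t => ?_)
        simp only
        set Z := ‖riemannZeta (1 / 2 + t * I)‖ with hZ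
        set D := ‖Dt (SD δ T (fs (1 / 2 + t * I))) (FF (1 / 2 + t * I))‖ with hD
        have hp := pointwise hP T M (α := k - 2) (by linarith) (by linarith) (fs (1 / 2 + t * I))
        rw [show 2 + (k - 2) = k by ring] at hp
        have e2 : (Z ^ (2 * k)) ^ (1 / k) = Z ^ 2 := by
          rw [← Real.rpow_mul (norm_nonneg _), show 2 * k * (1 / k) = ((2 : ℕ) : ℝ) by
            push_cast; field_simp, Real.rpow_natCast]
        have e3 : (D ^ 2 * Wp T M (k - 2) (fs (1 / 2 + t * I))) ^ (1 / 2 : ℝ) =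
            D * Wp T M (k - 2) (fs (1 / 2 + t * I)) ^ (1 / 2 : ℝ) := by
          rw [Real.mul_rpow (sq_nonneg _) (Wp_nonneg _ _ _ _), ← Real.sqrt_eq_rpow,
            Real.sqrt_sq (norm_nonneg _)]
        rw [e2, e3]
        calc cM T M ^ 2 * (Z ^ 2 * D * ‖NN T M (k - 2) (fs (1 / 2 + t * I))‖ ^ 2)
            = Z ^ 2 * D * (cM T M ^ 2 * ‖NN T M (k - 2) (fs (1 / 2 + t * I))‖ ^ 2) := by ring
          _ ≤ Z ^ 2 * D * (Wp T M (k - 2) (fs (1 / 2 + t * I)) ^ (1 / 2 : ℝ) *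
              Vp T M k (fs (1 / 2 + t * I)) ^ ((k - 2) / (2 * k))) :=
              mul_le_mul_of_nonneg_left hp (by positivity)
          _ = _ := by ring

/-! ### the parameters -/

lemma evM (C η : ℝ) (hC : 0 < C) (hη : 0 < η) (hη1 : η ≤ 1) : ∃ M₁ : ℕ, ∀ M : ℕ, M₁ ≤ M → ∀ J : ℕ,
    4 * Real.exp (C * M) * (∏ j ∈ Finset.range (J + 1), (1 + Real.exp (-(20 * KK M J j))) - 1) ≤ η ∧
    1 - η ≤ (∏ j ∈ Finset.range (J + 1), (1 - Real.exp (-KK M J j))) ^ 2 ∧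
    ∏ j ∈ Finset.range (J + 1), (1 + Real.exp (-(10 * KK M J j))) ≤ 2 := by
  obtain ⟨M₁, hM4, h⟩ := UpH.exists_M C (η / 2) hC (by positivity)
  refine ⟨M₁, fun M hM J => ?_⟩
  have hM' := h M hM
  have hCM : 1 ≤ Real.exp (C * M) := Real.one_le_exp (by positivity)
  set K := Real.exp (3 / 4 * (M : ℝ)) with hK
  have hK1 : 1 ≤ K := Real.one_le_exp (by positivity)
  have hs : ∀ a : ℝ, 1 ≤ a → ∑ j ∈ Finset.range (J + 1), Real.exp (-(a * KK M J j)) ≤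
      2 * Real.exp (-(1 / 4 * K)) := by
    intro a ha
    refine (sum_exp_KK (M := M) (J := J) (a := a) (by nlinarith) (by linarith)).trans ?_
    gcongr
    linarith
  have h5 : Real.exp (C * M - 1 / 4 * K) = Real.exp (C * M) * Real.exp (-(1 / 4 * K)) := by
    rw [← Real.exp_add]; congr 1
  rw [h5] at hM'
  have he0 : 0 < Real.exp (-(1 / 4 * K)) := Real.exp_pos _
  have h6 : 8 * Real.exp (-(1 / 4 * K)) ≤ η / 2 := by
    refine le_trans ?_ hM'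
    have : Real.exp (-(1 / 4 * K)) ≤ Real.exp (C * M) * Real.exp (-(1 / 4 * K)) :=
      le_mul_of_one_le_left he0.le hCM
    linarith
  refine ⟨?_, ?_, ?_⟩
  · have h7 := hs 20 (by norm_num)
    have h8 := Asm.prod_one_add_le (R := Finset.range (J + 1))
      (s := fun j => Real.exp (-(20 * KK M J j))) (fun j => (Real.exp_pos _).le) (by linarith)
    calc 4 * Real.exp (C * M) * (∏ j ∈ Finset.range (J + 1), (1 + Real.exp (-(20 * KK M J j))) - 1)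
        ≤ 4 * Real.exp (C * M) * (2 * (2 * Real.exp (-(1 / 4 * K)))) := by
          gcongr
          linarith
      _ = 2 * (8 * (Real.exp (C * M) * Real.exp (-(1 / 4 * K)))) := by ring
      _ ≤ 2 * (η / 2) := by gcongr
      _ = η := by ring
  · have h7 := hs 1 le_rfl
    simp only [one_mul] at h7
    have h8 := Asm.one_sub_sum_le (R := Finset.range (J + 1)) (x := fun j => Real.exp (-KK M J j))
      (fun j => (Real.exp_pos _).le) (fun j => by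
        rw [Real.exp_le_one_iff]
        unfold KK
        linarith [Real.exp_pos (3 / 4 * ((M : ℝ) + J - j))])
    have h9 : 1 - η / 2 ≤ ∏ j ∈ Finset.range (J + 1), (1 - Real.exp (-KK M J j)) := by linarith
    calc 1 - η ≤ (1 - η / 2) ^ 2 := by nlinarith
      _ ≤ _ := by
          apply pow_le_pow_left₀ (by linarith) h9
  · have h7 := hs 10 (by norm_num)
    have h8 := Asm.prod_one_add_le (R := Finset.range (J + 1))
      (s := fun j => Real.exp (-(10 * KK M J j))) (fun j => (Real.exp_pos _).le) (by linarith)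
    linarith

/-- stretched exponentials beat powers -/
lemma ev_str {δ : ℝ} (hδ : 0 < δ) (m : ℕ) {a : ℝ} (ha : 0 < a) : ∀ᶠ T : ℝ in atTop,
    T ^ m * Real.exp (-(T ^ (δ / 4 : ℝ) / 2)) ≤ a := by
  have h1 : Tendsto (fun T : ℝ => T ^ (δ / 4 : ℝ)) atTop atTop :=
    tendsto_rpow_atTop (by positivity)
  have h2 : Tendsto (fun u : ℝ => u ^ (4 * m / δ : ℝ) * Real.exp (-(1 / 2) * u)) atTop (𝓝 0) :=
    tendsto_rpow_mul_exp_neg_mul_atTop_nhds_zero _ _ (by norm_num)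
  have h3 := (h2.comp h1).eventually (eventually_lt_nhds ha)
  filter_upwards [h3, eventually_gt_atTop 0] with T hT hT0
  simp only [Function.comp] at hT
  refine le_trans (le_of_eq ?_) hT.le
  rw [← Real.rpow_mul hT0.le, ← Real.rpow_natCast]
  congr 1
  · congr 1
    field_simp
  · congr 1
    ring

lemma ev_V (M : ℕ) : ∀ᶠ T : ℝ in atTop,
    ∏ j ∈ Finset.range (JJ T + 1), (1 + Real.exp (10 * KK M (JJ T) j)) ≤ T ^ 2 := by
  filter_upwards [Len.eventually_small (11 * Real.exp (3 / 4 * (M : ℝ))), eventually_gt_atTop 3,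
    (Real.tendsto_log_atTop.comp (Real.tendsto_log_atTop.comp
      Real.tendsto_log_atTop)).eventually_ge_atTop 0] with T h1 hT3 h2
  simp only [Function.comp] at h2
  have hT0 : 0 < T := by linarith
  set x := Real.log (Real.log (Real.log T)) with hx
  have hJ : (JJ T : ℝ) ≤ 4 * x := Nat.floor_le (by positivity)
  have hKs := Len.sum_KK M (JJ T)
  have h3 : ∑ j ∈ Finset.range (JJ T + 1), KK M (JJ T) j ≤
      Real.exp (3 / 4 * (M : ℝ)) * ((4 * x + 1) * Real.exp (3 / 4 * (4 * x))) := by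
    refine hKs.trans ?_
    calc ((JJ T : ℝ) + 1) * Real.exp (3 / 4 * ((M : ℝ) + JJ T)) ≤
        (4 * x + 1) * Real.exp (3 / 4 * ((M : ℝ) + 4 * x)) := by gcongr
      _ = _ := by rw [mul_add, Real.exp_add]; ring
  have h4 : ∀ j ∈ Finset.range (JJ T + 1), 1 + Real.exp (10 * KK M (JJ T) j) ≤
      Real.exp (11 * KK M (JJ T) j) := by
    intro j hj
    have hjJ : j ≤ JJ T := by rw [Finset.mem_range] at hj; omega
    have h5 := KK_one (M := M) hjJ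
    have h6 : Real.exp (11 * KK M (JJ T) j) = Real.exp (KK M (JJ T) j) * Real.exp (10 * KK M (JJ T) j) := by
      rw [← Real.exp_add]; congr 1; ring
    have h7 : 2 ≤ Real.exp (KK M (JJ T) j) := by
      have := Real.add_one_le_exp (KK M (JJ T) j)
      linarith
    have h8 : 1 ≤ Real.exp (10 * KK M (JJ T) j) := Real.one_le_exp (by linarith)
    rw [h6]
    nlinarith
  calc ∏ j ∈ Finset.range (JJ T + 1), (1 + Real.exp (10 * KK M (JJ T) j)) ≤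
      ∏ j ∈ Finset.range (JJ T + 1), Real.exp (11 * KK M (JJ T) j) :=
        Finset.prod_le_prod (fun j _ => by positivity) h4
    _ = Real.exp (11 * ∑ j ∈ Finset.range (JJ T + 1), KK M (JJ T) j) := by
        rw [← Real.exp_sum, Finset.mul_sum]
    _ ≤ Real.exp (Real.log T) := by
        apply Real.exp_le_exp.2
        linarith
    _ = T := Real.exp_log hT0
    _ ≤ T ^ 2 := by nlinarith

lemma ev_2 : ∀ᶠ T : ℝ in atTop, (2 : ℝ) ^ (Finset.range (JJ T + 1)).card ≤ T := by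
  filter_upwards [Len.eventually_small 1, eventually_gt_atTop 3,
    (Real.tendsto_log_atTop.comp (Real.tendsto_log_atTop.comp
      Real.tendsto_log_atTop)).eventually_ge_atTop 0] with T h1 hT3 h2
  simp only [Function.comp] at h2
  have hT0 : 0 < T := by linarith
  set x := Real.log (Real.log (Real.log T)) with hx
  have hJ : (JJ T : ℝ) ≤ 4 * x := Nat.floor_le (by positivity)
  rw [Finset.card_range]
  have h3 : (4 * x + 1) * 1 ≤ (4 * x + 1) * Real.exp (3 / 4 * (4 * x)) := by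
    gcongr
    exact Real.one_le_exp (by positivity)
  have h4 : (2 : ℝ) ^ (JJ T + 1) = Real.exp (((JJ T + 1 : ℕ) : ℝ) * Real.log 2) := by
    rw [Real.exp_nat_mul, Real.exp_log (by norm_num)]
  rw [h4]
  calc Real.exp (((JJ T + 1 : ℕ) : ℝ) * Real.log 2) ≤ Real.exp (Real.log T) := by
        apply Real.exp_le_exp.2
        push_cast
        have h5 : Real.log 2 ≤ 1 := by linarith [Real.log_two_lt_d9]
        have h6 : 0 ≤ (JJ T : ℝ) + 1 := by positivity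
        nlinarith
    _ = T := Real.exp_log hT0

lemma exists_k1 {ε η q C : ℝ} (hε : ε < 1) (hq : 0 < q) (hC : 0 < C)
    (h : ((1 - ε) * q) ^ (1 / 2 : ℝ) * (q * (1 + η)) ^ (1 / 2 : ℝ) < (1 - η) * (q * (1 - η))) :
    ∃ k₁ : ℝ, 2 < k₁ ∧ ∀ k : ℝ, 2 ≤ k → k ≤ k₁ →
      ((1 - ε) * q) ^ (1 / k) * (q * (1 + η)) ^ (1 / 2 : ℝ) * C ^ ((k - 2) / (2 * k)) <
        (1 - η) * (q * (1 - η)) := by
  have h1 : 0 < (1 - ε) * q := mul_pos (by linarith) hq
  have ht : Tendsto (fun k : ℝ => ((1 - ε) * q) ^ (1 / k) * (q * (1 + η)) ^ (1 / 2 : ℝ) *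
      C ^ ((k - 2) / (2 * k))) (𝓝 2) (𝓝 (((1 - ε) * q) ^ (1 / (2 : ℝ)) *
      (q * (1 + η)) ^ (1 / 2 : ℝ) * C ^ (((2 : ℝ) - 2) / (2 * 2)))) := by
    have c1 : ContinuousAt (fun k : ℝ => ((1 - ε) * q) ^ (1 / k)) 2 := by
      apply ContinuousAt.rpow continuousAt_const
      · exact continuousAt_const.div continuousAt_id (by norm_num)
      · exact Or.inl h1.ne'
    have c2 : ContinuousAt (fun k : ℝ => C ^ ((k - 2) / (2 * k))) 2 := by
      apply ContinuousAt.rpow continuousAt_const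
      · exact (continuousAt_id.sub continuousAt_const).div (continuousAt_const.mul continuousAt_id)
          (by norm_num)
      · exact Or.inl hC.ne'
    exact ((c1.mul continuousAt_const).mul c2).tendsto
  rw [sub_self, zero_div, Real.rpow_zero, mul_one] at ht
  have h2 := ht.eventually (eventually_lt_nhds h)
  obtain ⟨r, hr, h3⟩ := Metric.eventually_nhds_iff.1 h2
  refine ⟨2 + r / 2, by linarith, fun k hk1 hk2 => h3 ?_⟩
  rw [Real.dist_eq, abs_of_nonneg (by linarith)]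
  linarith

/-! ### the divisor sums -/

lemma four_log {T : ℝ} (hT : 1 < T) (k : ℝ) :
    (Real.log T) ^ (k ^ 2 - 4) * (Real.log T) ^ 4 = (Real.log T) ^ (k ^ 2) := by
  have hL : 0 < Real.log T := Real.log_pos hT
  rw [← Real.rpow_natCast (Real.log T) 4, ← Real.rpow_add hL]
  congr 1
  push_cast
  ring

lemma sum_upper (h4 : StDivSum) {η : ℝ} (hη : 0 < η) (δ : ℝ) : ∀ᶠ T : ℝ in atTop,
    ∑ n ∈ Finset.Icc 1 ⌊T⌋₊, dv n ^ 2 * Pd δ (Real.log n / Real.log T) ^ 2 / n ≤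
      (1 / (4 * Real.pi ^ 2) + η) * (Real.log T) ^ 4 := by
  have h5 := h4.eventually (eventually_lt_nhds (show 1 / (4 * Real.pi ^ 2) <
    1 / (4 * Real.pi ^ 2) + η by linarith))
  filter_upwards [h5, eventually_gt_atTop 1] with T hT hT1
  have hL : 0 < Real.log T := Real.log_pos hT1
  rw [div_lt_iff₀ (by positivity)] at hT
  refine le_trans (Finset.sum_le_sum fun n _ => ?_) hT.le
  have h1 := Pd_nonneg δ (Real.log n / Real.log T)
  have h2 := Pd_le_one δ (Real.log n / Real.log T)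
  gcongr
  have h6 : Pd δ (Real.log n / Real.log T) ^ 2 ≤ 1 := pow_le_one₀ h1 h2
  have h7 : 0 ≤ dv n ^ 2 := sq_nonneg _
  nlinarith

lemma sum_lower (h4 : StDivSum) {η δ : ℝ} (hη : 0 < η) (hδ : 0 < δ) (hδ8 : δ ≤ 1 / 8) :
    ∀ᶠ T : ℝ in atTop, (1 / (4 * Real.pi ^ 2) - η) * ((1 - 2 * δ) * Real.log T) ^ 4 ≤
      ∑ n ∈ Finset.Icc 1 ⌊T⌋₊, dv n ^ 2 * Pd δ (Real.log n / Real.log T) / n := by
  have h5 := h4.eventually (eventually_gt_nhds (show 1 / (4 * Real.pi ^ 2) - η <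
    1 / (4 * Real.pi ^ 2) by linarith))
  have h6 : Tendsto (fun T : ℝ => T ^ (1 - 2 * δ)) atTop atTop := tendsto_rpow_atTop (by linarith)
  filter_upwards [h6.eventually h5, eventually_gt_atTop 1] with T hT hT1
  have hT0 : 0 < T := by linarith
  have hL : 0 < Real.log T := Real.log_pos hT1
  set y : ℝ := T ^ (1 - 2 * δ) with hy
  have hy0 : 0 < y := Real.rpow_pos_of_pos hT0 _
  have hly : Real.log y = (1 - 2 * δ) * Real.log T := by rw [hy, Real.log_rpow hT0]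
  have hly0 : 0 < Real.log y := by rw [hly]; exact mul_pos (by linarith) hL
  rw [lt_div_iff₀ (by positivity), hly] at hT
  have hyT : y ≤ T := by
    calc y ≤ T ^ (1 : ℝ) := Real.rpow_le_rpow_of_exponent_le hT1.le (by linarith)
      _ = T := Real.rpow_one T
  refine hT.le.trans ?_
  have h3 : Finset.Icc 1 ⌊y⌋₊ ⊆ Finset.Icc 1 ⌊T⌋₊ :=
    Finset.Icc_subset_Icc le_rfl (Nat.floor_le_floor hyT)
  refine le_trans ?_ (Finset.sum_le_sum_of_subset_of_nonneg h3 fun n _ _ =>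
    div_nonneg (mul_nonneg (sq_nonneg _) (Pd_nonneg _ _)) (Nat.cast_nonneg _))
  apply le_of_eq
  apply Finset.sum_congr rfl
  intro n hn
  rw [Finset.mem_Icc] at hn
  have hn1 : (1 : ℝ) ≤ n := by exact_mod_cast hn.1
  have hny : (n : ℝ) ≤ y := (Nat.le_floor_iff hy0.le).mp hn.2
  rw [Pd_one hδ, mul_one]
  · have : 0 ≤ Real.log n / Real.log T := div_nonneg (Real.log_nonneg hn1) hL.le
    linarith
  · rw [div_le_iff₀ hL, ← hly]
    exact Real.log_le_log (by linarith) hny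

end LowT

end K3
end Pool.Agent.Lib.MP_973905_nt
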