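import Pool.Agent.Lib.MP_973905_nt.K3.Stmts
import Pool.Agent.Lib.MP_973905_nt.K1.SHFourier

/-! Fourier representation of the short smoothed sum `SD` of `ζ²`. -/

namespace Pool.Agent.Lib.MP_973905_nt
namespace K3

open MeasureTheory ProbabilityTheory Complex Filter Topology K1

namespace RD

open K1.SHF

lemma Pd_zero {δ x : ℝ} (hδ : 0 < δ) (h : 1 - δ ≤ x) : Pd δ x = 0 := by
  rw [Pd, Real.smoothTransition.zero_of_nonpos
    (div_nonpos_of_nonpos_of_nonneg (by linarith) hδ.le), zero_mul]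

lemma Pd_zero' {δ x : ℝ} (h : x ≤ -2) : Pd δ x = 0 := by
  rw [Pd, Real.smoothTransition.zero_of_nonpos (x := x + 2) (by linarith), mul_zero]

lemma Pd_nonneg (δ x : ℝ) : 0 ≤ Pd δ x :=
  mul_nonneg (Real.smoothTransition.nonneg _) (Real.smoothTransition.nonneg _)

lemma Pd_le_one (δ x : ℝ) : Pd δ x ≤ 1 :=
  mul_le_one₀ (Real.smoothTransition.le_one _) (Real.smoothTransition.nonneg _)
    (Real.smoothTransition.le_one _)

lemma dv_nonneg (n : ℕ) : 0 ≤ dv n := Nat.cast_nonneg _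

/-- The function `e^x Pd(x)`. -/
noncomputable def psi (δ x : ℝ) : ℂ := ((Real.exp x * Pd δ x : ℝ) : ℂ)

section

open scoped SchwartzMap FourierTransform ContDiff

lemma contDiff_Pd (δ : ℝ) : ContDiff ℝ ((⊤ : ℕ∞) : WithTop ℕ∞) (Pd δ) := by
  have h1 : ContDiff ℝ ((⊤ : ℕ∞) : WithTop ℕ∞) (fun x : ℝ => (1 - δ - x) / δ) := by fun_prop
  have h2 : ContDiff ℝ ((⊤ : ℕ∞) : WithTop ℕ∞) (fun x : ℝ => x + 2) := by fun_prop
  exact ((Real.smoothTransition.contDiff (n := ⊤)).comp h1).mul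
    ((Real.smoothTransition.contDiff (n := ⊤)).comp h2)

lemma psi_smooth (δ : ℝ) : ContDiff ℝ ∞ (psi δ) :=
  Complex.ofRealCLM.contDiff.comp (Real.contDiff_exp.mul (contDiff_Pd δ))

lemma psi_supp {δ : ℝ} (hδ : 0 < δ) : HasCompactSupport (psi δ) := by
  refine HasCompactSupport.intro (K := Set.Icc (-2) (1 - δ)) isCompact_Icc fun x hx => ?_
  rw [Set.mem_Icc, not_and_or, not_le, not_le] at hx
  rcases hx with hx | hx
  · simp [psi, Pd_zero' hx.le]
  · simp [psi, Pd_zero hδ hx.le]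

/-- A weight whose Fourier integral is `psi`. -/
structure GD (δ : ℝ) (g : ℝ → ℂ) : Prop where
  cont : Continuous g
  int : ∀ n : ℕ, Integrable (fun ξ : ℝ => ‖g ξ‖ * (1 + |ξ|) ^ n)
  eq : ∀ x : ℝ, psi δ x = ∫ ξ : ℝ, g ξ * cexp ((2 * Real.pi * ξ * x : ℝ) * I)

lemma exists_g {δ : ℝ} (hδ : 0 < δ) : ∃ g : ℝ → ℂ, GD δ g := by
  set gh : 𝓢(ℝ, ℂ) := 𝓕 ((psi_supp hδ).toSchwartzMap (psi_smooth δ)) with hgh
  refine ⟨gh, gh.continuous, fun n => ?_, fun x => ?_⟩
  · have h : (fun ξ : ℝ => ‖gh ξ‖ * (1 + |ξ|) ^ n) = fun ξ : ℝ =>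
        ∑ k ∈ Finset.range (n + 1), (n.choose k : ℝ) * (‖ξ‖ ^ k * ‖gh ξ‖) := by
      funext ξ
      rw [add_comm, add_pow, Finset.mul_sum]
      refine Finset.sum_congr rfl fun k _ => ?_
      rw [one_pow, Real.norm_eq_abs]; ring
    rw [h]
    exact integrable_finsetSum _ fun k _ => (gh.integrable_pow_mul volume k).const_mul _
  · have h1 : 𝓕⁻ gh = (psi_supp hδ).toSchwartzMap (psi_smooth δ) := by
      rw [hgh]; exact FourierTransform.fourierInv_fourier_eq _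
    have h2 : psi δ x = (𝓕⁻ gh) x := by rw [h1]; rfl
    rw [h2, SchwartzMap.fourierInv_coe, Real.fourierInv_eq']
    congr 1
    funext ξ
    rw [smul_eq_mul, mul_comm]
    congr 3
    simp
    ring

end

lemma GD.integrable {δ : ℝ} {g : ℝ → ℂ} (hg : GD δ g) : Integrable g := by
  have h := hg.int 0
  simp only [pow_zero, mul_one] at h
  exact (integrable_norm_iff hg.cont.aestronglyMeasurable).1 h

/-- The Fourier identity for one frequency. -/
lemma one_freq {δ : ℝ} {g : ℝ → ℂ} (hg : GD δ g) {L : ℝ} (w c : ℂ) {n : ℕ} (hn : n ≠ 0) :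
    ∫ ξ : ℝ, g ξ * ((n : ℂ) ^ (-(w + zz ξ / L)) * c) =
      (Pd δ (Real.log n / L) : ℂ) * ((n : ℂ) ^ (-w) * c) := by
  have e1 : ∀ ξ : ℝ, g ξ * ((n : ℂ) ^ (-(w + zz ξ / L)) * c) = ((((n : ℕ) : ℂ) ^ (-w)) *
      ((Real.exp (-(Real.log n / L)) : ℝ) : ℂ) * c) *
      (g ξ * cexp ((2 * Real.pi * ξ * (Real.log n / L) : ℝ) * I)) := by
    intro ξ
    rw [cpow_sh w ξ hn]; ring
  simp only [e1]
  rw [integral_const_mul, ← hg.eq, psi]
  have e2 : ((Real.exp (-(Real.log n / L)) : ℝ) : ℂ) *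
      ((Real.exp (Real.log n / L) : ℝ) : ℂ) = 1 := by
    rw [← ofReal_mul, ← Real.exp_add]; simp
  rw [ofReal_mul]
  linear_combination (((n : ℕ) : ℂ) ^ (-w) * c * (Pd δ (Real.log n / L) : ℂ)) * e2

lemma one_freq_int {δ : ℝ} {g : ℝ → ℂ} (hg : GD δ g) {L : ℝ} (w c : ℂ) {n : ℕ} (hn : n ≠ 0) :
    Integrable fun ξ : ℝ => g ξ * ((n : ℂ) ^ (-(w + zz ξ / L)) * c) := by
  refine (hg.integrable.norm.mul_const ((n : ℝ) ^ (-(w.re + 1 / L)) * ‖c‖)).mono' ?_ ?_
  · exact (hg.cont.mul ((continuous_cpow_sh w L hn).mul continuous_const)).aestronglyMeasurable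
  · refine Filter.Eventually.of_forall fun ξ => ?_
    rw [norm_mul, norm_mul, norm_cpow_sh w ξ hn]

/-- The square of an Euler product as a sum with the divisor function. -/
lemma ZZ_sq_hasSum {s : Finset ℕ} (hs : ∀ p ∈ s, p.Prime) {f : ℕ → ℂ} (hf : CMul f)
    (hlt : ∀ p : ℕ, p.Prime → ‖f p‖ < 1) :
    (Summable fun m : Nat.factoredNumbers s => ‖(dv m : ℂ) * f m‖) ∧
      HasSum (fun m : Nat.factoredNumbers s => (dv m : ℂ) * f m) (ZZ s f ^ 2) := by
  have h := (ZZ_hasSum hs hf hlt).2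
  set F : ℕ → ℂ := (Nat.factoredNumbers s).indicator f with hF
  have hF1 : ∀ n ∈ Nat.factoredNumbers s, F n = f n := fun n hn => Set.indicator_of_mem hn _
  have hF0 : ∀ n, n ∉ Nat.factoredNumbers s → F n = 0 := fun n hn =>
    Set.indicator_of_notMem hn _
  have h1 : HasSum F (ZZ s f) := (hasSum_subtype_iff_indicator).1 h
  have h00 : (0 : ℕ) ∉ Nat.factoredNumbers s := fun h0 =>
    Nat.ne_zero_of_mem_factoredNumbers h0 rfl
  have hterm : ∀ (G : ℕ → ℂ), G 0 = 0 → LSeries.term G 0 = G := by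
    intro G hG
    funext n
    by_cases hn : n = 0
    · subst hn; simp [hG]
    · rw [LSeries.term_of_ne_zero hn]; simp
  have h2 : LSeriesHasSum F 0 (ZZ s f) := by
    rw [LSeriesHasSum, hterm F (hF0 0 h00)]
    exact h1
  have h3 := h2.convolution h2
  set G : ℕ → ℂ := (Nat.factoredNumbers s).indicator fun n => (dv n : ℂ) * f n with hG
  have h4 : LSeries.convolution F F = G := by
    rw [LSeries.convolution_def]
    funext n
    by_cases hn : n ∈ Nat.factoredNumbers s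
    · rw [hG, Set.indicator_of_mem hn]
      have h5 : ∀ p ∈ n.divisorsAntidiagonal, F p.1 * F p.2 = f n := by
        intro p hp
        rw [Nat.mem_divisorsAntidiagonal] at hp
        have d1 : p.1 ∈ Nat.factoredNumbers s :=
          Nat.mem_factoredNumbers_of_dvd hn ⟨p.2, hp.1.symm⟩
        have d2 : p.2 ∈ Nat.factoredNumbers s :=
          Nat.mem_factoredNumbers_of_dvd hn ⟨p.1, by rw [mul_comm]; exact hp.1.symm⟩
        rw [hF1 _ d1, hF1 _ d2, ← hf.2 _ _ (Nat.ne_zero_of_mem_factoredNumbers d1)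
          (Nat.ne_zero_of_mem_factoredNumbers d2), hp.1]
      rw [Finset.sum_congr rfl h5]
      have h6 := Nat.sum_divisorsAntidiagonal (fun _ _ : ℕ => f n) (n := n)
      rw [h6, Finset.sum_const, nsmul_eq_mul, dv]
      push_cast
      rfl
    · rw [hG, Set.indicator_of_notMem hn]
      refine Finset.sum_eq_zero fun p hp => ?_
      rw [Nat.mem_divisorsAntidiagonal] at hp
      by_contra hne
      apply hn
      rw [← hp.1]
      refine Nat.mul_mem_factoredNumbers ?_ ?_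
      · by_contra h7
        exact hne (by rw [hF0 _ h7, zero_mul])
      · by_contra h7
        exact hne (by rw [hF0 _ h7, mul_zero])
  have hG0 : G 0 = 0 := Set.indicator_of_notMem h00 _
  rw [h4, LSeriesHasSum, hterm G hG0] at h3
  have h5 : HasSum (fun m : Nat.factoredNumbers s => (dv m : ℂ) * f m) (ZZ s f * ZZ s f) :=
    (hasSum_subtype_iff_indicator).2 h3
  refine ⟨h5.summable.norm, ?_⟩
  rw [sq]
  exact h5

variable {m : ℕ} {Sb : Fin m → Finset ℕ}

/-- The smoothed sum is an average of squares of Euler products. -/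
lemma SD_eq {δ : ℝ} (hδ : 0 < δ) {g : ℝ → ℂ} (hg : GD δ g) (hB : Blk Sb) {T : ℝ} (hT : 1 < T)
    (hU : ∀ n : ℕ, 1 ≤ n → (n : ℝ) ≤ T → n ∈ Nat.factoredNumbers (UU Sb)) {w : ℂ} (hw : 0 < w.re)
    (ω : (j : Fin m) → Sb j → ℝ) :
    SD δ T (tw w (XX Sb ω)) =
      ∫ ξ : ℝ, g ξ * ZZ (UU Sb) (tw (w + zz ξ / Real.log T) (XX Sb ω)) ^ 2 := by
  have hT0 : 0 < T := by linarith
  have hL : 0 < Real.log T := Real.log_pos hT
  set f := XX Sb ω with hf
  set L := Real.log T with hLd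
  have hσ : 0 < w.re + 1 / L := by positivity
  have hlt : ∀ ξ : ℝ, ∀ p : ℕ, p.Prime → ‖tw (w + zz ξ / L) f p‖ < 1 := fun ξ p hp =>
    norm_tw_XX_lt (by rw [sh_re]; exact hσ) ω hp
  have hsum : Summable fun n : Nat.factoredNumbers (UU Sb) =>
      dv (n : ℕ) * ((n : ℕ) : ℝ) ^ (-(w.re + 1 / L)) := by
    have h := (ZZ_sq_hasSum (s := UU Sb) (fun p hp => prime_of_mem_UU hB hp)
      (cmul_tw (cmul_XX Sb ω) (w + zz 0 / L)) (hlt 0)).1
    refine h.congr fun n => ?_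
    rw [norm_mul, norm_tw_XX (w + zz 0 / L) ω (Nat.ne_zero_of_mem_factoredNumbers n.2), sh_re,
      norm_real, Real.norm_eq_abs, abs_of_nonneg (dv_nonneg _)]
  have hnorm : ∀ (n : Nat.factoredNumbers (UU Sb)) (ξ : ℝ),
      ‖g ξ * ((dv (n : ℕ) : ℂ) * tw (w + zz ξ / L) f n)‖ =
      ‖g ξ‖ * (dv (n : ℕ) * ((n : ℕ) : ℝ) ^ (-(w.re + 1 / L))) := by
    intro n ξ
    rw [norm_mul, norm_mul, norm_tw_XX _ ω (Nat.ne_zero_of_mem_factoredNumbers n.2), sh_re,
      norm_real, Real.norm_eq_abs, abs_of_nonneg (dv_nonneg _)]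
  have hre : ∀ (n : ℕ) (ξ : ℝ), g ξ * ((dv n : ℂ) * tw (w + zz ξ / L) f n) =
      g ξ * ((n : ℂ) ^ (-(w + zz ξ / L)) * ((dv n : ℂ) * f n)) := by
    intro n ξ
    rw [tw]; ring
  have hint : ∀ n : Nat.factoredNumbers (UU Sb),
      Integrable (fun ξ : ℝ => g ξ * ((dv (n : ℕ) : ℂ) * tw (w + zz ξ / L) f n)) := by
    intro n
    simp only [hre]
    exact one_freq_int hg w _ (Nat.ne_zero_of_mem_factoredNumbers n.2)
  have key := hasSum_integral_of_summable_integral_norm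
    (F := fun (n : Nat.factoredNumbers (UU Sb)) (ξ : ℝ) =>
      g ξ * ((dv (n : ℕ) : ℂ) * tw (w + zz ξ / L) f n))
    (μ := volume) hint ?_
  · have h1 : ∀ n : Nat.factoredNumbers (UU Sb),
        ∫ ξ : ℝ, g ξ * ((dv (n : ℕ) : ℂ) * tw (w + zz ξ / L) f n) =
        ((dv (n : ℕ) * Pd δ (Real.log n / L) : ℝ) : ℂ) * tw w f n := by
      intro n
      simp only [hre]
      rw [one_freq hg w _ (Nat.ne_zero_of_mem_factoredNumbers n.2), tw]
      push_cast
      ring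
    simp only [h1] at key
    have h2 : ∀ ξ : ℝ, ∑' n : Nat.factoredNumbers (UU Sb),
        g ξ * ((dv (n : ℕ) : ℂ) * tw (w + zz ξ / L) f n) =
        g ξ * ZZ (UU Sb) (tw (w + zz ξ / L) f) ^ 2 := by
      intro ξ
      have h := (ZZ_sq_hasSum (s := UU Sb) (fun p hp => prime_of_mem_UU hB hp)
        (cmul_tw (cmul_XX Sb ω) (w + zz ξ / L)) (hlt ξ)).2
      exact (h.mul_left (g ξ)).tsum_eq
    simp only [h2] at key
    rw [← key.tsum_eq]
    have e3 : ∑' n : Nat.factoredNumbers (UU Sb),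
        ((dv (n : ℕ) * Pd δ (Real.log (n : ℕ) / L) : ℝ) : ℂ) *
        tw w f (n : ℕ) = ∑' n : ℕ, (Nat.factoredNumbers (UU Sb)).indicator
        (fun n : ℕ => ((dv n * Pd δ (Real.log n / L) : ℝ) : ℂ) * tw w f n) n :=
      tsum_subtype (Nat.factoredNumbers (UU Sb))
        (fun n : ℕ => ((dv n * Pd δ (Real.log n / L) : ℝ) : ℂ) * tw w f n)
    rw [e3, tsum_eq_sum (s := Finset.Icc 1 ⌊T⌋₊), SD]
    · refine Finset.sum_congr rfl fun n hn => ?_
      rw [Finset.mem_Icc] at hn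
      have hnT : (n : ℝ) ≤ T := (Nat.le_floor_iff hT0.le).mp hn.2
      rw [Set.indicator_of_mem (hU n hn.1 hnT)]
    · intro n hn
      by_cases hmem : n ∈ Nat.factoredNumbers (UU Sb)
      · rw [Set.indicator_of_mem hmem]
        have hn0 : n ≠ 0 := Nat.ne_zero_of_mem_factoredNumbers hmem
        rw [Finset.mem_Icc, not_and] at hn
        have h3 : ⌊T⌋₊ < n := by
          have := hn (Nat.one_le_iff_ne_zero.mpr hn0)
          omega
        have h4 : T < n := (Nat.floor_lt hT0.le).mp h3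
        have h5 : Pd δ (Real.log n / L) = 0 := by
          apply Pd_zero hδ
          rw [le_div_iff₀ hL]
          have h6 := Real.log_le_log hT0 h4.le
          rw [← hLd] at h6
          nlinarith
        rw [h5]; simp
      · rw [Set.indicator_of_notMem hmem]
  · simp only [hnorm, integral_mul_const]
    exact hsum.mul_left _

/-- The representation under the expectation. -/
lemma ER_SD {δ : ℝ} (hδ : 0 < δ) {g : ℝ → ℂ} (hg : GD δ g) (hB : Blk Sb) {T : ℝ} (hT : 1 < T)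
    (hU : ∀ n : ℕ, 1 ≤ n → (n : ℝ) ≤ T → n ∈ Nat.factoredNumbers (UU Sb)) {w : ℂ} (hw : 0 < w.re)
    {B : (ℕ → ℂ) → ℂ} (hBC : BC Sb B) :
    Integrable (fun ξ : ℝ => g ξ *
      ER Sb (fun f => ZZ (UU Sb) (tw (w + zz ξ / Real.log T) f) ^ 2 * B f)) ∧
    ER Sb (fun f => SD δ T (tw w f) * B f) = ∫ ξ : ℝ, g ξ *
      ER Sb (fun f => ZZ (UU Sb) (tw (w + zz ξ / Real.log T) f) ^ 2 * B f) := by
  have hT0 : 0 < T := by linarith
  have hL : 0 < Real.log T := Real.log_pos hT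
  set L := Real.log T with hLd
  have hσ : 0 < w.re + 1 / L := by positivity
  obtain ⟨hBc, CB, hCB⟩ := hBC
  set Cz : ℝ := ∏ p ∈ UU Sb, (1 - (p : ℝ) ^ (-(w.re + 1 / L)))⁻¹ with hCz
  have hZ := fun ξ ω => norm_ZZ_le (m := m) (Sb := Sb) hB (L := L) (w := w) hσ ξ ω
  have hZc := continuous_ZZ (m := m) (Sb := Sb) hB (L := L) (w := w) hσ
  have hH : Integrable (fun x : ℝ × ((j : Fin m) → Sb j → ℝ) => g x.1 *
      (ZZ (UU Sb) (tw (w + zz x.1 / L) (XX Sb x.2)) ^ 2 * B (XX Sb x.2)))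
      (volume.prod (PP0 Sb)) := by
    have h1 : Integrable (fun x : ℝ × ((j : Fin m) → Sb j → ℝ) => ‖g x.1‖ * (Cz ^ 2 * CB))
        (volume.prod (PP0 Sb)) :=
      (hg.integrable.norm.mul_const _).comp_fst (PP0 Sb)
    refine h1.mono' ?_ ?_
    · refine Continuous.aestronglyMeasurable ?_
      exact (hg.cont.comp continuous_fst).mul ((hZc.pow 2).mul (hBc.comp continuous_snd))
    · refine Filter.Eventually.of_forall fun x => ?_
      rw [norm_mul, norm_mul, norm_pow]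
      have h2 := hZ x.1 x.2
      have h3 := hCB x.2
      have h4 : 0 ≤ Cz := (norm_nonneg _).trans h2
      gcongr
  refine ⟨?_, ?_⟩
  · refine hH.integral_prod_left.congr (Filter.Eventually.of_forall fun ξ => ?_)
    simp only
    rw [ER_eq, ← integral_const_mul]
  · have e1 : ∫ ξ : ℝ, g ξ * ER Sb (fun f => ZZ (UU Sb) (tw (w + zz ξ / L) f) ^ 2 * B f) =
        ∫ ω, ∫ ξ : ℝ, g ξ * (ZZ (UU Sb) (tw (w + zz ξ / L) (XX Sb ω)) ^ 2 *
          B (XX Sb ω)) ∂volume ∂(PP0 Sb) := by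
      rw [← integral_integral_swap hH]
      congr 1
      funext ξ
      rw [ER_eq, ← integral_const_mul]
    rw [e1, ER_eq]
    congr 1
    funext ω
    rw [SD_eq hδ hg hB hT hU hw ω, ← integral_mul_const]
    congr 1
    funext ξ
    ring

end RD

open RD in
theorem stRepD : StRepD := by
  intro δ hδ _
  obtain ⟨g, hg⟩ := RD.exists_g hδ
  refine ⟨g, hg.cont, hg.int, fun T hT M J w hw => ⟨fun ω => ?_, fun B hB => ?_⟩⟩
  · have h := SD_eq hδ hg (blk_SB hT M J) hT (fun n h1 h2 => mem_factored hT M J h1 h2) hw ω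
    rw [UU_SB hT] at h
    exact h
  · have h := ER_SD hδ hg (blk_SB hT M J) hT (fun n h1 h2 => mem_factored hT M J h1 h2) hw hB
    rw [UU_SB hT] at h
    exact h

end K3
end Pool.Agent.Lib.MP_973905_nt
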